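import Pool.Agent.MP_c1eb4d_ag.UI
import Pool.Agent.MP_a9d3bd_ag.BC

open Function TensorProduct Matrix

namespace Pool.Agent.MP_c1eb4d_ag

open Pool.Agent.MP_a9d3bd_ag

variable {q : ℕ}

theorem isCA_exists (q : ℕ) (B : Type) [CommRing B] :
    ∃ (A : Type) (_ : CommRing A) (_ : Algebra B A) (x c : A), IsCA q B x c := by
  let I : Ideal (MvPolynomial (Fin 2) B) := Ideal.span
    {MvPolynomial.X 1 ^ q + MvPolynomial.X 1 - MvPolynomial.X 0 ^ (q + 1)}
  refine ⟨MvPolynomial (Fin 2) B ⧸ I, inferInstance, inferInstance,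
    Ideal.Quotient.mk I (MvPolynomial.X 0), Ideal.Quotient.mk I (MvPolynomial.X 1), ?_, ?_, ?_⟩
  · rw [← map_pow, ← map_pow, ← map_add, Ideal.Quotient.eq]
    exact Ideal.subset_span rfl
  · intro R _ _ x₀ c₀ h₀
    have h1 : I ≤ RingHom.ker (MvPolynomial.aeval (R := B) ![x₀, c₀]) := by
      refine Ideal.span_le.2 (Set.singleton_subset_iff.2 ?_)
      simp [RingHom.mem_ker, h₀]
    refine ⟨Ideal.Quotient.liftₐ I (MvPolynomial.aeval ![x₀, c₀]) fun p hp => h1 hp, ?_, ?_⟩
    · simp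
    · simp
  · intro R _ _ f g h0 h1
    refine Ideal.Quotient.algHom_ext B (MvPolynomial.algHom_ext fun i => ?_)
    fin_cases i
    · exact h0
    · exact h1

variable {B A : Type} [CommRing B] [CommRing A] [Algebra B A] {x c : A}

theorem IsCA.adjoin (h : IsCA q B x c) : Algebra.adjoin B {x, c} = ⊤ := by
  have hx : x ∈ Algebra.adjoin B {x, c} := Algebra.subset_adjoin (by simp)
  have hc : c ∈ Algebra.adjoin B {x, c} := Algebra.subset_adjoin (by simp)
  obtain ⟨f, h1, h2⟩ := h.lift (Algebra.adjoin B {x, c}) ⟨x, hx⟩ ⟨c, hc⟩ (Subtype.ext h.eqn)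
  have h3 := h.ext A ((Algebra.adjoin B {x, c}).val.comp f) (AlgHom.id B A)
    (by simp [h1]) (by simp [h2])
  refine top_unique fun a _ => ?_
  have h4 : ((f a : Algebra.adjoin B {x, c}) : A) = a := AlgHom.congr_fun h3 a
  exact h4 ▸ (f a).2

theorem IsCA.ft (h : IsCA q B x c) : Algebra.FiniteType B A := by
  classical
  exact ⟨⟨{x, c}, by rw [Finset.coe_pair]; exact h.adjoin⟩⟩

theorem IsCA.bc (h : IsCA q B x c) (B' A' : Type) [CommRing B'] [CommRing A'] [Algebra B B']
    [Algebra B A'] [Algebra B' A'] [Algebra A A'] [IsScalarTower B B' A'] [IsScalarTower B A A']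
    [Algebra.IsPushout B B' A A'] : IsCA q B' (algebraMap A A' x) (algebraMap A A' c) := by
  refine ⟨by rw [← map_pow, ← map_add, h.eqn, map_pow], ?_, ?_⟩
  · intro R _ _ x₀ c₀ h₀
    let _ : Algebra B R := ((algebraMap B' R).comp (algebraMap B B')).toAlgebra
    have : IsScalarTower B B' R := IsScalarTower.of_algebraMap_eq fun _ => rfl
    obtain ⟨f, h1, h2⟩ := h.lift R x₀ c₀ h₀
    obtain ⟨g, g1, g2⟩ : ∃ g : A' →ₐ[B] R, (∀ r, g (algebraMap B' A' r) = algebraMap B' R r) ∧
        ∀ a, g (algebraMap A A' a) = f a :=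
      ⟨Algebra.pushoutDesc A' (IsScalarTower.toAlgHom B B' R) f fun _ _ => mul_comm _ _,
        Algebra.pushoutDesc_left A' _ _ _, Algebra.pushoutDesc_right A' _ _ _⟩
    exact ⟨{ g.toRingHom with commutes' := g1 }, (g2 x).trans h1, (g2 c).trans h2⟩
  · intro R _ _ f g h0 h1
    let _ : Algebra B R := ((algebraMap B' R).comp (algebraMap B B')).toAlgebra
    have : IsScalarTower B B' R := IsScalarTower.of_algebraMap_eq fun _ => rfl
    have h2 : f.restrictScalars B = g.restrictScalars B := by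
      refine Algebra.IsPushout.algHom_ext (R := B) (S := B') (R' := A) A' ?_ ?_
      · exact h.ext R _ _ h0 h1
      · ext b
        simp
    exact AlgHom.ext fun a => AlgHom.congr_fun h2 a

theorem IsCA.pushout (h : IsCA q B x c) {B' A' : Type} [CommRing B'] [CommRing A'] [Algebra B B']
    [Algebra B A'] [Algebra B' A'] [Algebra A A'] [IsScalarTower B B' A'] [IsScalarTower B A A']
    (h' : IsCA q B' (algebraMap A A' x) (algebraMap A A' c)) : Algebra.IsPushout B B' A A' := by
  let _ : Algebra A (B' ⊗[B] A) := Algebra.TensorProduct.rightAlgebra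
  have hT : IsScalarTower B A (B' ⊗[B] A) := Algebra.TensorProduct.right_isScalarTower
  have hP : Algebra.IsPushout B B' A (B' ⊗[B] A) := TensorProduct.isPushout
  have h1 := h.bc B' (B' ⊗[B] A)
  obtain ⟨f, f1, f2⟩ := h1.lift A' _ _ h'.eqn
  obtain ⟨g, g1, g2⟩ := h'.lift (B' ⊗[B] A) _ _ h1.eqn
  let e : (B' ⊗[B] A) ≃ₐ[B'] A' := AlgEquiv.ofAlgHom f g
    (h'.ext _ _ _ (by rw [AlgHom.comp_apply, g1, f1]; rfl)
      (by rw [AlgHom.comp_apply, g2, f2]; rfl))
    (h1.ext _ _ _ (by rw [AlgHom.comp_apply, f1, g1]; rfl)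
      (by rw [AlgHom.comp_apply, f2, g2]; rfl))
  refine Algebra.IsPushout.of_equiv e ?_
  have h2 := h.ext A' ((f.restrictScalars B).comp (IsScalarTower.toAlgHom B A (B' ⊗[B] A)))
    (IsScalarTower.toAlgHom B A A') f1 f2
  exact RingHom.ext fun a => AlgHom.congr_fun h2 a

/-- evaluation at a point -/
theorem IsCA.ev (h : IsCA q B x c) {x₀ c₀ : B} (h₀ : c₀ ^ q + c₀ = x₀ ^ (q + 1)) :
    ∃ f : A →ₐ[B] B, f x = x₀ ∧ f c = c₀ ∧ RingHom.ker f = ptI x c x₀ c₀ := by
  obtain ⟨f, h1, h2⟩ := h.lift B x₀ c₀ h₀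
  refine ⟨f, h1, h2, le_antisymm (fun a ha => ?_) ?_⟩
  · have h3 := h.ext (A ⧸ ptI x c x₀ c₀) (Ideal.Quotient.mkₐ B _)
      ((Algebra.ofId B (A ⧸ ptI x c x₀ c₀)).comp f)
      (by
        rw [AlgHom.comp_apply, h1]
        exact Ideal.Quotient.eq.2 (Ideal.subset_span (Or.inl rfl)))
      (by
        rw [AlgHom.comp_apply, h2]
        exact Ideal.Quotient.eq.2 (Ideal.subset_span (Or.inr rfl)))
    have h4 := AlgHom.congr_fun h3 a
    rw [AlgHom.comp_apply, RingHom.mem_ker.1 ha, map_zero] at h4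
    exact Ideal.Quotient.eq_zero_iff_mem.1 h4
  · refine Ideal.span_le.2 ?_
    rintro a (rfl | rfl)
    · simp [RingHom.mem_ker, h1]
    · simp [RingHom.mem_ker, h2]

theorem IsCA.int (h : IsCA q B x c) (hq : 2 ≤ q) :
    (Polynomial.aeval x : Polynomial B →ₐ[B] A).toRingHom.IsIntegral := by
  let _ : Algebra (Polynomial B) A :=
    (Polynomial.aeval x : Polynomial B →ₐ[B] A).toRingHom.toAlgebra
  have : IsScalarTower B (Polynomial B) A := IsScalarTower.of_algebraMap_eq fun b =>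
    ((Polynomial.aeval x : Polynomial B →ₐ[B] A).commutes b).symm
  have hX : algebraMap (Polynomial B) A Polynomial.X = x := Polynomial.aeval_X x
  have hx : IsIntegral (Polynomial B) x := hX ▸ isIntegral_algebraMap
  have hc : IsIntegral (Polynomial B) c := by
    refine ⟨Polynomial.X ^ q + (Polynomial.X - Polynomial.C (Polynomial.X ^ (q + 1))), ?_, ?_⟩
    · refine Polynomial.monic_X_pow_add ?_
      refine (Polynomial.degree_X_sub_C_le _).trans_lt ?_
      exact_mod_cast hq
    · rw [Polynomial.eval₂_add, Polynomial.eval₂_sub, Polynomial.eval₂_X_pow, Polynomial.eval₂_X,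
        Polynomial.eval₂_C, map_pow, hX, ← h.eqn]
      ring
  have h1 : Algebra.adjoin B {x, c} ≤ (integralClosure (Polynomial B) A).restrictScalars B := by
    refine Algebra.adjoin_le ?_
    rintro a (rfl | rfl)
    · exact hx
    · exact hc
  intro a
  exact h1 (h.adjoin ▸ Algebra.mem_top : a ∈ Algebra.adjoin B {x, c})

theorem IsCA.dm_le (h : IsCA q B x c) (hq : 2 ≤ q) (L : Type) [Field L] [Algebra L B]
    [Algebra L A] [IsScalarTower L B A] [Algebra.FiniteType L B] (Q : PrimeSpectrum A) :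
    dm L Q ≤ dm L (PrimeSpectrum.comap (algebraMap B A) Q) + 1 := by
  have h1 := dm_comap_int (L := L) (Polynomial.aeval x : Polynomial B →ₐ[B] A).toRingHom
    (fun c => by
      rw [IsScalarTower.algebraMap_apply L B (Polynomial B), IsScalarTower.algebraMap_apply L B A]
      exact (Polynomial.aeval x : Polynomial B →ₐ[B] A).commutes _) (h.int hq) Q
  have h2 := dm_poly_le (L := L)
    (PrimeSpectrum.comap (Polynomial.aeval x : Polynomial B →ₐ[B] A).toRingHom Q)
  have h3 : PrimeSpectrum.comap (algebraMap B (Polynomial B))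
      (PrimeSpectrum.comap (Polynomial.aeval x : Polynomial B →ₐ[B] A).toRingHom Q) =
      PrimeSpectrum.comap (algebraMap B A) Q := by
    ext b
    simp [PrimeSpectrum.comap_asIdeal]
  rw [h1, ← h3]
  exact h2

theorem ptI_tower {L : Type} [CommRing L] [Algebra L B] [Algebra L A] [IsScalarTower L B A]
    (x c : A) (x₀ c₀ : L) :
    ptI x c (algebraMap L B x₀) (algebraMap L B c₀) = ptI x c x₀ c₀ := by
  rw [ptI, ptI, ← IsScalarTower.algebraMap_apply, ← IsScalarTower.algebraMap_apply]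

theorem ptI_map {L A' : Type} [CommRing L] [Algebra L A] [CommRing A'] [Algebra L A']
    (f : A →+* A') (hf : ∀ a : L, f (algebraMap L A a) = algebraMap L A' a) (x c : A) (x₀ c₀ : L) :
    (ptI x c x₀ c₀).map f = ptI (f x) (f c) x₀ c₀ := by
  rw [ptI, ptI, Ideal.map_span, Set.image_pair, map_sub, map_sub, hf, hf]

end Pool.Agent.MP_c1eb4d_ag
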