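import Pool.Agent.MP_c1eb4d_ag.CA0

open Function TensorProduct Matrix

namespace Pool.Agent.MP_c1eb4d_ag

open Pool.Agent.MP_a9d3bd_ag

variable {q : ℕ} {L O : Type} [Field L] [CommRing O] [Algebra L O] {x c : O}

open Polynomial in
theorem CA1_prime (L : Type) [Field L] (hq : 2 ≤ q) :
    Prime (X ^ (q + 1) - C (X ^ q + X) : L[X][X]) := by
  have hm : (X ^ (q + 1) - C (X ^ q + X) : L[X][X]).Monic := monic_X_pow_sub_C _ (by omega)
  have hd : (X ^ (q + 1) - C (X ^ q + X) : L[X][X]).degree = (q + 1 : ℕ) :=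
    degree_X_pow_sub_C (by omega) _
  have hP : (Ideal.span {X} : Ideal L[X]).IsPrime :=
    (Ideal.span_singleton_prime X_ne_zero).2 prime_X
  refine (irreducible_of_eisenstein_criterion hP ?_ (fun n hn => ?_) ?_ ?_ hm.isPrimitive).prime
  · rw [hm.leadingCoeff]
    exact fun h => hP.ne_top ((Ideal.eq_top_iff_one _).2 h)
  · rw [hd, Nat.cast_lt] at hn
    rw [coeff_sub, coeff_X_pow, if_neg hn.ne, coeff_C, zero_sub, Ideal.neg_mem_iff]
    split_ifs
    · exact Ideal.mem_span_singleton.2 (dvd_add (dvd_pow_self _ (by omega)) dvd_rfl)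
    · exact zero_mem _
  · rw [hd]
    exact_mod_cast Nat.succ_pos q
  · rw [coeff_sub, coeff_X_pow, if_neg (by omega), coeff_C_zero, zero_sub, Ideal.neg_mem_iff,
      Ideal.span_singleton_pow, Ideal.mem_span_singleton, X_pow_dvd_iff]
    intro h
    have h1 := h 1 one_lt_two
    rw [coeff_add, coeff_X_pow, if_neg (by omega), coeff_X_one, zero_add] at h1
    exact one_ne_zero h1

theorem CA1_mem [IsAlgClosed L] {D : Type} [CommRing D] [IsDomain D] [Algebra L D] {z : D}
    (hz : IsAlgebraic L z) : ∃ a : L, algebraMap L D a = z :=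
  minpoly.mem_range_of_degree_eq_one L z
    (IsAlgClosed.degree_eq_one_of_irreducible L (minpoly.irreducible hz.isIntegral))

open Polynomial in
theorem IsCA.isDomain (h : IsCA q L x c) (hq : 2 ≤ q) : IsDomain O := by
  have := AdjoinRoot.isDomain_of_prime (CA1_prime L hq)
  have h0 := AdjoinRoot.eval₂_root (X ^ (q + 1) - C (X ^ q + X) : L[X][X])
  rw [eval₂_sub, eval₂_X_pow, eval₂_C, map_add (AdjoinRoot.of _), map_pow (AdjoinRoot.of _),
    sub_eq_zero] at h0
  obtain ⟨f, f1, f2⟩ := h.lift (AdjoinRoot (X ^ (q + 1) - C (X ^ q + X) : L[X][X])) _ _ h0.symm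
  let g : AdjoinRoot (X ^ (q + 1) - C (X ^ q + X) : L[X][X]) →ₐ[L] O :=
    AdjoinRoot.liftAlgHom _ (aeval c) x (by
      rw [eval₂_sub, eval₂_X_pow, eval₂_C, map_add, map_pow, sub_eq_zero, ← h.eqn]
      simp)
  have e := h.ext O (g.comp f) (AlgHom.id L O)
    (by rw [AlgHom.comp_apply, f1, AdjoinRoot.liftAlgHom_root]; rfl)
    (by rw [AlgHom.comp_apply, f2, AdjoinRoot.liftAlgHom_of, aeval_X]; rfl)
  have hi : Injective f := LeftInverse.injective (g := g) fun a => DFunLike.congr_fun e a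
  exact hi.isDomain f

open Polynomial in
theorem CA1_deg {K : Type} [Field K] (hq : 2 ≤ q) (a : K) :
    (X ^ q + X - C a : K[X]).degree = q := by
  have : (1 : WithBot ℕ) < q := by exact_mod_cast hq
  rw [degree_sub_C, degree_add_eq_left_of_degree_lt, degree_X_pow]
  · rwa [degree_X, degree_X_pow]
  · rw [degree_add_eq_left_of_degree_lt, degree_X_pow]
    · exact zero_lt_one.trans this
    · rwa [degree_X, degree_X_pow]

open Polynomial in
theorem IsCA.transc (h : IsCA q L x c) (hq : 2 ≤ q) : Transcendental L x := by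
  let K := AlgebraicClosure (RatFunc L)
  obtain ⟨c₀, hc⟩ := IsAlgClosed.exists_root
    (X ^ q + X - C (algebraMap (RatFunc L) K RatFunc.X ^ (q + 1)) : K[X])
    (by rw [CA1_deg hq]; exact_mod_cast (by omega : q ≠ 0))
  rw [IsRoot, eval_sub, eval_add, eval_pow, eval_X, eval_C, sub_eq_zero] at hc
  obtain ⟨f, f1, -⟩ := h.lift K _ _ hc
  have ht : Transcendental L (f x) := by
    rw [f1]
    exact (transcendental_algebraMap_iff (algebraMap (RatFunc L) K).injective).2
      RatFunc.transcendental_X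
  exact fun ha => ht (ha.algHom f)

open Polynomial in
theorem CA1_comap (h : IsCA q L x c) (hq : 2 ≤ q) {Q : Ideal O} (hQ : Q ≠ ⊥) :
    ∃ p : L[X], p ≠ 0 ∧ aeval x p ∈ Q := by
  have := h.isDomain hq
  let _ : Algebra L[X] O := (aeval x : L[X] →ₐ[L] O).toRingHom.toAlgebra
  have : Algebra.IsIntegral L[X] O := ⟨h.int hq⟩
  obtain ⟨p, h1, h2⟩ := (Submodule.ne_bot_iff _).1
    fun h0 => hQ (Ideal.eq_bot_of_comap_eq_bot (R := L[X]) h0)
  exact ⟨p, h2, h1⟩

theorem IsCA.inj (h : IsCA q L x c) (hq : 2 ≤ q) {Ω : Type} [Field Ω] [Algebra L Ω]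
    (f : O →ₐ[L] Ω) (hf : Transcendental L (f x)) : Injective f := by
  rw [injective_iff_map_eq_zero]
  intro a ha
  by_contra h0
  obtain ⟨p, h1, h2⟩ := CA1_comap h hq (Q := RingHom.ker f)
    ((Submodule.ne_bot_iff _).2 ⟨a, ha, h0⟩)
  exact hf ⟨p, h1, by rw [Polynomial.aeval_algHom_apply]; exact h2⟩

theorem IsCA.trdeg (h : IsCA q L x c) (hq : 2 ≤ q) : Algebra.trdeg L O = 1 := by
  have := h.isDomain hq
  let _ : Algebra (Polynomial L) O :=
    (Polynomial.aeval x : Polynomial L →ₐ[L] O).toRingHom.toAlgebra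
  have : Algebra.IsIntegral (Polynomial L) O := ⟨h.int hq⟩
  have : IsScalarTower L (Polynomial L) O := IsScalarTower.of_algebraMap_eq fun a =>
    ((Polynomial.aeval x : Polynomial L →ₐ[L] O).commutes a).symm
  have : FaithfulSMul (Polynomial L) O := (faithfulSMul_iff_algebraMap_injective _ _).2
    (transcendental_iff_injective.1 (h.transc hq))
  rw [← trdeg_add_eq L (Polynomial L) (A := O), Polynomial.trdeg_of_isDomain, trdeg_eq_zero,
    add_zero]

theorem IsCA.prime [IsAlgClosed L] (h : IsCA q L x c) (hq : 2 ≤ q) (Q : Ideal O) [Q.IsPrime]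
    (hQ : Q ≠ ⊥) : ∃ x₀ c₀ : L, c₀ ^ q + c₀ = x₀ ^ (q + 1) ∧ ptI x c x₀ c₀ ≤ Q := by
  obtain ⟨p, h1, h2⟩ := CA1_comap h hq hQ
  let π := Ideal.Quotient.mkₐ L Q
  obtain ⟨x₀, hx⟩ := CA1_mem (L := L) (z := π x) ⟨p, h1, by
    rw [Polynomial.aeval_algHom_apply]; exact Ideal.Quotient.eq_zero_iff_mem.2 h2⟩
  have e : π c ^ q + π c = algebraMap L (O ⧸ Q) (x₀ ^ (q + 1)) := by
    rw [← map_pow, ← map_add, h.eqn, map_pow, map_pow, hx]
  obtain ⟨c₀, hc⟩ := CA1_mem (L := L) (z := π c)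
    ⟨Polynomial.X ^ q + Polynomial.X - Polynomial.C (x₀ ^ (q + 1)), fun h0 => by
      have := CA1_deg hq (x₀ ^ (q + 1))
      rw [h0, Polynomial.degree_zero] at this
      exact WithBot.bot_ne_coe this, by
      rw [map_sub, map_add, map_pow, Polynomial.aeval_X, Polynomial.aeval_C, e, sub_self]⟩
  refine ⟨x₀, c₀, (algebraMap L (O ⧸ Q)).injective ?_, Ideal.span_le.2 ?_⟩
  · rw [← e, map_add, map_pow, hc]
  · rintro _ (rfl | rfl)
    · exact Ideal.Quotient.eq.1 hx.symm
    · exact Ideal.Quotient.eq.1 hc.symm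

end Pool.Agent.MP_c1eb4d_ag
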