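import Pool.Agent.MP_c1eb4d_ag.UI
import Pool.Agent.MP_a9d3bd_ag.Frob
import Pool.Agent.MP_a9d3bd_ag.Lang

open Function TensorProduct Matrix

namespace Pool.Agent.MP_c1eb4d_ag

open Pool.Agent.MP_a9d3bd_ag

variable {F : Type} [Field F] [Fintype F] {q : ℕ}

theorem ff_char (hq : Fintype.card F = q ^ 2) :
    ∃ p e : ℕ, p.Prime ∧ CharP F p ∧ 0 < e ∧ q = p ^ e := by
  obtain ⟨p, hc, n, hp, hn⟩ := FiniteField.card' F
  have h1 : q ∣ p ^ (n : ℕ) := by
    rw [← hn, hq]
    exact dvd_pow_self q two_ne_zero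
  obtain ⟨e, -, he⟩ := (Nat.dvd_prime_pow hp).1 h1
  refine ⟨p, e, hp, hc, Nat.pos_of_ne_zero ?_, he⟩
  rintro rfl
  have h2 := Fintype.one_lt_card (α := F)
  rw [hq, he] at h2
  simp at h2

theorem ff_two_le (hq : Fintype.card F = q ^ 2) : 2 ≤ q := by
  have h2 := Fintype.one_lt_card (α := F)
  rw [hq] at h2
  by_contra h
  have : q ≤ 1 := by omega
  nlinarith

theorem ff_pow_card (hq : Fintype.card F = q ^ 2) {R : Type} [Monoid R] (x : R) :
    x ^ Fintype.card F = (x ^ q) ^ q := by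
  rw [hq, sq, pow_mul]

theorem ff_qq (hq : Fintype.card F = q ^ 2) (c : F) : (c ^ q) ^ q = c := by
  rw [← ff_pow_card hq, FiniteField.pow_card]

theorem UFF_frob (hq : Fintype.card F = q ^ 2) {R : Type} [CommRing R] (f : F →+* R) :
    ∃ φ : R →+* R, ∀ a, φ a = a ^ q := by
  rcases subsingleton_or_nontrivial R with h | h
  · exact ⟨RingHom.id R, fun _ => Subsingleton.elim _ _⟩
  · obtain ⟨p, e, hp, hc, -, rfl⟩ := ff_char hq
    have : CharP R p := charP_of_injective_ringHom f.injective p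
    have : ExpChar R p := ExpChar.prime hp
    exact ⟨iterateFrobenius R p e, fun a => iterateFrobenius_def p e a⟩

/-- the `q`-th power as a ring homomorphism of `F` -/
theorem ff_conj (hq : Fintype.card F = q ^ 2) : ∃ φ : F →+* F, ∀ a, φ a = a ^ q := by
  exact UFF_frob hq (RingHom.id F)

theorem ff_nonfix (hq : Fintype.card F = q ^ 2) : ∃ ω : F, ω ^ q ≠ ω := by
  by_contra h
  push Not at h
  have h2 := ff_two_le hq
  apply FiniteField.X_pow_card_sub_X_ne_zero F (p := q) h2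
  refine Polynomial.eq_zero_of_natDegree_lt_card_of_eval_eq_zero _ Function.injective_id
    (fun a => by simp [h a]) ?_
  rw [FiniteField.X_pow_card_sub_X_natDegree_eq F h2, hq]
  nlinarith

theorem UFF_anti (hq : Fintype.card F = q ^ 2) (ω : F) : (ω ^ q - ω) ^ q = -(ω ^ q - ω) := by
  obtain ⟨φ, hφ⟩ := ff_conj hq
  rw [← hφ (ω ^ q - ω), map_sub, hφ, hφ, ff_qq hq, neg_sub]

theorem ff_anti (hq : Fintype.card F = q ^ 2) : ∃ θ : F, θ ≠ 0 ∧ θ ^ q + θ = 0 := by
  obtain ⟨ω, hω⟩ := ff_nonfix hq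
  exact ⟨ω ^ q - ω, sub_ne_zero.2 hω, by rw [UFF_anti hq, neg_add_cancel]⟩

theorem ff_trace_one (hq : Fintype.card F = q ^ 2) : ∃ t : F, t ^ q + t = 1 := by
  obtain ⟨ω, hω⟩ := ff_nonfix hq
  have h0 : ω ^ q - ω ≠ 0 := sub_ne_zero.2 hω
  refine ⟨ω ^ q / (ω ^ q - ω), ?_⟩
  rw [div_pow, ff_qq hq, UFF_anti hq, div_neg, neg_add_eq_sub, ← sub_div, div_self h0]

theorem ff_trace (hq : Fintype.card F = q ^ 2) {a : F} (ha : a ^ q = a) :
    ∃ t : F, t ^ q + t = a := by
  obtain ⟨t, ht⟩ := ff_trace_one hq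
  refine ⟨a * t, ?_⟩
  rw [mul_pow, ha, ← mul_add, ht, mul_one]

theorem ff_h90 (hq : Fintype.card F = q ^ 2) {d : F} (hd : d ^ q + d = 0) :
    ∃ z : F, z - z ^ q = d := by
  obtain ⟨t, ht⟩ := ff_trace_one hq
  refine ⟨d * t, ?_⟩
  rw [mul_pow]
  linear_combination d * ht - t ^ q * hd

theorem ff_norm (hq : Fintype.card F = q ^ 2) {a : F} (ha : a ^ q = a) :
    ∃ s : F, s ^ (q + 1) = a := by
  by_cases h0 : a = 0
  · exact ⟨0, by rw [h0, zero_pow (Nat.succ_ne_zero q)]⟩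
  have h2 := ff_two_le hq
  obtain ⟨r, rfl⟩ : ∃ r, q = r + 1 := ⟨q - 1, by omega⟩
  obtain ⟨g, hg⟩ := IsCyclic.exists_monoid_generator (α := Fˣ)
  obtain ⟨m, hm⟩ := hg (Units.mk0 a h0)
  have hm' : g ^ m = Units.mk0 a h0 := hm
  have ho : orderOf g = (r + 1 + 1) * r := by
    rw [orderOf_eq_card_of_forall_mem_powers hg, Nat.card_units, Nat.card_eq_fintype_card, hq]
    exact Nat.sub_eq_of_eq_add (by ring)
  have h1 : g ^ (m * r) = 1 := by
    rw [pow_mul, hm']
    ext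
    rw [pow_succ] at ha
    exact mul_right_cancel₀ h0 (ha.trans (one_mul a).symm)
  obtain ⟨n, rfl⟩ : r + 1 + 1 ∣ m :=
    Nat.dvd_of_mul_dvd_mul_right (by omega) (ho ▸ orderOf_dvd_of_pow_eq_one h1)
  refine ⟨(g ^ n : Fˣ), ?_⟩
  rw [← Units.val_pow_eq_pow_val, ← pow_mul, mul_comm, hm', Units.val_mk0]

variable (k : Type) [Field k] [Algebra F k]

/-- the `q`-th power as a ring homomorphism of any `k`-algebra -/
theorem ff_frob (hq : Fintype.card F = q ^ 2) (R : Type) [CommRing R] [Algebra k R] :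
    ∃ φ : R →+* R, ∀ a, φ a = a ^ q := by
  exact UFF_frob hq (cF k R)

section

variable {R : Type} [CommRing R] [Algebra k R]

include k in
theorem ff_add (hq : Fintype.card F = q ^ 2) (x y : R) : (x + y) ^ q = x ^ q + y ^ q := by
  obtain ⟨φ, hφ⟩ := ff_frob k hq R
  rw [← hφ, ← hφ, ← hφ, map_add]

include k in
theorem ff_sub (hq : Fintype.card F = q ^ 2) (x y : R) : (x - y) ^ q = x ^ q - y ^ q := by
  obtain ⟨φ, hφ⟩ := ff_frob k hq R
  rw [← hφ, ← hφ, ← hφ, map_sub]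

include k in
theorem ff_neg (hq : Fintype.card F = q ^ 2) (x : R) : (-x) ^ q = -x ^ q := by
  obtain ⟨φ, hφ⟩ := ff_frob k hq R
  rw [← hφ, ← hφ, map_neg]

include k in
theorem ff_sum (hq : Fintype.card F = q ^ 2) {ι : Type} (s : Finset ι) (x : ι → R) :
    (∑ i ∈ s, x i) ^ q = ∑ i ∈ s, x i ^ q := by
  obtain ⟨φ, hφ⟩ := ff_frob k hq R
  simp only [← hφ, map_sum]

omit [Fintype F] in
theorem ff_cF (c : F) (m : ℕ) : cF k R c ^ m = cF k R (c ^ m) := by
  rw [map_pow]

end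

variable {Ω : Type} [Field Ω] [Algebra k Ω]

include k in
theorem ff_inj (hq : Fintype.card F = q ^ 2) {x y : Ω} (h : x ^ q = y ^ q) : x = y := by
  obtain ⟨φ, hφ⟩ := ff_frob k hq Ω
  exact φ.injective (by rw [hφ, hφ, h])

theorem ff_anti_rat (hq : Fintype.card F = q ^ 2) {x : Ω} (h : x ^ q + x = 0) :
    ∃ c : F, c ^ q + c = 0 ∧ cF k Ω c = x := by
  have h1 : x ^ q = -x := eq_neg_of_add_eq_zero_left h
  obtain ⟨c, rfl⟩ := fix_rat k (F := F) (a := x) (by
    rw [ff_pow_card hq, h1, ff_neg k hq, h1, neg_neg])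
  refine ⟨c, (cF k Ω : F →+* Ω).injective ?_, rfl⟩
  rw [map_add, map_pow, h, map_zero]

/-- an element algebraic over `k` is fixed by a power of the Frobenius -/
theorem ff_period [Algebra.IsAlgebraic F k] {x : Ω} (hx : IsAlgebraic k x) :
    ∃ n : ℕ, 0 < n ∧ x ^ Fintype.card F ^ n = x := by
  let _ : Algebra F Ω := (cF k Ω).toAlgebra
  have : IsScalarTower F k Ω := IsScalarTower.of_algebraMap_eq fun _ => rfl
  have h1 : IsIntegral F x := (hx.restrictScalars F).isIntegral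
  have := IntermediateField.adjoin.finiteDimensional h1
  have : Finite (IntermediateField.adjoin F {x}) := Module.finite_of_finite F
  let _ := Fintype.ofFinite (IntermediateField.adjoin F {x})
  refine ⟨Module.finrank F (IntermediateField.adjoin F {x}), Module.finrank_pos, ?_⟩
  have h2 := FiniteField.pow_card (IntermediateField.AdjoinSimple.gen F x)
  rw [Module.card_eq_pow_finrank (K := F)] at h2
  exact congrArg Subtype.val h2

omit [Algebra k Ω] in
theorem val_pow {O : Type} [CommRing O] [IsDomain O] [ValuationRing O] [Algebra O Ω]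
    [IsFractionRing O Ω] {m : ℕ} (hm : 0 < m) {y : Ω} {a : O} (h : y ^ m = algebraMap O Ω a) :
    ∃ o : O, algebraMap O Ω o = y := by
  exact IsIntegrallyClosed.isIntegral_iff.1 (IsIntegral.of_pow hm (h ▸ isIntegral_algebraMap))

omit [Algebra k Ω] in
theorem val_lang {O : Type} [CommRing O] [IsDomain O] [ValuationRing O] [Algebra O Ω]
    [IsFractionRing O Ω] {m : ℕ} (hm : 1 < m) {y : Ω} {a : O}
    (h : y ^ m - y = algebraMap O Ω a) : ∃ o : O, algebraMap O Ω o = y := by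
  exact IsIntegrallyClosed.isIntegral_iff.1 (Lang_int hm h.symm)

omit [Algebra k Ω] in
/-- a vector that is not integral is a multiple of a primitive vector -/
theorem val_scale {O ι : Type} [Finite ι] [CommRing O] [IsDomain O] [ValuationRing O] [Algebra O Ω]
    [IsFractionRing O Ω] (x : ι → Ω) (h : ¬ ∀ i, ∃ o : O, algebraMap O Ω o = x i) :
    ∃ (t : O) (z : ι → O) (i₀ : ι), ¬ IsUnit t ∧ z i₀ = 1 ∧
      ∀ i, algebraMap O Ω (z i) = algebraMap O Ω t * x i := by
  have := Fintype.ofFinite ι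
  push Not at h
  obtain ⟨i, hi⟩ := h
  obtain ⟨s, -, hs⟩ := Finset.exists_max_image Finset.univ
    (fun s => ValuationRing.valuation O Ω (x s)) ⟨i, Finset.mem_univ _⟩
  have hint : ∀ y : Ω, (∃ o : O, algebraMap O Ω o = y) ↔ ValuationRing.valuation O Ω y ≤ 1 :=
    fun y => by rw [← ValuationRing.mem_integer_iff, Valuation.mem_integer_iff]
  have h1 : 1 < ValuationRing.valuation O Ω (x s) := by
    refine lt_of_lt_of_le (lt_of_not_ge fun h => ?_) (hs i (Finset.mem_univ _))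
    obtain ⟨o, ho⟩ := (hint _).2 h
    exact hi o ho
  have h0 : x s ≠ 0 := by
    intro h
    rw [h, map_zero] at h1
    exact not_lt_of_ge zero_le h1
  have hz : ∀ j, ∃ o : O, algebraMap O Ω o = x j / x s := fun j => by
    rw [hint, map_div₀]
    exact div_le_one_of_le₀ (hs j (Finset.mem_univ _)) zero_le
  choose z hz using hz
  obtain ⟨t, ht⟩ := (hint (x s)⁻¹).2 (by
    rw [map_inv₀]
    exact inv_le_one_of_one_le₀ h1.le)
  refine ⟨t, z, s, ?_, IsFractionRing.injective O Ω ?_, fun j => ?_⟩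
  · intro hu
    obtain ⟨u, hu⟩ := hu.exists_right_inv
    have h2 := congrArg (algebraMap O Ω) hu
    rw [map_mul, map_one, ht, inv_mul_eq_one₀ h0] at h2
    exact absurd ((hint _).1 ⟨u, h2.symm⟩) (not_le_of_gt h1)
  · rw [hz, div_self h0, map_one]
  · rw [hz, ht, div_eq_inv_mul]

end Pool.Agent.MP_c1eb4d_ag
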