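import Pool.Agent.MP_c1eb4d_ag.CA1
import Pool.Agent.MP_c1eb4d_ag.UFF

open Function TensorProduct Matrix

namespace Pool.Agent.MP_c1eb4d_ag

open Pool.Agent.MP_a9d3bd_ag

variable {F k L O : Type} [Field F] [Fintype F] [Field k] [Algebra F k] [Field L] [Algebra k L]
  [CommRing O] [Algebra L O] {q : ℕ} {x c : O}

theorem CA2_red (h : IsCA q L x c) (a b : L) (z : O) : ∃ p : Polynomial L,
    z - Polynomial.aeval x p ∈ Ideal.span {c - (algebraMap L O a * x + algebraMap L O b)} := by
  have hz : z ∈ Algebra.adjoin L {x, c} := h.adjoin ▸ Algebra.mem_top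
  induction hz using Algebra.adjoin_induction with
  | mem y hy =>
    rcases hy with rfl | rfl
    · exact ⟨Polynomial.X, by simp⟩
    · refine ⟨Polynomial.C a * Polynomial.X + Polynomial.C b, ?_⟩
      simp only [map_add, map_mul, Polynomial.aeval_C, Polynomial.aeval_X]
      exact Ideal.mem_span_singleton_self _
  | algebraMap r => exact ⟨Polynomial.C r, by simp⟩
  | add y z _ _ hy hz =>
    obtain ⟨p, hp⟩ := hy
    obtain ⟨p', hp'⟩ := hz
    refine ⟨p + p', ?_⟩
    have e : y + z - Polynomial.aeval x (p + p') =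
        (y - Polynomial.aeval x p) + (z - Polynomial.aeval x p') := by
      rw [map_add]
      ring
    rw [e]
    exact Ideal.add_mem _ hp hp'
  | mul y z _ _ hy hz =>
    obtain ⟨p, hp⟩ := hy
    obtain ⟨p', hp'⟩ := hz
    refine ⟨p * p', ?_⟩
    have e : y * z - Polynomial.aeval x (p * p') =
        (y - Polynomial.aeval x p) * z + Polynomial.aeval x p * (z - Polynomial.aeval x p') := by
      rw [map_mul]
      ring
    rw [e]
    exact Ideal.add_mem _ (Ideal.mul_mem_right _ _ hp) (Ideal.mul_mem_left _ _ hp')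

theorem CA2_m (h : IsCA q L x c) {a b : L} {m : Polynomial L}
    (hm : (Polynomial.C a * Polynomial.X + Polynomial.C b) ^ q +
      (Polynomial.C a * Polynomial.X + Polynomial.C b) - Polynomial.X ^ (q + 1) = -m) :
    Polynomial.aeval x m ∈ Ideal.span {c - (algebraMap L O a * x + algebraMap L O b)} := by
  have h1 := congrArg (Polynomial.aeval x) hm
  simp only [map_sub, map_add, map_pow, map_mul, Polynomial.aeval_C, Polynomial.aeval_X,
    map_neg] at h1
  have e : Polynomial.aeval x m = (c ^ q - (algebraMap L O a * x + algebraMap L O b) ^ q) +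
      (c - (algebraMap L O a * x + algebraMap L O b)) := by
    linear_combination h1 - h.eqn
  rw [e]
  exact Ideal.add_mem _ (Ideal.mem_span_singleton.2 (sub_dvd_pow_sub_pow _ _ _))
    (Ideal.mem_span_singleton_self _)

theorem CA2_dvd (h : IsCA q L x c) {a b : L} {m v p : Polynomial L}
    (hm : (Polynomial.C a * Polynomial.X + Polynomial.C b) ^ q +
      (Polynomial.C a * Polynomial.X + Polynomial.C b) - Polynomial.X ^ (q + 1) = -m)
    (hv : v ∣ m) (hp : Polynomial.aeval x p ∈
      Ideal.span {c - (algebraMap L O a * x + algebraMap L O b), Polynomial.aeval x v}) :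
    v ∣ p := by
  have h1 := congrArg (Polynomial.aeval (AdjoinRoot.root v)) hm
  have h2 : Polynomial.aeval (AdjoinRoot.root v) m = 0 := by
    rw [AdjoinRoot.aeval_eq, AdjoinRoot.mk_eq_zero]
    exact hv
  simp only [map_sub, map_add, map_pow, map_mul, Polynomial.aeval_C, Polynomial.aeval_X,
    map_neg, h2, neg_zero] at h1
  obtain ⟨ρ, hx, hc⟩ := h.lift (AdjoinRoot v) (AdjoinRoot.root v) _ (sub_eq_zero.1 h1)
  have h3 : ∀ r : Polynomial L, ρ (Polynomial.aeval x r) = AdjoinRoot.mk v r := by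
    intro r
    rw [← Polynomial.aeval_algHom_apply, hx, AdjoinRoot.aeval_eq]
  obtain ⟨s, t, hst⟩ := Ideal.mem_span_pair.1 hp
  have h4 := congrArg ρ hst
  rw [map_add, map_mul, map_mul, h3, h3, AdjoinRoot.mk_self, map_sub, map_add, map_mul, hx, hc,
    AlgHom.commutes, AlgHom.commutes, sub_self, mul_zero, mul_zero, add_zero] at h4
  exact AdjoinRoot.mk_eq_zero.1 h4.symm

theorem CA2_dm (h : IsCA q L x c) {a b : L} {m : Polynomial L}
    (hm : (Polynomial.C a * Polynomial.X + Polynomial.C b) ^ q +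
      (Polynomial.C a * Polynomial.X + Polynomial.C b) - Polynomial.X ^ (q + 1) = -m)
    (hm0 : m ≠ 0) (Q : PrimeSpectrum O)
    (hQ : c - (algebraMap L O a * x + algebraMap L O b) ∈ Q.asIdeal) : dm L Q = 0 := by
  have hle : Ideal.span {c - (algebraMap L O a * x + algebraMap L O b)} ≤ Q.asIdeal :=
    (Ideal.span_singleton_le_iff_mem _).2 hQ
  have hx : IsAlgebraic L (Ideal.Quotient.mkₐ L Q.asIdeal x) := by
    refine ⟨m, hm0, ?_⟩
    rw [Polynomial.aeval_algHom_apply]
    exact Ideal.Quotient.eq_zero_iff_mem.2 (hle (CA2_m h hm))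
  have : Algebra.IsAlgebraic L (O ⧸ Q.asIdeal) := by
    refine ⟨fun z => ?_⟩
    obtain ⟨z, rfl⟩ := Ideal.Quotient.mk_surjective z
    obtain ⟨p, hp⟩ := CA2_red h a b z
    have e : Ideal.Quotient.mk Q.asIdeal z =
        Polynomial.aeval (Ideal.Quotient.mkₐ L Q.asIdeal x) p := by
      rw [Polynomial.aeval_algHom_apply]
      exact Ideal.Quotient.eq.2 (hle hp)
    rw [e]
    have h1 : IsIntegral L (Polynomial.aeval (Ideal.Quotient.mkₐ L Q.asIdeal x) p) :=
      (IsIntegral.of_mem_of_fg (Algebra.adjoin L {Ideal.Quotient.mkₐ L Q.asIdeal x})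
        hx.isIntegral.fg_adjoin_singleton _ (Polynomial.aeval_mem_adjoin_singleton L _))
    exact h1.isAlgebraic
  unfold dm dim
  rw [trdeg_eq_zero]
  simp

theorem CA2_pt (x c : O) (a b t : L) : ptI x c t (a * t + b) =
    Ideal.span {c - (algebraMap L O a * x + algebraMap L O b), x - algebraMap L O t} := by
  unfold ptI
  refine le_antisymm ?_ ?_ <;> rw [Ideal.span_le] <;> rintro z (rfl | rfl)
  · exact Ideal.subset_span (Or.inr rfl)
  · exact Ideal.mem_span_pair.2 ⟨1, algebraMap L O a, by rw [map_add, map_mul]; ring⟩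
  · exact Ideal.mem_span_pair.2 ⟨-algebraMap L O a, 1, by rw [map_add, map_mul]; ring⟩
  · exact Ideal.subset_span (Or.inl rfl)

/-- one step of the filtration of the ring of the tangent line section -/
theorem ca_step (h : IsCA q L x c) (ω : Inv L O 0) (a b : L) (m u : Polynomial L) (t : L)
    (hm : (Polynomial.C a * Polynomial.X + Polynomial.C b) ^ q +
      (Polynomial.C a * Polynomial.X + Polynomial.C b) - Polynomial.X ^ (q + 1) = -m)
    (hu : u * (Polynomial.X - Polynomial.C t) ∣ m) (hm0 : m ≠ 0) :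
    ω.val (O ⧸ Ideal.span {c - (algebraMap L O a * x + algebraMap L O b),
        Polynomial.aeval x (u * (Polynomial.X - Polynomial.C t))}) =
      ω.val (O ⧸ Ideal.span {c - (algebraMap L O a * x + algebraMap L O b),
        Polynomial.aeval x u}) + ω.val (O ⧸ ptI x c t (a * t + b)) := by
  have hu0 : u ≠ 0 := by
    rintro rfl
    rw [zero_mul, zero_dvd_iff] at hu
    exact hm0 hu
  have e1 : Polynomial.aeval x (u * (Polynomial.X - Polynomial.C t)) =
      Polynomial.aeval x u * (x - algebraMap L O t) := by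
    simp only [map_mul, map_sub, Polynomial.aeval_X, Polynomial.aeval_C]
  rw [CA2_pt]
  refine Eq.trans ?_ (add_comm _ _)
  set l := c - (algebraMap L O a * x + algebraMap L O b) with hl
  set I₁ : Ideal O := Ideal.span {l, x - algebraMap L O t}
  set I₂ : Ideal O := Ideal.span {l, Polynomial.aeval x (u * (Polynomial.X - Polynomial.C t))}
  set I₃ : Ideal O := Ideal.span {l, Polynomial.aeval x u}
  have h12 : I₁ ≤ Submodule.comap (LinearMap.mulLeft O (Polynomial.aeval x u)) I₂ := by
    rw [Ideal.span_le]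
    rintro z (rfl | rfl)
    · exact I₂.mul_mem_left (Polynomial.aeval x u) (Ideal.subset_span (Or.inl rfl))
    · exact (Ideal.subset_span (Or.inr e1.symm) : Polynomial.aeval x u * _ ∈ I₂)
  have h23 : I₂ ≤ I₃ := by
    rw [Ideal.span_le]
    rintro z (rfl | rfl)
    · exact Ideal.subset_span (Or.inl rfl)
    · rw [e1]
      exact Ideal.mul_mem_right _ _ (Ideal.subset_span (Or.inr rfl))
  refine ω.add (Submodule.mapQ I₁ I₂ _ h12) (Submodule.factor h23) ?_ ?_
    (Submodule.factor_surjective h23) ?_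
  · intro Q hQ
    have h1 := (mem_supp_quot _ _).1 hQ
    exact (CA2_dm h hm hm0 Q (h1 (Ideal.subset_span (Or.inl rfl)))).le
  · rw [injective_iff_map_eq_zero]
    intro z hz
    obtain ⟨z, rfl⟩ := Submodule.Quotient.mk_surjective _ z
    rw [Submodule.mapQ_apply, Submodule.Quotient.mk_eq_zero] at hz
    rw [Submodule.Quotient.mk_eq_zero]
    obtain ⟨p, hp⟩ := CA2_red h a b z
    have hl1 : Ideal.span {l} ≤ I₁ := Ideal.span_mono fun z hz => Or.inl hz
    have hl2 : Ideal.span {l} ≤ I₂ := Ideal.span_mono fun z hz => Or.inl hz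
    have h1 : Polynomial.aeval x (u * p) ∈ I₂ := by
      have e : Polynomial.aeval x (u * p) = Polynomial.aeval x u * z -
          Polynomial.aeval x u * (z - Polynomial.aeval x p) := by
        rw [map_mul]
        ring
      rw [e]
      exact Ideal.sub_mem _ hz (Ideal.mul_mem_left _ _ (hl2 hp))
    obtain ⟨r, hr⟩ := (mul_dvd_mul_iff_left hu0).1 (CA2_dvd h hm hu h1)
    have e : z = (z - Polynomial.aeval x p) + (x - algebraMap L O t) * Polynomial.aeval x r := by
      rw [hr]
      simp only [map_mul, map_sub, Polynomial.aeval_X, Polynomial.aeval_C]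
      ring
    rw [e]
    exact Ideal.add_mem _ (hl1 hp) (Ideal.mul_mem_right _ _ (Ideal.subset_span (Or.inr rfl)))
  · intro z
    obtain ⟨z, rfl⟩ := Submodule.Quotient.mk_surjective _ z
    constructor
    · intro hz
      have hz' : z ∈ I₃ := (Submodule.Quotient.mk_eq_zero _).1 hz
      obtain ⟨s, r, hsr⟩ := Ideal.mem_span_pair.1 hz'
      refine ⟨Submodule.Quotient.mk r, ?_⟩
      rw [Submodule.mapQ_apply, Submodule.Quotient.eq]
      have e : LinearMap.mulLeft O (Polynomial.aeval x u) r - z = -s * l := by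
        rw [LinearMap.mulLeft_apply, ← hsr]
        ring
      rw [e]
      exact Ideal.mul_mem_left _ _ (Ideal.subset_span (Or.inl rfl))
    · rintro ⟨r, hr⟩
      obtain ⟨r, rfl⟩ := Submodule.Quotient.mk_surjective _ r
      rw [← hr, Submodule.mapQ_apply]
      exact (Submodule.Quotient.mk_eq_zero _).2
        (Ideal.mul_mem_right _ _ (Ideal.subset_span (Or.inr rfl)))

include k in
/-- the divisor of the tangent line -/
theorem ca_tangent (hq : Fintype.card F = q ^ 2) (h : IsCA q L x c) (ω : Inv L O 0) {x₀ c₀ : L}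
    (h₀ : c₀ ^ q + c₀ = x₀ ^ (q + 1)) :
    q * ω.val (O ⧸ ptI x c x₀ c₀) +
      ω.val (O ⧸ ptI x c (x₀ ^ Fintype.card F) (c₀ ^ Fintype.card F)) = 0 := by
  have h2 := ff_two_le hq
  have := h.isDomain h2
  have := h.ft
  have key : ∀ I J : Ideal O, I = J → ω.val (O ⧸ I) = ω.val (O ⧸ J) := by
    rintro _ _ rfl
    rfl
  have h₁ : (c₀ ^ q) ^ q + c₀ ^ q = (x₀ ^ q) ^ q * x₀ ^ q := by
    rw [← ff_add k hq, h₀, pow_succ, mul_pow]
  set m : Polynomial L := (Polynomial.X - Polynomial.C x₀) ^ q *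
    (Polynomial.X - Polynomial.C ((x₀ ^ q) ^ q)) with hmd
  have hm : (Polynomial.C (x₀ ^ q) * Polynomial.X + Polynomial.C (-c₀ ^ q)) ^ q +
      (Polynomial.C (x₀ ^ q) * Polynomial.X + Polynomial.C (-c₀ ^ q)) -
        Polynomial.X ^ (q + 1) = -m := by
    have h3 := congrArg (Polynomial.C (R := L)) h₁
    rw [hmd, ff_add k hq, ff_sub k hq, mul_pow, map_neg, ff_neg k hq, pow_succ]
    simp only [map_add, map_mul, map_pow] at h3 ⊢
    linear_combination -h3
  have hm0 : m ≠ 0 := mul_ne_zero (pow_ne_zero _ (Polynomial.X_sub_C_ne_zero _))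
    (Polynomial.X_sub_C_ne_zero _)
  have e0 : x₀ ^ q * x₀ + -c₀ ^ q = c₀ := by
    rw [← pow_succ, ← h₀]
    ring
  have e1 : x₀ ^ q * (x₀ ^ q) ^ q + -c₀ ^ q = (c₀ ^ q) ^ q := by
    linear_combination -h₁
  set l := c - (algebraMap L O (x₀ ^ q) * x + algebraMap L O (-c₀ ^ q)) with hl
  have h3 : ∀ i, i ≤ q → ω.val (O ⧸ Ideal.span {l,
      Polynomial.aeval x ((Polynomial.X - Polynomial.C x₀) ^ i)}) =
        i * ω.val (O ⧸ ptI x c x₀ c₀) := by
    intro i
    induction i with
    | zero =>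
      intro _
      have e : Ideal.span {l, Polynomial.aeval x ((Polynomial.X - Polynomial.C x₀) ^ 0)} = ⊤ := by
        rw [pow_zero, map_one]
        exact (Ideal.eq_top_iff_one _).2 (Ideal.subset_span (Or.inr rfl))
      rw [key _ _ e, ω.toAdv.val_sub]
      simp
    | succ i ih =>
      intro hi
      have h4 := ca_step h ω (x₀ ^ q) (-c₀ ^ q) m ((Polynomial.X - Polynomial.C x₀) ^ i) x₀ hm
        (by rw [← pow_succ]; exact (pow_dvd_pow _ hi).mul_right _) hm0
      rw [e0, ih (by omega), ← pow_succ] at h4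
      rw [h4]
      push_cast
      ring
  have h4 := ca_step h ω (x₀ ^ q) (-c₀ ^ q) m ((Polynomial.X - Polynomial.C x₀) ^ q)
    ((x₀ ^ q) ^ q) hm dvd_rfl hm0
  rw [h3 q le_rfl, e1, ← hmd] at h4
  rw [ff_pow_card hq, ff_pow_card hq, ← h4]
  have hml := CA2_m h hm
  have hl0 : l ≠ 0 := by
    intro h5
    rw [← hl, h5, Ideal.mem_span_singleton, zero_dvd_iff] at hml
    exact h.transc h2 ⟨m, hm0, hml⟩
  have hP : dm L (⟨⊥, Ideal.isPrime_bot⟩ : PrimeSpectrum O) ≤ 0 + 1 := by
    have h5 : dim L (⟨⊥, Ideal.isPrime_bot⟩ : PrimeSpectrum O) ≤ 1 := by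
      rw [← h.trdeg h2]
      exact trdeg_le_of_surjective (Ideal.Quotient.mkₐ L _) (Ideal.Quotient.mkₐ_surjective L _)
    rw [dim_eq] at h5
    exact_mod_cast h5
  refine (key _ _ ?_).trans (ω.rat_le ⟨⊥, Ideal.isPrime_bot⟩ l hP hl0)
  rw [bot_sup_eq]
  refine le_antisymm ?_ (Ideal.span_mono fun z hz => Or.inl hz)
  rw [Ideal.span_le]
  rintro z (rfl | rfl)
  · exact Ideal.mem_span_singleton_self _
  · exact hml

/-- algebraic points are torsion -/
theorem ca_tors [Algebra.IsAlgebraic F k] (hq : Fintype.card F = q ^ 2) (h : IsCA q L x c)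
    (ω : Inv L O 0) {x₀ c₀ : L} (h₀ : c₀ ^ q + c₀ = x₀ ^ (q + 1)) (ha : IsAlgebraic k x₀) :
    ω.val (O ⧸ ptI x c x₀ c₀) = 0 := by
  have h2 := ff_two_le hq
  have hc : IsAlgebraic k c₀ := by
    have h1 : IsAlgebraic k (Polynomial.aeval c₀ (Polynomial.X ^ q + Polynomial.X :
        Polynomial k)) := by
      simp only [map_add, map_pow, Polynomial.aeval_X, h₀]
      exact ha.pow _
    refine h1.of_aeval _ ?_ ?_
    · rw [Polynomial.natDegree_add_eq_left_of_natDegree_lt (by simp; omega)]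
      simp
      omega
    · have h3 : (Polynomial.X ^ q + Polynomial.X : Polynomial k).Monic :=
        Polynomial.monic_X_pow_add (by
          rw [Polynomial.degree_X]
          exact_mod_cast h2)
      rw [h3.leadingCoeff]
      exact one_mem _
  obtain ⟨n, hn, hxn⟩ := ff_period (F := F) k ha
  obtain ⟨n', hn', hcn⟩ := ff_period (F := F) k hc
  have per : ∀ (y : L) (s : ℕ), y ^ Fintype.card F ^ s = y → ∀ i,
      y ^ Fintype.card F ^ (s * i) = y := by
    intro y s hy i
    induction i with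
    | zero => simp
    | succ i ih => rw [Nat.mul_succ, pow_add, pow_mul, ih, hy]
  have h3 : ∀ i : ℕ, (c₀ ^ Fintype.card F ^ i) ^ q + c₀ ^ Fintype.card F ^ i =
      (x₀ ^ Fintype.card F ^ i) ^ (q + 1) ∧
      ω.val (O ⧸ ptI x c (x₀ ^ Fintype.card F ^ i) (c₀ ^ Fintype.card F ^ i)) =
        (-q) ^ i * ω.val (O ⧸ ptI x c x₀ c₀) := by
    intro i
    induction i with
    | zero =>
      rw [pow_zero, pow_one, pow_one, pow_zero, one_mul]
      exact ⟨h₀, rfl⟩
    | succ i ih =>
      have h4 := ca_tangent (k := k) hq h ω ih.1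
      rw [pow_succ (Fintype.card F), pow_mul, pow_mul]
      refine ⟨?_, ?_⟩
      · rw [ff_pow_card hq, ff_pow_card hq, ← ff_add k hq, ← ff_add k hq, ih.1]
        ring
      · rw [ih.2] at h4
        rw [pow_succ]
        linear_combination h4
  have h4 := (h3 (n * n')).2
  rw [per x₀ n hxn n', mul_comm n n', per c₀ n' hcn n] at h4
  have h5 : ((-q : ℚ)) ^ (n' * n) ≠ 1 := by
    intro h6
    have h7 := congrArg abs h6
    rw [abs_pow, abs_neg, abs_one, Nat.abs_cast] at h7
    have h8 : (1 : ℚ) < q := by exact_mod_cast h2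
    exact (one_lt_pow₀ h8 (Nat.mul_pos hn' hn).ne').ne' h7
  by_contra h6
  exact h5 (mul_right_cancel₀ h6 (h4.symm.trans (one_mul _).symm))

end Pool.Agent.MP_c1eb4d_ag
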