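import Pool.Agent.MP_c1eb4d_ag.UI
import Pool.Agent.MP_a9d3bd_ag.BC

open Function TensorProduct Matrix

namespace Pool.Agent.MP_c1eb4d_ag

open Pool.Agent.MP_a9d3bd_ag

theorem CDim_alg {L R D : Type} [Field L] [CommRing R] [Algebra L R] [CommRing D] [Algebra L D]
    (ψ : R →ₐ[L] D) (hψ : Injective ψ) {s : Set R}
    (hs : Algebra.IsAlgebraic (Algebra.adjoin L s) R) {t : Set D} (ht : ψ '' s ⊆ t) (r : R) :
    IsAlgebraic (Algebra.adjoin L t) (ψ r) := by
  have hle : Algebra.adjoin L s ≤ (Algebra.adjoin L t).comap ψ :=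
    Algebra.adjoin_le fun x hx => Algebra.subset_adjoin (R := L) (ht ⟨x, hx, rfl⟩)
  let f : Algebra.adjoin L s →+* Algebra.adjoin L t :=
    (ψ.toRingHom.comp (Algebra.adjoin L s).val.toRingHom).codRestrict _ fun x => hle x.2
  have hf : Injective f := fun x y h => Subtype.ext (hψ (congrArg Subtype.val h))
  exact (hs.isAlgebraic r).ringHom_of_comp_eq f ψ.toRingHom hf rfl

theorem CDim_trdeg {L R R' D : Type} [Field L] [CommRing R] [IsDomain R] [Algebra L R]
    [CommRing R'] [IsDomain R'] [Algebra L R'] [CommRing D] [IsDomain D] [Algebra L D]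
    (ψ : R →ₐ[L] D) (hψ : Injective ψ) (ψ' : R' →ₐ[L] D) (hψ' : Injective ψ')
    (hg : ∀ p : D → Prop, p 0 → (∀ r r', p (ψ r * ψ' r')) → (∀ x y, p x → p y → p (x + y)) →
      ∀ d, p d) :
    Algebra.trdeg L D ≤ Algebra.trdeg L R + Algebra.trdeg L R' := by
  obtain ⟨s, hs⟩ := exists_isTranscendenceBasis L R
  obtain ⟨s', hs'⟩ := exists_isTranscendenceBasis L R'
  have halg := hs.isAlgebraic
  have halg' := hs'.isAlgebraic
  rw [Subtype.range_coe] at halg halg'
  have : Algebra.IsAlgebraic (Algebra.adjoin L (ψ '' s ∪ ψ' '' s')) D :=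
    ⟨hg _ isAlgebraic_zero (fun r r' => (CDim_alg ψ hψ halg Set.subset_union_left r).mul
      (CDim_alg ψ' hψ' halg' Set.subset_union_right r')) fun _ _ hx hy => hx.add hy⟩
  exact (Algebra.IsAlgebraic.trdeg_le_cardinalMk L (ψ '' s ∪ ψ' '' s')).trans
    ((Cardinal.mk_union_le _ _).trans (add_le_add
      (Cardinal.mk_image_le.trans hs.cardinalMk_eq_trdeg.le)
      (Cardinal.mk_image_le.trans hs'.cardinalMk_eq_trdeg.le)))

/-- the dimension of a subvariety of a product -/
theorem dm_push_le {L O B A : Type} [Field L] [CommRing O] [Algebra L O] [CommRing B] [Algebra L B]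
    [CommRing A] [Algebra L A] [Algebra O A] [Algebra B A] [IsScalarTower L O A]
    [IsScalarTower L B A] [Algebra.IsPushout L O B A] [Algebra.FiniteType L O]
    [Algebra.FiniteType L B] (Q : PrimeSpectrum A) :
    dm L Q ≤ dm L (PrimeSpectrum.comap (algebraMap O A) Q) +
      dm L (PrimeSpectrum.comap (algebraMap B A) Q) := by
  have hO : ∀ c : L, algebraMap O A (algebraMap L O c) = algebraMap L A c := fun c =>
    (IsScalarTower.algebraMap_apply L O A c).symm
  have hB : ∀ c : L, algebraMap B A (algebraMap L B c) = algebraMap L A c := fun c =>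
    (IsScalarTower.algebraMap_apply L B A c).symm
  have h : dim L Q ≤ dim L (PrimeSpectrum.comap (algebraMap O A) Q) +
      dim L (PrimeSpectrum.comap (algebraMap B A) Q) :=
    CDim_trdeg (Dim_map _ hO Q) (Dim_map_inj _ hO Q) (Dim_map _ hB Q) (Dim_map_inj _ hB Q)
      fun p h0 h1 h2 d => by
        obtain ⟨a, rfl⟩ := Ideal.Quotient.mk_surjective d
        obtain ⟨x, rfl⟩ := (Algebra.IsPushout.equiv L O B A).surjective a
        induction x using TensorProduct.induction_on with
        | zero =>
          rw [map_zero, map_zero]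
          exact h0
        | tmul o b =>
          rw [Algebra.IsPushout.equiv_tmul, map_mul]
          exact h1 (Ideal.Quotient.mk _ o) (Ideal.Quotient.mk _ b)
        | add x y hx hy =>
          rw [map_add, map_add]
          exact h2 _ _ hx hy
  rw [dm, dm, dm, ← Cardinal.toNat_add (Dim_fin _) (Dim_fin _)]
  exact Cardinal.toNat_le_toNat h (Cardinal.add_lt_aleph0 (Dim_fin _) (Dim_fin _))

/-- the dimension in the generic fibre -/
theorem dm_gen {L O K A A' : Type} [Field L] [CommRing O] [IsDomain O] [Algebra L O] [Field K]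
    [Algebra O K] [IsFractionRing O K] [CommRing A] [Algebra L A] [Algebra O A]
    [IsScalarTower L O A] [Algebra.FiniteType L A] [CommRing A'] [Algebra A A'] [Algebra K A']
    [Algebra O A'] [IsScalarTower O A A'] [IsScalarTower O K A']
    [IsLocalization (Algebra.algebraMapSubmonoid A (nonZeroDivisors O)) A']
    (ht : Algebra.trdeg L O = 1) (Q : PrimeSpectrum A') :
    dm L (PrimeSpectrum.comap (algebraMap A A') Q) = dm K Q + 1 := by
  let _ : Algebra L A' := ((algebraMap A A').comp (algebraMap L A)).toAlgebra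
  let _ : Algebra L K := ((algebraMap O K).comp (algebraMap L O)).toAlgebra
  have : IsScalarTower L O K := IsScalarTower.of_algebraMap_eq fun _ => rfl
  have hOA : ∀ o : O, algebraMap K A' (algebraMap O K o) = algebraMap A A' (algebraMap O A o) :=
    fun o => by rw [← IsScalarTower.algebraMap_apply, ← IsScalarTower.algebraMap_apply]
  have : IsScalarTower L K A' := IsScalarTower.of_algebraMap_eq fun c => by
    show algebraMap A A' (algebraMap L A c) = algebraMap K A' (algebraMap O K (algebraMap L O c))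
    rw [hOA, ← IsScalarTower.algebraMap_apply L O A]
  have hs : ∀ b : A', ∃ (a : A) (o : O), algebraMap O K o ≠ 0 ∧
      algebraMap A A' (algebraMap O A o) * b = algebraMap A A' a := fun b => by
    obtain ⟨⟨a, _, o, ho, rfl⟩, h⟩ :=
      IsLocalization.surj (Algebra.algebraMapSubmonoid A (nonZeroDivisors O)) b
    exact ⟨a, o, IsFractionRing.to_map_ne_zero_of_mem_nonZeroDivisors ho, by
      rw [mul_comm]; exact h⟩
  have h1 : dm L Q = dm L (PrimeSpectrum.comap (algebraMap A A') Q) :=
    dm_comap_frac _ (fun _ => rfl) Q fun b => by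
      obtain ⟨a, o, ho, h⟩ := hs b
      refine ⟨a, algebraMap O A o, fun hm => Q.isPrime.ne_top ?_, by
        rw [h, sub_self]; exact Q.asIdeal.zero_mem⟩
      rw [← hOA] at hm
      exact Ideal.eq_top_of_isUnit_mem _ hm (ho.isUnit.map _)
  have h2 : dim K Q ≤ dim L (PrimeSpectrum.comap (algebraMap A A') Q) :=
    DimB_trdeg (Dim_map (L := L) (algebraMap A A') (fun _ => rfl) Q) (Dim_map_inj _ _ Q) fun d => by
      obtain ⟨b, rfl⟩ := Ideal.Quotient.mk_surjective d
      obtain ⟨a, o, ho, h⟩ := hs b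
      have e : b = algebraMap K A' (algebraMap O K o)⁻¹ * algebraMap A A' a := by
        rw [← h, ← hOA, ← mul_assoc, ← map_mul, inv_mul_cancel₀ ho, map_one, one_mul]
      rw [e, map_mul]
      exact mul_mem (Subalgebra.algebraMap_mem _ _)
        (Algebra.subset_adjoin ⟨Ideal.Quotient.mk _ a, rfl⟩)
  have h3 : Algebra.trdeg L K = 1 := by
    have := IsLocalization.isAlgebraic K (nonZeroDivisors O)
    rw [← trdeg_add_eq L O (A := K), ht, trdeg_eq_zero, add_zero]
  have h4 : dim L Q = 1 + dim K Q := by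
    rw [← h3]
    exact (trdeg_add_eq L K (A := A' ⧸ Q.asIdeal)).symm
  rw [← h1, dm, dm, h4, Cardinal.toNat_add Cardinal.one_lt_aleph0 (h2.trans_lt (Dim_fin _)),
    map_one, add_comm]

end Pool.Agent.MP_c1eb4d_ag
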