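import Pool.Agent.MP_c1eb4d_ag.CDim
import Pool.Agent.MP_a9d3bd_ag.Len

open Function TensorProduct Matrix

namespace Pool.Agent.MP_c1eb4d_ag

open Pool.Agent.MP_a9d3bd_ag

/-- the ideal `P + (f)` of a localisation is extended -/
theorem CGen_sup {A A' : Type} [CommRing A] [CommRing A'] [Algebra A A'] (M : Submonoid A)
    [IsLocalization M A'] (P : PrimeSpectrum A') (f : A') (hf : f ∉ P.asIdeal) :
    ∃ f₀ : A, f₀ ∉ (PrimeSpectrum.comap (algebraMap A A') P).asIdeal ∧
      ((PrimeSpectrum.comap (algebraMap A A') P).asIdeal ⊔ Ideal.span {f₀}).map (algebraMap A A') =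
        P.asIdeal ⊔ Ideal.span {f} := by
  obtain ⟨⟨f₀, s⟩, hs⟩ := IsLocalization.surj M f
  have hu := IsLocalization.map_units A' s
  refine ⟨f₀, fun h => ?_, ?_⟩
  · have h1 : algebraMap A A' f₀ ∈ P.asIdeal := h
    rw [← hs] at h1
    exact hf ((Ideal.mul_unit_mem_iff_mem _ hu).1 h1)
  · rw [Ideal.map_sup, Ideal.map_span, Set.image_singleton, ← hs,
      Ideal.span_singleton_mul_right_unit hu]
    congr 1
    exact IsLocalization.map_under M A' P.asIdeal

/-- a form that vanishes on the closed fibres comes from the generic fibre -/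
theorem gen_fibre {L O K A A' : Type} [Field L] [CommRing O] [IsDomain O] [Algebra L O] [Field K]
    [Algebra O K] [IsFractionRing O K] [CommRing A] [Algebra L A] [Algebra O A]
    [IsScalarTower L O A] [Algebra.FiniteType L A] [CommRing A'] [Algebra A A'] [Algebra K A']
    [Algebra O A'] [IsScalarTower O A A'] [IsScalarTower O K A'] [Algebra.FiniteType K A']
    [IsLocalization (Algebra.algebraMapSubmonoid A (nonZeroDivisors O)) A']
    (ht : Algebra.trdeg L O = 1) {j : ℕ} (χ : Inv L A (j + 1))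
    (h0 : ∀ Q : PrimeSpectrum A, (∃ s : O, s ≠ 0 ∧ algebraMap O A s ∈ Q.asIdeal) →
      dm L Q ≤ j + 1 → χ.val (A ⧸ Q.asIdeal) = 0) :
    ∃ χ' : Inv K A' j, ∀ I : Ideal A, (∀ Q : PrimeSpectrum A, I ≤ Q.asIdeal → dm L Q ≤ j + 1) →
      χ'.val (A' ⧸ I.map (algebraMap A A')) = χ.val (A ⧸ I) := by
  have hN : IsNoetherianRing A := Algebra.FiniteType.isNoetherianRing L A
  have hfl : Module.Flat A A' :=
    IsLocalization.flat A' (Algebra.algebraMapSubmonoid A (nonZeroDivisors O))
  have hd : ∀ Q : PrimeSpectrum A',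
      dm L (PrimeSpectrum.comap (algebraMap A A') Q) = dm K Q + 1 := fun Q =>
    dm_gen (L := L) (O := O) (K := K) ht Q
  obtain ⟨ψ, h1, h2, -⟩ := exists_ofFun (L := K) (A := A') j
    (fun P => χ.val (A ⧸ (PrimeSpectrum.comap (algebraMap A A') P).asIdeal))
  obtain ⟨ψ', hψ'⟩ := ψ.exists_flat (A := A)
  have hq : ∀ I : Ideal A, (∀ Q : PrimeSpectrum A, I ≤ Q.asIdeal → dm L Q ≤ j + 1) →
      ψ'.val (A ⧸ I) = ψ.val (A' ⧸ I.map (algebraMap A A')) := fun I hI => by
    obtain ⟨e⟩ := tensor_quot (A := A) (B := A') I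
    rw [hψ']
    refine ψ.val_equiv e fun Q hQ => ?_
    have h3 := hI _ ((mem_supp_quot I _).1 (supp_tensor _ hQ))
    rw [hd] at h3
    exact Nat.le_of_succ_le_succ h3
  have key : ∀ I : Ideal A, (∀ Q : PrimeSpectrum A, I ≤ Q.asIdeal → dm L Q ≤ j + 1) →
      ψ.val (A' ⧸ I.map (algebraMap A A')) = χ.val (A ⧸ I) := fun I hI => by
    rw [← hq I hI]
    refine ψ'.ext_supp χ.toAdv (fun P hP Q hQ => ?_)
      (fun P hP => hI P ((mem_supp_quot I P).1 hP)) fun P hP => ?_
    · have h3 := hI P ((mem_supp_quot I P).1 hP)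
      rw [← hQ, hd] at h3
      exact Nat.le_of_succ_le_succ h3
    · have h3 := hI P ((mem_supp_quot I P).1 hP)
      rw [hq P.asIdeal fun Q hQ => (dm_mono (L := L) (P := P) (Q := Q) hQ).trans h3]
      by_cases hs : ∃ s : O, s ≠ 0 ∧ algebraMap O A s ∈ P.asIdeal
      · rw [h0 P hs h3]
        obtain ⟨s, hs0, hs⟩ := hs
        have h4 : P.asIdeal.map (algebraMap A A') = ⊤ :=
          Ideal.eq_top_of_isUnit_mem _ (Ideal.mem_map_of_mem _ hs)
            (IsLocalization.map_units A'
              (⟨_, Algebra.mem_algebraMapSubmonoid_of_mem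
                (⟨s, mem_nonZeroDivisors_of_ne_zero hs0⟩ : nonZeroDivisors O)⟩ :
                Algebra.algebraMapSubmonoid A (nonZeroDivisors O)))
        have : Subsingleton (A' ⧸ P.asIdeal.map (algebraMap A A')) :=
          Ideal.Quotient.subsingleton_iff.2 h4
        exact ψ.val_sub _
      · have hdisj : Disjoint
            ((Algebra.algebraMapSubmonoid A (nonZeroDivisors O) : Submonoid A) : Set A)
            (P.asIdeal : Set A) := by
          rw [Set.disjoint_left]
          rintro _ ⟨s, hs1, rfl⟩ hs2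
          exact hs ⟨s, nonZeroDivisors.ne_zero hs1, hs2⟩
        let P' : PrimeSpectrum A' := ⟨P.asIdeal.map (algebraMap A A'),
          IsLocalization.isPrime_of_isPrime_disjoint _ A' P.asIdeal P.isPrime hdisj⟩
        have h5 : PrimeSpectrum.comap (algebraMap A A') P' = P :=
          PrimeSpectrum.ext (IsLocalization.under_map_of_isPrime_disjoint _ A' P.isPrime hdisj)
        have h6 := hd P'
        rw [h5] at h6
        rcases Nat.lt_or_ge (dm K P') j with h7 | h7
        · rw [χ.low P (by omega)]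
          exact h2 P' h7
        · have h8 := h1 P' (by omega)
          exact h8.trans (congrArg (fun R : PrimeSpectrum A => χ.val (A ⧸ R.asIdeal)) h5)
  refine ⟨⟨ψ, h2, fun P f hP hf => ?_⟩, key⟩
  obtain ⟨f₀, hf₀, he⟩ := CGen_sup (Algebra.algebraMapSubmonoid A (nonZeroDivisors O)) P f hf
  have h9 : dm L (PrimeSpectrum.comap (algebraMap A A') P) = j + 1 + 1 := by rw [hd, hP]
  rw [← he, key _ fun Q hQ => ?_]
  · exact χ.rat _ f₀ h9 hf₀
  · have h10 : PrimeSpectrum.comap (algebraMap A A') P < Q :=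
      lt_of_le_of_ne (le_sup_left.trans hQ) fun h =>
        hf₀ (h ▸ hQ (Ideal.mem_sup_right (Ideal.mem_span_singleton_self f₀)))
    have := dm_lt (L := L) h10
    omega

end Pool.Agent.MP_c1eb4d_ag
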