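import Pool.Agent.MP_c1eb4d_ag.CVan
import Pool.Agent.MP_a9d3bd_ag.PresA

open Function TensorProduct Matrix

namespace Pool.Agent.MP_c1eb4d_ag

open Pool.Agent.MP_a9d3bd_ag

open MvPolynomial in
theorem CPres_isCA {k σ : Type} [Field k] (q : ℕ) (E : Set (MvPolynomial σ k))
    (I : Ideal (MvPolynomial (Option (Option σ)) k))
    (hI : I = Ideal.span (insert (X none ^ q + X none - X (some none) ^ (q + 1))
      (rename (fun a => some (some a)) '' E)))
    [Algebra (MvPolynomial σ k ⧸ Ideal.span E) (MvPolynomial (Option (Option σ)) k ⧸ I)]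
    (h : ∀ p, algebraMap (MvPolynomial σ k ⧸ Ideal.span E) _ (Ideal.Quotient.mk _ p) =
      Ideal.Quotient.mk I (rename (fun a => some (some a)) p)) :
    IsCA q (MvPolynomial σ k ⧸ Ideal.span E) (Ideal.Quotient.mk I (X (some none)))
      (Ideal.Quotient.mk I (X none)) := by
  refine ⟨?_, fun R _ _ x₀ c₀ h0 => ?_, fun R _ _ f g hx hc => ?_⟩
  · rw [← sub_eq_zero, ← map_pow, ← map_pow, ← map_add, ← map_sub, Ideal.Quotient.eq_zero_iff_mem,
      hI]
    exact Ideal.subset_span (Set.mem_insert _ _)
  · let φ : MvPolynomial σ k →+* R := (algebraMap _ R).comp (Ideal.Quotient.mk (Ideal.span E))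
    let ψ : MvPolynomial (Option (Option σ)) k →+* R :=
      eval₂Hom (φ.comp C) fun o => o.elim c₀ fun o => o.elim x₀ fun a => φ (X a)
    have h1 : ψ.comp (rename fun a => some (some a)).toRingHom = φ :=
      ringHom_ext (fun c => by simp [ψ]) fun a => by simp [ψ]
    have h2 : ∀ p, ψ (rename (fun a => some (some a)) p) = φ p := RingHom.congr_fun h1
    have h3 : I ≤ RingHom.ker ψ := by
      rw [hI, Ideal.span_le]
      rintro _ (rfl | ⟨p, hp, rfl⟩)
      · simpa [ψ, sub_eq_zero] using h0
      · rw [SetLike.mem_coe, RingHom.mem_ker, h2, RingHom.comp_apply,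
          Ideal.Quotient.eq_zero_iff_mem.2 (Ideal.subset_span hp), map_zero]
    refine ⟨⟨Ideal.Quotient.lift I ψ h3, fun b => ?_⟩, eval₂Hom_X' _ _ _, eval₂Hom_X' _ _ _⟩
    obtain ⟨p, rfl⟩ := Ideal.Quotient.mk_surjective b
    rw [h]
    exact h2 p
  · have h1 : ∀ p, f (Ideal.Quotient.mk I (rename (fun a => some (some a)) p)) =
        g (Ideal.Quotient.mk I (rename (fun a => some (some a)) p)) := fun p => by
      rw [← h, f.commutes, g.commutes]
    refine AlgHom.coe_ringHom_injective (Ideal.Quotient.ringHom_ext (ringHom_ext (fun c => ?_) ?_))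
    · have h2 := h1 (C c)
      rwa [rename_C] at h2
    · rintro (_ | _ | a)
      · exact hc
      · exact hx
      · have h2 := h1 (X a)
        rwa [rename_X] at h2

theorem curve_vanKS {F k O K : Type} [Field F] [Fintype F] [Field k] [Algebra F k]
    [Algebra.IsAlgebraic F k] {q : ℕ} (hq : Fintype.card F = q ^ 2) [CommRing O] [Algebra k O]
    {xO cO : O} (hO : IsCA q k xO cO) [Field K] [Algebra k K] [Algebra O K] [IsScalarTower k O K]
    [IsFractionRing O K] : Curve (fun σ (S : Fam k σ) => VanKS K σ S) q := by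
  rintro σ _ S ⟨E, hE, hV⟩
  refine ⟨insert (MvPolynomial.X none ^ q + MvPolynomial.X none -
    MvPolynomial.X (some none) ^ (q + 1)) (MvPolynomial.rename (fun a => some (some a)) '' E),
    fun Ω _ _ x => ?_, ?_⟩
  · beta_reduce
    rw [hE, Set.forall_mem_insert, Set.forall_mem_image, and_comm]
    simp only [MvPolynomial.aeval_rename, map_sub, map_add, map_pow, MvPolynomial.aeval_X,
      sub_eq_zero]
    rfl
  · generalize hI : Ideal.span (insert (MvPolynomial.X none ^ q + MvPolynomial.X none -
      MvPolynomial.X (some none) ^ (q + 1))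
        (MvPolynomial.rename (fun a => some (some a)) '' E)) = I
    let φ : (MvPolynomial σ k ⧸ Ideal.span E) →ₐ[k] (MvPolynomial (Option (Option σ)) k ⧸ I) :=
      Ideal.quotientMapₐ I (MvPolynomial.rename fun a => some (some a))
        (Ideal.span_le.2 fun p hp => hI ▸ Ideal.subset_span (Or.inr ⟨p, hp, rfl⟩))
    let _ := φ.toRingHom.toAlgebra
    have : IsScalarTower k (MvPolynomial σ k ⧸ Ideal.span E)
        (MvPolynomial (Option (Option σ)) k ⧸ I) :=
      IsScalarTower.of_algebraMap_eq fun c => (φ.commutes c).symm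
    exact vanK_curve hq hO (CPres_isCA q E I hI.symm fun _ => rfl) hV

end Pool.Agent.MP_c1eb4d_ag
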