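import Pool.Agent.MP_c1eb4d_ag.CA2
import Pool.Agent.MP_c1eb4d_ag.CDim

open Function TensorProduct Matrix

namespace Pool.Agent.MP_c1eb4d_ag

open Pool.Agent.MP_a9d3bd_ag

variable {q : ℕ} {k L B B' A' : Type} [Field k] [Field L] [Algebra k L] [CommRing B'] [Algebra L B']
  [CommRing A'] [Algebra L A'] [Algebra B' A'] [IsScalarTower L B' A'] {x c : A'}

/-- the fibre over a rational point of the curve -/
theorem cv_fibre [CommRing B] [Algebra k B] [Algebra.FiniteType k B] [Algebra k B'] [Algebra B B']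
    [IsScalarTower k L B'] [IsScalarTower k B B'] [Algebra.IsPushout k L B B'] [Algebra B A']
    [IsScalarTower B B' A'] (h : IsCA q B' x c) {T : Set (PrimeSpectrum B)} (hB : VanAt k L B' T)
    {j : ℕ} (χ : Inv L A' j) {x₀ c₀ : L} (h₀ : c₀ ^ q + c₀ = x₀ ^ (q + 1))
    (hk : ∀ P ∈ T, dm k P ≤ j →
      χ.val (A' ⧸ (P.asIdeal.map (algebraMap B A') ⊔ ptI x c x₀ c₀)) = 0)
    (Q : PrimeSpectrum A') (hQ : ptI x c x₀ c₀ ≤ Q.asIdeal) (hj : dm L Q ≤ j) :
    χ.val (A' ⧸ Q.asIdeal) = 0 := by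
  have : Algebra.FiniteType L B' := ft_bc k L B B'
  have : Algebra.FiniteType L A' := Algebra.FiniteType.trans this h.ft
  obtain ⟨f, -, -, hf⟩ := h.ev (x₀ := algebraMap L B' x₀) (c₀ := algebraMap L B' c₀)
    (by rw [← map_pow, ← map_pow, ← map_add, h₀])
  rw [ptI_tower] at hf
  let φ : A' →+* B' := f
  have hφ : ∀ a : L, φ (algebraMap L A' a) = algebraMap L B' a := fun a => by
    rw [IsScalarTower.algebraMap_apply L B' A']; exact f.commutes _
  have hφs : Surjective φ := fun b => ⟨_, f.commutes b⟩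
  have hker : Ideal.comap φ ⊥ = ptI x c x₀ c₀ := hf
  obtain ⟨χ', -, hχ⟩ := χ.exists_surj φ hφ hφs
  have hk' : Kills k T χ' := by
    intro P hP hd
    have e : (P.asIdeal.map (algebraMap B A')).map φ = P.asIdeal.map (algebraMap B B') := by
      rw [Ideal.map_map]
      congr 1
      ext b
      rw [RingHom.comp_apply, IsScalarTower.algebraMap_apply B B' A']
      exact f.commutes _
    rw [hχ _ (BC_dm_le L B' hd), ← e, Ideal.comap_map_of_surjective φ hφs, hker]
    exact hk P hP hd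
  rw [← hker] at hQ
  let Q' : PrimeSpectrum B' := ⟨Q.asIdeal.map φ, Ideal.map_isPrime_of_surjective hφs hQ⟩
  have eQ : Q'.asIdeal.comap φ = Q.asIdeal := by
    show (Q.asIdeal.map φ).comap φ = _
    rw [Ideal.comap_map_of_surjective φ hφs, sup_eq_left]
    exact hQ
  have eQ' : PrimeSpectrum.comap φ Q' = Q := PrimeSpectrum.ext eQ
  have hd : dm L Q' ≤ j := by
    rwa [dm_comap_int φ hφ (RingHom.isIntegral_of_surjective φ hφs), eQ']
  have h0 := hB j χ' hk' Q' hd
  rwa [hχ _ fun R hR => (dm_mono (P := Q') (Q := R) hR).trans hd, eQ] at h0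

/-- the fibres over the algebraic points -/
theorem cv_alg {F : Type} [Field F] [Fintype F] [Algebra F k] [Algebra.IsAlgebraic F k]
    (hq : Fintype.card F = q ^ 2) [Algebra.FiniteType L B'] (h : IsCA q B' x c) {j : ℕ}
    (χ : Inv L A' j) (I : Ideal B') (hI : ∀ Q : PrimeSpectrum B', I ≤ Q.asIdeal → dm L Q ≤ j)
    {x₀ c₀ : L} (h₀ : c₀ ^ q + c₀ = x₀ ^ (q + 1)) (ha : IsAlgebraic k x₀) :
    χ.val (A' ⧸ (I.map (algebraMap B' A') ⊔ ptI x c x₀ c₀)) = 0 := by
  obtain ⟨j, rfl⟩ : ∃ j', j = 0 + j' := ⟨j, (zero_add j).symm⟩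
  obtain ⟨O, _, _, x', c', hO⟩ := isCA_exists q L
  obtain ⟨g, rfl, rfl⟩ := hO.lift A' x c h.eqn
  let _ : Algebra O A' := g.toRingHom.toAlgebra
  have : IsScalarTower L O A' := IsScalarTower.of_algebraMap_eq fun a => (g.commutes a).symm
  have : Algebra.IsPushout L O B' A' := (hO.pushout (B' := B') (A' := A') h).symm
  have := hO.ft
  have : Algebra.FiniteType L A' := Algebra.FiniteType.trans ‹Algebra.FiniteType L B'› h.ft
  set J := I.map (algebraMap B' A') with hJ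
  obtain ⟨χ', -, hχ⟩ := χ.exists_surj (Ideal.Quotient.mk J) (fun _ => rfl)
    Ideal.Quotient.mk_surjective
  obtain ⟨e, -⟩ := pushout_quot (A := L) O A' I
  have : Module.Flat O (A' ⧸ J) := Module.Flat.of_linearEquiv e.symm
  have hd : ∀ Q : PrimeSpectrum (A' ⧸ J),
      dm L Q ≤ dm L (PrimeSpectrum.comap (algebraMap O (A' ⧸ J)) Q) + j := fun Q => by
    rw [dm_comap_int (Ideal.Quotient.mk J) (fun _ => rfl)
      (RingHom.isIntegral_of_surjective _ Ideal.Quotient.mk_surjective)]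
    refine (dm_push_le (O := O) (B := B') _).trans (Nat.add_le_add_left
      ((hI _ (Ideal.map_le_iff_le_comap.1 fun a ha => ?_)).trans_eq (zero_add j)) _)
    change Ideal.Quotient.mk J a ∈ Q.asIdeal
    rw [Ideal.Quotient.eq_zero_iff_mem.2 ha]
    exact zero_mem _
  obtain ⟨ω, -, hω⟩ := Inv.exists_flat (A := O) j hd χ'
  have hp : ∀ Q : PrimeSpectrum O, ptI x' c' x₀ c₀ ≤ Q.asIdeal → dm L Q ≤ 0 := fun Q hQ => by
    obtain ⟨f, -, -, hf⟩ := hO.ev h₀
    rw [← hf] at hQ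
    refine (dm_mono (P := PrimeSpectrum.comap (f : O →+* L) ⊥) hQ).trans
      ((dm_comap_le _ f.commutes _).trans_eq ?_)
    unfold dm dim
    rw [trdeg_eq_zero]
    simp
  have h1 := ca_tors hq hO ω h₀ ha
  have e1 : (ptI x' c' x₀ c₀).map (algebraMap O (A' ⧸ J)) =
      (ptI (g x') (g c') x₀ c₀).map (Ideal.Quotient.mk J) := by
    refine Eq.trans ?_ (congrArg _ (ptI_map (g : O →+* A') g.commutes x' c' x₀ c₀))
    rw [Ideal.map_map]
    rfl
  rwa [hω _ hp, hχ _ fun Q hQ => (hd Q).trans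
    (Nat.add_le_add_right (hp _ (Ideal.map_le_iff_le_comap.1 hQ)) _), e1,
    Ideal.comap_map_of_surjective _ Ideal.Quotient.mk_surjective, ← RingHom.ker_eq_comap_bot,
    Ideal.mk_ker, sup_comm] at h1

end Pool.Agent.MP_c1eb4d_ag
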