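import Pool.Agent.MP_c1eb4d_ag.UI
import Pool.Agent.MP_a9d3bd_ag.GalB

open Function TensorProduct Matrix

namespace Pool.Agent.MP_c1eb4d_ag

open Pool.Agent.MP_a9d3bd_ag

variable (k K L A AK A' : Type) [Field k] [Field K] [Algebra k K] [Field L] [Algebra k L]
  [Algebra K L] [IsScalarTower k K L] [CommRing A] [Algebra k A] [CommRing AK] [Algebra k AK]
  [Algebra K AK] [Algebra A AK] [IsScalarTower k K AK] [IsScalarTower k A AK]
  [Algebra.IsPushout k K A AK] [CommRing A'] [Algebra k A'] [Algebra L A'] [Algebra A A']
  [IsScalarTower k L A'] [IsScalarTower k A A']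

include k in
/-- an embedding of `K` into `L` gives a map of the base changes -/
theorem kstr : ∃ (_ : Algebra K A') (_ : IsScalarTower K L A') (_ : Algebra AK A')
    (_ : IsScalarTower K AK A'), IsScalarTower A AK A' := by
  let i1 : Algebra K A' := ((algebraMap L A').comp (algebraMap K L)).toAlgebra
  have t1 : IsScalarTower K L A' := IsScalarTower.of_algebraMap_eq fun _ => rfl
  have t2 : IsScalarTower k K A' := IsScalarTower.of_algebraMap_eq fun x => by
    rw [IsScalarTower.algebraMap_apply k L A', IsScalarTower.algebraMap_apply k K L,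
      IsScalarTower.algebraMap_apply K L A']
  let f : AK →ₐ[k] A' := Algebra.pushoutDesc AK (IsScalarTower.toAlgHom k K A')
    (IsScalarTower.toAlgHom k A A') fun _ _ => mul_comm _ _
  let i2 : Algebra AK A' := f.toRingHom.toAlgebra
  have t3 : IsScalarTower K AK A' := IsScalarTower.of_algebraMap_eq fun x =>
    (Algebra.pushoutDesc_left AK (IsScalarTower.toAlgHom k K A')
      (IsScalarTower.toAlgHom k A A') (fun _ _ => mul_comm _ _) x).symm
  have t4 : IsScalarTower A AK A' := IsScalarTower.of_algebraMap_eq fun x =>
    (Algebra.pushoutDesc_right AK (IsScalarTower.toAlgHom k K A')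
      (IsScalarTower.toAlgHom k A A') (fun _ _ => mul_comm _ _) x).symm
  exact ⟨i1, t1, i2, t3, t4⟩

include k A in
theorem kpush [Algebra.IsPushout k L A A'] [Algebra K A'] [IsScalarTower K L A'] [Algebra AK A']
    [IsScalarTower K AK A'] [IsScalarTower A AK A'] : Algebra.IsPushout K L AK A' := by
  have t1 : IsScalarTower k AK A' := IsScalarTower.of_algebraMap_eq fun x => by
    rw [IsScalarTower.algebraMap_apply k A A', IsScalarTower.algebraMap_apply k A AK,
      IsScalarTower.algebraMap_apply A AK A']
  exact (Algebra.IsPushout.comp_iff k K A AK (T := L) (T' := A')).1 inferInstance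

include k A in
/-- the square of the base changes of a map `A → B` -/
theorem ksq [Algebra.IsPushout k L A A'] [Algebra K A'] [IsScalarTower K L A'] [Algebra AK A']
    [IsScalarTower K AK A'] [IsScalarTower A AK A'] (B BK B' : Type) [CommRing B] [Algebra k B]
    [Algebra A B] [IsScalarTower k A B] [CommRing BK] [Algebra k BK] [Algebra K BK] [Algebra B BK]
    [IsScalarTower k K BK] [IsScalarTower k B BK] [Algebra.IsPushout k K B BK] [Algebra AK BK]
    [Algebra A BK] [IsScalarTower K AK BK] [IsScalarTower A AK BK] [IsScalarTower A B BK]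
    [CommRing B'] [Algebra k B'] [Algebra L B'] [Algebra B B'] [IsScalarTower k L B']
    [IsScalarTower k B B'] [Algebra.IsPushout k L B B'] [Algebra A' B'] [Algebra A B']
    [IsScalarTower L A' B'] [IsScalarTower A A' B'] [IsScalarTower A B B'] [Algebra K B']
    [IsScalarTower K L B'] [Algebra BK B'] [IsScalarTower K BK B'] [IsScalarTower B BK B'] :
    ∃ (_ : Algebra AK B') (_ : IsScalarTower AK A' B') (_ : IsScalarTower AK BK B'),
      Algebra.IsPushout AK A' BK B' := by
  let i1 : Algebra AK B' := ((algebraMap A' B').comp (algebraMap AK A')).toAlgebra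
  have t1 : IsScalarTower AK A' B' := IsScalarTower.of_algebraMap_eq fun _ => rfl
  have t2 : IsScalarTower AK BK B' := IsScalarTower.of_algebraMap_eq fun x => by
    refine GalB_ext k K A (algebraMap AK B') ((algebraMap BK B').comp (algebraMap AK BK))
      (fun l => ?_) (fun a => ?_) x
    · rw [RingHom.comp_apply, IsScalarTower.algebraMap_apply AK A' B',
        ← IsScalarTower.algebraMap_apply K AK A', ← IsScalarTower.algebraMap_apply K AK BK,
        ← IsScalarTower.algebraMap_apply K BK B', IsScalarTower.algebraMap_apply K L A',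
        ← IsScalarTower.algebraMap_apply L A' B', ← IsScalarTower.algebraMap_apply K L B']
    · rw [RingHom.comp_apply, IsScalarTower.algebraMap_apply AK A' B',
        ← IsScalarTower.algebraMap_apply A AK A', ← IsScalarTower.algebraMap_apply A AK BK,
        ← IsScalarTower.algebraMap_apply A A' B', IsScalarTower.algebraMap_apply A B BK,
        ← IsScalarTower.algebraMap_apply B BK B', ← IsScalarTower.algebraMap_apply A B B']
  have s1 : IsScalarTower k AK BK := IsScalarTower.of_algebraMap_eq fun x => by
    rw [IsScalarTower.algebraMap_apply k K BK, IsScalarTower.algebraMap_apply k K AK,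
      IsScalarTower.algebraMap_apply K AK BK]
  have s2 : IsScalarTower k A' B' := IsScalarTower.of_algebraMap_eq fun x => by
    rw [IsScalarTower.algebraMap_apply k L B', IsScalarTower.algebraMap_apply k L A',
      IsScalarTower.algebraMap_apply L A' B']
  have s3 : IsScalarTower A BK B' := IsScalarTower.of_algebraMap_eq fun x => by
    rw [IsScalarTower.algebraMap_apply A B B', IsScalarTower.algebraMap_apply A B BK,
      IsScalarTower.algebraMap_apply B BK B']
  have p1 : Algebra.IsPushout k A K AK := Algebra.IsPushout.symm inferInstance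
  have p2 : Algebra.IsPushout k A L A' := Algebra.IsPushout.symm inferInstance
  have p3 : Algebra.IsPushout A AK B BK :=
    ((Algebra.IsPushout.comp_iff k A K AK (T := B) (T' := BK)).1
      (Algebra.IsPushout.symm inferInstance)).symm
  have p4 : Algebra.IsPushout A A' B B' :=
    ((Algebra.IsPushout.comp_iff k A L A' (T := B) (T' := B')).1
      (Algebra.IsPushout.symm inferInstance)).symm
  exact ⟨i1, t1, t2, (Algebra.IsPushout.comp_iff A AK B BK (T := A') (T' := B')).1 p4⟩

end Pool.Agent.MP_c1eb4d_ag
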