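import Pool.Agent.MP_c1eb4d_ag.CA1
import Pool.Agent.MP_c1eb4d_ag.KStr

open Function TensorProduct Matrix

namespace Pool.Agent.MP_c1eb4d_ag

open Pool.Agent.MP_a9d3bd_ag

/-- the fibre over a rational point has small dimension -/
theorem CV3_supp {q : ℕ} {k K B A : Type} [Field k] [Field K] [Algebra k K] [CommRing B]
    [Algebra k B] [Algebra.FiniteType k B] [CommRing A] [Algebra k A] [Algebra B A]
    [IsScalarTower k B A] {x c : A} (hA : IsCA q B x c) (AK : Type)
    [CommRing AK] [Algebra k AK] [Algebra K AK] [Algebra A AK] [IsScalarTower k K AK]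
    [IsScalarTower k A AK] [Algebra.IsPushout k K A AK] (P : PrimeSpectrum B) {xK cK : K}
    (h₀ : cK ^ q + cK = xK ^ (q + 1)) {j : ℕ} (hP : dm k P ≤ j) (Q : PrimeSpectrum AK)
    (hQ : (P.asIdeal.map (algebraMap B A)).map (algebraMap A AK) ⊔
      ptI (algebraMap A AK x) (algebraMap A AK c) xK cK ≤ Q.asIdeal) : dm K Q ≤ j := by
  obtain ⟨BK, _, _, _, _, _, _, _, _, _, _, _, _, _, hp, hp'⟩ := bc_down k K B A AK
  have hAK := hA.bc BK AK
  obtain ⟨f, -, -, hf⟩ := hAK.ev (x₀ := algebraMap K BK xK) (c₀ := algebraMap K BK cK) (by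
    rw [← map_pow, ← map_pow, ← map_add, h₀])
  rw [ptI_tower] at hf
  have h1 : RingHom.ker f ≤ Q.asIdeal := hf ▸ le_sup_right.trans hQ
  rw [dm_comap_frac (algebraMap BK AK)
    (fun a => (IsScalarTower.algebraMap_apply K BK AK a).symm) Q fun b =>
      ⟨f b, 1, by
        rw [map_one]
        exact (Ideal.ne_top_iff_one _).1 Q.isPrime.ne_top, h1 (by
        rw [RingHom.mem_ker, map_one, one_mul, map_sub, AlgHom.commutes]
        exact sub_self _)⟩]
  refine BC_dm_le K BK hP _ (Ideal.map_le_iff_le_comap.2 fun b hb => ?_)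
  show algebraMap BK AK (algebraMap B BK b) ∈ Q.asIdeal
  rw [← IsScalarTower.algebraMap_apply, IsScalarTower.algebraMap_apply B A AK]
  exact le_sup_left.trans hQ (Ideal.mem_map_of_mem _ (Ideal.mem_map_of_mem _ hb))

/-- the fibres over the transcendental points -/
theorem cv_tr {q : ℕ} (hq : 2 ≤ q) {k O K B A : Type} [Field k] [CommRing O] [Algebra k O]
    {xO cO : O} (hO : IsCA q k xO cO) [Field K] [Algebra k K] [Algebra O K] [IsScalarTower k O K]
    [IsFractionRing O K] [CommRing B] [Algebra k B] [Algebra.FiniteType k B] [CommRing A]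
    [Algebra k A] [Algebra B A] [IsScalarTower k B A] {x c : A} (hA : IsCA q B x c) (AK : Type)
    [CommRing AK] [Algebra k AK] [Algebra K AK] [Algebra A AK] [IsScalarTower k K AK]
    [IsScalarTower k A AK] [Algebra.IsPushout k K A AK] (P : PrimeSpectrum B) :
    ∃ T : Set (PrimeSpectrum AK), T.Finite ∧
      ∀ (L A' : Type) [Field L] [Algebra k L] [CommRing A'] [Algebra k A']
        [Algebra L A'] [Algebra A A'] [IsScalarTower k L A'] [IsScalarTower k A A']
        [Algebra.IsPushout k L A A'] (j : ℕ) (χ : Inv L A' j), KillsK k K A T χ → dm k P ≤ j →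
        ∀ x₀ c₀ : L, c₀ ^ q + c₀ = x₀ ^ (q + 1) → Transcendental k x₀ →
          χ.val (A' ⧸ ((P.asIdeal.map (algebraMap B A)).map (algebraMap A A') ⊔
            ptI (algebraMap A A' x) (algebraMap A A' c) x₀ c₀)) = 0 := by
  have hBA := hA.ft
  have hkA : Algebra.FiniteType k A := Algebra.FiniteType.trans (S := B) inferInstance hBA
  have hAK : Algebra.FiniteType K AK := ft_bc k K A AK
  have h₀ : algebraMap O K cO ^ q + algebraMap O K cO = algebraMap O K xO ^ (q + 1) := by
    rw [← map_pow, ← map_pow, ← map_add, hO.eqn]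
  obtain ⟨T, hT, h⟩ := exists_kill K (A := AK)
    (AK ⧸ ((P.asIdeal.map (algebraMap B A)).map (algebraMap A AK) ⊔
      ptI (algebraMap A AK x) (algebraMap A AK c) (algebraMap O K xO) (algebraMap O K cO)))
  refine ⟨T, hT, fun L A' _ _ _ _ _ _ _ _ _ j χ hk hP x₀ c₀ he ht => ?_⟩
  obtain ⟨f, hx, hc⟩ := hO.lift L x₀ c₀ he
  have hf : Injective f := hO.inj hq f (hx ▸ ht)
  have hdom := hO.isDomain hq
  let g : K →ₐ[k] L := IsFractionRing.liftAlgHom hf
  have hg : ∀ a : O, g (algebraMap O K a) = f a := fun a => by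
    rw [IsFractionRing.liftAlgHom_apply, IsFractionRing.lift_algebraMap]
    rfl
  let : Algebra K L := g.toRingHom.toAlgebra
  have : IsScalarTower k K L := IsScalarTower.of_algebraMap_eq fun a => (g.commutes a).symm
  obtain ⟨_, _, _, _, _⟩ := kstr k K L A AK A'
  have := kpush k K L A AK A'
  have hs : Module.support AK (AK ⧸ ((P.asIdeal.map (algebraMap B A)).map (algebraMap A AK) ⊔
      ptI (algebraMap A AK x) (algebraMap A AK c) (algebraMap O K xO) (algebraMap O K cO))) ⊆
      SD K AK j := fun Q hQ => CV3_supp hA AK P h₀ hP Q ((mem_supp_quot _ Q).1 hQ)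
  have h1 := h L A' j χ hk hs
  obtain ⟨e⟩ := tensor_quot (B := A') ((P.asIdeal.map (algebraMap B A)).map (algebraMap A AK) ⊔
      ptI (algebraMap A AK x) (algebraMap A AK c) (algebraMap O K xO) (algebraMap O K cO))
  rw [χ.toAdv.val_equiv e fun Q hQ => (dm_bc K L A' Q).trans (hs (supp_tensor _ hQ))] at h1
  have hx' : algebraMap K L (algebraMap O K xO) = x₀ := (hg xO).trans hx
  have hc' : algebraMap K L (algebraMap O K cO) = c₀ := (hg cO).trans hc
  rw [Ideal.map_sup, Ideal.map_map (algebraMap A AK), ← IsScalarTower.algebraMap_eq,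
    ptI_map _ fun a => (IsScalarTower.algebraMap_apply K AK A' a).symm,
    ← IsScalarTower.algebraMap_apply, ← IsScalarTower.algebraMap_apply,
    ← ptI_tower (B := L), hx', hc'] at h1
  exact h1

end Pool.Agent.MP_c1eb4d_ag
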