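import Pool.Agent.MP_c1eb4d_ag.CA1
import Pool.Agent.MP_c1eb4d_ag.CGen

open Function TensorProduct Matrix

namespace Pool.Agent.MP_c1eb4d_ag

open Pool.Agent.MP_a9d3bd_ag

theorem CV4_loc (O A : Type) [CommRing O] [IsDomain O] [CommRing A] [Algebra O A] :
    ∃ (K A' : Type) (_ : Field K) (_ : Algebra O K) (_ : IsFractionRing O K) (_ : CommRing A')
      (_ : Algebra A A') (_ : Algebra K A') (_ : Algebra O A') (_ : IsScalarTower O A A')
      (_ : IsScalarTower O K A'),
      IsLocalization (Algebra.algebraMapSubmonoid A (nonZeroDivisors O)) A' := by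
  let := Algebra.TensorProduct.rightAlgebra (R := O) (A := FractionRing O) (B := A)
  exact ⟨FractionRing O, FractionRing O ⊗[O] A, inferInstance, inferInstance, inferInstance,
    inferInstance, inferInstance, inferInstance, inferInstance, inferInstance, inferInstance,
    (Algebra.isLocalization_iff_isPushout (nonZeroDivisors O) (FractionRing O)).2
      (Algebra.IsPushout.symm inferInstance)⟩

theorem CV4_push (k L B B' O A K A' : Type) [CommRing k] [CommRing L] [Algebra k L] [CommRing B]
    [Algebra k B] [CommRing B'] [Algebra L B'] [Algebra k B'] [Algebra B B'] [IsScalarTower k L B']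
    [IsScalarTower k B B'] [Algebra.IsPushout k L B B'] [CommRing O] [Algebra L O] [CommRing A]
    [Algebra L A] [Algebra B' A] [IsScalarTower L B' A] [Algebra B A] [IsScalarTower B B' A]
    [Algebra O A] [IsScalarTower L O A] [Algebra.IsPushout L O B' A] [CommRing K] [Algebra O K]
    [CommRing A'] [Algebra A A'] [Algebra K A'] [Algebra O A'] [IsScalarTower O A A']
    [IsScalarTower O K A'] [Algebra.IsPushout O K A A'] :
    ∃ (_ : Algebra k K) (_ : Algebra k A') (_ : Algebra B A') (_ : IsScalarTower k K A')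
      (_ : IsScalarTower k B A') (_ : IsScalarTower B A A'), Algebra.IsPushout k K B A' := by
  let : Algebra L K := ((algebraMap O K).comp (algebraMap L O)).toAlgebra
  let : Algebra L A' := ((algebraMap A A').comp (algebraMap L A)).toAlgebra
  let : Algebra B' A' := ((algebraMap A A').comp (algebraMap B' A)).toAlgebra
  let : Algebra k K := ((algebraMap L K).comp (algebraMap k L)).toAlgebra
  let : Algebra k A' := ((algebraMap L A').comp (algebraMap k L)).toAlgebra
  let : Algebra B A' := ((algebraMap A A').comp (algebraMap B A)).toAlgebra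
  have : IsScalarTower L O K := .of_algebraMap_eq fun _ => rfl
  have : IsScalarTower L A A' := .of_algebraMap_eq fun _ => rfl
  have : IsScalarTower B' A A' := .of_algebraMap_eq fun _ => rfl
  have : IsScalarTower B A A' := .of_algebraMap_eq fun _ => rfl
  have : IsScalarTower k L K := .of_algebraMap_eq fun _ => rfl
  have : IsScalarTower k L A' := .of_algebraMap_eq fun _ => rfl
  have : IsScalarTower L K A' := .of_algebraMap_eq fun a => by
    rw [IsScalarTower.algebraMap_apply L O K, ← IsScalarTower.algebraMap_apply O K A',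
      IsScalarTower.algebraMap_apply O A A', ← IsScalarTower.algebraMap_apply L O A,
      ← IsScalarTower.algebraMap_apply L A A']
  have : IsScalarTower L B' A' := .of_algebraMap_eq fun a => by
    rw [IsScalarTower.algebraMap_apply B' A A', ← IsScalarTower.algebraMap_apply L B' A,
      ← IsScalarTower.algebraMap_apply L A A']
  have : IsScalarTower B B' A' := .of_algebraMap_eq fun a => by
    rw [IsScalarTower.algebraMap_apply B' A A', ← IsScalarTower.algebraMap_apply B B' A,
      ← IsScalarTower.algebraMap_apply B A A']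
  have : IsScalarTower k K A' := .of_algebraMap_eq fun a => by
    rw [IsScalarTower.algebraMap_apply k L K, ← IsScalarTower.algebraMap_apply L K A',
      ← IsScalarTower.algebraMap_apply k L A']
  have : IsScalarTower k B' A' := .of_algebraMap_eq fun a => by
    rw [IsScalarTower.algebraMap_apply k L B', ← IsScalarTower.algebraMap_apply L B' A',
      ← IsScalarTower.algebraMap_apply k L A']
  have : IsScalarTower k B A' := .of_algebraMap_eq fun a => by
    rw [IsScalarTower.algebraMap_apply B B' A', ← IsScalarTower.algebraMap_apply k B B',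
      ← IsScalarTower.algebraMap_apply k B' A']
  have : Algebra.IsPushout L K B' A' :=
    (Algebra.IsPushout.comp_iff L O B' A (T := K) (T' := A')).2 inferInstance
  exact ⟨inferInstance, inferInstance, inferInstance, inferInstance, inferInstance, inferInstance,
    (Algebra.IsPushout.comp_iff k L B B' (T := K) (T' := A')).2 inferInstance⟩

/-- the points over the generic point of the curve -/
theorem cv_gen {q : ℕ} (hq : 2 ≤ q) {k L B B' A' : Type} [Field k] [Field L] [IsAlgClosed L]
    [Algebra k L] [CommRing B] [Algebra k B] [Algebra.FiniteType k B] [CommRing B'] [Algebra L B']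
    [Algebra k B'] [Algebra B B'] [IsScalarTower k L B'] [IsScalarTower k B B']
    [Algebra.IsPushout k L B B'] [CommRing A'] [Algebra L A'] [Algebra B' A']
    [IsScalarTower L B' A'] [Algebra B A'] [IsScalarTower B B' A'] {x c : A'} (h : IsCA q B' x c)
    {T : Set (PrimeSpectrum B)}
    (hB : ∀ (L₂ B₂ : Type) [Field L₂] [Algebra k L₂] [CommRing B₂] [Algebra k B₂] [Algebra L₂ B₂]
      [Algebra B B₂] [IsScalarTower k L₂ B₂] [IsScalarTower k B B₂] [Algebra.IsPushout k L₂ B B₂],
        VanAt k L₂ B₂ T)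
    {j : ℕ} (χ : Inv L A' j)
    (h0 : ∀ x₀ c₀ : L, c₀ ^ q + c₀ = x₀ ^ (q + 1) → ∀ Q : PrimeSpectrum A',
      ptI x c x₀ c₀ ≤ Q.asIdeal → dm L Q ≤ j → χ.val (A' ⧸ Q.asIdeal) = 0)
    (hk : ∀ P ∈ T, dm k P + 1 ≤ j → χ.val (A' ⧸ P.asIdeal.map (algebraMap B A')) = 0)
    (Q : PrimeSpectrum A') (hj : dm L Q ≤ j) : χ.val (A' ⧸ Q.asIdeal) = 0 := by
  obtain ⟨O, _, _, xO, cO, hO⟩ := isCA_exists q L
  have := hO.isDomain hq
  obtain ⟨f, hx, hc⟩ := hO.lift A' x c h.eqn
  let : Algebra O A' := f.toRingHom.toAlgebra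
  have : IsScalarTower L O A' := .of_algebraMap_eq fun a => (f.commutes a).symm
  subst hx hc
  have : Algebra.IsPushout L O B' A' := (hO.pushout (B' := B') (A' := A') h).symm
  have : Algebra.FiniteType L B' :=
    Algebra.FiniteType.equiv inferInstance (Algebra.IsPushout.equiv k L B B')
  have : Algebra.FiniteType L A' := Algebra.FiniteType.trans this h.ft
  have hcl : ∀ Q : PrimeSpectrum A', (∃ s : O, s ≠ 0 ∧ algebraMap O A' s ∈ Q.asIdeal) →
      dm L Q ≤ j → χ.val (A' ⧸ Q.asIdeal) = 0 := by
    rintro Q ⟨s, hs, hQ⟩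
    obtain ⟨x₀, c₀, h1, h2⟩ := hO.prime hq (Q.asIdeal.comap (algebraMap O A')) fun h =>
      hs ((Ideal.mem_bot).1 (h ▸ (Ideal.mem_comap.2 hQ)))
    refine h0 x₀ c₀ h1 Q ?_
    have h3 := Ideal.map_le_iff_le_comap.2 h2
    rwa [ptI_map (algebraMap O A') f.commutes] at h3
  by_cases hQ : ∃ s : O, s ≠ 0 ∧ algebraMap O A' s ∈ Q.asIdeal
  · exact hcl Q hQ hj
  obtain ⟨K, A'', _, _, _, _, _, _, _, _, _, _⟩ := CV4_loc O A'
  have : Algebra.IsPushout O K A' A'' :=
    (Algebra.isPushout_of_isLocalization (nonZeroDivisors O) K A' A'').symm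
  obtain ⟨_, _, _, _, _, _, _⟩ := CV4_push k L B B' O A' K A''
  have : Algebra.FiniteType K A'' :=
    Algebra.FiniteType.equiv inferInstance (Algebra.IsPushout.equiv k K B A'')
  have hd : Disjoint (Algebra.algebraMapSubmonoid A' (nonZeroDivisors O) : Set A') Q.asIdeal := by
    rw [Set.disjoint_left]
    rintro _ ⟨s, hs, rfl⟩ h
    exact hQ ⟨s, nonZeroDivisors.ne_zero hs, h⟩
  let Q' : PrimeSpectrum A'' := ⟨Q.asIdeal.map (algebraMap A' A''),
    IsLocalization.isPrime_of_isPrime_disjoint _ A'' _ Q.isPrime hd⟩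
  have h1 : PrimeSpectrum.comap (algebraMap A' A'') Q' = Q :=
    PrimeSpectrum.ext (IsLocalization.under_map_of_isPrime_disjoint _ A'' Q.isPrime hd)
  have h2 := dm_gen (K := K) (A := A') (hO.trdeg hq) Q'
  rw [h1] at h2
  obtain ⟨i, rfl⟩ : ∃ i, j = i + 1 := ⟨j - 1, by omega⟩
  obtain ⟨χ', hχ⟩ := gen_fibre (K := K) (A' := A'') (hO.trdeg hq) χ hcl
  rw [← hχ Q.asIdeal fun Q₁ h => (dm_mono h).trans hj]
  refine hB K A'' i χ' (fun P hP hi => ?_) Q' (by omega)
  rw [IsScalarTower.algebraMap_eq B A' A'', ← Ideal.map_map, hχ _ fun Q₁ h₁ => ?_,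
    hk P hP (by omega)]
  refine (h.dm_le hq L Q₁).trans (Nat.succ_le_succ (BC_dm_le L B' hi _ ?_))
  rw [IsScalarTower.algebraMap_eq B B' A', ← Ideal.map_map] at h₁
  exact Ideal.map_le_iff_le_comap.1 h₁

end Pool.Agent.MP_c1eb4d_ag
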