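import Pool.Agent.MP_c1eb4d_ag.KTrK

open Function TensorProduct Matrix

namespace Pool.Agent.MP_c1eb4d_ag

open Pool.Agent.MP_a9d3bd_ag

variable {k K A : Type} [Field k] [Field K] [Algebra k K] [CommRing A] [Algebra k A]

theorem vanK_of_van (h : Van k A) : VanK k K A := by
  obtain ⟨T, hT, h⟩ := h
  intro AK _ _ _ _ _ _ _
  exact ⟨T, ∅, hT, Set.finite_empty, fun L A' _ _ _ _ _ _ _ _ _ _ j χ hk _ Q hj =>
    h L A' j χ hk Q hj⟩

theorem killsK_mono {AK L A' : Type} [Field L] [Algebra k L] [CommRing AK] [Algebra K AK]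
    [Algebra A AK] [CommRing A'] [Algebra L A'] [Algebra A A'] {j : ℕ}
    {T T' : Set (PrimeSpectrum AK)} (h : T ⊆ T') {χ : Inv L A' j} (hk : KillsK k K A T' χ) :
    KillsK k K A T χ := by
  intro _ _ _ _ _ _ _ P hP hd
  exact hk P (h hP) hd

variable [Algebra.FiniteType k A]

/-- a closed subscheme with the property -/
theorem vanK_closed {B : Type} [CommRing B] [Algebra k B] [Algebra A B] [IsScalarTower k A B]
    (hs : Surjective (algebraMap A B)) (h : VanK k K B) (AK : Type) [CommRing AK] [Algebra k AK]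
    [Algebra K AK] [Algebra A AK] [IsScalarTower k K AK] [IsScalarTower k A AK]
    [Algebra.IsPushout k K A AK] :
    ∃ (T₀ : Set (PrimeSpectrum A)) (T₁ : Set (PrimeSpectrum AK)), T₀.Finite ∧ T₁.Finite ∧
      ∀ (L A' : Type) [Field L] [IsAlgClosed L] [Algebra k L] [CommRing A'] [Algebra k A']
        [Algebra L A'] [Algebra A A'] [IsScalarTower k L A'] [IsScalarTower k A A']
        [Algebra.IsPushout k L A A'] (j : ℕ) (χ : Inv L A' j), Kills k T₀ χ → KillsK k K A T₁ χ →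
          ∀ Q : PrimeSpectrum A', (RingHom.ker (algebraMap A B)).map (algebraMap A A') ≤ Q.asIdeal →
            dm L Q ≤ j → χ.val (A' ⧸ Q.asIdeal) = 0 := by
  have : Algebra.FiniteType k B :=
    Algebra.FiniteType.of_surjective (IsScalarTower.toAlgHom k A B) hs
  obtain ⟨BK, _, _, _, _, _, _, _, _, _, _, _, _, _, _, _⟩ := bc_up k K A AK B
  obtain ⟨T₀, T₁, h₀, h₁, h⟩ := h BK
  obtain ⟨T₀', h₀', H₀⟩ := tr_surj (F := k) hs T₀ h₀
  obtain ⟨T₁', h₁', H₁⟩ := trK_surj k K A AK B BK hs T₁ h₁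
  refine ⟨T₀', T₁', h₀', h₁', fun L A' _ _ _ _ _ _ _ _ _ _ j χ hk hk' Q hQ hj => ?_⟩
  obtain ⟨B', _, _, _, _, _, _, _, _, _, _, _, _, _, _, _⟩ := bc_up k L A A' B
  have : Algebra.FiniteType L A' := ft_bc k L A A'
  have : Algebra.FiniteType L B' := ft_bc k L B B'
  have hφ : ∀ c : L, algebraMap A' B' (algebraMap L A' c) = algebraMap L B' c :=
    fun c => (IsScalarTower.algebraMap_apply L A' B' c).symm
  have hφs := BC_surj A A' B B' hs
  have hQ' := (BC_ker A A' B B' hs).trans hQ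
  obtain ⟨χ', -, hχ⟩ := χ.exists_surj (algebraMap A' B') hφ hφs
  let Q' : PrimeSpectrum B' :=
    ⟨Q.asIdeal.map (algebraMap A' B'), Ideal.map_isPrime_of_surjective hφs hQ'⟩
  have eQ : Q'.asIdeal.comap (algebraMap A' B') = Q.asIdeal := by
    show (Q.asIdeal.map (algebraMap A' B')).comap (algebraMap A' B') = _
    rw [Ideal.comap_map_of_surjective _ hφs, sup_eq_left]
    exact hQ'
  have eQ' : PrimeSpectrum.comap (algebraMap A' B') Q' = Q := PrimeSpectrum.ext eQ
  have hd : dm L Q' ≤ j := by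
    rwa [dm_comap_int _ hφ (RingHom.isIntegral_of_surjective _ hφs), eQ']
  have h0 := h L B' j χ' (H₀ L A' B' j χ χ' hχ hk) (H₁ L A' B' j χ χ' hχ hk') Q' hd
  rwa [hχ _ fun R hR => (dm_mono (P := Q') (Q := R) hR).trans hd, eQ] at h0

theorem vanK_of_equiv {B : Type} [CommRing B] [Algebra k B] (e : A ≃ₐ[k] B) (h : VanK k K A) :
    VanK k K B := by
  have : Algebra.FiniteType k B := Algebra.FiniteType.equiv inferInstance e
  let : Algebra B A := (e.symm : B →+* A).toAlgebra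
  have : IsScalarTower k B A := IsScalarTower.of_algebraMap_eq fun c => (e.symm.commutes c).symm
  intro BK _ _ _ _ _ _ _
  obtain ⟨T₀, T₁, h₀, h₁, h⟩ := vanK_closed (k := k) (A := B) (B := A) e.symm.surjective h BK
  refine ⟨T₀, T₁, h₀, h₁, fun L B' _ _ _ _ _ _ _ _ _ _ j χ hk hk' Q hj => h L B' j χ hk hk' Q ?_ hj⟩
  have hker : RingHom.ker (algebraMap B A) = ⊥ :=
    (RingHom.injective_iff_ker_eq_bot _).1 e.symm.injective
  rw [hker, Ideal.map_bot]
  exact bot_le

end Pool.Agent.MP_c1eb4d_ag
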