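import Pool.Agent.MP_c1eb4d_ag.CV1
import Pool.Agent.MP_c1eb4d_ag.CV3
import Pool.Agent.MP_c1eb4d_ag.CV4
import Pool.Agent.MP_c1eb4d_ag.KClosed

open Function TensorProduct Matrix

namespace Pool.Agent.MP_c1eb4d_ag

open Pool.Agent.MP_a9d3bd_ag

/-- the product with the Hermitian curve -/
theorem vanK_curve {F k O K B A : Type} [Field F] [Fintype F] [Field k] [Algebra F k]
    [Algebra.IsAlgebraic F k] {q : ℕ} (hq : Fintype.card F = q ^ 2) [CommRing O] [Algebra k O]
    {xO cO : O} (hO : IsCA q k xO cO) [Field K] [Algebra k K] [Algebra O K] [IsScalarTower k O K]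
    [IsFractionRing O K] [CommRing B] [Algebra k B] [Algebra.FiniteType k B] [CommRing A]
    [Algebra k A] [Algebra B A] [IsScalarTower k B A] {x c : A} (hA : IsCA q B x c)
    (hB : Van k B) : VanK k K A := by
  intro AK _ _ _ _ _ _ _
  have hq2 : 2 ≤ q := by
    by_contra h
    have h1 := Fintype.one_lt_card (α := F)
    have h2 : q ^ 2 ≤ 1 ^ 2 := Nat.pow_le_pow_left (by omega) 2
    omega
  have := hA.ft
  have : Algebra.FiniteType k A := Algebra.FiniteType.trans (S := B) inferInstance inferInstance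
  obtain ⟨T, hT, hV⟩ := hB
  choose T₀ hT₀ h₀ using fun P : PrimeSpectrum B =>
    exists_kill k (A := A) (A ⧸ P.asIdeal.map (algebraMap B A))
  choose T₁ hT₁ h₁ using fun P : PrimeSpectrum B => cv_tr hq2 hO (K := K) hA AK P
  refine ⟨⋃ P ∈ T, T₀ P, ⋃ P ∈ T, T₁ P, hT.biUnion fun P _ => hT₀ P, hT.biUnion fun P _ => hT₁ P,
    fun L A' _ _ _ _ _ _ _ _ _ _ j χ k₀ k₁ Q hQ => ?_⟩
  obtain ⟨B', _, _, _, _, _, _, _, _, _, _, _, _, _, _, _⟩ := bc_down k L B A A'
  have hA' := hA.bc B' A'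
  have : Algebra.FiniteType L B' := ft_bc k L (A := B) B'
  have hm : ∀ I : Ideal B, (I.map (algebraMap B A)).map (algebraMap A A') =
      I.map (algebraMap B A') := fun I => by
    rw [Ideal.map_map, ← IsScalarTower.algebraMap_eq]
  have hm' : ∀ I : Ideal B, (I.map (algebraMap B B')).map (algebraMap B' A') =
      I.map (algebraMap B A') := fun I => by
    rw [Ideal.map_map, ← IsScalarTower.algebraMap_eq]
  refine cv_gen (k := k) hq2 hA' hV χ (fun x₀ c₀ he Q' hQ' hj => ?_) (fun P hP hd => ?_) Q hQ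
  · refine cv_fibre (k := k) hA' (hV L B') χ he (fun P hP hd => ?_) Q' hQ' hj
    by_cases ha : IsAlgebraic k x₀
    · rw [← hm']
      exact cv_alg hq hA' χ _ (BC_dm_le L B' hd) he ha
    · rw [← hm]
      refine h₁ P L A' j χ ?_ hd x₀ c₀ he ha
      intro _ _ _ _ _ _ _ R hR
      exact k₁ R (Set.subset_biUnion_of_mem (u := T₁) hP hR)
  · have h2 : Module.support A (A ⧸ P.asIdeal.map (algebraMap B A)) ⊆ SD k A j := fun R hR =>
      (hA.dm_le hq2 k R).trans ((Nat.add_le_add_right (dm_mono (L := k)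
        (Ideal.map_le_iff_le_comap.1 ((mem_supp_quot _ R).1 hR))) 1).trans hd)
    have h3 := h₀ P L A' j χ
      (fun R hR => k₀ R (Set.subset_biUnion_of_mem (u := T₀) hP hR)) h2
    obtain ⟨e⟩ := tensor_quot (B := A') (P.asIdeal.map (algebraMap B A))
    rw [← hm, ← χ.toAdv.val_equiv e fun R hR =>
      (dm_bc k L (A := A) A' R).trans (h2 (supp_tensor _ hR))]
    exact h3

end Pool.Agent.MP_c1eb4d_ag
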