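import Pool.Agent.MP_c1eb4d_ag.CA0

open Function TensorProduct Matrix

namespace Pool.Agent.MP_c1eb4d_ag

open Pool.Agent.MP_a9d3bd_ag

theorem KBr0_den {k O K A : Type} [Field k] [CommRing O] [IsDomain O] [Field K] [Algebra k K]
    [Algebra O K] [IsFractionRing O K] [CommRing A] [Algebra k A] (R : Subring (K ⊗[k] A))
    (h1 : ∀ o : O, algebraMap O K o ⊗ₜ[k] (1 : A) ∈ R) (h2 : ∀ a : A, (1 : K) ⊗ₜ[k] a ∈ R)
    (p : K ⊗[k] A) : ∃ s : O, s ≠ 0 ∧ algebraMap O K s ⊗ₜ[k] (1 : A) * p ∈ R := by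
  induction p using TensorProduct.induction_on with
  | zero => exact ⟨1, one_ne_zero, by rw [mul_zero]; exact R.zero_mem⟩
  | tmul z a =>
    obtain ⟨u, t, ht, rfl⟩ := IsFractionRing.div_surjective (A := O) z
    have ht0 : t ≠ 0 := nonZeroDivisors.ne_zero ht
    have ht1 : algebraMap O K t ≠ 0 := (map_ne_zero_iff _ (IsFractionRing.injective O K)).2 ht0
    refine ⟨t, ht0, ?_⟩
    have e : algebraMap O K t ⊗ₜ[k] (1 : A) * (algebraMap O K u / algebraMap O K t) ⊗ₜ[k] a =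
        algebraMap O K u ⊗ₜ[k] (1 : A) * (1 : K) ⊗ₜ[k] a := by
      rw [Algebra.TensorProduct.tmul_mul_tmul, Algebra.TensorProduct.tmul_mul_tmul, mul_one,
        mul_div_cancel₀ _ ht1]
    rw [e]
    exact R.mul_mem (h1 u) (h2 a)
  | add p p' hp hp' =>
    obtain ⟨s, hs, h⟩ := hp
    obtain ⟨t, ht, h'⟩ := hp'
    refine ⟨s * t, mul_ne_zero hs ht, ?_⟩
    have e : algebraMap O K (s * t) ⊗ₜ[k] (1 : A) =
        algebraMap O K s ⊗ₜ[k] (1 : A) * algebraMap O K t ⊗ₜ[k] (1 : A) := by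
      rw [Algebra.TensorProduct.tmul_mul_tmul, mul_one, map_mul]
    have e' : algebraMap O K s ⊗ₜ[k] (1 : A) * algebraMap O K t ⊗ₜ[k] (1 : A) * (p + p') =
        algebraMap O K t ⊗ₜ[k] (1 : A) * (algebraMap O K s ⊗ₜ[k] (1 : A) * p) +
          algebraMap O K s ⊗ₜ[k] (1 : A) * (algebraMap O K t ⊗ₜ[k] (1 : A) * p') := by ring
    rw [e, e']
    exact R.add_mem (R.mul_mem (h1 t) h) (R.mul_mem (h1 s) h')

theorem KBr0_map {k O K A B : Type} [Field k] [CommRing O] [IsDomain O] [Field K] [Algebra k K]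
    [Algebra O K] [IsFractionRing O K] [CommRing A] [Algebra k A] [CommRing B]
    (ψ : B →+* K ⊗[k] A) (h1 : ∀ o : O, algebraMap O K o ⊗ₜ[k] (1 : A) ∈ ψ.range)
    (h2 : ∀ a : A, (1 : K) ⊗ₜ[k] a ∈ ψ.range) (P : Ideal (K ⊗[k] A)) :
    (P.comap ψ).map ψ = P := by
  refine le_antisymm Ideal.map_comap_le fun p hp => ?_
  obtain ⟨s, hs, z, hz⟩ := KBr0_den ψ.range h1 h2 p
  have hs1 : algebraMap O K s ≠ 0 := (map_ne_zero_iff _ (IsFractionRing.injective O K)).2 hs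
  have h3 : z ∈ P.comap ψ := by
    rw [Ideal.mem_comap, hz]
    exact P.mul_mem_left _ hp
  have e : p = (algebraMap O K s)⁻¹ ⊗ₜ[k] (1 : A) * ψ z := by
    rw [hz, ← mul_assoc, Algebra.TensorProduct.tmul_mul_tmul, inv_mul_cancel₀ hs1, mul_one,
      ← Algebra.TensorProduct.one_def, one_mul]
  rw [e]
  exact Ideal.mul_mem_left _ _ (Ideal.mem_map_of_mem ψ h3)

/-- an ideal over the function field of the curve spreads out to a family -/
theorem spread {q : ℕ} {k O K A : Type} [Field k] [CommRing O] [IsDomain O] [Algebra k O]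
    {xO cO : O} (hO : IsCA q k xO cO) [Field K] [Algebra k K] [Algebra O K] [IsScalarTower k O K]
    [IsFractionRing O K] [CommRing A] [Algebra k A] (P : Ideal (K ⊗[k] A)) :
    ∃ I : Ideal (MvPolynomial (Fin 2) A), ∀ (L : Type) [Field L] [Algebra k L] (s : K →ₐ[k] L)
      (φ : K ⊗[k] A →+* L ⊗[k] A), (∀ (z : K) (a : A), φ (z ⊗ₜ[k] a) = s z ⊗ₜ[k] a) →
        P.map φ = fibre k L I ![s (algebraMap O K xO), s (algebraMap O K cO)] := by
  let ψ : MvPolynomial (Fin 2) A →+* K ⊗[k] A :=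
    MvPolynomial.eval₂Hom (Algebra.TensorProduct.includeRight : A →ₐ[k] K ⊗[k] A).toRingHom
      fun i => (![algebraMap O K xO, algebraMap O K cO] : Fin 2 → K) i ⊗ₜ[k] (1 : A)
  have hC : ∀ a : A, ψ (MvPolynomial.C a) = (1 : K) ⊗ₜ[k] a := fun a =>
    MvPolynomial.eval₂Hom_C _ _ a
  have hX : ∀ i, ψ (MvPolynomial.X i) =
      (![algebraMap O K xO, algebraMap O K cO] : Fin 2 → K) i ⊗ₜ[k] (1 : A) := fun i =>
    MvPolynomial.eval₂Hom_X' _ _ i
  have h2 : ∀ a : A, (1 : K) ⊗ₜ[k] a ∈ ψ.range := fun a => ⟨_, hC a⟩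
  have h1 : ∀ o : O, algebraMap O K o ⊗ₜ[k] (1 : A) ∈ ψ.range := by
    intro o
    have ho : o ∈ Algebra.adjoin k {xO, cO} := hO.adjoin ▸ Algebra.mem_top
    induction ho using Algebra.adjoin_induction with
    | mem y hy =>
      rcases hy with rfl | rfl
      · exact ⟨_, hX 0⟩
      · exact ⟨_, hX 1⟩
    | algebraMap r =>
      rw [← IsScalarTower.algebraMap_apply, Algebra.algebraMap_eq_smul_one, smul_tmul]
      exact h2 _
    | add y z _ _ hy hz =>
      rw [map_add, add_tmul]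
      exact Subring.add_mem _ hy hz
    | mul y z _ _ hy hz =>
      have := Subring.mul_mem _ hy hz
      rwa [Algebra.TensorProduct.tmul_mul_tmul, mul_one, ← map_mul] at this
  refine ⟨P.comap ψ, fun L _ _ s φ hφ => ?_⟩
  have e : φ.comp ψ = MvPolynomial.eval₂Hom
      (Algebra.TensorProduct.includeRight : A →ₐ[k] L ⊗[k] A).toRingHom
      fun i => (![s (algebraMap O K xO), s (algebraMap O K cO)] : Fin 2 → L) i ⊗ₜ[k] (1 : A) := by
    refine MvPolynomial.ringHom_ext (fun a => ?_) fun i => ?_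
    · rw [RingHom.comp_apply, hC, hφ, map_one, MvPolynomial.eval₂Hom_C]
      rfl
    · rw [RingHom.comp_apply, hX, hφ, MvPolynomial.eval₂Hom_X']
      fin_cases i <;> rfl
  unfold fibre
  rw [← e, ← Ideal.map_map, KBr0_map ψ h1 h2 P]

end Pool.Agent.MP_c1eb4d_ag
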