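import Pool.Agent.MP_c1eb4d_ag.KBr0
import Pool.Agent.MP_c1eb4d_ag.KStr
import Pool.Agent.MP_a9d3bd_ag.Bridge

open Function TensorProduct Matrix

namespace Pool.Agent.MP_c1eb4d_ag

open Pool.Agent.MP_a9d3bd_ag

theorem curveSpanned_of_chow {k A : Type} [Field k] [CommRing A] [Algebra k A]
    (h : ChowSpanned k A) (q : ℕ) (c : Prop) : CurveSpanned k A q c := by
  obtain ⟨T, H⟩ := h
  exact ⟨T, ∅, fun _ => rfl, fun L _ _ _ j Q hQ => Submodule.mem_sup_left (H L j Q hQ)⟩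

theorem vanK_bridge {q : ℕ} {k O K A : Type} [Field k] [CommRing O] [IsDomain O] [Algebra k O]
    {xO cO : O} (hO : IsCA q k xO cO) [Field K] [Algebra k K] [Algebra O K] [IsScalarTower k O K]
    [IsFractionRing O K] [CommRing A] [Algebra k A] [Algebra.FiniteType k A] (h : VanK k K A)
    {c : Prop} (hc : ¬ c) : CurveSpanned k A q c := by
  classical
  let := Algebra.TensorProduct.rightAlgebra (R := k) (A := K) (B := A)
  have : Algebra.FiniteType K (K ⊗[k] A) := ft_bc k K A _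
  obtain ⟨T, T₁, hT, hT₁, H⟩ := h (K ⊗[k] A)
  choose sp hsp using fun P : Ideal (K ⊗[k] A) => spread hO P
  refine ⟨hT.toFinset, hT₁.toFinset.image fun P => sp P.asIdeal, fun h => absurd h hc,
    fun L _ _ _ j Q hQ => ?_⟩
  let := Algebra.TensorProduct.rightAlgebra (R := k) (A := L) (B := A)
  have : Algebra.FiniteType L (L ⊗[k] A) := ft_bc k L A _
  change Pi.single Q 1 ∈ RatZero L j ⊔ constSpan k L j _ ⊔ curveSpan k L q j _
  by_contra hn
  obtain ⟨Λ, h1, h2⟩ := Submodule.exists_dual_map_eq_bot_of_notMem hn inferInstance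
  rw [← le_bot_iff, Submodule.map_le_iff_le_comap, sup_le_iff, sup_le_iff, RatZero,
    constSpan, curveSpan, Submodule.span_le, Submodule.span_le, Submodule.span_le] at h2
  obtain ⟨χ, c1, c2, c3⟩ := exists_ofFun (L := L) j fun Q => Λ (Pi.single Q 1)
  have c4 : ∀ I : Ideal (L ⊗[k] A), (∀ Q : PrimeSpectrum _, I ≤ Q.asIdeal → dm L Q ≤ j) →
      χ.val (_ ⧸ I) = Λ (cyc L j I) := fun I hI => by
    rw [(c3 I hI).2, bridge_dual Λ (c3 I hI).1]
  let ψ : Inv L (L ⊗[k] A) j :=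
    { χ with
      low := c2
      rat := fun P f hP hf => by
        refine (c4 _ fun Q hQ => ?_).trans (h2.1.1 ⟨P, f, by rw [dim_eq, hP], hf, rfl⟩)
        rw [sup_le_iff, Ideal.span_singleton_le_iff_mem] at hQ
        have := dm_lt (L := L) (P := P) (Q := Q) (lt_of_le_of_ne hQ.1 fun e => hf (e ▸ hQ.2))
        omega }
  have hj : dm L Q = j := by rw [dm, hQ, Cardinal.toNat_natCast]
  refine h1 ((c1 Q hj).symm.trans (H L (L ⊗[k] A) j ψ (fun P hP hd => ?_) ?_ Q hj.le))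
  · have hb : ∀ Q : PrimeSpectrum (L ⊗[k] A), P.asIdeal.map (algebraMap A _) ≤ Q.asIdeal →
        dm L Q ≤ dm k P := fun Q hQ =>
      (dm_bc k L _ Q).trans (dm_mono (Ideal.map_le_iff_le_comap.1 hQ))
    rcases hd.lt_or_eq with hd | hd
    · exact ψ.low_mod fun Q hQ => (hb Q ((mem_supp_quot _ Q).1 hQ)).trans_lt hd
    · exact (c4 _ fun Q hQ => (hb Q hQ).trans hd.le).trans
        (h2.1.2 ⟨P, hT.mem_toFinset.2 hP, by rw [dim_eq, hd], rfl⟩)
  · intro i1 i2 i3 i4 i5 i6 i7 P hP hd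
    have := kpush k K L A (K ⊗[k] A) (L ⊗[k] A)
    refine (c4 _ fun Q hQ => BC_dm_le L (L ⊗[k] A) hd Q hQ).trans
      (h2.2 ⟨sp P.asIdeal, Finset.mem_image_of_mem _ (hT₁.mem_toFinset.2 hP),
        ![IsScalarTower.toAlgHom k K L (algebraMap O K xO),
          IsScalarTower.toAlgHom k K L (algebraMap O K cO)], ?_, ?_⟩)
    · simp only [cons_val_one, cons_val_zero, ← map_pow, ← map_add, hO.eqn]
    · rw [hsp P.asIdeal L (IsScalarTower.toAlgHom k K L) _ fun z a => ?_]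
      have e1 : z ⊗ₜ[k] a = algebraMap K (K ⊗[k] A) z * algebraMap A (K ⊗[k] A) a := by
        change _ = z ⊗ₜ[k] (1 : A) * (1 : K) ⊗ₜ[k] a
        rw [Algebra.TensorProduct.tmul_mul_tmul, mul_one, one_mul]
      rw [e1, map_mul, ← IsScalarTower.algebraMap_apply, ← IsScalarTower.algebraMap_apply,
        IsScalarTower.algebraMap_apply K L (L ⊗[k] A)]
      change (algebraMap K L z) ⊗ₜ[k] (1 : A) * (1 : L) ⊗ₜ[k] a = _
      rw [Algebra.TensorProduct.tmul_mul_tmul, mul_one, one_mul]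
      rfl

end Pool.Agent.MP_c1eb4d_ag
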