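import Pool.Agent.MP_c1eb4d_ag.KPresB
import Pool.Agent.MP_a9d3bd_ag.GalS

open Function TensorProduct Matrix

namespace Pool.Agent.MP_c1eb4d_ag

open Pool.Agent.MP_a9d3bd_ag

open Classical in
/-- a finite group acting on a closed set, with enough quotients that have the property -/
theorem galK {k K σ τ : Type} [Field k] [Field K] [Algebra k K] [Finite σ] [Finite τ] {G : Type}
    [CommGroup G] [Fintype G]
    {S' : Fam k τ} (hS' : IsCl S') (act : G → PMap k τ τ) (hact : ∀ g, IsNat (act g))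
    (act_one : ∀ (R : Type) [CommRing R] [Algebra k R] y, act 1 R y = y)
    (act_mul : ∀ g h (R : Type) [CommRing R] [Algebra k R] y,
      act (g * h) R y = act g R (act h R y))
    (act_mem : ∀ g (Ω : Type) [Field Ω] [Algebra k Ω] y, S' Ω y → S' Ω (act g Ω y))
    {Λ : Type} [Finite Λ] (H : Λ → Subgroup G) (S : Λ → Fam k σ) (Φ : Λ → PMap k τ σ)
    (hΦ : ∀ l, IsNat (Φ l)) (hS : ∀ l, VanKS K σ (S l))
    (map : ∀ l (Ω : Type) [Field Ω] [Algebra k Ω] y, S' Ω y → S l Ω (Φ l Ω y))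
    (fix : ∀ l, ∀ h ∈ H l, ∀ (Ω : Type) [Field Ω] [Algebra k Ω] y, S' Ω y →
      Φ l Ω (act h Ω y) = Φ l Ω y)
    (lift : ∀ l (Ω : Type) [Field Ω] [IsAlgClosed Ω] [Algebra k Ω] x, S l Ω x →
      ∃ y, S' Ω y ∧ Φ l Ω y = x)
    (trans : ∀ l (Ω : Type) [Field Ω] [Algebra k Ω] y y', S' Ω y → S' Ω y' →
      Φ l Ω y = Φ l Ω y' → ∃ h ∈ H l, y' = act h Ω y)
    (val : ∀ l, ValCrit S' (fun _ _ _ _ => True) (Φ l))
    (hc : ∀ a : G → ℚ, (∀ l, ∑ h : H l, a h = 0) → a 1 = 0) : VanKS K τ S' := by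
  obtain ⟨E', hE'⟩ := hS'
  choose E hE hV using hS
  choose f hf using fun l => exists_pull (hE l) hE' Ideal.le_radical (hΦ l) (map l)
  choose θ₀ hθ₀ using fun g => exists_pull hE' hE' le_rfl (hact g) (act_mem g)
  have h1 : ∀ x, θ₀ 1 x = x := by
    intro x
    obtain ⟨p, rfl⟩ := Ideal.Quotient.mk_surjective x
    refine GalS_sep hE' fun Ω _ _ _ φ => ?_
    rw [GalS_pull hE' (hact 1) (hθ₀ 1), act_one, ← (hE'.of_hom Ideal.le_radical φ).2]
  have hpt : ∀ g (Ω : Type) [Field Ω] [Algebra k Ω]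
      (φ : (MvPolynomial τ k ⧸ (Ideal.span E').radical) →ₐ[k] Ω),
      (fun t => φ (θ₀ g (Ideal.Quotient.mk _ (MvPolynomial.X t)))) =
        act g Ω fun t => φ (Ideal.Quotient.mk _ (MvPolynomial.X t)) := by
    intro g Ω _ _ φ
    funext t
    rw [GalS_pull hE' (hact g) (hθ₀ g), MvPolynomial.aeval_X]
  have hmul : ∀ g h x, θ₀ (g * h) x = θ₀ g (θ₀ h x) := by
    intro g h x
    obtain ⟨p, rfl⟩ := Ideal.Quotient.mk_surjective x
    refine GalS_sep hE' fun Ω _ _ _ φ => ?_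
    have := GalS_pull hE' (hact h) (hθ₀ h) (φ.comp (θ₀ g)) p
    simp only [AlgHom.comp_apply] at this
    rw [GalS_pull hE' (hact _) (hθ₀ _), this, hpt, mul_comm, act_mul]
  let θ : G →* ((MvPolynomial τ k ⧸ (Ideal.span E').radical) ≃ₐ[k]
      (MvPolynomial τ k ⧸ (Ideal.span E').radical)) := MonoidHom.mk'
    (fun g => AlgEquiv.ofAlgHom (θ₀ g) (θ₀ g⁻¹)
      (AlgHom.ext fun x => by
        rw [AlgHom.comp_apply, ← hmul, mul_inv_cancel, h1, AlgHom.id_apply])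
      (AlgHom.ext fun x => by
        rw [AlgHom.comp_apply, ← hmul, inv_mul_cancel, h1, AlgHom.id_apply]))
    fun g h => AlgEquiv.ext fun x => hmul g h x
  have hθ : ∀ g x, θ g x = θ₀ g x := fun _ _ => rfl
  let _ : ∀ l, Algebra (MvPolynomial σ k ⧸ Ideal.span (E l))
      (MvPolynomial τ k ⧸ (Ideal.span E').radical) := fun l => (f l).toRingHom.toAlgebra
  have hal : ∀ l x, algebraMap (MvPolynomial σ k ⧸ Ideal.span (E l))
      (MvPolynomial τ k ⧸ (Ideal.span E').radical) x = f l x := fun _ _ => rfl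
  have : ∀ l, IsScalarTower k (MvPolynomial σ k ⧸ Ideal.span (E l))
      (MvPolynomial τ k ⧸ (Ideal.span E').radical) := fun l =>
    IsScalarTower.of_algebraMap_eq (R := k) (S := MvPolynomial σ k ⧸ Ideal.span (E l))
      (A := MvPolynomial τ k ⧸ (Ideal.span E').radical) fun x => ((f l).commutes x).symm
  have : ∀ l, Module.Finite (MvPolynomial σ k ⧸ Ideal.span (E l))
      (MvPolynomial τ k ⧸ (Ideal.span E').radical) := by
    intro l
    obtain ⟨B₀, hB, hB'⟩ := ValCrit.lat (hE l) hE' (hΦ l) (val l) le_rfl Ideal.le_radical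
      (fun s => by rw [hal, hf, MvPolynomial.aeval_X]) ⊤ fun _ _ _ _ _ => trivial
    have h2 : B₀ = ⊤ := by
      refine Submodule.eq_top_iff'.2 fun n => ?_
      obtain ⟨r, hr⟩ := hB' 1 trivial n
      rwa [one_pow, one_smul] at hr
    exact Module.finite_def.2 (h2 ▸ hB)
  refine ⟨_, GalS_cut hE', ?_⟩
  rw [Ideal.span_eq]
  refine vanK_gal θ H (fun l => MvPolynomial σ k ⧸ Ideal.span (E l)) ?_ ?_ ?_ hV hc
  · intro l h hh a
    obtain ⟨p, rfl⟩ := Ideal.Quotient.mk_surjective a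
    refine GalS_sep hE' fun Ω _ _ _ φ => ?_
    have := GalS_pull hE' (hΦ l) (hf l) (φ.comp (θ₀ h)) p
    simp only [AlgHom.comp_apply] at this
    rw [hθ, hal, this, hpt, GalS_pull hE' (hΦ l) (hf l),
      fix l h hh Ω _ (hE'.of_hom Ideal.le_radical φ).1]
  · intro l Ω _ _ _ a
    obtain ⟨h2, h3⟩ := (hE l).of_hom le_rfl a
    obtain ⟨y, hy, hy'⟩ := lift l Ω _ h2
    obtain ⟨b, hb⟩ := hE'.exists_hom le_rfl hy
    refine ⟨b, fun x => ?_⟩
    obtain ⟨p, rfl⟩ := Ideal.Quotient.mk_surjective x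
    rw [hal, GalS_pull hE' (hΦ l) (hf l), h3, ← hy']
    simp only [hb, MvPolynomial.aeval_X]
  · intro l Ω _ _ b₁ b₂ hb
    obtain ⟨h, hh, h2⟩ := trans l Ω _ _ (hE'.of_hom Ideal.le_radical b₁).1
      (hE'.of_hom Ideal.le_radical b₂).1 (by
        funext s
        have := hb (Ideal.Quotient.mk _ (MvPolynomial.X s))
        rwa [hal, GalS_pull hE' (hΦ l) (hf l), GalS_pull hE' (hΦ l) (hf l), MvPolynomial.aeval_X,
          MvPolynomial.aeval_X] at this)
    refine ⟨h, hh, fun x => ?_⟩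
    obtain ⟨p, rfl⟩ := Ideal.Quotient.mk_surjective x
    rw [hθ, GalS_pull hE' (hact h) (hθ₀ h), ← h2, ← (hE'.of_hom Ideal.le_radical b₂).2]

end Pool.Agent.MP_c1eb4d_ag
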