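import Pool.Agent.MP_c1eb4d_ag.KPresD
import Pool.Agent.MP_c1eb4d_ag.KGalS

open Function TensorProduct Matrix

namespace Pool.Agent.MP_c1eb4d_ag

open Pool.Agent.MP_a9d3bd_ag

theorem isCls_vanK (k K : Type) [Field k] [Field K] [Algebra k K] :
    IsCls (fun σ (S : Fam k σ) => VanKS K σ S) where
  isCl h := h.imp fun _ h => h.1
  ofVan h := h.imp fun _ h => ⟨h.1, vanK_of_van h.2⟩
  strat C G _ hΦ hS hC hS' hG map lift val := stratK C G hΦ hS hC hS' hG map lift val
  prod h := prodK h
  gal act _ _ H S Φ hS' hact h1 hm hmem hΦ hS map fix lift trans val hc :=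
    galK hS' act hact h1 hm hmem H S Φ hΦ hS map fix lift trans val hc

end Pool.Agent.MP_c1eb4d_ag
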