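import Pool.Agent.MP_c1eb4d_ag.UI
import Pool.Agent.MP_a9d3bd_ag.GalB

open Function TensorProduct Matrix

namespace Pool.Agent.MP_c1eb4d_ag

open Pool.Agent.MP_a9d3bd_ag

/-- the form on the quotient -/
theorem gal_psi {k B : Type} [Field k] [CommRing B] [Algebra k B]
    [Algebra.FiniteType k B] {G : Type} [Group G] (θ : G →* (B ≃ₐ[k] B))
    (H : Subgroup G) [Fintype H] (A : Type) [CommRing A] [Algebra k A] [Algebra A B]
    [IsScalarTower k A B] [Algebra.FiniteType k A] [Module.Finite A B]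
    (hfix : ∀ h ∈ H, ∀ a, θ h (algebraMap A B a) = algebraMap A B a)
    (hs : ∀ (Ω : Type) [Field Ω] [IsAlgClosed Ω] [Algebra k Ω] (a : A →ₐ[k] Ω),
      ∃ b : B →ₐ[k] Ω, ∀ x, b (algebraMap A B x) = a x)
    (ht : ∀ (Ω : Type) [Field Ω] [Algebra k Ω] (b₁ b₂ : B →ₐ[k] Ω),
      (∀ a, b₁ (algebraMap A B a) = b₂ (algebraMap A B a)) → ∃ h ∈ H, ∀ x, b₂ x = b₁ (θ h x)) :
      ∀ (L A' B' : Type) [Field L] [Algebra k L] [CommRing A'] [Algebra k A'] [Algebra L A']
        [Algebra A A'] [IsScalarTower k L A'] [IsScalarTower k A A'] [Algebra.IsPushout k L A A']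
        [CommRing B'] [Algebra k B'] [Algebra L B'] [Algebra B B'] [IsScalarTower k L B']
        [IsScalarTower k B B'] [Algebra.IsPushout k L B B'] [Algebra A' B'] [Algebra A B']
        [IsScalarTower L A' B'] [IsScalarTower A A' B'] [IsScalarTower A B B']
        [Algebra.IsPushout A A' B B']
        (θ' : G →* (B' ≃ₐ[L] B')), (∀ g x, θ' g (algebraMap B B' x) = algebraMap B B' (θ g x)) →
        ∀ (j : ℕ) (χ : Inv L B' j), ∃ ψ : Inv L A' j,
        (∀ I : Ideal B', (∀ Q : PrimeSpectrum B', I ≤ Q.asIdeal → dm L Q ≤ j) →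
          ψ.val (B' ⧸ I) = ∑ h : H, χ.val (B' ⧸ I.comap (θ' h))) ∧
        ((∀ P : PrimeSpectrum A', dm L P ≤ j → ψ.val (A' ⧸ P.asIdeal) = 0) →
          ∀ Q : PrimeSpectrum B', dm L Q ≤ j →
            ∑ h : H, χ.val (B' ⧸ Q.asIdeal.comap (θ' h)) = 0) := by
  classical
  intro L A' B' _ _ _ _ _ _ _ _ _ _ _ _ _ _ _ _ _ _ _ _ _ _ θ' hθ' j χ
  have hkAB : IsScalarTower k A' B' := IsScalarTower.of_algebraMap_eq fun c => by
    rw [IsScalarTower.algebraMap_apply k L B', IsScalarTower.algebraMap_apply k L A',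
      ← IsScalarTower.algebraMap_apply L A' B']
  have hftA : Algebra.FiniteType L A' := ft_bc k L A A'
  have hftB : Algebra.FiniteType L B' := ft_bc k L B B'
  have hNo : IsNoetherianRing A' := Algebra.FiniteType.isNoetherianRing L A'
  have hfin : Module.Finite A' B' :=
    Module.Finite.equiv (Algebra.IsPushout.equiv A A' B B').toLinearEquiv
  have hfix' : ∀ (h : H) (a : A'), θ' h (algebraMap A' B' a) = algebraMap A' B' a := by
    intro h a
    refine GalB_ext k L A ((θ' h : B' →+* B').comp (algebraMap A' B')) (algebraMap A' B')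
      (fun l => ?_) (fun x => ?_) a
    · rw [RingHom.comp_apply, ← IsScalarTower.algebraMap_apply]
      exact (θ' h).commutes l
    · rw [RingHom.comp_apply, ← IsScalarTower.algebraMap_apply,
        IsScalarTower.algebraMap_apply A B B']
      exact (hθ' h _).trans (by rw [hfix h h.2])
  let θA : H →* (B' ≃ₐ[A'] B') :=
    { toFun := fun h => AlgEquiv.ofRingEquiv (f := (θ' h).toRingEquiv) (hfix' h)
      map_one' := by
        ext x
        simp
      map_mul' := fun g h => by
        ext x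
        simp }
  have hθA : ∀ (h : H) (I : Ideal B'), I.comap (θA h) = I.comap (θ' h) := fun h I => rfl
  have hs' : ∀ P : PrimeSpectrum A', ∃ Q : PrimeSpectrum B',
      PrimeSpectrum.comap (algebraMap A' B') Q = P := fun P =>
    lift_bc (A := A) (B := B) k P fun Ω _ _ _ a _ => hs Ω a
  have ht' : ∀ Q₁ Q₂ : PrimeSpectrum B', PrimeSpectrum.comap (algebraMap A' B') Q₁ =
      PrimeSpectrum.comap (algebraMap A' B') Q₂ → ∃ h, Q₂.asIdeal = Q₁.asIdeal.comap (θA h) := by
    intro Q₁ Q₂ h12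
    obtain ⟨Ω, _, b₁, b₂, k₁, k₂, hb⟩ := fib_points Q₁ Q₂ h12
    let _ : Algebra k Ω := (b₁.comp (algebraMap k B')).toAlgebra
    let c₁ : B →ₐ[k] Ω :=
      { b₁.comp (algebraMap B B') with
        commutes' := fun c => by
          change b₁ (algebraMap B B' (algebraMap k B c)) = b₁ (algebraMap k B' c)
          rw [← IsScalarTower.algebraMap_apply] }
    let c₂ : B →ₐ[k] Ω :=
      { b₂.comp (algebraMap B B') with
        commutes' := fun c => by
          change b₂ (algebraMap B B' (algebraMap k B c)) = b₁ (algebraMap k B' c)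
          rw [← IsScalarTower.algebraMap_apply, IsScalarTower.algebraMap_apply k A' B', hb] }
    obtain ⟨h, hh, e⟩ := ht Ω c₁ c₂ fun a => by
      change b₁ (algebraMap B B' (algebraMap A B a)) = b₂ (algebraMap B B' (algebraMap A B a))
      rw [← IsScalarTower.algebraMap_apply, IsScalarTower.algebraMap_apply A A' B', hb]
    have e' : ∀ y, b₂ y = b₁ (θ' h y) := by
      intro y
      refine GalB_ext k L B b₂ (b₁.comp (θ' h : B' →+* B')) (fun l => ?_) (fun x => ?_) y
      · change _ = b₁ (θ' h (algebraMap L B' l))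
        rw [(θ' h).commutes, IsScalarTower.algebraMap_apply L A' B', hb]
      · change _ = b₁ (θ' h (algebraMap B B' x))
        rw [hθ']
        exact e x
    refine ⟨⟨h, hh⟩, ?_⟩
    rw [hθA, ← k₁, ← k₂]
    ext y
    rw [Ideal.mem_comap, RingHom.mem_ker, RingHom.mem_ker, e']
  obtain ⟨ψ, hψ0⟩ := exists_quot θA hs' ht' χ
  have hψ : ∀ I : Ideal B', (∀ Q : PrimeSpectrum B', I ≤ Q.asIdeal → dm L Q ≤ j) →
      ψ.val (B' ⧸ I) = ∑ h : H, χ.val (B' ⧸ I.comap (θ' h)) := hψ0
  have hfin' : (algebraMap A' B').Finite := RingHom.finite_algebraMap.2 hfin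
  refine ⟨ψ, hψ, fun hz Q hQ => ?_⟩
  have hsup : Module.support A' (B' ⧸ Q.asIdeal) ⊆ SD L A' j := by
    intro P hP
    obtain ⟨Q', hQ', rfl⟩ := (supp_res (algebraMap A' B') hfin' (B' ⧸ Q.asIdeal)
      (fun a n => (algebraMap_smul B' a n).symm) P).1 hP
    change dm L _ ≤ j
    rw [← dm_comap_int (algebraMap A' B') (fun c => (IsScalarTower.algebraMap_apply L A' B' c).symm)
      hfin'.to_isIntegral]
    exact (dm_mono (P := Q) ((mem_supp_quot _ _).1 hQ')).trans hQ
  rw [← hψ Q.asIdeal fun Q' hQ' => (dm_mono (P := Q) hQ').trans hQ]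
  exact ψ.toAdv.vanish hsup fun P hP => hz P (hsup hP)

end Pool.Agent.MP_c1eb4d_ag
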