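import Pool.Agent.MP_c1eb4d_ag.KClosed
import Pool.Agent.MP_c1eb4d_ag.KGal0
import Pool.Agent.MP_a9d3bd_ag.Gal

open Function TensorProduct Matrix

namespace Pool.Agent.MP_c1eb4d_ag

open Pool.Agent.MP_a9d3bd_ag

variable {k K B : Type} [Field k] [Field K] [Algebra k K] [CommRing B] [Algebra k B]
  [Algebra.FiniteType k B]

/-- one quotient -/
theorem KGal_one {G : Type} [Group G] (θ : G →* (B ≃ₐ[k] B))
    (H : Subgroup G) [Fintype H] (A : Type) [CommRing A] [Algebra k A] [Algebra A B]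
    [IsScalarTower k A B] [Algebra.FiniteType k A] [Module.Finite A B]
    (hfix : ∀ h ∈ H, ∀ a, θ h (algebraMap A B a) = algebraMap A B a)
    (hs : ∀ (Ω : Type) [Field Ω] [IsAlgClosed Ω] [Algebra k Ω] (a : A →ₐ[k] Ω),
      ∃ b : B →ₐ[k] Ω, ∀ x, b (algebraMap A B x) = a x)
    (ht : ∀ (Ω : Type) [Field Ω] [Algebra k Ω] (b₁ b₂ : B →ₐ[k] Ω),
      (∀ a, b₁ (algebraMap A B a) = b₂ (algebraMap A B a)) → ∃ h ∈ H, ∀ x, b₂ x = b₁ (θ h x))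
    (hV : VanK k K A) (BK : Type) [CommRing BK] [Algebra k BK] [Algebra K BK] [Algebra B BK]
    [IsScalarTower k K BK] [IsScalarTower k B BK] [Algebra.IsPushout k K B BK] :
    ∃ (T₀ : Set (PrimeSpectrum B)) (T₁ : Set (PrimeSpectrum BK)), T₀.Finite ∧ T₁.Finite ∧
      ∀ (L B' : Type) [Field L] [IsAlgClosed L] [Algebra k L] [CommRing B'] [Algebra k B']
        [Algebra L B'] [Algebra B B'] [IsScalarTower k L B'] [IsScalarTower k B B']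
        [Algebra.IsPushout k L B B'] (θ' : G →* (B' ≃ₐ[L] B')),
        (∀ g x, θ' g (algebraMap B B' x) = algebraMap B B' (θ g x)) →
        ∀ (j : ℕ) (χ : Inv L B' j), Kills k T₀ χ → KillsK k K B T₁ χ →
          ∀ Q : PrimeSpectrum B', dm L Q ≤ j →
            ∑ h : H, χ.val (B' ⧸ Q.asIdeal.comap (θ' h)) = 0 := by
  obtain ⟨AK, _, _, _, _, _, _, _, _, _, _, _, _, _, hpA, hpB⟩ := bc_down k K A B BK
  obtain ⟨T₀, T₁, hT₀, hT₁, hV⟩ := hV AK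
  have hsurj : ∀ P : PrimeSpectrum A, ∃ Q : PrimeSpectrum B,
      PrimeSpectrum.comap (algebraMap A B) Q = P := fun P =>
    lift_bc (A := A) (A' := A) (B := B) (B' := B) k P fun Ω _ _ _ a _ => hs Ω a
  obtain ⟨S₀, hS₀, h₀⟩ := tr_quot θ H hsurj T₀ hT₀
  obtain ⟨S₁, hS₁, h₁⟩ := trK_quot k K A AK B BK θ H hs T₁ hT₁
  refine ⟨S₀, S₁, hS₀, hS₁, ?_⟩
  intro L B' _ _ _ _ _ _ _ _ _ _ θ' hθ' j χ hK₀ hK₁
  obtain ⟨A', _, _, _, _, _, _, _, _, _, _, _, _, _, hpA', hpB'⟩ := bc_down k L A B B'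
  obtain ⟨ψ, hψ, hz⟩ := gal_psi θ H A hfix hs ht L A' B' θ' hθ' j χ
  exact hz (hV L A' j ψ (h₀ L A' B' θ' hθ' j χ ψ hψ hK₀) (h₁ L A' B' θ' hθ' j χ ψ hψ hK₁))

open Classical in
/-- enough quotients with the property -/
theorem vanK_gal {G : Type} [Group G] [Fintype G] (θ : G →* (B ≃ₐ[k] B)) {Λ : Type} [Finite Λ]
    (H : Λ → Subgroup G) (A : Λ → Type) [∀ l, CommRing (A l)] [∀ l, Algebra k (A l)]
    [∀ l, Algebra (A l) B] [∀ l, IsScalarTower k (A l) B] [∀ l, Algebra.FiniteType k (A l)]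
    [∀ l, Module.Finite (A l) B]
    (hfix : ∀ l, ∀ h ∈ H l, ∀ a, θ h (algebraMap (A l) B a) = algebraMap (A l) B a)
    (hs : ∀ l (Ω : Type) [Field Ω] [IsAlgClosed Ω] [Algebra k Ω] (a : A l →ₐ[k] Ω),
      ∃ b : B →ₐ[k] Ω, ∀ x, b (algebraMap (A l) B x) = a x)
    (ht : ∀ l (Ω : Type) [Field Ω] [Algebra k Ω] (b₁ b₂ : B →ₐ[k] Ω),
      (∀ a, b₁ (algebraMap (A l) B a) = b₂ (algebraMap (A l) B a)) →
        ∃ h ∈ H l, ∀ x, b₂ x = b₁ (θ h x))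
    (hV : ∀ l, VanK k K (A l))
    (hc : ∀ a : G → ℚ, (∀ l, ∑ h : H l, a h = 0) → a 1 = 0) : VanK k K B := by
  intro BK _ _ _ _ _ _ _
  choose T₀ T₁ hT₀ hT₁ hT using
    fun l => KGal_one θ (H l) (A l) (hfix l) (hs l) (ht l) (hV l) BK
  refine ⟨⋃ l, T₀ l, ⋃ l, T₁ l, Set.finite_iUnion hT₀, Set.finite_iUnion hT₁, ?_⟩
  intro L B' _ _ _ _ _ _ _ _ _ _ j χ h₀ h₁ Q hQ
  obtain ⟨θ', hθ'⟩ := bc_aut θ L B'
  have key : ∀ I J : Ideal B', I = J → χ.val (B' ⧸ I) = χ.val (B' ⧸ J) := by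
    rintro _ _ rfl; rfl
  have h1 := hc (fun g => χ.val (B' ⧸ Q.asIdeal.comap (θ' g))) fun l =>
    hT l L B' θ' hθ' j χ (fun P hP => h₀ P (Set.mem_iUnion.2 ⟨l, hP⟩))
      (killsK_mono (Set.subset_iUnion T₁ l) @h₁) Q hQ
  refine (key _ _ ?_).trans h1
  ext x
  simp [Ideal.mem_comap]

/-- a finite map that is bijective on points -/
theorem vanK_homeo (A : Type) [CommRing A] [Algebra k A] [Algebra A B] [IsScalarTower k A B]
    [Algebra.FiniteType k A] [Module.Finite A B]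
    (hs : ∀ (Ω : Type) [Field Ω] [IsAlgClosed Ω] [Algebra k Ω] (a : A →ₐ[k] Ω),
      ∃ b : B →ₐ[k] Ω, ∀ x, b (algebraMap A B x) = a x)
    (ht : ∀ (Ω : Type) [Field Ω] [Algebra k Ω] (b₁ b₂ : B →ₐ[k] Ω),
      (∀ a, b₁ (algebraMap A B a) = b₂ (algebraMap A B a)) → b₁ = b₂)
    (hV : VanK k K A) : VanK k K B := by
  classical
  refine vanK_gal (G := PUnit) (1 : PUnit →* (B ≃ₐ[k] B)) (Λ := Unit) (fun _ => ⊤) (fun _ => A)
    (fun _ _ _ _ => rfl) (fun _ => hs) ?_ (fun _ => hV) ?_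
  · intro _ Ω _ _ b₁ b₂ h
    exact ⟨1, Subgroup.mem_top _, fun x => by rw [ht Ω b₁ b₂ h]; rfl⟩
  · intro a ha
    have h := ha ()
    rw [Finset.sum_eq_single (1 : (⊤ : Subgroup PUnit)) (fun b _ hb =>
      absurd (Subsingleton.elim _ _) hb) (fun hb => absurd (Finset.mem_univ _) hb)] at h
    exact h

/-- dividing by an ideal inside the nilradical -/
theorem vanK_quot_nil (I : Ideal B) (hI : ∀ x ∈ I, IsNilpotent x) (hV : VanK k K B) :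
    VanK k K (B ⧸ I) := by
  refine vanK_homeo (k := k) (B := B ⧸ I) B ?_ ?_ hV
  · intro Ω _ _ _ a
    refine ⟨Ideal.Quotient.liftₐ I a fun x hx => ((hI x hx).map a).eq_zero, fun x => rfl⟩
  · intro Ω _ _ b₁ b₂ h
    refine AlgHom.ext fun x => ?_
    obtain ⟨y, rfl⟩ := Ideal.Quotient.mk_surjective x
    exact h y

end Pool.Agent.MP_c1eb4d_ag
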