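import Pool.Agent.MP_c1eb4d_ag.UI
import Pool.Agent.MP_a9d3bd_ag.VFlat

open Function TensorProduct Matrix

namespace Pool.Agent.MP_c1eb4d_ag

open Pool.Agent.MP_a9d3bd_ag

variable (L A : Type) {A' B' : Type} [Field L] [CommRing A] [CommRing A'] [Algebra L A']
  [Algebra A A'] [CommRing B'] [Algebra L B'] [Algebra A' B'] [Algebra A B']
  [Algebra (Polynomial A) B'] [IsScalarTower L A' B'] [IsScalarTower A A' B']
  [IsScalarTower A (Polynomial A) B'] [Algebra.IsPushout A A' (Polynomial A) B']

include A in
theorem kpoly_equiv : Nonempty (Polynomial A' ≃ₐ[A'] B') := by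
  let _ : Algebra (Polynomial A) (Polynomial A') := Polynomial.algebra A A'
  exact ⟨(Algebra.IsPushout.equiv A A' (Polynomial A) (Polynomial A')).symm.trans
    (Algebra.IsPushout.equiv A A' (Polynomial A) B')⟩

include A in
theorem kpoly_flat : Module.Flat A' B' := by
  obtain ⟨e⟩ := kpoly_equiv A (A' := A') (B' := B')
  exact Module.Flat.of_linearEquiv e.symm.toLinearEquiv

variable [Algebra.FiniteType L A']

include A in
theorem kpoly_dm (Q : PrimeSpectrum B') :
    dm L Q ≤ dm L (PrimeSpectrum.comap (algebraMap A' B') Q) + 1 := by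
  obtain ⟨e⟩ := kpoly_equiv A (A' := A') (B' := B')
  have : Algebra.FiniteType L (Polynomial A') :=
    Algebra.FiniteType.trans (S := A') inferInstance inferInstance
  rw [dm_comap_int (L := L) (e : Polynomial A' →+* B') (e.restrictScalars L).commutes
    (RingHom.isIntegral_of_surjective _ e.surjective) Q]
  refine (dm_poly_le _).trans (le_of_eq ?_)
  rw [← PrimeSpectrum.comap_comp_apply]
  congr 3
  exact RingHom.ext e.commutes

include A in
theorem kpoly_vanish {j : ℕ} (χ : Inv L B' j)
    (h : ∀ P : PrimeSpectrum A', dm L P + 1 ≤ j →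
      χ.val (B' ⧸ P.asIdeal.map (algebraMap A' B')) = 0)
    (Q : PrimeSpectrum B') (hQ : dm L Q ≤ j) : χ.val (B' ⧸ Q.asIdeal) = 0 := by
  obtain ⟨e⟩ := kpoly_equiv A (A' := A') (B' := B')
  have : Algebra.FiniteType L (Polynomial A') :=
    Algebra.FiniteType.trans (S := A') inferInstance inferInstance
  have : Algebra.FiniteType L B' :=
    Algebra.FiniteType.of_surjective (e.restrictScalars L).toAlgHom e.surjective
  obtain ⟨χ', -, hχ⟩ := χ.exists_surj (e.symm : B' →+* Polynomial A')
    (e.symm.restrictScalars L).commutes e.symm.surjective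
  have h1 : dm L (PrimeSpectrum.comap (e : Polynomial A' →+* B') Q) ≤ j := by
    rwa [← dm_comap_int (L := L) (e : Polynomial A' →+* B') (e.restrictScalars L).commutes
      (RingHom.isIntegral_of_surjective _ e.surjective) Q]
  have h2 := χ'.poly_vanish (fun P hP => ?_) _ h1
  · rw [hχ _ fun R hR => (dm_mono hR).trans h1] at h2
    refine (VFlat_congr χ.toAdv ?_).trans h2
    ext x
    simp
  · rw [hχ _ fun R hR => (dm_mono hR).trans hP]
    refine (VFlat_congr χ.toAdv ?_).trans (h P (dm_polyP (L := L) P ▸ hP))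
    have e1 : (algebraMap A' B') = (e : Polynomial A' →+* B').comp Polynomial.C :=
      RingHom.ext fun a => (e.commutes a).symm
    rw [e1, ← Ideal.map_map]
    exact (Ideal.map_comap_of_equiv e.toRingEquiv).symm

end Pool.Agent.MP_c1eb4d_ag
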