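import Pool.Agent.MP_c1eb4d_ag.KClosed
import Pool.Agent.MP_c1eb4d_ag.KPoly0

open Function TensorProduct Matrix

namespace Pool.Agent.MP_c1eb4d_ag

open Pool.Agent.MP_a9d3bd_ag

variable {k K A : Type} [Field k] [Field K] [Algebra k K] [CommRing A] [Algebra k A]
  [Algebra.FiniteType k A]

theorem vanK_poly (h : VanK k K A) : VanK k K (Polynomial A) := by
  intro BK _ _ _ _ _ _ _
  have : Algebra.FiniteType k (Polynomial A) :=
    Algebra.FiniteType.trans (S := A) inferInstance inferInstance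
  obtain ⟨AK, _, _, _, _, _, _, _, _, _, _, _, _, _, hK1, hK2⟩ := bc_down k K A (Polynomial A) BK
  have : Algebra.FiniteType K AK := ft_bc k K A AK
  obtain ⟨T₀, T₁, hT₀, hT₁, hV⟩ := h AK
  obtain ⟨S₀, hS₀, h0⟩ := tr_flat (F := k) (A := A) (B := Polynomial A) 1 dm_poly_le T₀ hT₀
  obtain ⟨S₁, hS₁, h1⟩ := trK_flat k K A AK (Polynomial A) BK 1 (kpoly_dm K A) T₁ hT₁
  refine ⟨S₀, S₁, hS₀, hS₁, ?_⟩
  intro L B' _ _ _ _ _ _ _ _ _ _ j χ hk0 hk1 Q hQ
  obtain ⟨A', _, _, _, _, _, _, _, _, _, _, _, _, _, hL1, hL2⟩ := bc_down k L A (Polynomial A) B'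
  have : Algebra.FiniteType L A' := ft_bc k L A A'
  have : Algebra.FiniteType L B' := ft_bc k L (Polynomial A) B'
  have : Module.Flat A' B' := kpoly_flat A
  refine kpoly_vanish L A (A' := A') χ (fun P hP => ?_) Q hQ
  obtain ⟨i, rfl⟩ : ∃ i, j = i + 1 := ⟨j - 1, by omega⟩
  have hP' : dm L P ≤ i := by omega
  obtain ⟨χ', -, hχ'⟩ := Inv.exists_flat (L := L) (A := A') (B := B') (j := i) 1
    (kpoly_dm L A) χ
  have h2 := hV L A' i χ' (h0 L A' B' i χ χ' hχ' hk0) (h1 L A' B' i χ χ' hχ' hk1) P hP'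
  rw [hχ' _ fun R hR => (dm_mono (P := P) hR).trans hP'] at h2
  exact h2

theorem vanK_mv (h : VanK k K A) (τ : Type) [Finite τ] : VanK k K (MvPolynomial τ A) := by
  have ft : ∀ α : Type, Finite α → Algebra.FiniteType k (MvPolynomial α A) := fun α _ =>
    Algebra.FiniteType.trans (S := A) inferInstance inferInstance
  refine Finite.induction_empty_option (P := fun α => Finite α → VanK k K (MvPolynomial α A))
    (fun {α β} e ih hβ => ?_) (fun _ => ?_) (fun {α} _ ih _ => ?_) τ inferInstance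
  · have hα : Finite α := Finite.of_equiv β e.symm
    have := ft α hα
    exact vanK_of_equiv ((MvPolynomial.renameEquiv A e).restrictScalars k) (ih hα)
  · exact vanK_of_equiv ((MvPolynomial.isEmptyAlgEquiv A PEmpty).symm.restrictScalars k) h
  · have := ft α inferInstance
    have : Algebra.FiniteType k (Polynomial (MvPolynomial α A)) :=
      Algebra.FiniteType.trans (S := MvPolynomial α A) inferInstance inferInstance
    exact vanK_of_equiv ((MvPolynomial.optionEquivLeft A α).symm.restrictScalars k)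
      (vanK_poly (ih inferInstance))

end Pool.Agent.MP_c1eb4d_ag
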