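import Pool.Agent.MP_c1eb4d_ag.KStrat
import Pool.Agent.MP_c1eb4d_ag.KGal
import Pool.Agent.MP_a9d3bd_ag.PresB

open Function TensorProduct Matrix

namespace Pool.Agent.MP_c1eb4d_ag

open Pool.Agent.MP_a9d3bd_ag

variable {k K σ τ : Type} [Field k] [Field K] [Algebra k K] [Finite σ]

theorem KPresB_rad {R : Type} [CommRing R] [Algebra k R] [Algebra.FiniteType k R] {I I' : Ideal R}
    (h1 : I ≤ I') (h2 : I' ≤ I.radical) : VanK k K (R ⧸ I) ↔ VanK k K (R ⧸ I') := by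
  let := (Ideal.Quotient.factorₐ k h1).toRingHom.toAlgebra
  have : IsScalarTower k (R ⧸ I) (R ⧸ I') := IsScalarTower.of_algebraMap_eq fun _ => rfl
  have hs : Surjective (algebraMap (R ⧸ I) (R ⧸ I')) := Ideal.Quotient.factor_surjective h1
  have : Module.Finite (R ⧸ I) (R ⧸ I') :=
    Module.Finite.of_surjective (Algebra.linearMap _ _) hs
  have hl : ∀ (Ω : Type) [Field Ω] [Algebra k Ω] (a : (R ⧸ I) →ₐ[k] Ω),
      ∃ b : (R ⧸ I') →ₐ[k] Ω, ∀ x, b (algebraMap _ _ x) = a x := fun Ω _ _ a => by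
    refine ⟨Ideal.Quotient.liftₐ I' (a.comp (Ideal.Quotient.mkₐ k I)) fun x hx => ?_, fun x => ?_⟩
    · obtain ⟨n, hn⟩ := h2 hx
      refine IsNilpotent.eq_zero ⟨n, ?_⟩
      rw [← map_pow]
      simp [Ideal.Quotient.eq_zero_iff_mem.2 hn]
    · obtain ⟨x, rfl⟩ := Ideal.Quotient.mk_surjective x
      rfl
  refine ⟨vanK_homeo (R ⧸ I) (fun Ω _ _ _ a => hl Ω a) fun Ω _ _ b₁ b₂ hb => ?_, fun hV => ?_⟩
  · ext x
    obtain ⟨x, rfl⟩ := hs x
    exact hb x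
  · exact vanK_strat (B := R ⧸ I') (β := Empty) (fun b => b.elim) (fun b => b.elim) hV ⊤
      (fun P hP => (P.2.ne_top (top_unique hP)).elim) (Ideal.map_top _) (B₀ := ⊤)
      ⟨Module.Finite.fg_top, fun _ _ _ => ⟨0, trivial⟩⟩ fun Ω _ _ _ a _ => hl Ω a

omit [Finite σ] in
theorem KPresB_isCl {S : Fam k σ} (h : VanKS K σ S) : IsCl S := by
  obtain ⟨E, h, -⟩ := h
  exact ⟨E, h⟩

/-- the property does not depend on the equations -/
theorem vanKS_van {S : Fam k σ} (h : VanKS K σ S) {E : Set (MvPolynomial σ k)} (hE : Cut S E)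
    {I : Ideal (MvPolynomial σ k)} (h1 : Ideal.span E ≤ I) (h2 : I ≤ (Ideal.span E).radical) :
    VanK k K (MvPolynomial σ k ⧸ I) := by
  obtain ⟨E₀, hE₀, hV⟩ := h
  have e : (Ideal.span E₀).radical = (Ideal.span E).radical := le_antisymm
    (Ideal.radical_le_radical_iff.2 (presB_le hE₀ hE fun _ _ _ _ h => h))
    (Ideal.radical_le_radical_iff.2 (presB_le hE hE₀ fun _ _ _ _ h => h))
  rw [KPresB_rad Ideal.le_radical le_rfl, e] at hV
  exact (KPresB_rad h2 (Ideal.radical_mono h1)).2 hV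

/-- stratification of a closed set -/
theorem stratK [Finite τ] {β : Type} [Finite β] {S : Fam k σ} {S' : Fam k τ} (C : β → Fam k σ)
    (G : Fam k σ) {Φ : PMap k τ σ} (hΦ : IsNat Φ) (hS : IsCl S)
    (hC : ∀ b, VanKS K σ (fun Ω _ _ x => S Ω x ∧ C b Ω x : Fam k σ)) (hS' : VanKS K τ S')
    (hG : ∀ (Ω : Type) [Field Ω] [Algebra k Ω] x, S Ω x → (G Ω x ↔ ∀ b, ¬ C b Ω x))
    (map : ∀ (Ω : Type) [Field Ω] [Algebra k Ω] y, S' Ω y → S Ω (Φ Ω y) ∧ G Ω (Φ Ω y))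
    (lift : ∀ (Ω : Type) [Field Ω] [IsAlgClosed Ω] [Algebra k Ω] x, S Ω x → G Ω x →
      ∃ y, S' Ω y ∧ Φ Ω y = x)
    (val : ValCrit S' (fun Ω _ _ x => S Ω x ∧ G Ω x) Φ) : VanKS K σ S := by
  obtain ⟨E, hE⟩ := hS
  obtain ⟨E', hE'⟩ := KPresB_isCl hS'
  choose D hD using fun b => KPresB_isCl (hC b)
  obtain ⟨f, hf⟩ := exists_pull hE hE' Ideal.le_radical hΦ fun Ω _ _ y hy => (map Ω y hy).1
  let := f.toRingHom.toAlgebra
  have := IsScalarTower.of_algHom f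
  have := Fintype.ofFinite β
  have hX : ∀ s, f (Ideal.Quotient.mk _ (MvPolynomial.X s)) =
      Ideal.Quotient.mk _ (Φ _ MvPolynomial.X s) := fun s => by rw [hf, MvPolynomial.aeval_X]
  let I : β → Ideal (MvPolynomial σ k ⧸ Ideal.span E) := fun b =>
    (Ideal.span (D b)).map (Ideal.Quotient.mkₐ k _)
  have key : ∀ (Ω : Type) [Field Ω] [Algebra k Ω] (a : (MvPolynomial σ k ⧸ Ideal.span E) →ₐ[k] Ω),
      ¬ Finset.univ.inf I ≤ RingHom.ker a ↔
        G Ω fun s => a (Ideal.Quotient.mk _ (MvPolynomial.X s)) := fun Ω _ _ a => by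
    obtain ⟨h1, h2⟩ := hE.of_hom le_rfl a
    rw [hG Ω _ h1, (RingHom.ker_isPrime a).inf_le', not_exists]
    refine forall_congr' fun b => not_congr ?_
    refine Iff.trans ?_ ((hD b Ω _).symm.trans (and_iff_right h1))
    rw [Ideal.map_le_iff_le_comap, Ideal.span_le]
    simp only [Finset.mem_univ, true_and, ← h2]
    rfl
  obtain ⟨B₀, hB₀⟩ := ValCrit.lat hE hE' hΦ val le_rfl Ideal.le_radical hX (Finset.univ.inf I)
    fun κ _ _ a ha => ⟨(hE.of_hom le_rfl a).1, (key κ a).1 ha⟩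
  refine ⟨E, hE, vanK_strat I (fun b => ?_) (vanKS_van hS' hE' Ideal.le_radical le_rfl) _
    (fun P hP => (P.2.inf_le'.1 hP).imp fun _ h => h.2) ?_ hB₀ fun Ω _ _ _ a ha => ?_⟩
  · exact vanK_of_equiv (DoubleQuot.quotQuotEquivQuotSupₐ k _ _).symm (vanKS_van (hC b) (hD b) le_sup_right
      (sup_le (presB_le hE (hD b) fun _ _ _ _ h => h.1) Ideal.le_radical))
  · by_contra hne
    obtain ⟨m, hm, hle⟩ := Ideal.exists_le_maximal _ hne
    let := Ideal.Quotient.field m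
    obtain ⟨h1, h2⟩ := hE'.of_hom Ideal.le_radical (Ideal.Quotient.mkₐ k m)
    refine (key _ ((Ideal.Quotient.mkₐ k m).comp f)).2 ?_ fun g hg =>
      Ideal.Quotient.eq_zero_iff_mem.2 (hle (Ideal.mem_map_of_mem _ hg))
    convert (map _ _ h1).2 using 2 with s
    rw [← hΦ.aeval, ← h2, ← hX]
    rfl
  · obtain ⟨h1, h2⟩ := hE.of_hom le_rfl a
    obtain ⟨y, hy, e⟩ := lift Ω _ h1 ((key Ω a).1 ha)
    obtain ⟨b, hb⟩ := hE'.exists_hom le_rfl hy
    refine ⟨b, fun x => ?_⟩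
    obtain ⟨p, rfl⟩ := Ideal.Quotient.mk_surjective x
    rw [h2, ← e]
    refine (congrArg b (hf p)).trans ?_
    rw [hb, MvPolynomial.comp_aeval_apply]
    simp only [hΦ.aeval]

end Pool.Agent.MP_c1eb4d_ag
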