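import Pool.Agent.MP_c1eb4d_ag.KPresB
import Pool.Agent.MP_c1eb4d_ag.KPoly
import Pool.Agent.MP_a9d3bd_ag.PresD

open Function TensorProduct Matrix

namespace Pool.Agent.MP_c1eb4d_ag

open Pool.Agent.MP_a9d3bd_ag

/-- a quotient of the coordinate ring with the same points -/
theorem KPresD_model {k K ρ : Type} [Field k] [Field K] [Algebra k K] [Finite ρ]
    {S : Fam k ρ} {E : Set (MvPolynomial ρ k)}
    (hE : Cut S E) (C : Type) [CommRing C] [Algebra k C] (hC : VanK k K C) (y : ρ → C)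
    (h0 : ∀ p ∈ E, MvPolynomial.aeval y p = 0)
    (hs : Surjective (MvPolynomial.aeval y : MvPolynomial ρ k →ₐ[k] C))
    (hl : ∀ (Ω : Type) [Field Ω] [Algebra k Ω] (x : ρ → Ω), S Ω x →
      ∃ b : C →ₐ[k] Ω, ∀ r, b (y r) = x r) : VanKS K ρ S := by
  refine ⟨E, hE, ?_⟩
  let φ : (MvPolynomial ρ k ⧸ Ideal.span E) →ₐ[k] C :=
    Ideal.Quotient.liftₐ (Ideal.span E) (MvPolynomial.aeval y) fun p hp =>
      (Ideal.span_le.2 (fun q hq => h0 q hq) : Ideal.span E ≤ RingHom.ker (MvPolynomial.aeval y)) hp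
  have hφ : ∀ p, φ (Ideal.Quotient.mk _ p) = MvPolynomial.aeval y p := fun p => rfl
  let _ : Algebra (MvPolynomial ρ k ⧸ Ideal.span E) C := φ.toRingHom.toAlgebra
  have : IsScalarTower k (MvPolynomial ρ k ⧸ Ideal.span E) C :=
    IsScalarTower.of_algebraMap_eq fun c => (φ.commutes c).symm
  have : Algebra.FiniteType k C := Algebra.FiniteType.of_surjective _ hs
  have hs' : Surjective (algebraMap (MvPolynomial ρ k ⧸ Ideal.span E) C) := fun c => by
    obtain ⟨p, rfl⟩ := hs c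
    exact ⟨Ideal.Quotient.mk _ p, rfl⟩
  have hfin : Module.Finite (MvPolynomial ρ k ⧸ Ideal.span E) C :=
    Module.Finite.of_surjective (Algebra.linearMap _ C) hs'
  refine vanK_strat (B := C) (β := Empty) (fun b => b.elim) (fun b => b.elim) hC ⊤
    (fun P hP => (P.isPrime.ne_top (top_le_iff.1 hP)).elim) (Ideal.map_top _) (B₀ := ⊤)
    ⟨hfin.fg_top, fun _ _ _ => ⟨0, Submodule.mem_top⟩⟩ fun Ω _ _ _ a _ => ?_
  obtain ⟨h1, h2⟩ := hE.of_hom le_rfl a
  obtain ⟨b, hb⟩ := hl Ω _ h1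
  refine ⟨b, fun x => ?_⟩
  obtain ⟨p, rfl⟩ := Ideal.Quotient.mk_surjective x
  rw [h2 p]
  change b (MvPolynomial.aeval y p) = _
  rw [← AlgHom.comp_apply, MvPolynomial.comp_aeval]
  exact congrArg (fun z => MvPolynomial.aeval z p) (funext hb)

/-- product with an affine space -/
theorem prodK {k K σ τ : Type} [Field k] [Field K] [Algebra k K] [Finite σ] [Finite τ]
    {S : Fam k σ} (h : VanKS K σ S) :
    VanKS K (σ ⊕ τ) (fun Ω _ _ x => S Ω (fun a => x (Sum.inl a)) : Fam k (σ ⊕ τ)) := by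
  obtain ⟨E, hE, hV⟩ := h
  have key : ∀ p : MvPolynomial σ k, MvPolynomial.aeval
      (Sum.elim (fun a => algebraMap _ _ (Ideal.Quotient.mk (Ideal.span E) (MvPolynomial.X a)))
        MvPolynomial.X : σ ⊕ τ → MvPolynomial τ (MvPolynomial σ k ⧸ Ideal.span E))
      (MvPolynomial.rename Sum.inl p) = algebraMap _ _ (Ideal.Quotient.mk (Ideal.span E) p) := by
    intro p
    rw [MvPolynomial.aeval_rename]
    exact PresD_mk (MvPolynomial τ (MvPolynomial σ k ⧸ Ideal.span E)) (Ideal.span E) p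
  refine KPresD_model (E := MvPolynomial.rename Sum.inl '' E) ?_ _ (vanK_mv hV τ)
    (Sum.elim (fun a => algebraMap _ _ (Ideal.Quotient.mk (Ideal.span E) (MvPolynomial.X a)))
      MvPolynomial.X) ?_ ?_ ?_
  · intro Ω _ _ x
    beta_reduce
    rw [hE, Set.forall_mem_image]
    simp only [MvPolynomial.aeval_rename]
    rfl
  · rintro _ ⟨p, hp, rfl⟩
    rw [key, Ideal.Quotient.eq_zero_iff_mem.2 (Ideal.subset_span hp), map_zero]
  · intro c
    induction c using MvPolynomial.induction_on with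
    | C a =>
      obtain ⟨p, rfl⟩ := Ideal.Quotient.mk_surjective a
      exact ⟨_, key p⟩
    | add p q hp hq =>
      obtain ⟨p, rfl⟩ := hp
      obtain ⟨q, rfl⟩ := hq
      exact ⟨p + q, map_add _ _ _⟩
    | mul_X p t hp =>
      obtain ⟨p, rfl⟩ := hp
      exact ⟨p * MvPolynomial.X (Sum.inr t), by rw [map_mul, MvPolynomial.aeval_X]; rfl⟩
  · intro Ω _ _ x hx
    obtain ⟨a, ha⟩ := hE.exists_hom (Ideal.le_radical (I := Ideal.span E)) hx
    refine ⟨MvPolynomial.aevalTower a fun t => x (Sum.inr t), ?_⟩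
    rintro (s | t)
    · simp [ha]
    · simp

end Pool.Agent.MP_c1eb4d_ag
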