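import Pool.Agent.MP_c1eb4d_ag.KClosed

open Function TensorProduct Matrix

namespace Pool.Agent.MP_c1eb4d_ag

open Pool.Agent.MP_a9d3bd_ag

/-- stratification: closed pieces `V(I b)`, and `Spec B` finite and onto over the rest -/
theorem vanK_strat {k K A B : Type} [Field k] [Field K] [Algebra k K] [CommRing A] [Algebra k A]
    [CommRing B] [Algebra k B] [Algebra A B] [IsScalarTower k A B] [Algebra.FiniteType k A]
    [Algebra.FiniteType k B] {β : Type} [Finite β] (I : β → Ideal A)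
    (hI : ∀ b, VanK k K (A ⧸ I b)) (hB : VanK k K B)
    (J : Ideal A) (hJI : ∀ P : PrimeSpectrum A, J ≤ P.asIdeal → ∃ b, I b ≤ P.asIdeal)
    (hJ : J.map (algebraMap A B) = ⊤) {B₀ : Submodule A B} (hfin : IsLat J B₀)
    (hlift : ∀ (Ω : Type) [Field Ω] [IsAlgClosed Ω] [Algebra k Ω] (a : A →ₐ[k] Ω),
      ¬ J ≤ RingHom.ker a → ∃ b : B →ₐ[k] Ω, ∀ x, b (algebraMap A B x) = a x) : VanK k K A := by
  classical
  intro AK _ _ _ _ _ _ _
  choose T₀ T₁ hT₀f hT₁f hT using fun b =>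
    vanK_closed (A := A) (B := A ⧸ I b) Ideal.Quotient.mk_surjective (hI b) AK
  obtain ⟨BK, _, _, _, _, _, _, _, _, _, _, _, _, _, _, _⟩ := bc_up k K A AK B
  obtain ⟨S₀, S₁, hS₀f, hS₁f, hS⟩ := hB BK
  obtain ⟨U₀, hU₀f, hU₀⟩ := tr_push (F := k) hfin hJ S₀ hS₀f
  obtain ⟨U₁, hU₁f, hU₁⟩ := trK_push k K A AK B BK hfin hJ S₁ hS₁f
  refine ⟨(⋃ b, T₀ b) ∪ U₀, (⋃ b, T₁ b) ∪ U₁, (Set.finite_iUnion hT₀f).union hU₀f,
    (Set.finite_iUnion hT₁f).union hU₁f, ?_⟩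
  intro L A' _ _ _ _ _ _ _ _ _ _ j χ hχ hχK P hP
  obtain ⟨B', _, _, _, _, _, _, _, _, _, _, _, _, _, _, _⟩ := bc_up k L A A' B
  have := ft_bc k L A A'
  have := ft_bc k L B B'
  have := flat_bc k L A A'
  have h0 : ∀ P : PrimeSpectrum A', J.map (algebraMap A A') ≤ P.asIdeal → dm L P ≤ j →
      χ.val (A' ⧸ P.asIdeal) = 0 := by
    intro P hPJ hPj
    obtain ⟨b, hb⟩ := hJI (PrimeSpectrum.comap (algebraMap A A') P)
      (Ideal.map_le_iff_le_comap.1 hPJ)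
    have hb₁ : KillsK k K A (T₁ b) χ := by
      intro _ _ _ _ _ _ _ R hR
      exact hχK R (Or.inl (Set.mem_iUnion.2 ⟨b, hR⟩))
    refine hT b L A' j χ (fun R hR => hχ R (Or.inl (Set.mem_iUnion.2 ⟨b, hR⟩))) @hb₁ P ?_ hPj
    rw [Ideal.Quotient.algebraMap_eq, Ideal.mk_ker]
    exact Ideal.map_le_iff_le_comap.2 hb
  obtain ⟨B₁, hB₁⟩ := lat_bc_ring (A' := A') (B' := B') hfin
  have hJ' : (J.map (algebraMap A A')).map (algebraMap A' B') = ⊤ := by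
    rw [Ideal.map_map, ← IsScalarTower.algebraMap_eq, IsScalarTower.algebraMap_eq A B B',
      ← Ideal.map_map, hJ, Ideal.map_top]
  obtain ⟨χ', hχ'⟩ := exists_push hB₁ hJ' χ h0
  have hb₂ : KillsK k K A U₁ χ := by
    intro _ _ _ _ _ _ _ R hR
    exact hχK R (Or.inr hR)
  have hb₃ : KillsK k K B S₁ χ' :=
    @hU₁ L A' B' _ _ _ _ _ _ _ _ _ _ _ _ _ _ _ _ _ _ _ _ _ _ j χ χ' hχ' @hb₂
  have hv := hS L B' j χ' (hU₀ L A' B' j χ χ' hχ' fun R hR => hχ R (Or.inr hR)) @hb₃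
  by_cases hPJ : J.map (algebraMap A A') ≤ P.asIdeal
  · exact h0 P hPJ hP
  obtain ⟨Q, hQ⟩ := lift_bc (B := B) (B' := B') k P fun Ω _ _ _ a ha =>
    hlift Ω a (by rw [ha]; exact fun h => hPJ (Ideal.map_le_iff_le_comap.2 h))
  have hQj : dm L Q ≤ j := by
    rw [dm_lat hB₁ hJ' Q, hQ]
    exact hP
  obtain ⟨N, hN⟩ := exists_lat hB₁ (B' ⧸ Q.asIdeal)
  have e0 : χ.val N = 0 := (hχ' _ (fun Q' hQ' =>
    (dm_mono (L := L) ((mem_supp_quot _ _).1 hQ' : Q ≤ Q')).trans hQj) N hN).symm.trans (hv Q hQj)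
  have : Module.Finite A' N := Module.Finite.iff_fg.2 hN.1
  have hmem : ∀ a : A', a • (1 : B' ⧸ Q.asIdeal) = 0 ↔ a ∈ P.asIdeal := by
    intro a
    rw [← hQ, ← Algebra.algebraMap_eq_smul_one, IsScalarTower.algebraMap_apply A' B',
      Ideal.Quotient.algebraMap_eq, Ideal.Quotient.eq_zero_iff_mem]
    rfl
  refine Inv.of_rank χ P hP (M := N) (fun R hR a ha => ?_) ?_ e0
  · refine Module.mem_support_iff_of_finite.1 hR (Module.mem_annihilator.2 fun n => ?_)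
    refine Subtype.ext ?_
    rw [Submodule.coe_smul, ← one_mul (n : B' ⧸ Q.asIdeal), ← smul_mul_assoc, (hmem a).2 ha,
      zero_mul, Submodule.coe_zero]
  · refine Module.mem_support_iff_of_finite.2 fun a ha => ?_
    obtain ⟨g, hg, hgP⟩ := SetLike.not_le_iff_exists.1 hPJ
    obtain ⟨r, hr⟩ := hN.2 g hg 1
    have h1 := congrArg Subtype.val (Module.mem_annihilator.1 ha ⟨_, hr⟩)
    rw [Submodule.coe_smul, smul_smul, Submodule.coe_zero, hmem] at h1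
    exact (P.isPrime.mem_or_mem h1).resolve_right fun h => hgP (P.isPrime.mem_of_pow_mem _ h)

end Pool.Agent.MP_c1eb4d_ag
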