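import Pool.Agent.MP_c1eb4d_ag.UI
import Pool.Agent.MP_a9d3bd_ag.GalB
import Pool.Agent.MP_a9d3bd_ag.Strat
import Pool.Agent.MP_a9d3bd_ag.VFlat

open Function TensorProduct Matrix

namespace Pool.Agent.MP_c1eb4d_ag

open Pool.Agent.MP_a9d3bd_ag

variable {F A B : Type} [Field F] [CommRing A] [Algebra F A] [CommRing B] [Algebra F B]
  [Algebra A B] [IsScalarTower F A B] [Algebra.FiniteType F A] [Algebra.FiniteType F B]

/-- tests for the restriction to a closed subscheme -/
theorem tr_surj (hs : Surjective (algebraMap A B)) (T : Set (PrimeSpectrum B)) (hT : T.Finite) :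
    ∃ T' : Set (PrimeSpectrum A), T'.Finite ∧
      ∀ (L A' B' : Type) [Field L] [Algebra F L] [CommRing A'] [Algebra F A'] [Algebra L A']
        [Algebra A A'] [IsScalarTower F L A'] [IsScalarTower F A A'] [Algebra.IsPushout F L A A']
        [CommRing B'] [Algebra F B'] [Algebra L B'] [Algebra B B'] [IsScalarTower F L B']
        [IsScalarTower F B B'] [Algebra.IsPushout F L B B'] [Algebra A' B'] [Algebra A B']
        [IsScalarTower L A' B'] [IsScalarTower A A' B'] [IsScalarTower A B B']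
        [Algebra.IsPushout A A' B B']
        (j : ℕ) (χ : Inv L A' j) (χ' : Inv L B' j),
        (∀ I : Ideal B', (∀ Q : PrimeSpectrum B', I ≤ Q.asIdeal → dm L Q ≤ j) →
          χ'.val (B' ⧸ I) = χ.val (A' ⧸ I.comap (algebraMap A' B'))) →
        Kills F T' χ → Kills F T χ' := by
  refine ⟨PrimeSpectrum.comap (algebraMap A B) '' T, hT.image _, ?_⟩
  intro L A' B' _ _ _ _ _ _ _ _ _ _ _ _ _ _ _ _ _ _ _ _ _ _ j χ χ' hχ hk P hP hd
  rw [hχ _ (BC_dm_le L B' hd)]
  have hφs := BC_surj A A' B B' hs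
  have hker := BC_ker A A' B B' hs
  have e : (P.asIdeal.map (algebraMap B B')).comap (algebraMap A' B') =
      (P.asIdeal.comap (algebraMap A B)).map (algebraMap A A') := by
    have e1 : ((P.asIdeal.comap (algebraMap A B)).map (algebraMap A A')).map (algebraMap A' B') =
        P.asIdeal.map (algebraMap B B') := by
      rw [Ideal.map_map, ← IsScalarTower.algebraMap_eq, IsScalarTower.algebraMap_eq A B B',
        ← Ideal.map_map, Ideal.map_comap_of_surjective _ hs]
    rw [← e1, Ideal.comap_map_of_surjective _ hφs, sup_eq_left]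
    exact hker.trans (Ideal.map_mono (Ideal.comap_mono bot_le))
  rw [e]
  refine hk (PrimeSpectrum.comap (algebraMap A B) P) ⟨P, hP, rfl⟩ ?_
  rwa [← dm_comap_int (algebraMap A B) (fun c => (IsScalarTower.algebraMap_apply F A B c).symm)
    (RingHom.isIntegral_of_surjective _ hs)]

/-- tests for the flat pull-back -/
theorem tr_flat (r : ℕ)
    (hd : ∀ Q : PrimeSpectrum B, dm F Q ≤ dm F (PrimeSpectrum.comap (algebraMap A B) Q) + r)
    (T : Set (PrimeSpectrum A)) (hT : T.Finite) :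
    ∃ T' : Set (PrimeSpectrum B), T'.Finite ∧
      ∀ (L A' B' : Type) [Field L] [Algebra F L] [CommRing A'] [Algebra F A'] [Algebra L A']
        [Algebra A A'] [IsScalarTower F L A'] [IsScalarTower F A A'] [Algebra.IsPushout F L A A']
        [CommRing B'] [Algebra F B'] [Algebra L B'] [Algebra B B'] [IsScalarTower F L B']
        [IsScalarTower F B B'] [Algebra.IsPushout F L B B'] [Algebra A' B'] [Algebra A B']
        [IsScalarTower L A' B'] [IsScalarTower A A' B'] [IsScalarTower A B B']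
        [Algebra.IsPushout A A' B B']
        (j : ℕ) (χ : Inv L B' (j + r)) (χ' : Inv L A' j),
        (∀ I : Ideal A', (∀ Q : PrimeSpectrum A', I ≤ Q.asIdeal → dm L Q ≤ j) →
          χ'.val (A' ⧸ I) = χ.val (B' ⧸ I.map (algebraMap A' B'))) →
        Kills F T' χ → Kills F T χ' := by
  choose T₂ hT₂f hT₂ using fun P : PrimeSpectrum A =>
    exists_kill F (A := B) (B ⧸ P.asIdeal.map (algebraMap A B))
  refine ⟨⋃ P ∈ T, T₂ P, hT.biUnion fun P _ => hT₂f P, ?_⟩
  intro L A' B' _ _ _ _ _ _ _ _ _ _ _ _ _ _ _ _ _ _ _ _ _ _ j χ χ' hχ hk P hP hPj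
  rw [hχ _ (BC_dm_le L A' hPj)]
  have e : (P.asIdeal.map (algebraMap A A')).map (algebraMap A' B') =
      (P.asIdeal.map (algebraMap A B)).map (algebraMap B B') := by
    rw [Ideal.map_map, Ideal.map_map, ← IsScalarTower.algebraMap_eq,
      ← IsScalarTower.algebraMap_eq]
  have hs0 : Module.support B (B ⧸ P.asIdeal.map (algebraMap A B)) ⊆ SD F B (j + r) := by
    intro Q hQ
    have h1 : P ≤ PrimeSpectrum.comap (algebraMap A B) Q :=
      Ideal.map_le_iff_le_comap.1 ((mem_supp_quot _ _).1 hQ)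
    exact (hd Q).trans (Nat.add_le_add_right ((dm_mono h1).trans hPj) r)
  obtain ⟨e'⟩ := tensor_quot (B := B') (P.asIdeal.map (algebraMap A B))
  rw [VFlat_congr χ.toAdv e, ← χ.val_equiv e' fun R hR =>
    (dm_bc F L B' R).trans (hs0 (supp_tensor _ hR))]
  exact hT₂ P L B' (j + r) χ (fun R hR => hk R (Set.mem_biUnion hP hR)) hs0

/-- tests for the push-forward by lattices -/
theorem tr_push {J : Ideal A} {B₀ : Submodule A B} (hfin : IsLat J B₀)
    (hJ : J.map (algebraMap A B) = ⊤) (T : Set (PrimeSpectrum B)) (hT : T.Finite) :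
    ∃ T' : Set (PrimeSpectrum A), T'.Finite ∧
      ∀ (L A' B' : Type) [Field L] [Algebra F L] [CommRing A'] [Algebra F A'] [Algebra L A']
        [Algebra A A'] [IsScalarTower F L A'] [IsScalarTower F A A'] [Algebra.IsPushout F L A A']
        [CommRing B'] [Algebra F B'] [Algebra L B'] [Algebra B B'] [IsScalarTower F L B']
        [IsScalarTower F B B'] [Algebra.IsPushout F L B B'] [Algebra A' B'] [Algebra A B']
        [IsScalarTower L A' B'] [IsScalarTower A A' B'] [IsScalarTower A B B']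
        [Algebra.IsPushout A A' B B']
        (j : ℕ) (χ : Inv L A' j) (χ' : Inv L B' j),
        (∀ (N : Type) [AddCommGroup N] [Module B' N] [Module A' N] [IsScalarTower A' B' N]
          [Module.Finite B' N], Module.support B' N ⊆ SD L B' j →
            ∀ N₀ : Submodule A' N, IsLat (J.map (algebraMap A A')) N₀ → χ'.val N = χ.val N₀) →
        Kills F T' χ → Kills F T χ' := by
  choose N₀ hN₀ using fun Q : PrimeSpectrum B => exists_lat hfin (B ⧸ Q.asIdeal)
  have hfN : ∀ Q, Module.Finite A (N₀ Q) := fun Q => Module.Finite.iff_fg.2 (hN₀ Q).1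
  choose T₂ hT₂f hT₂ using fun Q => exists_kill F (A := A) (N₀ Q)
  refine ⟨⋃ Q ∈ T, T₂ Q, hT.biUnion fun Q _ => hT₂f Q, ?_⟩
  intro L A' B' _ _ _ _ _ _ _ _ _ _ _ _ _ _ _ _ _ _ _ _ _ _ j χ χ' hχ' hχ Q hQ hQj
  have := flat_bc F L A A'
  obtain ⟨N₁, hN₁, ⟨e⟩⟩ := lat_bc (A' := A') (B' := B') Q.asIdeal (hN₀ Q)
  have hsupp : Module.support B' (B' ⧸ Q.asIdeal.map (algebraMap B B')) ⊆ SD L B' j :=
    fun Q' hQ' => BC_dm_le L B' hQj Q' ((mem_supp_quot _ _).1 hQ')
  have hs0 : Module.support A (N₀ Q) ⊆ SD F A j :=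
    lat_supp hfin hJ (N := B ⧸ Q.asIdeal)
      (fun Q' hQ' => (dm_mono (L := F) ((mem_supp_quot _ _).1 hQ' : Q ≤ Q')).trans hQj) (hN₀ Q).1
  rw [hχ' _ hsupp N₁ hN₁, ← χ.val_equiv e fun R hR =>
    (dm_bc F L A' R).trans (hs0 (supp_tensor _ hR))]
  exact hT₂ Q L A' j χ (fun R hR => hχ R (Set.mem_biUnion hQ hR)) hs0

/-- tests for the quotient by a finite group -/
theorem tr_quot [Module.Finite A B] {G : Type} [Group G] (θ : G →* (B ≃ₐ[F] B)) (H : Subgroup G)
    [Fintype H] (hs : ∀ P : PrimeSpectrum A, ∃ Q, PrimeSpectrum.comap (algebraMap A B) Q = P)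
    (T : Set (PrimeSpectrum A)) (hT : T.Finite) :
    ∃ T' : Set (PrimeSpectrum B), T'.Finite ∧
      ∀ (L A' B' : Type) [Field L] [Algebra F L] [CommRing A'] [Algebra F A'] [Algebra L A']
        [Algebra A A'] [IsScalarTower F L A'] [IsScalarTower F A A'] [Algebra.IsPushout F L A A']
        [CommRing B'] [Algebra F B'] [Algebra L B'] [Algebra B B'] [IsScalarTower F L B']
        [IsScalarTower F B B'] [Algebra.IsPushout F L B B'] [Algebra A' B'] [Algebra A B']
        [IsScalarTower L A' B'] [IsScalarTower A A' B'] [IsScalarTower A B B']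
        [Algebra.IsPushout A A' B B']
        (θ' : G →* (B' ≃ₐ[L] B')), (∀ g x, θ' g (algebraMap B B' x) = algebraMap B B' (θ g x)) →
        ∀ (j : ℕ) (χ : Inv L B' j) (ψ : Inv L A' j),
        (∀ I : Ideal B', (∀ Q : PrimeSpectrum B', I ≤ Q.asIdeal → dm L Q ≤ j) →
          ψ.val (B' ⧸ I) = ∑ h : H, χ.val (B' ⧸ I.comap (θ' h))) →
        Kills F T' χ → Kills F T ψ := by
  choose QP hQP using hs
  refine ⟨(fun x : PrimeSpectrum A × H => PrimeSpectrum.comap (θ x.2 : B →+* B) (QP x.1)) ''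
    (T ×ˢ Set.univ), (hT.prod Set.finite_univ).image _, ?_⟩
  intro L A' B' _ _ _ _ _ _ _ _ _ _ _ _ _ _ _ _ _ _ _ _ _ _ θ' hθ' j χ ψ hψ hK P hP hPj
  have hAB : (algebraMap A B).IsIntegral :=
    RingHom.Finite.to_isIntegral (RingHom.finite_algebraMap.2 inferInstance)
  have hd : dm F (QP P) = dm F P := by
    rw [dm_comap_int (algebraMap A B) (fun c => (IsScalarTower.algebraMap_apply F A B c).symm)
      hAB, hQP]
  have h0 : ψ.val (B' ⧸ (QP P).asIdeal.map (algebraMap B B')) = 0 := by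
    rw [hψ _ (BC_dm_le L B' (hd.trans_le hPj))]
    refine Finset.sum_eq_zero fun h _ => ?_
    rw [GalB_comap_map θ θ' hθ']
    refine hK (PrimeSpectrum.comap (θ h : B →+* B) (QP P)) ⟨(P, h), ⟨hP, trivial⟩, rfl⟩ ?_
    exact (dm_comap_le (θ h : B →+* B) (fun c => (θ h).commutes c) _).trans (hd.trans_le hPj)
  have h1 := kill_of_over (k := F) (A := A) ψ (QP P) (by rw [hQP]; exact hPj) h0
  have h2 : (QP P).asIdeal.comap (algebraMap A B) = P.asIdeal :=
    congrArg PrimeSpectrum.asIdeal (hQP P)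
  rw [h2] at h1
  exact h1

end Pool.Agent.MP_c1eb4d_ag
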