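import Pool.Agent.MP_c1eb4d_ag.KStr
import Pool.Agent.MP_c1eb4d_ag.KTr

open Function TensorProduct Matrix

namespace Pool.Agent.MP_c1eb4d_ag

open Pool.Agent.MP_a9d3bd_ag

variable (k K A AK B BK : Type) [Field k] [Field K] [Algebra k K] [CommRing A] [Algebra k A]
  [CommRing B] [Algebra k B] [Algebra A B] [IsScalarTower k A B] [Algebra.FiniteType k A]
  [Algebra.FiniteType k B] [CommRing AK] [Algebra k AK] [Algebra K AK] [Algebra A AK]
  [IsScalarTower k K AK] [IsScalarTower k A AK] [Algebra.IsPushout k K A AK] [CommRing BK]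
  [Algebra k BK] [Algebra K BK] [Algebra B BK] [IsScalarTower k K BK] [IsScalarTower k B BK]
  [Algebra.IsPushout k K B BK] [Algebra AK BK] [Algebra A BK] [IsScalarTower K AK BK]
  [IsScalarTower A AK BK] [IsScalarTower A B BK] [Algebra.IsPushout A AK B BK]

theorem trK_surj (hs : Surjective (algebraMap A B)) (T : Set (PrimeSpectrum BK)) (hT : T.Finite) :
    ∃ T' : Set (PrimeSpectrum AK), T'.Finite ∧
      ∀ (L A' B' : Type) [Field L] [Algebra k L] [CommRing A'] [Algebra k A'] [Algebra L A']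
        [Algebra A A'] [IsScalarTower k L A'] [IsScalarTower k A A'] [Algebra.IsPushout k L A A']
        [CommRing B'] [Algebra k B'] [Algebra L B'] [Algebra B B'] [IsScalarTower k L B']
        [IsScalarTower k B B'] [Algebra.IsPushout k L B B'] [Algebra A' B'] [Algebra A B']
        [IsScalarTower L A' B'] [IsScalarTower A A' B'] [IsScalarTower A B B']
        [Algebra.IsPushout A A' B B']
        (j : ℕ) (χ : Inv L A' j) (χ' : Inv L B' j),
        (∀ I : Ideal B', (∀ Q : PrimeSpectrum B', I ≤ Q.asIdeal → dm L Q ≤ j) →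
          χ'.val (B' ⧸ I) = χ.val (A' ⧸ I.comap (algebraMap A' B'))) →
        KillsK k K A T' χ → KillsK k K B T χ' := by
  have := ft_bc k K AK (A := A)
  have := ft_bc k K BK (A := B)
  obtain ⟨T', hT', h⟩ := tr_surj (F := K) (BC_surj A AK B BK hs) T hT
  refine ⟨T', hT', ?_⟩
  intro L A' B' _ _ _ _ _ _ _ _ _ _ _ _ _ _ _ _ _ _ _ _ _ _ j χ χ' hχ hK _ _ _ _ _ _ _
  obtain ⟨_, _, _, _, _⟩ := kstr k K L A AK A'
  have := kpush k K L A AK A'
  have := kpush k K L B BK B'
  obtain ⟨_, _, _, _⟩ := ksq k K L A AK A' B BK B'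
  exact h L A' B' j χ χ' hχ hK

theorem trK_flat (r : ℕ)
    (hd : ∀ Q : PrimeSpectrum BK, dm K Q ≤ dm K (PrimeSpectrum.comap (algebraMap AK BK) Q) + r)
    (T : Set (PrimeSpectrum AK)) (hT : T.Finite) :
    ∃ T' : Set (PrimeSpectrum BK), T'.Finite ∧
      ∀ (L A' B' : Type) [Field L] [Algebra k L] [CommRing A'] [Algebra k A'] [Algebra L A']
        [Algebra A A'] [IsScalarTower k L A'] [IsScalarTower k A A'] [Algebra.IsPushout k L A A']
        [CommRing B'] [Algebra k B'] [Algebra L B'] [Algebra B B'] [IsScalarTower k L B']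
        [IsScalarTower k B B'] [Algebra.IsPushout k L B B'] [Algebra A' B'] [Algebra A B']
        [IsScalarTower L A' B'] [IsScalarTower A A' B'] [IsScalarTower A B B']
        [Algebra.IsPushout A A' B B']
        (j : ℕ) (χ : Inv L B' (j + r)) (χ' : Inv L A' j),
        (∀ I : Ideal A', (∀ Q : PrimeSpectrum A', I ≤ Q.asIdeal → dm L Q ≤ j) →
          χ'.val (A' ⧸ I) = χ.val (B' ⧸ I.map (algebraMap A' B'))) →
        KillsK k K B T' χ → KillsK k K A T χ' := by
  have := ft_bc k K AK (A := A)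
  have := ft_bc k K BK (A := B)
  obtain ⟨T', hT', h⟩ := tr_flat (F := K) r hd T hT
  refine ⟨T', hT', ?_⟩
  intro L A' B' _ _ _ _ _ _ _ _ _ _ _ _ _ _ _ _ _ _ _ _ _ _ j χ χ' hχ hK _ _ _ _ _ _ _
  obtain ⟨_, _, _, _, _⟩ := kstr k K L B BK B'
  have := kpush k K L A AK A'
  have := kpush k K L B BK B'
  obtain ⟨_, _, _, _⟩ := ksq k K L A AK A' B BK B'
  exact h L A' B' j χ χ' hχ hK

theorem trK_push {J : Ideal A} {B₀ : Submodule A B} (hfin : IsLat J B₀)
    (hJ : J.map (algebraMap A B) = ⊤) (T : Set (PrimeSpectrum BK)) (hT : T.Finite) :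
    ∃ T' : Set (PrimeSpectrum AK), T'.Finite ∧
      ∀ (L A' B' : Type) [Field L] [Algebra k L] [CommRing A'] [Algebra k A'] [Algebra L A']
        [Algebra A A'] [IsScalarTower k L A'] [IsScalarTower k A A'] [Algebra.IsPushout k L A A']
        [CommRing B'] [Algebra k B'] [Algebra L B'] [Algebra B B'] [IsScalarTower k L B']
        [IsScalarTower k B B'] [Algebra.IsPushout k L B B'] [Algebra A' B'] [Algebra A B']
        [IsScalarTower L A' B'] [IsScalarTower A A' B'] [IsScalarTower A B B']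
        [Algebra.IsPushout A A' B B']
        (j : ℕ) (χ : Inv L A' j) (χ' : Inv L B' j),
        (∀ (N : Type) [AddCommGroup N] [Module B' N] [Module A' N] [IsScalarTower A' B' N]
          [Module.Finite B' N], Module.support B' N ⊆ SD L B' j →
            ∀ N₀ : Submodule A' N, IsLat (J.map (algebraMap A A')) N₀ → χ'.val N = χ.val N₀) →
        KillsK k K A T' χ → KillsK k K B T χ' := by
  have := ft_bc k K AK (A := A)
  have := ft_bc k K BK (A := B)
  obtain ⟨B₁, hB₁⟩ := lat_bc_ring (A' := AK) (B' := BK) hfin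
  have hJ' : (J.map (algebraMap A AK)).map (algebraMap AK BK) = ⊤ := by
    rw [Ideal.map_map, ← IsScalarTower.algebraMap_eq, IsScalarTower.algebraMap_eq A B BK,
      ← Ideal.map_map, hJ, Ideal.map_top]
  obtain ⟨T', hT', h⟩ := tr_push (F := K) hB₁ hJ' T hT
  refine ⟨T', hT', ?_⟩
  intro L A' B' _ _ _ _ _ _ _ _ _ _ _ _ _ _ _ _ _ _ _ _ _ _ j χ χ' hχ hK _ _ _ _ _ _ _
  obtain ⟨_, _, _, _, _⟩ := kstr k K L A AK A'
  have := kpush k K L A AK A'
  have := kpush k K L B BK B'
  obtain ⟨_, _, _, _⟩ := ksq k K L A AK A' B BK B'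
  refine h L A' B' j χ χ' ?_ hK
  rw [Ideal.map_map, ← IsScalarTower.algebraMap_eq]
  exact hχ

theorem trK_quot [Module.Finite A B] {G : Type} [Group G] (θ : G →* (B ≃ₐ[k] B)) (H : Subgroup G)
    [Fintype H]
    (hs : ∀ (Ω : Type) [Field Ω] [IsAlgClosed Ω] [Algebra k Ω] (a : A →ₐ[k] Ω),
      ∃ b : B →ₐ[k] Ω, ∀ x, b (algebraMap A B x) = a x)
    (T : Set (PrimeSpectrum AK)) (hT : T.Finite) :
    ∃ T' : Set (PrimeSpectrum BK), T'.Finite ∧
      ∀ (L A' B' : Type) [Field L] [Algebra k L] [CommRing A'] [Algebra k A'] [Algebra L A']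
        [Algebra A A'] [IsScalarTower k L A'] [IsScalarTower k A A'] [Algebra.IsPushout k L A A']
        [CommRing B'] [Algebra k B'] [Algebra L B'] [Algebra B B'] [IsScalarTower k L B']
        [IsScalarTower k B B'] [Algebra.IsPushout k L B B'] [Algebra A' B'] [Algebra A B']
        [IsScalarTower L A' B'] [IsScalarTower A A' B'] [IsScalarTower A B B']
        [Algebra.IsPushout A A' B B']
        (θ' : G →* (B' ≃ₐ[L] B')), (∀ g x, θ' g (algebraMap B B' x) = algebraMap B B' (θ g x)) →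
        ∀ (j : ℕ) (χ : Inv L B' j) (ψ : Inv L A' j),
        (∀ I : Ideal B', (∀ Q : PrimeSpectrum B', I ≤ Q.asIdeal → dm L Q ≤ j) →
          ψ.val (B' ⧸ I) = ∑ h : H, χ.val (B' ⧸ I.comap (θ' h))) →
        KillsK k K B T' χ → KillsK k K A T ψ := by
  have := ft_bc k K AK (A := A)
  have := ft_bc k K BK (A := B)
  obtain ⟨θK, hθK⟩ := bc_aut θ K BK
  have : Module.Finite AK BK :=
    Module.Finite.equiv (Algebra.IsPushout.equiv A AK B BK).toLinearEquiv
  obtain ⟨T', hT', h⟩ := tr_quot (F := K) (A := AK) θK H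
    (fun P => lift_bc (A := A) (B := B) k P fun Ω _ _ _ a _ => hs Ω a) T hT
  refine ⟨T', hT', ?_⟩
  intro L A' B' _ _ _ _ _ _ _ _ _ _ _ _ _ _ _ _ _ _ _ _ _ _ θ' hθ' j χ ψ hχ hK _ _ _ _ _ _ _
  obtain ⟨_, _, _, _, _⟩ := kstr k K L B BK B'
  have := kpush k K L A AK A'
  have := kpush k K L B BK B'
  obtain ⟨_, _, _, _⟩ := ksq k K L A AK A' B BK B'
  refine h L A' B' θ' (fun g x => ?_) j χ ψ hχ hK
  refine GalB_ext k K B (((θ' g : B' →+* B')).comp (algebraMap BK B'))
    ((algebraMap BK B').comp (θK g : BK →+* BK)) (fun l => ?_) (fun b => ?_) x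
  · simp only [RingHom.comp_apply, RingHom.coe_coe, AlgEquiv.commutes]
    rw [← IsScalarTower.algebraMap_apply, IsScalarTower.algebraMap_apply K L B', AlgEquiv.commutes]
  · simp only [RingHom.comp_apply, RingHom.coe_coe, hθK]
    rw [← IsScalarTower.algebraMap_apply, ← IsScalarTower.algebraMap_apply, hθ']

end Pool.Agent.MP_c1eb4d_ag
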