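import Pool.Agent.MP_c1eb4d_ag.UMain

namespace Pool.Agent.MP_c1eb4d_ag.KeptHermitianFano

open Pool.Agent.MP_c1eb4d_ag

theorem result (F k σ : Type) [Field F] [Fintype F] [Field k] [Algebra F k]
    [Algebra.IsAlgebraic F k] [Fintype σ] [DecidableEq σ] (q : ℕ) (hq : Fintype.card F = q ^ 2)
    (N : Matrix σ σ F) (hN : ∀ a b, N a b ^ q = N b a) (hd : N.det ≠ 0) (r : ℕ) :
    CurveSpanned k (URing k q N r) q (Even (Fintype.card σ)) :=
  umain q hq N hN hd r

end Pool.Agent.MP_c1eb4d_ag.KeptHermitianFano
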