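import Pool.Agent.MP_c1eb4d_ag.PnLin

/-! Every line has a good predecessor or lies in a plane on the hypersurface. -/

namespace Pool.Agent.MP_c1eb4d_ag.Pen

open Polynomial Module

variable {k ι : Type} [Field k] [IsAlgClosed k] [Fintype ι] {p e : ℕ} [Fact p.Prime] [CharP k p]
  {B : Matrix ι ι k}

namespace PnExistX

omit [IsAlgClosed k] [Fintype ι] [CharP k p] in
theorem q_ne : p ^ e ≠ 0 := pow_ne_zero _ (Fact.out : p.Prime).ne_zero

/-- Two independent vectors in the left radical of a subspace that has two independent vectors in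
its right radical. -/
theorem exists_rad_pair (L : Submodule k (ι → k)) {u' v' : ι → k} (hu : u' ∈ L) (hv : v' ∈ L)
    (hi : LinearIndependent k ![u', v'])
    (hL : ∀ x ∈ L, bt (p ^ e) B x u' = 0 ∧ bt (p ^ e) B x v' = 0) :
    ∃ e₁ ∈ L, ∃ e₂ ∈ L, LinearIndependent k ![e₁, e₂] ∧
      ∀ y ∈ L, bt (p ^ e) B e₁ y = 0 ∧ bt (p ^ e) B e₂ y = 0 := by
  classical
  let w : Fin 2 → L := ![⟨u', hu⟩, ⟨v', hv⟩]
  have hw : LinearIndependent k w := by
    refine LinearIndependent.of_comp L.subtype ?_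
    convert hi using 1
    funext j
    fin_cases j <;> rfl
  obtain ⟨W, hW⟩ := (Submodule.span k (Set.range w)).exists_isCompl
  have hr := Submodule.finrank_add_eq_of_isCompl hW
  rw [finrank_span_eq_card hw, Fintype.card_fin] at hr
  choose ψ hψ using fun x => exists_psi (p := p) (e := e) B x
  have : Module.Free k W := Module.Free.of_divisionRing k W
  let b := Module.finBasis k W
  obtain ⟨e₁, e₂, h12, hk⟩ :=
    exists_pair_ker (fun j => (ψ ((b j : L) : ι → k)) ∘ₗ L.subtype) (by omega)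
  have key : ∀ x : L, (∀ j, ψ ((b j : L) : ι → k) x = 0) → ∀ y ∈ L, bt (p ^ e) B x y = 0 := by
    intro x hx y hy
    let f : L →ₗ[k] k := phi (p ^ e) B x ∘ₗ L.subtype
    have h1 : Submodule.span k (Set.range w) ≤ LinearMap.ker f := by
      rw [Submodule.span_le]
      rintro _ ⟨j, rfl⟩
      fin_cases j
      · exact (hL x x.2).1
      · exact (hL x x.2).2
    have h2 : f ∘ₗ W.subtype = 0 := by
      refine b.ext fun j => ?_
      have := hψ ((b j : L) : ι → k) x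
      rw [hx j, zero_pow q_ne] at this
      exact this.symm
    have h3 : W ≤ LinearMap.ker f := fun z hz => LinearMap.congr_fun h2 ⟨z, hz⟩
    have h4 : (⊤ : Submodule k L) ≤ LinearMap.ker f := hW.codisjoint.eq_top ▸ sup_le h1 h3
    exact h4 (Submodule.mem_top (x := ⟨y, hy⟩))
  refine ⟨e₁, e₁.2, e₂, e₂.2, ?_, fun y hy =>
    ⟨key e₁ (fun j => (hk j).1) y hy, key e₂ (fun j => (hk j).2) y hy⟩⟩
  have h5 : (![(e₁ : ι → k), e₂] : Fin 2 → ι → k) = L.subtype ∘ ![e₁, e₂] := by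
    funext j
    fin_cases j <;> rfl
  rw [h5]
  exact h12.map' L.subtype (Submodule.ker_subtype L)

/-- A vector whose form vanishes on the left orthogonal of a line has its transfer on the line. -/
theorem exists_transfer {u' v' x : ι → k}
    (h : ∀ y, bt (p ^ e) B y u' = 0 → bt (p ^ e) B y v' = 0 → bt (p ^ e) B x y = 0) :
    ∃ c d : k, ∀ y, bt (p ^ e) B x y ^ p ^ e = bt (p ^ e) B y (c • u' + d • v') := by
  obtain ⟨ψ₁, h₁⟩ := exists_psi (p := p) (e := e) B u'
  obtain ⟨ψ₂, h₂⟩ := exists_psi (p := p) (e := e) B v'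
  have hm : phi (p ^ e) B x ∈ Submodule.span k (Set.range ![ψ₁, ψ₂]) := by
    refine mem_span_of_iInf_ker_le_ker fun y hy => ?_
    rw [Submodule.mem_iInf] at hy
    have e1 : ψ₁ y = 0 := hy 0
    have e2 : ψ₂ y = 0 := hy 1
    refine h y ?_ ?_
    · rw [← h₁, e1, zero_pow q_ne]
    · rw [← h₂, e2, zero_pow q_ne]
  obtain ⟨c, hc⟩ := (Submodule.mem_span_range_iff_exists_fun k).1 hm
  refine ⟨c 0 ^ p ^ e, c 1 ^ p ^ e, fun y => ?_⟩
  have := LinearMap.congr_fun hc y
  have e3 : bt (p ^ e) B x y = c 0 * ψ₁ y + c 1 * ψ₂ y := by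
    simpa [Fin.sum_univ_two, phi] using this.symm
  rw [e3, add_pow_char_pow, mul_pow, mul_pow, h₁, h₂, bt_add_right, bt_smul_right, bt_smul_right]

omit [Fintype ι] [CharP k p] in
/-- A binary form of this shape has a non-trivial zero. -/
theorem exists_zero {m : ℕ} (hm : m ≠ 0) (a b c d : k) :
    ∃ s t : k, (s ≠ 0 ∨ t ≠ 0) ∧ s ^ m * (s * a + t * b) + t ^ m * (s * c + t * d) = 0 := by
  by_cases hd : d = 0
  · exact ⟨0, 1, Or.inr one_ne_zero, by simp [hm, hd]⟩
  · have hdeg : (pw m a b c d).degree ≠ 0 := by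
      intro h0
      have h1 := coeff_pw_top hm a b c d
      rw [eq_C_of_degree_eq_zero h0, coeff_C, if_neg (by omega)] at h1
      exact hd h1.symm
    obtain ⟨t, ht⟩ := IsAlgClosed.exists_root _ hdeg
    refine ⟨1, t, Or.inl one_ne_zero, ?_⟩
    simp only [IsRoot, pw, eval_add, eval_mul, eval_C, eval_X, eval_pow] at ht
    rw [← ht]
    ring

/-- A vector of the left radical that is orthogonal to its transfer. -/
theorem exists_vec {u' v' : ι → k} (hB : Iso (p ^ e) B u' v') (hi : LinearIndependent k ![u', v']) :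
    ∃ (x : ι → k) (c d : k), x ≠ 0 ∧ bt (p ^ e) B x u' = 0 ∧ bt (p ^ e) B x v' = 0 ∧
      bt (p ^ e) B x x = 0 ∧ bt (p ^ e) B (c • u' + d • v') x = 0 ∧
      ∀ y, bt (p ^ e) B x y ^ p ^ e = bt (p ^ e) B y (c • u' + d • v') := by
  obtain ⟨ψ₁, h₁⟩ := exists_psi (p := p) (e := e) B u'
  obtain ⟨ψ₂, h₂⟩ := exists_psi (p := p) (e := e) B v'
  let L : Submodule k (ι → k) := LinearMap.ker ψ₁ ⊓ LinearMap.ker ψ₂
  have hL : ∀ x, x ∈ L ↔ bt (p ^ e) B x u' = 0 ∧ bt (p ^ e) B x v' = 0 := by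
    intro x
    rw [← h₁, ← h₂, pow_eq_zero_iff q_ne, pow_eq_zero_iff q_ne]
    rfl
  obtain ⟨e₁, he₁, e₂, he₂, h12, hr⟩ := exists_rad_pair (p := p) (e := e) (B := B) L
    ((hL _).2 ⟨hB.uu, hB.uv⟩) ((hL _).2 ⟨hB.vu, hB.vv⟩) hi fun x hx => (hL x).1 hx
  obtain ⟨c₁, d₁, t₁⟩ := exists_transfer (p := p) (e := e) (B := B) (u' := u') (v' := v')
    (x := e₁) fun y a b => (hr y ((hL y).2 ⟨a, b⟩)).1
  obtain ⟨c₂, d₂, t₂⟩ := exists_transfer (p := p) (e := e) (B := B) (u' := u') (v' := v')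
    (x := e₂) fun y a b => (hr y ((hL y).2 ⟨a, b⟩)).2
  set f₁ := c₁ • u' + d₁ • v' with hf₁
  set f₂ := c₂ • u' + d₂ • v' with hf₂
  obtain ⟨s, t, hst, h0⟩ := exists_zero (m := p ^ e * p ^ e * p ^ e)
    (mul_ne_zero (mul_ne_zero q_ne q_ne) q_ne) (bt (p ^ e) B f₁ e₁) (bt (p ^ e) B f₁ e₂)
    (bt (p ^ e) B f₂ e₁) (bt (p ^ e) B f₂ e₂)
  have hx : s • e₁ + t • e₂ ∈ L := L.add_mem (L.smul_mem _ he₁) (L.smul_mem _ he₂)
  have hx' : ∀ y ∈ L, bt (p ^ e) B (s • e₁ + t • e₂) y = 0 := by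
    intro y hy
    rw [bt_add_left, bt_smul_left, bt_smul_left, (hr y hy).1, (hr y hy).2]
    ring
  have hf : (s ^ (p ^ e * p ^ e) * c₁ + t ^ (p ^ e * p ^ e) * c₂) • u' +
      (s ^ (p ^ e * p ^ e) * d₁ + t ^ (p ^ e * p ^ e) * d₂) • v' =
      s ^ (p ^ e * p ^ e) • f₁ + t ^ (p ^ e * p ^ e) • f₂ := by
    rw [hf₁, hf₂]
    module
  refine ⟨s • e₁ + t • e₂, s ^ (p ^ e * p ^ e) * c₁ + t ^ (p ^ e * p ^ e) * c₂,
    s ^ (p ^ e * p ^ e) * d₁ + t ^ (p ^ e * p ^ e) * d₂, fun h => ?_, ((hL _).1 hx).1,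
    ((hL _).1 hx).2, hx' _ hx, ?_, fun y => ?_⟩
  · have := LinearIndependent.pair_iff.1 h12 s t h
    tauto
  · rw [hf, bt_comb, ← h0, ← pow_mul, ← pow_mul]
    ring
  · rw [hf, bt_add_left, bt_smul_left, bt_smul_left, add_pow_char_pow, mul_pow, mul_pow, t₁, t₂,
      bt_add_right _ _ _ (_ • f₁), bt_smul_right, bt_smul_right, ← pow_mul, ← pow_mul]

end PnExistX

open PnExistX in
theorem exists_pred (hc : 6 ≤ Fintype.card ι) {u' v' : ι → k} (hB : Iso (p ^ e) B u' v')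
    (hi : LinearIndependent k ![u', v']) :
    ∃ y, bt (p ^ e) B y u' = 0 ∧ bt (p ^ e) B y v' = 0 ∧ LinearIndependent k ![u', v', y] ∧
      ((bt (p ^ e) B u' y = 0 ∧ bt (p ^ e) B v' y = 0 ∧ bt (p ^ e) B y y = 0) ∨
        (¬ (bt (p ^ e) B u' y = 0 ∧ bt (p ^ e) B v' y = 0 ∧ bt (p ^ e) B y y = 0) ∧
          ∃ u v, Pre (p ^ e) B u' v' y u v ∧ Good (p ^ e) B u v)) := by
  obtain ⟨x, c, d, hx0, hxu, hxv, hxx, hfx, ht⟩ := exists_vec hB hi
  by_cases hx : x ∈ Submodule.span k {u', v'}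
  · obtain ⟨a, b, rfl⟩ := Submodule.mem_span_pair.1 hx
    have hab : a ≠ 0 ∨ b ≠ 0 := by
      by_contra hn
      push Not at hn
      exact hx0 (by simp [hn.1, hn.2])
    have hg := good_of_dep hc hi hab ht
    obtain ⟨y, hy, ho⟩ := id hg
    refine ⟨y, ho.yu, ho.yv, hy, ?_⟩
    by_cases hyy : bt (p ^ e) B y y = 0
    · exact Or.inl ⟨ho.uy, ho.vy, hyy⟩
    · exact Or.inr ⟨fun h => hyy h.2.2, u', v', ⟨hi, Submodule.subset_span (by simp),
        Submodule.subset_span (by simp), ho.uy, ho.vy⟩, hg⟩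
  · refine ⟨x, hxu, hxv, li_three hi hx, ?_⟩
    by_cases h0 : bt (p ^ e) B u' x = 0 ∧ bt (p ^ e) B v' x = 0 ∧ bt (p ^ e) B x x = 0
    · exact Or.inl h0
    refine Or.inr ⟨h0, ?_⟩
    obtain ⟨a, ha⟩ := IsAlgClosed.exists_pow_nat_eq (bt (p ^ e) B u' x)
      (Nat.pos_of_ne_zero (q_ne (p := p) (e := e)))
    obtain ⟨b, hb⟩ := IsAlgClosed.exists_pow_nat_eq (bt (p ^ e) B v' x)
      (Nat.pos_of_ne_zero (q_ne (p := p) (e := e)))
    have hab : a ≠ 0 ∨ b ≠ 0 := by
      by_contra hn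
      push Not at hn
      rw [hn.1, zero_pow q_ne] at ha
      rw [hn.2, zero_pow q_ne] at hb
      exact h0 ⟨ha.symm, hb.symm, hxx⟩
    have hcd : c * a + d * b = 0 := by
      rw [bt_add_left, bt_smul_left, bt_smul_left, ← ha, ← hb, ← mul_pow, ← mul_pow,
        ← add_pow_char_pow, pow_eq_zero_iff q_ne] at hfx
      exact hfx
    have hli : LinearIndependent k ![x, b • u' + (-a) • v'] := by
      rw [LinearIndependent.pair_iff]
      intro s t hst
      have hs : s = 0 := by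
        by_contra hs
        refine hx (Submodule.mem_span_pair.2 ⟨-(t * b) / s, t * a / s, ?_⟩)
        have : x = s⁻¹ • (s • x) := by rw [smul_smul, inv_mul_cancel₀ hs, one_smul]
        rw [this, eq_neg_of_add_eq_zero_left hst]
        match_scalars <;> field_simp
      refine ⟨hs, ?_⟩
      rw [hs, zero_smul, zero_add, smul_add, smul_smul, smul_smul] at hst
      obtain ⟨h1, h2⟩ := LinearIndependent.pair_iff.1 hi _ _ hst
      rcases hab with h | h
      · simpa [h] using h2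
      · simpa [h] using h1
    obtain ⟨r, hr⟩ : ∃ r : k, c • u' + d • v' = r • (b • u' + (-a) • v') := by
      rcases hab with h | h
      · refine ⟨-d / a, ?_⟩
        have : c = -d / a * b := by
          field_simp
          linear_combination hcd
        rw [this]
        match_scalars <;> field_simp
      · refine ⟨c / b, ?_⟩
        have : d = c / b * -a := by
          field_simp
          linear_combination hcd
        rw [this]
        match_scalars <;> field_simp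
    refine ⟨x, b • u' + (-a) • v', ⟨hli, Submodule.subset_span (by simp), ?_, hxx, ?_⟩, ?_⟩
    · exact Submodule.mem_span_triple.2 ⟨b, -a, 0, by simp⟩
    · rw [bt_add_left, bt_smul_left, bt_smul_left, ← ha, ← hb, ← mul_pow, ← mul_pow,
        ← add_pow_char_pow, pow_eq_zero_iff q_ne]
      ring
    · refine good_of_dep hc hli (a := 1) (b := 0) (a' := 0) (b' := r) (Or.inl one_ne_zero)
        fun y => ?_
      rw [one_smul, zero_smul, add_zero, zero_smul, zero_add, ← hr, ht]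

end Pool.Agent.MP_c1eb4d_ag.Pen
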