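import Pool.Agent.MP_c1eb4d_ag.PnLin

/-! Planes on the hypersurface. -/

namespace Pool.Agent.MP_c1eb4d_ag.Pen

open Polynomial Module Matrix

variable {k ι : Type} [Field k] [IsAlgClosed k] [Fintype ι] {p e : ℕ} [Fact p.Prime] [CharP k p]
  {B : Matrix ι ι k}

namespace PnPlaneX

/-- The coefficients of a fixed vector, as polynomials in the last one. -/
noncomputable def dp {F : Type} [Field F] (Q : ℕ) (c : ℕ → F) : ℕ → F[X]
  | 0 => C (c 0) * X ^ Q
  | i + 1 => dp Q c i ^ Q + C (c (i + 1)) * X ^ Q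

theorem dp_dvd {F : Type} [Field F] {Q : ℕ} (hQ : 2 ≤ Q) (c : ℕ → F) (i : ℕ) :
    X ^ Q ∣ dp Q c i := by
  induction i with
  | zero => exact Dvd.intro_left _ rfl
  | succ i ih => exact dvd_add (ih.trans (dvd_pow_self _ (by omega))) (Dvd.intro_left _ rfl)

theorem dp_zero {F : Type} [Field F] {Q : ℕ} (hQ : 2 ≤ Q) (c : ℕ → F) (m : ℕ)
    (h : dp Q c m = 0) : ∀ i ≤ m, c i = 0 := by
  induction m with
  | zero =>
    intro i hi
    obtain rfl : i = 0 := by omega
    simpa [dp] using h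
  | succ m ih =>
    obtain ⟨H, hH⟩ := dp_dvd hQ c m
    obtain ⟨r, rfl⟩ : ∃ r, Q = r + 2 := ⟨Q - 2, by omega⟩
    have h1 : (X : F[X]) ^ (r + 2) *
        ((X ^ (r + 2)) ^ (r + 1) * H ^ (r + 2) + C (c (m + 1))) = 0 := by
      rw [← h, dp, hH]; ring
    have h2 := (mul_eq_zero.1 h1).resolve_left (pow_ne_zero _ X_ne_zero)
    have h3 : c (m + 1) = 0 := by simpa using congrArg (eval 0) h2
    have h4 : dp (r + 2) c m = 0 := by
      rw [dp, h3, C_0, zero_mul, add_zero] at h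
      exact pow_eq_zero_iff (by omega) |>.1 h
    intro i hi
    rcases Nat.lt_succ_iff_lt_or_eq.1 (Nat.lt_succ_of_le hi) with hi | rfl
    · exact ih h4 i (by omega)
    · exact h3

theorem dp_fix {F : Type} [Field F] [IsAlgClosed F] {Q : ℕ} (hQ : 2 ≤ Q) (c : ℕ → F) (m : ℕ)
    (h : dp Q c m ≠ 0) : ∃ x : F, x ≠ 0 ∧ (dp Q c m).eval x = x := by
  obtain ⟨H, hH⟩ := (pow_dvd_pow X hQ).trans (dp_dvd hQ c m)
  have hH0 : H ≠ 0 := fun h0 => h (by rw [hH, h0, mul_zero])
  have hd : (X * H - C 1).degree ≠ 0 := by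
    have h1 : 0 < (X * H).degree := by
      rw [degree_mul, degree_X]
      exact lt_of_lt_of_le zero_lt_one (le_add_of_nonneg_right (zero_le_degree_iff.2 hH0))
    rw [degree_sub_C h1]
    exact h1.ne'
  obtain ⟨x, hx⟩ := IsAlgClosed.exists_root _ hd
  have hx' : x * H.eval x = 1 := by
    have := hx.eq_zero
    simp only [eval_sub, eval_mul, eval_X, eval_C] at this
    exact sub_eq_zero.1 this
  refine ⟨x, left_ne_zero_of_mul_eq_one hx', ?_⟩
  rw [hH, eval_mul, eval_pow, eval_X, pow_two, mul_assoc, hx', mul_one]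

/-- A semilinear map has an eigenvector. -/
theorem fix {F V : Type} [Field F] [IsAlgClosed F] [AddCommGroup V] [Module F V]
    [FiniteDimensional F V] [Nontrivial V] {Q : ℕ} (hQ : 2 ≤ Q) (Ψ : V →+ V)
    (h : ∀ (s : F) y, Ψ (s • y) = s ^ Q • Ψ y) : ∃ (y : V) (μ : F), y ≠ 0 ∧ Ψ y = μ • y := by
  classical
  obtain ⟨y0, hy0⟩ := exists_ne (0 : V)
  let y : ℕ → V := fun i => Ψ^[i] y0
  have hy : ∀ i, Ψ (y i) = y (i + 1) := fun i => (Function.iterate_succ_apply' _ _ _).symm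
  let W : ℕ →o Submodule F V := ⟨fun n => Submodule.span F (y '' (Finset.range n : Set ℕ)),
    fun a b hab => Submodule.span_mono (Set.image_mono (by simpa using hab))⟩
  have hex : ∃ n, y n ∈ W n := by
    obtain ⟨n, hn⟩ := monotone_stabilizes_iff_noetherian.2 inferInstance W
    refine ⟨n, ?_⟩
    rw [hn (n + 1) (Nat.le_succ n)]
    exact Submodule.subset_span ⟨n, by simp, rfl⟩
  have hpos : Nat.find hex ≠ 0 := by
    intro h0
    have := Nat.find_spec hex
    rw [h0] at this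
    exact hy0 (by simpa [W, y] using this)
  obtain ⟨m, hm⟩ := Nat.exists_eq_succ_of_ne_zero hpos
  have h1 : y (m + 1) ∈ W (m + 1) := by
    have := Nat.find_spec hex
    rwa [hm] at this
  have h2 : y m ∉ W m := Nat.find_min hex (by omega)
  obtain ⟨c, hc⟩ := (Submodule.mem_span_image_finset_iff_exists_fun' F).1 h1
  by_cases h0 : dp Q c m = 0
  · refine ⟨y m, 0, fun e => h2 (e ▸ Submodule.zero_mem _), ?_⟩
    rw [hy, ← hc, zero_smul]
    exact Finset.sum_eq_zero fun i hi => by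
      rw [dp_zero hQ c m h0 i (Nat.lt_succ_iff.1 (Finset.mem_range.1 hi)), zero_smul]
  obtain ⟨x, hx0, hx⟩ := dp_fix hQ c m h0
  refine ⟨∑ i ∈ Finset.range (m + 1), (dp Q c i).eval x • y i, 1, fun e => h2 ?_, ?_⟩
  · rw [Finset.sum_range_succ, hx] at e
    have e' : y m = -x⁻¹ • ∑ i ∈ Finset.range m, (dp Q c i).eval x • y i := by
      rw [eq_neg_of_add_eq_zero_left e, smul_neg, neg_smul, neg_neg, smul_smul,
        inv_mul_cancel₀ hx0, one_smul]
    rw [e']
    exact Submodule.smul_mem _ _ (Submodule.sum_mem _ fun i hi =>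
      Submodule.smul_mem _ _ (Submodule.subset_span ⟨i, hi, rfl⟩))
  · rw [one_smul, map_sum]
    simp only [h, hy]
    rw [Finset.sum_range_succ, hx, ← hc, Finset.sum_range_succ', Finset.sum_range_succ',
      smul_add, ← add_assoc, Finset.smul_sum, ← Finset.sum_add_distrib]
    congr 1
    · refine Finset.sum_congr rfl fun i _ => ?_
      rw [smul_smul, ← add_smul, dp, eval_add, eval_pow, eval_mul, eval_C, eval_pow, eval_X,
        mul_comm]
    · rw [smul_smul, dp, eval_mul, eval_C, eval_pow, eval_X, mul_comm]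

variable {F κ : Type} [Field F] [Fintype κ] {p e : ℕ} [Fact p.Prime] [CharP F p]
  {B : Matrix κ κ F}

theorem two_le {f : ℕ} (hf : 1 ≤ f) : 2 ≤ p ^ f :=
  (Fact.out : p.Prime).two_le.trans (Nat.le_self_pow (by omega) p)

theorem span_left {s : Set (κ → F)} {y : κ → F} (h : ∀ x ∈ s, bt (p ^ e) B x y = 0) {x : κ → F}
    (hx : x ∈ Submodule.span F s) : bt (p ^ e) B x y = 0 := by
  induction hx using Submodule.span_induction with
  | mem x hx => exact h x hx
  | zero => exact bt_zero_left (pow_ne_zero _ (Fact.out : p.Prime).ne_zero) B y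
  | add a b _ _ ha hb => rw [bt_add_left, ha, hb, add_zero]
  | smul c a _ ha => rw [bt_smul_left, ha, mul_zero]

omit [Fact p.Prime] [CharP F p] in
theorem span_right {s : Set (κ → F)} {y : κ → F} (h : ∀ x ∈ s, bt (p ^ e) B y x = 0) {x : κ → F}
    (hx : x ∈ Submodule.span F s) : bt (p ^ e) B y x = 0 := by
  induction hx using Submodule.span_induction with
  | mem x hx => exact h x hx
  | zero => exact bt_zero_right _ B y
  | add a b _ _ ha hb => rw [bt_add_right, ha, hb, add_zero]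
  | smul c a _ ha => rw [bt_smul_right, ha, mul_zero]

theorem span_iso {s : Set (κ → F)} (h : IsoSet (p ^ e) B s) :
    IsoSet (p ^ e) B (Submodule.span F s) :=
  fun _ hx _ hy => span_left (fun x' hx' => span_right (h x' hx') hy) hx

theorem span_rel {s : Set (κ → F)} {y : κ → F} {μ : F}
    (h : ∀ x ∈ s, bt (p ^ e) B y x ^ p ^ e = μ * bt (p ^ e) B x y) {x : κ → F}
    (hx : x ∈ Submodule.span F s) : bt (p ^ e) B y x ^ p ^ e = μ * bt (p ^ e) B x y := by
  have hq : p ^ e ≠ 0 := pow_ne_zero _ (Fact.out : p.Prime).ne_zero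
  induction hx using Submodule.span_induction with
  | mem x hx => exact h x hx
  | zero => rw [bt_zero_left hq, bt_zero_right, zero_pow hq, mul_zero]
  | add a b _ _ ha hb => rw [bt_add_left, bt_add_right, add_pow_char_pow, ha, hb, mul_add]
  | smul c a _ ha => rw [bt_smul_left, bt_smul_right, mul_pow, ha]; ring

theorem pair_in (P : Submodule F (κ → F)) {m : ℕ} (φ : Fin m → (κ → F) →ₗ[F] F)
    (h : m + 2 ≤ finrank F P) :
    ∃ u ∈ P, ∃ v ∈ P, LinearIndependent F ![u, v] ∧ ∀ i, φ i u = 0 ∧ φ i v = 0 := by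
  obtain ⟨u, v, hi, hφ⟩ := exists_pair_ker (fun i => (φ i).comp P.subtype) h
  refine ⟨u, u.2, v, v.2, ?_, hφ⟩
  have e : ![(u : κ → F), v] = P.subtype ∘ ![u, v] := by
    funext i
    fin_cases i <;> rfl
  rw [e]
  exact hi.map' P.subtype P.ker_subtype

/-- A vector outside the plane on which the two pairings with the plane are proportional. -/
theorem exists_out [IsAlgClosed F] (hc : 6 ≤ Fintype.card κ) (he : 1 ≤ e) {x : Fin 3 → κ → F}
    (hi : LinearIndependent F x) :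
    ∃ y, y ∉ Submodule.span F (Set.range x) ∧ ((∀ i, bt (p ^ e) B (x i) y = 0) ∨
      ∃ μ : F, ∀ i, bt (p ^ e) B y (x i) ^ p ^ e = μ * bt (p ^ e) B (x i) y) := by
  obtain ⟨W, hW⟩ := Submodule.exists_isCompl (Submodule.span F (Set.range x))
  have hd : 3 ≤ finrank F W := by
    have h1 := Submodule.finrank_add_eq_of_isCompl hW
    rw [finrank_span_eq_card hi, Module.finrank_fintype_fun_eq_card, Fintype.card_fin] at h1
    omega
  have hout : ∀ y : W, y ≠ 0 → (y : κ → F) ∉ Submodule.span F (Set.range x) := fun y hy h =>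
    hy (Subtype.ext (Submodule.disjoint_def.1 hW.disjoint _ h y.2))
  let N : W →ₗ[F] (Fin 3 → F) := LinearMap.pi fun i => (phi (p ^ e) B (x i)).comp W.subtype
  by_cases hN : Function.Injective N
  · have hd' : finrank F W = finrank F (Fin 3 → F) := by
      have h1 := LinearMap.finrank_le_finrank_of_injective hN
      rw [Module.finrank_fintype_fun_eq_card, Fintype.card_fin] at h1 ⊢
      omega
    have : Nontrivial W := Module.nontrivial_of_finrank_pos (R := F) (by omega)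
    let E := LinearMap.linearEquivOfInjective N hN hd'
    let Ψ : W →+ W := AddMonoidHom.mk' (fun y => E.symm fun i => bt (p ^ e) B y (x i) ^ p ^ e)
      fun a b => by
        rw [← map_add]
        congr 1
        funext i
        rw [Submodule.coe_add, bt_add_left, add_pow_char_pow, Pi.add_apply]
    obtain ⟨y, μ, hy, hΨ⟩ := fix (F := F) (Q := p ^ (e + e)) (two_le (by omega)) Ψ fun s y => by
      show E.symm _ = s ^ p ^ (e + e) • E.symm _
      rw [← map_smul]
      congr 1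
      funext i
      rw [Submodule.coe_smul, bt_smul_left, mul_pow, ← pow_mul, ← pow_add, Pi.smul_apply,
        smul_eq_mul]
    refine ⟨y, hout y hy, Or.inr ⟨μ, fun i => ?_⟩⟩
    have h1 : (fun i => bt (p ^ e) B y (x i) ^ p ^ e) = E (μ • y) := (E.symm_apply_eq).1 hΨ
    rw [map_smul] at h1
    exact congrFun h1 i
  · obtain ⟨y, hy, hy0⟩ : ∃ y, N y = 0 ∧ y ≠ 0 := by
      by_contra h
      exact hN ((injective_iff_map_eq_zero N).2 fun y hy => by_contra fun h0 => h ⟨y, hy, h0⟩)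
    exact ⟨y, hout y hy0, Or.inl fun i => congrFun hy i⟩

end PnPlaneX

theorem semi_eigen {f : ℕ} (hf : 1 ≤ f) (M : Matrix (Fin 3) (Fin 3) k) :
    ∃ (y : Fin 3 → k) (μ : k), y ≠ 0 ∧ M *ᵥ (fun i => y i ^ p ^ f) = μ • y := by
  exact PnPlaneX.fix (F := k) (Q := p ^ f) (PnPlaneX.two_le hf)
    (AddMonoidHom.mk' (fun y : Fin 3 → k => M *ᵥ fun i => y i ^ p ^ f) fun a b => by
      rw [← mulVec_add]
      congr 1
      funext i
      rw [Pi.add_apply, add_pow_char_pow, Pi.add_apply])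
    fun s y => by
      rw [AddMonoidHom.mk'_apply, ← mulVec_smul]
      congr 1
      funext i
      simp [mul_pow]

/-- If the form vanishes on `y + x` for all multiples `x` of `x₀`, the pairings vanish. -/
theorem polar (he : 1 ≤ e) {y x₀ : ι → k} (hx : bt (p ^ e) B x₀ x₀ = 0)
    (h : ∀ s : k, bt (p ^ e) B (y + s • x₀) (y + s • x₀) = 0) :
    bt (p ^ e) B y y = 0 ∧ bt (p ^ e) B y x₀ = 0 ∧ bt (p ^ e) B x₀ y = 0 := by
  have h1 : ∀ s : k, bt (p ^ e) B y y + s * bt (p ^ e) B y x₀ + s ^ p ^ e * bt (p ^ e) B x₀ y = 0 := by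
    intro s
    have := h s
    simp only [bt_add_left, bt_add_right, bt_smul_left, bt_smul_right, hx] at this
    linear_combination this
  have hq := PnPlaneX.two_le (p := p) he
  have h0 : bt (p ^ e) B y y = 0 := by simpa [zero_pow (by omega : p ^ e ≠ 0)] using h1 0
  obtain ⟨s, hs⟩ : ∃ s : k, s ^ p ^ e ≠ s := by
    by_contra hn
    have h2 : (X ^ p ^ e : k[X]) = X := Polynomial.funext fun s => by
      simpa using by_contra fun h' => hn ⟨s, h'⟩
    have h3 := congrArg natDegree h2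
    rw [natDegree_X_pow, natDegree_X] at h3
    omega
  have h4 := h1 1
  have h5 : (s ^ p ^ e - s) * bt (p ^ e) B x₀ y = 0 := by
    rw [one_pow] at h4
    linear_combination h1 s - s * h4 + (s - 1) * h0
  have h6 := (mul_eq_zero.1 h5).resolve_left (sub_ne_zero.2 hs)
  exact ⟨h0, by linear_combination h4 - h0 - 1 ^ p ^ e * h6, h6⟩

theorem plane_sgood (hc : 6 ≤ Fintype.card ι) (he : 1 ≤ e) {x₁ x₂ x₃ y₀ : ι → k}
    (hi : LinearIndependent k ![x₁, x₂, x₃]) (h : IsoSet (p ^ e) B {x₁, x₂, x₃})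
    (h0 : bt (p ^ e) B y₀ y₀ ≠ 0) :
    ∃ u v y, LinearIndependent k ![u, v] ∧ Orth (p ^ e) B u v y ∧ bt (p ^ e) B y y ≠ 0 ∧
      IsoSet (p ^ e) B {x₁, x₂, u, v} := by
  have hq : p ^ e ≠ 0 := pow_ne_zero _ (Fact.out : p.Prime).ne_zero
  have hr : Set.range ![x₁, x₂, x₃] = {x₁, x₂, x₃} := by
    ext z; simp only [Set.mem_range, Fin.exists_fin_succ]; simp [eq_comm]
  obtain ⟨y, hy, hrel⟩ := PnPlaneX.exists_out (p := p) (B := B) hc he hi
  set P := Submodule.span k (Set.range ![x₁, x₂, x₃]) with hP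
  have hPi : IsoSet (p ^ e) B P := PnPlaneX.span_iso (hr ▸ h)
  have hd : finrank k P = 3 := by rw [hP, finrank_span_eq_card hi, Fintype.card_fin]
  have h1 : x₁ ∈ P := Submodule.subset_span ⟨0, rfl⟩
  have h2 : x₂ ∈ P := Submodule.subset_span ⟨1, rfl⟩
  have hsub : ∀ {Q : Submodule k (ι → k)} {u v : ι → k}, IsoSet (p ^ e) B Q → P ≤ Q → u ∈ Q →
      v ∈ Q → IsoSet (p ^ e) B {x₁, x₂, u, v} := by
    intro Q u v hQ hle hu hv
    have hm : ∀ z ∈ ({x₁, x₂, u, v} : Set (ι → k)), z ∈ Q := by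
      intro z hz
      rcases hz with rfl | rfl | rfl | rfl
      exacts [hle h1, hle h2, hu, hv]
    exact fun a ha b hb => hQ a (hm a ha) b (hm b hb)
  by_cases hx : ∃ x ∈ P, bt (p ^ e) B (y + x) (y + x) ≠ 0
  · obtain ⟨x, hxP, hx⟩ := hx
    obtain ⟨u, hu, v, hv, huv, ho⟩ : ∃ u ∈ P, ∃ v ∈ P, LinearIndependent k ![u, v] ∧
        Orth (p ^ e) B u v y := by
      rcases hrel with hz | ⟨μ, hμ⟩
      · obtain ⟨u, hu, v, hv, huv, hφ⟩ :=
          PnPlaneX.pair_in P (fun _ : Fin 1 => phi (p ^ e) B y) (by omega)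
        have hz' : ∀ z ∈ Set.range ![x₁, x₂, x₃], bt (p ^ e) B z y = 0 := by
          rintro _ ⟨i, rfl⟩; exact hz i
        exact ⟨u, hu, v, hv, huv, PnPlaneX.span_left hz' hu, PnPlaneX.span_left hz' hv,
          (hφ 0).1, (hφ 0).2⟩
      · obtain ⟨ψ, hψ⟩ := exists_psi (p := p) (e := e) B y
        obtain ⟨u, hu, v, hv, huv, hφ⟩ := PnPlaneX.pair_in P (fun _ : Fin 1 => ψ) (by omega)
        have hμ' : ∀ z ∈ Set.range ![x₁, x₂, x₃],
            bt (p ^ e) B y z ^ p ^ e = μ * bt (p ^ e) B z y := by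
          rintro _ ⟨i, rfl⟩; exact hμ i
        have e1 : bt (p ^ e) B u y = 0 := by rw [← hψ, (hφ 0).1, zero_pow hq]
        have e2 : bt (p ^ e) B v y = 0 := by rw [← hψ, (hφ 0).2, zero_pow hq]
        refine ⟨u, hu, v, hv, huv, e1, e2, (pow_eq_zero_iff hq).1 ?_, (pow_eq_zero_iff hq).1 ?_⟩
        · rw [PnPlaneX.span_rel hμ' hu, e1, mul_zero]
        · rw [PnPlaneX.span_rel hμ' hv, e2, mul_zero]
    refine ⟨u, v, y + x, huv, ⟨?_, ?_, ?_, ?_⟩, hx, hsub hPi le_rfl hu hv⟩
    · rw [bt_add_right, ho.uy, hPi u hu x hxP, add_zero]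
    · rw [bt_add_right, ho.vy, hPi v hv x hxP, add_zero]
    · rw [bt_add_left, ho.yu, hPi x hxP u hu, add_zero]
    · rw [bt_add_left, ho.yv, hPi x hxP v hv, add_zero]
  · have hpol : ∀ x ∈ P, bt (p ^ e) B y y = 0 ∧ bt (p ^ e) B y x = 0 ∧ bt (p ^ e) B x y = 0 :=
      fun x hxP => polar he (hPi x hxP x hxP) fun s =>
        by_contra fun h' => hx ⟨s • x, P.smul_mem s hxP, h'⟩
    have hQ : IsoSet (p ^ e) B (Submodule.span k (insert y (P : Set (ι → k)))) := by
      refine PnPlaneX.span_iso fun a ha b hb => ?_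
      rcases ha with rfl | ha <;> rcases hb with rfl | hb
      exacts [(hpol x₁ h1).1, (hpol b hb).2.1, (hpol a ha).2.2, hPi a ha b hb]
    have hle : P ≤ Submodule.span k (insert y (P : Set (ι → k))) :=
      fun z hz => Submodule.subset_span (Set.mem_insert_of_mem _ hz)
    have hlt : P < Submodule.span k (insert y (P : Set (ι → k))) :=
      lt_of_le_of_ne hle fun e' => hy (e' ▸ Submodule.subset_span (Set.mem_insert _ _))
    have hd' := Submodule.finrank_lt_finrank_of_lt hlt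
    obtain ⟨ψ, hψ⟩ := exists_psi (p := p) (e := e) B y₀
    obtain ⟨u, hu, v, hv, huv, hφ⟩ := PnPlaneX.pair_in (Submodule.span k (insert y (P : Set (ι → k))))
      ![ψ, phi (p ^ e) B y₀] (by omega)
    have e1 : ψ u = 0 ∧ ψ v = 0 := hφ 0
    refine ⟨u, v, y₀, huv, ⟨?_, ?_, (hφ 1).1, (hφ 1).2⟩, h0, hsub hQ hle hu hv⟩
    · rw [← hψ, e1.1, zero_pow hq]
    · rw [← hψ, e1.2, zero_pow hq]

end Pool.Agent.MP_c1eb4d_ag.Pen
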