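import Pool.Agent.MP_c1eb4d_ag.PnRes2
import Pool.Agent.MP_ca6aca_ag.Bezout

/-! Comparison of two good lines, possibly on different members of the pencil. -/

namespace Pool.Agent.MP_c1eb4d_ag.Pen

open Polynomial Module

variable {k L ι A : Type} [Field k] [IsAlgClosed k] [Field L] [IsAlgClosed L] [Algebra k L]
  [Fintype ι] [AddCommGroup A] {p e : ℕ} [Fact p.Prime] [CharP k p] [CharP L p]
  {onX : (ι → L) → Prop} {cl : (ι → k) → A} {T : L} {B C : Matrix ι ι k}

namespace PnRes3X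

/-- The general point of the plane through `U, V, Y`. -/
noncomputable def gen {F : Type} [Field F] (U V Y : ι → F) (i : ι) : MvPolynomial (Fin 3) F :=
  MvPolynomial.C (U i) * MvPolynomial.X 0 + MvPolynomial.C (V i) * MvPolynomial.X 1 +
    MvPolynomial.C (Y i) * MvPolynomial.X 2

omit [Fintype ι] in
theorem hom_gen {F : Type} [Field F] (U V Y : ι → F) (i : ι) : (gen U V Y i).IsHomogeneous 1 :=
  (((MvPolynomial.isHomogeneous_X F 0).C_mul _).add
    ((MvPolynomial.isHomogeneous_X F 1).C_mul _)).add ((MvPolynomial.isHomogeneous_X F 2).C_mul _)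

theorem hom_bt {F : Type} [Field F] (q : ℕ) (M : Matrix ι ι F) (U V Y : ι → F) :
    (bt q (M.map MvPolynomial.C) (gen U V Y) (gen U V Y)).IsHomogeneous (q + 1) := by
  refine MvPolynomial.IsHomogeneous.sum _ _ _ fun i _ =>
    MvPolynomial.IsHomogeneous.sum _ _ _ fun j _ => ?_
  have h := (((hom_gen U V Y i).pow q).C_mul (M i j)).mul (hom_gen U V Y j)
  rwa [one_mul] at h

theorem eval_bt {F : Type} [Field F] (q : ℕ) (M : Matrix ι ι F) (U V Y : ι → F) (y : Fin 3 → F) :
    MvPolynomial.eval y (bt q (M.map MvPolynomial.C) (gen U V Y) (gen U V Y)) =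
      bt q M (y 0 • U + y 1 • V + y 2 • Y) (y 0 • U + y 1 • V + y 2 • Y) := by
  have h : (fun i => MvPolynomial.eval y (gen U V Y i)) = y 0 • U + y 1 • V + y 2 • Y := by
    funext i
    simp [gen, mul_comm]
  rw [map_bt, h]
  congr 1
  ext i j
  simp

end PnRes3X

theorem common_zero (M N : Matrix ι ι L) (U V Y : ι → L) :
    ∃ s r w : L, (s ≠ 0 ∨ r ≠ 0 ∨ w ≠ 0) ∧
      bt (p ^ e) M (s • U + r • V + w • Y) (s • U + r • V + w • Y) = 0 ∧
      bt (p ^ e) N (s • U + r • V + w • Y) (s • U + r • V + w • Y) = 0 := by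
  obtain ⟨y, hy, h1, h2⟩ := Pool.Agent.MP_ca6aca_ag.exists_common_zero
    (PnRes3X.hom_bt (p ^ e) M U V Y) (PnRes3X.hom_bt (p ^ e) N U V Y) (by omega) (by omega)
  rw [PnRes3X.eval_bt] at h1 h2
  refine ⟨y 0, y 1, y 2, ?_, h1, h2⟩
  by_contra h
  push Not at h
  refine hy (funext fun i => ?_)
  fin_cases i
  exacts [h.1, h.2.1, h.2.2]

namespace PnRes3X

omit [IsAlgClosed k] [IsAlgClosed L] [Fintype ι] in
theorem ne_of_RP {ρ : RPl k L} {z : ι → L} {a : ι → k} (h : ρ.RP z a) : z ≠ 0 := by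
  rintro rfl
  obtain ⟨h0, s, hs⟩ := h
  exact h0 (funext fun i => RPl.eq_zero (by simpa using hs i))

theorem hat {F W : Type} [Field F] [AddCommGroup W] [Module F W] {t : F} (ht : t ≠ 0) (a b : W) :
    a + t • b = t • (b + t⁻¹ • a) := by
  rw [smul_add, smul_smul, mul_inv_cancel₀ ht, one_smul, add_comm]

theorem bt_hat {F : Type} [Field F] {t : F} (ht : t ≠ 0) {q : ℕ} {M : Matrix ι ι F} {z : ι → F}
    (h : bt q (t • M) (t • z) (t • z) = 0) : bt q M z z = 0 := by
  rw [bt_msmul, bt_smul_left, bt_smul_right] at h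
  simpa [ht] using h

omit [IsAlgClosed k] [Fact p.Prime] [CharP k p] in
theorem cyc_iso [Fact p.Prime] (he : 1 ≤ e) {u v : ι → k} (h : Iso (p ^ e) C u v) :
    cyc cl (p ^ e) C u v = (p ^ e + 1) • cl u := by
  rw [cyc, if_pos ((lp_eq_zero_iff he).2 h)]

/-- The second vector of a line can be moved off the second hypersurface. -/
theorem adapt (H : Sp onX cl T) (he : 1 ≤ e)
    (hX : Cut onX (p ^ e) (B.map (algebraMap k L)) (C.map (algebraMap k L)))
    {u v y : ι → k} (hB : Iso (p ^ e) B u v) (hi : LinearIndependent k ![u, v])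
    (ho : Orth (p ^ e) B u v y) :
    ∃ v₁, Iso (p ^ e) B u v₁ ∧ LinearIndependent k ![u, v₁] ∧ Orth (p ^ e) B u v₁ y ∧
      cyc cl (p ^ e) C u v₁ = cyc cl (p ^ e) C u v ∧
      (bt (p ^ e) C v₁ v₁ ≠ 0 ∨ Iso (p ^ e) C u v₁) := by
  by_cases hC : Iso (p ^ e) C u v
  · exact ⟨v, hB, hi, ho, rfl, Or.inr hC⟩
  have h1 : lp (p ^ e) C v u ≠ 0 := fun h =>
    have h' := (lp_eq_zero_iff he).1 h
    hC ⟨h'.vv, h'.vu, h'.uv, h'.uu⟩
  obtain ⟨θ, hθ⟩ : ∃ θ, (lp (p ^ e) C v u).eval θ ≠ 0 := by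
    by_contra h
    push Not at h
    exact h1 (Polynomial.funext fun r => by rw [h r, eval_zero])
  rw [eval_lp] at hθ
  refine ⟨v + θ • u, ⟨hB.uu, ?_, ?_, ?_⟩, ?_, ⟨ho.uy, ?_, ho.yu, ?_⟩, ?_, Or.inl hθ⟩
  · rw [bt_add_right, bt_smul_right, hB.uv, hB.uu, mul_zero, add_zero]
  · rw [bt_add_left, bt_smul_left, hB.vu, hB.uu, mul_zero, add_zero]
  · simp only [bt_add_left, bt_smul_left, bt_add_right, bt_smul_right, hB.uu, hB.uv, hB.vu, hB.vv,
      mul_zero, add_zero]
  · rw [LinearIndependent.pair_iff] at hi ⊢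
    intro s t h
    have h2 := hi (s + t * θ) t (by rw [← h]; module)
    refine ⟨?_, h2.2⟩
    have h3 := h2.1
    rwa [h2.2, zero_mul, add_zero] at h3
  · rw [bt_add_left, bt_smul_left, ho.vy, ho.uy, mul_zero, add_zero]
  · rw [bt_add_right, bt_smul_right, ho.yv, ho.yu, mul_zero, add_zero]
  · have h2 := cyc_congr (C := C) H hX he hB hi (a := 1) (b := 0) (c := θ) (d := 1) (by simp)
    rwa [one_smul, zero_smul, add_zero, one_smul, add_comm (θ • u)] at h2

/-- Both lines lie on the intersection. -/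
theorem both (H : Sp onX cl T) {B' C' : Matrix ι ι k}
    (hX : Cut onX (p ^ e) (B.map (algebraMap k L)) (C.map (algebraMap k L)))
    (hX' : Cut onX (p ^ e) (B'.map (algebraMap k L)) (C'.map (algebraMap k L)))
    (hm : Cut onX (p ^ e) (B.map (algebraMap k L) + T • B'.map (algebraMap k L))
      (C.map (algebraMap k L) + T • C'.map (algebraMap k L)))
    {u v y u' v' y' : ι → k} (hB : Iso (p ^ e) B u v) (hi : LinearIndependent k ![u, v])
    (ho : Orth (p ^ e) B u v y) (hy : bt (p ^ e) B y y ≠ 0)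
    (hB' : Iso (p ^ e) B' u' v') (hi' : LinearIndependent k ![u', v'])
    (ho' : Orth (p ^ e) B' u' v' y') (hy' : bt (p ^ e) B' y' y' ≠ 0)
    (hC : Iso (p ^ e) C u v) (hC' : Iso (p ^ e) C' u' v') : cl u = cl u' := by
  obtain ⟨s, r, w, h0, hz, hz'⟩ := common_zero (p := p) (e := e)
    (B.map (algebraMap k L) + T • B'.map (algebraMap k L))
    (C.map (algebraMap k L) + T • C'.map (algebraMap k L))
    ((fun i => algebraMap k L (u i)) + T • fun i => algebraMap k L (u' i))
    ((fun i => algebraMap k L (v i)) + T • fun i => algebraMap k L (v' i))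
    ((fun i => algebraMap k L (y i)) + T • fun i => algebraMap k L (y' i))
  have loc := fun (ρ : RPl k L) (hT : ρ.R T 0) => res_local_deg H hX hB hi ho hy ρ
    (RPl.RM.pencil hT B B') (RPl.RM.pencil hT C C') (RPl.RV.pencil hT u u')
    (RPl.RV.pencil hT v v') (RPl.RV.pencil hT y y') hC h0 hz hz'
  obtain ⟨ρ₀, hρ₀⟩ := H.pl0
  obtain ⟨P₀, hP₀, -⟩ := loc ρ₀ hρ₀
  refine H.spec 1 _ (fun _ => ⟨ne_of_RP hP₀, hm _ hz hz'⟩) _ _ (fun ρ hT => ?_) fun ρ hT => ?_
  · obtain ⟨P, hP, h⟩ := loc ρ hT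
    exact ⟨fun _ => P, fun _ => hP, by simpa using h⟩
  · have e1 : s • ((fun i => algebraMap k L (u i)) + T • fun i => algebraMap k L (u' i)) +
        r • ((fun i => algebraMap k L (v i)) + T • fun i => algebraMap k L (v' i)) +
        w • ((fun i => algebraMap k L (y i)) + T • fun i => algebraMap k L (y' i)) =
        T • (s • ((fun i => algebraMap k L (u' i)) + T⁻¹ • fun i => algebraMap k L (u i)) +
        r • ((fun i => algebraMap k L (v' i)) + T⁻¹ • fun i => algebraMap k L (v i)) +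
        w • ((fun i => algebraMap k L (y' i)) + T⁻¹ • fun i => algebraMap k L (y i))) := by
      rw [hat H.ne (fun i => algebraMap k L (u i)), hat H.ne (fun i => algebraMap k L (v i)),
        hat H.ne (fun i => algebraMap k L (y i))]
      module
    rw [e1, hat H.ne] at hz hz'
    obtain ⟨P, hP, h⟩ := res_local_deg H hX' hB' hi' ho' hy' ρ
      (RPl.RM.pencil hT B' B) (RPl.RM.pencil hT C' C) (RPl.RV.pencil hT u' u)
      (RPl.RV.pencil hT v' v) (RPl.RV.pencil hT y' y) hC' h0 (bt_hat H.ne hz) (bt_hat H.ne hz')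
    refine ⟨fun _ => P, fun _ => ?_, by simpa using h⟩
    rw [e1]
    exact hP.smul H.ne

/-- The first line meets the second hypersurface properly. -/
theorem core (H : Sp onX cl T) (he : 1 ≤ e) {B' C' : Matrix ι ι k}
    (hX' : Cut onX (p ^ e) (B'.map (algebraMap k L)) (C'.map (algebraMap k L)))
    (hm : Cut onX (p ^ e) (B.map (algebraMap k L) + T • B'.map (algebraMap k L))
      (C.map (algebraMap k L) + T • C'.map (algebraMap k L)))
    {u v y u' v' y' : ι → k} (hB : Iso (p ^ e) B u v) (hi : LinearIndependent k ![u, v])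
    (ho : Orth (p ^ e) B u v y) (hy : bt (p ^ e) B y y ≠ 0)
    (hB' : Iso (p ^ e) B' u' v') (hi' : LinearIndependent k ![u', v'])
    (ho' : Orth (p ^ e) B' u' v' y') (hy' : bt (p ^ e) B' y' y' ≠ 0)
    (hC : bt (p ^ e) C v v ≠ 0) (hC' : bt (p ^ e) C' v' v' ≠ 0 ∨ Iso (p ^ e) C' u' v') :
    (p ^ e + 1) • cyc cl (p ^ e) C u v = (p ^ e + 1) • cyc cl (p ^ e) C' u' v' := by
  obtain ⟨ρ₀, hρ₀⟩ := H.pl0
  have hY := (RPl.bt (p ^ e) (RPl.RM.pencil hρ₀ B B') (RPl.RV.pencil hρ₀ y y')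
    (RPl.RV.pencil hρ₀ y y'))
  obtain ⟨Q, hQ⟩ := rs_poly (p ^ e) (B.map (algebraMap k L) + T • B'.map (algebraMap k L))
    (C.map (algebraMap k L) + T • C'.map (algebraMap k L))
    ((fun i => algebraMap k L (u i)) + T • fun i => algebraMap k L (u' i))
    ((fun i => algebraMap k L (v i)) + T • fun i => algebraMap k L (v' i))
    ((fun i => algebraMap k L (y i)) + T • fun i => algebraMap k L (y' i))
  obtain ⟨n, r, hr⟩ := factor Q
  have ha := fun x => (hQ x).symm.trans (hr x)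
  have hw := fun j => rs_root (RPl.ne_zero hY hy) ((ha (r j)).trans (by
    rw [Finset.prod_eq_zero (Finset.mem_univ j) (sub_self _), mul_zero]))
  choose w hz hz' using hw
  have loc := fun (ρ : RPl k L) (hT : ρ.R T 0) => res_local (cl := cl) hB hi ho hy ρ
    (RPl.RM.pencil hT B B') (RPl.RM.pencil hT C C') (RPl.RV.pencil hT u u')
    (RPl.RV.pencil hT v v') (RPl.RV.pencil hT y y') hC hz hz' ha
  obtain ⟨hn, P₀, hP₀, -⟩ := loc ρ₀ hρ₀
  refine H.spec n _ (fun j => ⟨ne_of_RP (hP₀ j), hm _ (hz j) (hz' j)⟩) _ _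
    (fun ρ hT => (loc ρ hT).2) fun ρ hT => ?_
  have e0 : ∀ x : L, ((fun i => algebraMap k L (u i)) + T • fun i => algebraMap k L (u' i)) +
      x • ((fun i => algebraMap k L (v i)) + T • fun i => algebraMap k L (v' i)) =
      T • (((fun i => algebraMap k L (u' i)) + T⁻¹ • fun i => algebraMap k L (u i)) +
      x • ((fun i => algebraMap k L (v' i)) + T⁻¹ • fun i => algebraMap k L (v i))) := by
    intro x
    rw [hat H.ne (fun i => algebraMap k L (u i)), hat H.ne (fun i => algebraMap k L (v i))]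
    module
  have e1 : ∀ j, ((fun i => algebraMap k L (u i)) + T • fun i => algebraMap k L (u' i)) +
      r j • ((fun i => algebraMap k L (v i)) + T • fun i => algebraMap k L (v' i)) +
      w j • ((fun i => algebraMap k L (y i)) + T • fun i => algebraMap k L (y' i)) =
      T • (((fun i => algebraMap k L (u' i)) + T⁻¹ • fun i => algebraMap k L (u i)) +
      r j • ((fun i => algebraMap k L (v' i)) + T⁻¹ • fun i => algebraMap k L (v i)) +
      w j • ((fun i => algebraMap k L (y' i)) + T⁻¹ • fun i => algebraMap k L (y i))) := by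
    intro j
    rw [e0, hat H.ne (fun i => algebraMap k L (y i))]
    module
  have g := fun j => hz j
  have g' := fun j => hz' j
  simp only [e1] at g g' ⊢
  rw [hat H.ne] at g g'
  rcases hC' with hC' | hC'
  · have hc : (T * T ^ (p ^ e + 1)) ^ (2 * (p ^ e + 1)) ≠ 0 :=
      pow_ne_zero _ (mul_ne_zero H.ne (pow_ne_zero _ H.ne))
    obtain ⟨-, P, hP, h⟩ := res_local (cl := cl) hB' hi' ho' hy' ρ
      (RPl.RM.pencil hT B' B) (RPl.RM.pencil hT C' C) (RPl.RV.pencil hT u' u)
      (RPl.RV.pencil hT v' v) (RPl.RV.pencil hT y' y) hC' (fun j => bt_hat H.ne (g j))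
      (fun j => bt_hat H.ne (g' j))
      (a := ((T * T ^ (p ^ e + 1)) ^ (2 * (p ^ e + 1)))⁻¹ * Q.leadingCoeff) (fun x => by
        have h := ha x
        rw [e0, hat H.ne (fun i => algebraMap k L (y i)), hat H.ne (B.map _), hat H.ne (C.map _),
          rs_scale] at h
        rw [mul_assoc, ← h, inv_mul_cancel_left₀ hc])
    exact ⟨P, fun j => (hP j).smul H.ne, h⟩
  · have hl := fun j => res_local_deg H hX' hB' hi' ho' hy' ρ
      (RPl.RM.pencil hT B' B) (RPl.RM.pencil hT C' C) (RPl.RV.pencil hT u' u)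
      (RPl.RV.pencil hT v' v) (RPl.RV.pencil hT y' y) hC' (s := 1) (r := r j) (w := w j)
      (Or.inl one_ne_zero) (by rw [one_smul]; exact bt_hat H.ne (g j))
      (by rw [one_smul]; exact bt_hat H.ne (g' j))
    choose P hP h using hl
    refine ⟨P, fun j => ?_, ?_⟩
    · have h1 := hP j
      rw [one_smul] at h1
      exact h1.smul H.ne
    · simp only [h, Finset.sum_const, Finset.card_univ, Fintype.card_fin]
      rw [hn, cyc_iso he hC', mul_smul]

end PnRes3X

theorem res0 (H : Sp onX cl T) (he : 1 ≤ e) {B' C' : Matrix ι ι k}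
    (hX : Cut onX (p ^ e) (B.map (algebraMap k L)) (C.map (algebraMap k L)))
    (hX' : Cut onX (p ^ e) (B'.map (algebraMap k L)) (C'.map (algebraMap k L)))
    (hm : Cut onX (p ^ e) (B.map (algebraMap k L) + T • B'.map (algebraMap k L))
      (C.map (algebraMap k L) + T • C'.map (algebraMap k L)))
    (hm' : Cut onX (p ^ e) (B'.map (algebraMap k L) + T • B.map (algebraMap k L))
      (C'.map (algebraMap k L) + T • C.map (algebraMap k L)))
    {u v y u' v' y' : ι → k} (hB : Iso (p ^ e) B u v) (hi : LinearIndependent k ![u, v])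
    (ho : Orth (p ^ e) B u v y) (hy : bt (p ^ e) B y y ≠ 0)
    (hB' : Iso (p ^ e) B' u' v') (hi' : LinearIndependent k ![u', v'])
    (ho' : Orth (p ^ e) B' u' v' y') (hy' : bt (p ^ e) B' y' y' ≠ 0) :
    (p ^ e + 1) • cyc cl (p ^ e) C u v = (p ^ e + 1) • cyc cl (p ^ e) C' u' v' := by
  obtain ⟨v₁, h1, h2, h3, h4, h5⟩ := PnRes3X.adapt H he hX hB hi ho
  obtain ⟨v₁', h1', h2', h3', h4', h5'⟩ := PnRes3X.adapt H he hX' hB' hi' ho'
  rw [← h4, ← h4']
  rcases h5 with h5 | h5
  · exact PnRes3X.core H he hX' hm h1 h2 h3 hy h1' h2' h3' hy' h5 h5'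
  rcases h5' with h5' | h5'
  · exact (PnRes3X.core H he hX hm' h1' h2' h3' hy' h1 h2 h3 hy h5' (Or.inr h5)).symm
  rw [PnRes3X.cyc_iso he h5, PnRes3X.cyc_iso he h5',
    PnRes3X.both H hX hX' hm h1 h2 h3 hy h1' h2' h3' hy' h5 h5']

end Pool.Agent.MP_c1eb4d_ag.Pen
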