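import Pool.Agent.MP_c1eb4d_ag.PnBasic

/-! A place of a function field extends to every algebraic extension. -/

namespace Pool.Agent.MP_c1eb4d_ag.Pen

namespace PnExtX

/-- A valuation extends, up to equivalence, to a valuation subring of a field extension. -/
theorem exists_ext {K L Γ : Type} [Field K] [Field L] [Algebra K L]
    [LinearOrderedCommGroupWithZero Γ] (v : Valuation K Γ) :
    ∃ A : ValuationSubring L, (∀ y, v y ≤ 1 → A.valuation (algebraMap K L y) ≤ 1) ∧
      ∀ y, A.valuation (algebraMap K L y) < 1 ↔ v y < 1 := by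
  obtain ⟨A, h, hl⟩ := IsLocalRing.exists_factor_valuationRing
    ((algebraMap K L).comp v.valuationSubring.subtype)
  have h1 : ∀ y, v y ≤ 1 → A.valuation (algebraMap K L y) ≤ 1 := fun y hy =>
    (A.valuation_le_one_iff _).2 (h ⟨y, hy⟩)
  refine ⟨A, h1, fun y => ⟨fun hy => ?_, fun hy => ?_⟩⟩
  · by_contra hc
    rw [not_lt] at hc
    have h0 : y ≠ 0 := by rintro rfl; simp at hc
    have h2 := h1 y⁻¹ (by rw [map_inv₀]; exact inv_le_one_of_one_le₀ hc)
    have h3 : A.valuation (algebraMap K L y) ≠ 0 := by simpa using h0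
    rw [map_inv₀, map_inv₀, inv_le_one₀ (zero_lt_iff.2 h3)] at h2
    exact absurd hy (not_lt.2 h2)
  · refine lt_of_le_of_ne (h1 y hy.le) fun he => ?_
    have hu : IsUnit (⟨y, hy.le⟩ : v.valuationSubring) :=
      hl.1 _ ((A.valuation_eq_one_iff ⟨algebraMap K L y, h ⟨y, hy.le⟩⟩).2 he)
    obtain ⟨z, hz⟩ := hu.exists_right_inv
    have hz' : y * (z : K) = 1 := congrArg Subtype.val hz
    have : v (y * z) < 1 := by
      rw [map_mul]
      exact mul_lt_one_of_lt_of_le hy z.2
    rw [hz', map_one] at this
    exact lt_irrefl _ this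

/-- In transcendence degree one over an algebraically closed field all residues are constants. -/
theorem exists_const {k L Γ : Type} [Field k] [IsAlgClosed k] [Field L] [Algebra k L]
    [LinearOrderedCommGroupWithZero Γ] (h1 : Algebra.trdeg k L = 1) (w : Valuation L Γ)
    (hc : ∀ c : k, c ≠ 0 → w (algebraMap k L c) = 1) {π : L} (h0 : π ≠ 0) (hπ : w π < 1)
    {x : L} (hx : w x ≤ 1) : ∃ c : k, w (x - algebraMap k L c) < 1 := by
  have hc' : ∀ c : k, w (algebraMap k L c) ≤ 1 := fun c => by
    by_cases h : c = 0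
    · simp [h]
    · exact (hc c h).le
  have key : ∀ p : Polynomial k, p ≠ 0 → w (Polynomial.aeval x p) < 1 →
      ∃ c : k, w (x - algebraMap k L c) < 1 := fun p hp hw => by
    by_contra hn
    push Not at hn
    have e : ∀ s : Multiset k,
        1 ≤ w (Polynomial.aeval x (s.map fun a => Polynomial.X - Polynomial.C a).prod) := fun s => by
      induction s using Multiset.induction_on with
      | empty => simp
      | cons a s ih =>
        rw [Multiset.map_cons, Multiset.prod_cons, map_mul, map_mul]
        refine one_le_mul ?_ ih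
        simpa using hn a
    rw [(IsAlgClosed.splits p).eq_prod_roots, map_mul, map_mul, Polynomial.aeval_C,
      hc _ (Polynomial.leadingCoeff_ne_zero.2 hp), one_mul] at hw
    exact absurd hw (not_lt.2 (e _))
  by_cases ht : IsAlgebraic k x
  · obtain ⟨p, hp, hx0⟩ := ht
    exact key p hp (by simp [hx0])
  have hi : AlgebraicIndependent k (fun _ : Unit => x) :=
    algebraicIndependent_unique_type_iff.2 (show Transcendental k x from ht)
  have hb : IsTranscendenceBasis k (fun _ : Unit => x) :=
    hi.isTranscendenceBasis_of_trdeg_le_of_finite (by simp [h1])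
  have ha := hb.isAlgebraic
  rw [Set.range_const] at ha
  obtain ⟨t, htm, r, hr, e⟩ := (ha.isAlgebraic π).exists_nonzero_eq_adjoin_mul
    (mem_nonZeroDivisors_of_ne_zero h0)
  have hA : ∀ y ∈ Algebra.adjoin k {x}, w y ≤ 1 := fun y hy => by
    induction hy using Algebra.adjoin_induction with
    | mem z hz => rw [hz]; exact hx
    | algebraMap c => exact hc' c
    | add y z _ _ hy hz => exact w.map_add_le hy hz
    | mul y z _ _ hy hz => rw [map_mul]; exact mul_le_one' hy hz
  have ht1 : w t ≤ 1 := by
    clear e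
    induction htm using Algebra.adjoin_induction with
    | mem z hz => rw [hz]; exact hπ.le
    | algebraMap c => exact hA c c.2
    | add y z _ _ hy hz => exact w.map_add_le hy hz
    | mul y z _ _ hy hz => rw [map_mul]; exact mul_le_one' hy hz
  obtain ⟨r, hrm⟩ := r
  obtain ⟨p, rfl⟩ : ∃ p : Polynomial k, Polynomial.aeval x p = r := by
    rwa [Algebra.adjoin_singleton_eq_range_aeval] at hrm
  refine key p (fun hp => hr (by subst hp; ext; simp)) ?_
  change π * t = Polynomial.aeval x p at e
  rw [← e, map_mul]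
  exact mul_lt_one_of_lt_of_le hπ ht1

/-- The relational place attached to a valuation with constant residues. -/
noncomputable def ofVal {k L Γ : Type} [Field k] [Field L] [Algebra k L]
    [LinearOrderedCommGroupWithZero Γ] (w : Valuation L Γ)
    (hc : ∀ c : k, c ≠ 0 → w (algebraMap k L c) = 1)
    (ht : ∀ x : L, w x ≤ 1 → ∃ c : k, w (x - algebraMap k L c) < 1) : RPl k L :=
  have hc' : ∀ c : k, w (algebraMap k L c) ≤ 1 := fun c => by
    by_cases h : c = 0
    · simp [h]
    · exact (hc c h).le
  have hle : ∀ {x : L} {a : k}, w (x - algebraMap k L a) < 1 → w x ≤ 1 := fun {x a} h => by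
    have := w.map_add_le h.le (hc' a)
    rwa [sub_add_cancel] at this
  { R := fun x c => w (x - algebraMap k L c) < 1
    uniq := fun {x a b} ha hb => by
      by_contra hn
      have := w.map_sub_lt hb ha
      rw [sub_sub_sub_cancel_left, ← map_sub, hc _ (sub_ne_zero.2 hn)] at this
      exact lt_irrefl _ this
    const := fun c => by simp
    add := fun {x y a b} ha hb => by
      have := w.map_add_lt ha hb
      rwa [sub_add_sub_comm, ← map_add] at this
    mul := fun {x y a b} ha hb => by
      have e : x * y - algebraMap k L (a * b) =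
          (x - algebraMap k L a) * y + (y - algebraMap k L b) * algebraMap k L a := by
        rw [map_mul]; ring
      rw [e]
      refine w.map_add_lt ?_ ?_ <;> rw [map_mul]
      exacts [mul_lt_one_of_lt_of_le ha (hle hb), mul_lt_one_of_lt_of_le hb (hc' a)]
    inv := fun {x a} ha h0 => by
      have h1 : w x = 1 := by
        have := w.map_add_eq_of_lt_right (ha.trans_eq (hc a h0).symm)
        rwa [sub_add_cancel, hc a h0] at this
      have hx : x ≠ 0 := by rintro rfl; simp at h1
      have ha0 : algebraMap k L a ≠ 0 := by simpa using h0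
      have e : x⁻¹ - algebraMap k L a⁻¹ =
          -(x - algebraMap k L a) * x⁻¹ * (algebraMap k L a)⁻¹ := by
        rw [map_inv₀]; field_simp; ring
      rw [e, map_mul, map_mul, map_inv₀, map_inv₀, h1, hc a h0, Valuation.map_neg]
      simpa using ha
    tot := fun x => by
      rcases le_or_gt (w x) 1 with h | h
      · exact Or.inl (ht x h)
      · right
        rw [map_zero, sub_zero, map_inv₀]
        exact inv_lt_one_of_one_lt₀ h }

end PnExtX

theorem exists_rpl {k K L : Type} [Field k] [IsAlgClosed k] [Field K] [Field L] [Algebra k K]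
    [Algebra K L] [Algebra k L] [IsScalarTower k K L] [Algebra.IsAlgebraic K L]
    (h1 : Algebra.trdeg k K = 1) (v : Valuation K (WithZero (Multiplicative ℤ)))
    (hv : IsPlace k v) :
    ∃ ρ : RPl k L, ∀ (x : K) (c : k),
      ρ.R (algebraMap K L x) c ↔ v (x - algebraMap k K c) < 1 := by
  obtain ⟨A, hle, hlt⟩ := PnExtX.exists_ext (L := L) v
  have hc : ∀ c : k, c ≠ 0 → A.valuation (algebraMap k L c) = 1 := fun c h0 => by
    rw [IsScalarTower.algebraMap_apply k K L]
    refine le_antisymm (hle _ (hv.2 c h0).le) (not_lt.1 fun h => ?_)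
    exact absurd ((hlt _).1 h) (by rw [hv.2 c h0]; exact lt_irrefl _)
  have hL : Algebra.trdeg k L = 1 := by
    rw [← trdeg_add_eq k K, h1, trdeg_eq_zero, add_zero]
  obtain ⟨π, hπ⟩ := hv.1 (WithZero.exp (-1))
  have h0 : algebraMap K L π ≠ 0 := by
    have : π ≠ 0 := by
      rintro rfl
      rw [map_zero] at hπ
      exact WithZero.exp_ne_zero hπ.symm
    simpa using this
  have hπ1 : A.valuation (algebraMap K L π) < 1 := by
    rw [hlt, hπ, ← WithZero.exp_zero, WithZero.exp_lt_exp]; norm_num
  refine ⟨PnExtX.ofVal A.valuation hc fun x hx => PnExtX.exists_const hL _ hc h0 hπ1 hx,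
    fun x c => ?_⟩
  rw [← hlt, map_sub, ← IsScalarTower.algebraMap_apply]
  rfl

theorem RPl.aeval {k L ι : Type} [Field k] [Field L] [Algebra k L] {ρ : RPl k L} {z : ι → L}
    {a : ι → k} (h : ρ.RV z a) (F : MvPolynomial ι k) :
    ρ.R (MvPolynomial.aeval z F) (MvPolynomial.eval a F) := by
  induction F using MvPolynomial.induction_on with
  | C c => simpa using ρ.const c
  | add p q hp hq => simpa using ρ.add hp hq
  | mul_X p i hp => simpa using ρ.mul hp (h i)

/-- A reduction in `L` of a point with coordinates in `K` is its value at the place. -/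
theorem value_of_rp {k K L ι : Type} [Field k] [Field K] [Field L] [Algebra k K]
    [Algebra K L] [Algebra k L] [IsScalarTower k K L]
    {v : Valuation K (WithZero (Multiplicative ℤ))} {ρ : RPl k L}
    (hρ : ∀ (x : K) (c : k), ρ.R (algebraMap K L x) c ↔ v (x - algebraMap k K c) < 1)
    {z : ι → K} {a : ι → k} (h : ρ.RP (fun i => algebraMap K L (z i)) a) :
    Value v z (Projectivization.mk k a h.1) := by
  obtain ⟨c, hc⟩ := Projectivization.exists_smul_eq_mk_rep k a h.1
  obtain ⟨i₀, hi⟩ := Function.ne_iff.1 h.1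
  obtain ⟨s, hs⟩ := h.2
  have hi' : a i₀ ≠ 0 := hi
  have h0 : s * algebraMap K L (z i₀) ≠ 0 := RPl.ne_zero (hs i₀) hi'
  refine ⟨algebraMap k K (c * a i₀) / z i₀, fun i => ?_⟩
  rw [← hρ, ← hc]
  have h1 := ρ.mul (ρ.const (c * a i₀)) (RPl.div (hs i) (hs i₀) hi')
  have hs0 : s ≠ 0 := left_ne_zero_of_mul h0
  have hz0 : algebraMap K L (z i₀) ≠ 0 := right_ne_zero_of_mul h0
  convert h1 using 1
  · simp only [map_mul, map_div₀, ← IsScalarTower.algebraMap_apply, Pi.smul_apply, smul_eq_mul]
    field_simp
  · simp only [Pi.smul_apply, Units.smul_def, smul_eq_mul]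
    field_simp

end Pool.Agent.MP_c1eb4d_ag.Pen
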