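import Pool.Agent.MP_c1eb4d_ag.PnPlace
import Pool.Agent.MP_c1eb4d_ag.PnExt

/-! The specialisation principle holds for rational equivalence. -/

namespace Pool.Agent.MP_c1eb4d_ag.Pen

/-- An algebraic closure of `k(t)`. -/
abbrev LL (k : Type) [Field k] := AlgebraicClosure (RatFunc k)

/-- The variable `t`. -/
noncomputable def TT (k : Type) [Field k] : LL k := algebraMap (RatFunc k) (LL k) RatFunc.X

variable {k ι : Type} [Field k]

/-- Zero-cycles modulo rational equivalence on the zero locus of `I`. -/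
abbrev CH (I : Set (MvPolynomial ι k)) :=
  (Projectivization k (ι → k) →₀ ℚ) ⧸ Submodule.span ℚ (principal I)

open Classical in
/-- The class of a point. -/
noncomputable def clI (I : Set (MvPolynomial ι k)) (x : ι → k) : CH I :=
  if h : x ≠ 0 then Submodule.Quotient.mk (Finsupp.single (Projectivization.mk k x h) 1) else 0

namespace PnSpecX

theorem aeval_smul {K : Type} [CommRing K] [Algebra k K] {F : MvPolynomial ι k} {d : ℕ}
    (hF : F.IsHomogeneous d) (s : K) (z : ι → K) :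
    MvPolynomial.aeval (s • z) F = s ^ d * MvPolynomial.aeval z F := by
  rw [MvPolynomial.aeval_def, MvPolynomial.aeval_def, MvPolynomial.eval₂_eq, MvPolynomial.eval₂_eq,
    Finset.mul_sum]
  refine Finset.sum_congr rfl fun m hm => ?_
  have h1 : d = ∑ i ∈ m.support, m i := by
    have h2 := hF (MvPolynomial.mem_support_iff.1 hm)
    rw [← h2, Finsupp.weight_apply, Finsupp.sum]
    simp
  simp only [Pi.smul_apply, smul_eq_mul, mul_pow, Finset.prod_mul_distrib,
    Finset.prod_pow_eq_pow_sum, ← h1]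
  ring

theorem aeval_map {K L : Type} [CommRing K] [CommRing L] [Algebra k K] [Algebra K L] [Algebra k L]
    [IsScalarTower k K L] (z : ι → K) (F : MvPolynomial ι k) :
    MvPolynomial.aeval (fun i => algebraMap K L (z i)) F =
      algebraMap K L (MvPolynomial.aeval z F) :=
  MvPolynomial.aeval_algebraMap_apply L z F

theorem red_mem {L : Type} [Field L] [Algebra k L] {ρ : RPl k L} {z : ι → L} {a : ι → k}
    (h : ρ.RP z a) {F : MvPolynomial ι k} {d : ℕ} (hF : F.IsHomogeneous d)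
    (hz : MvPolynomial.aeval z F = 0) : MvPolynomial.eval a F = 0 := by
  obtain ⟨-, s, hs⟩ := h
  have h1 := RPl.aeval hs F
  rw [aeval_smul hF, hz, mul_zero] at h1
  exact RPl.eq_zero h1

theorem trdeg_LL : Algebra.trdeg k (LL k) = 1 := by
  have h1 : Algebra.IsAlgebraic (Polynomial k) (RatFunc k) :=
    IsLocalization.isAlgebraic (RatFunc k) (nonZeroDivisors (Polynomial k))
  rw [← trdeg_add_eq k (RatFunc k), ← trdeg_add_eq k (Polynomial k) (A := RatFunc k),
    Polynomial.trdeg_of_isDomain, trdeg_eq_zero, trdeg_eq_zero, add_zero, add_zero]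

theorem tr_TT : Transcendental k (TT k) :=
  (transcendental_algebraMap_iff (algebraMap (RatFunc k) (LL k)).injective).2
    RatFunc.transcendental_X

theorem field_of (K : IntermediateField k (LL k)) (hT : TT k ∈ K) :
    Transcendental k (⟨TT k, hT⟩ : K) ∧ Algebra.trdeg k K = 1 ∧ Algebra.IsAlgebraic K (LL k) := by
  have h1 : Transcendental k (⟨TT k, hT⟩ : K) :=
    (transcendental_algebraMap_iff (algebraMap K (LL k)).injective).1 tr_TT
  have h2 : Algebra.Transcendental k K := ⟨⟨_, h1⟩⟩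
  have h3 := trdeg_add_eq k K (A := LL k)
  rw [trdeg_LL] at h3
  have h4 : Algebra.trdeg k K = 1 :=
    le_antisymm (h3 ▸ self_le_add_right _ _) (Cardinal.one_le_iff_pos.2 (trdeg_pos k K))
  refine ⟨h1, h4, trdeg_eq_zero_iff.1 ?_⟩
  rw [h4, add_comm] at h3
  exact Cardinal.add_one_inj.1 (h3.trans (zero_add _).symm)

section div

variable {K L : Type} [Field K] [Field L] [Algebra k K] [Algebra K L] [Algebra k L]
  [IsScalarTower k K L]

theorem div_eq [Algebra.EssFiniteType k K] (h1 : Algebra.trdeg k K = 1)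
    (I : Set (MvPolynomial ι k)) {g : K} (hg : g ≠ 0)
    (S : Finset (Valuation K (WithZero (Multiplicative ℤ))))
    (hS : ∀ v, v ∈ S ↔ IsPlace k v ∧ v g ≠ 1)
    (ρ : Valuation K (WithZero (Multiplicative ℤ)) → RPl k L)
    (hρ : ∀ v ∈ S, ∀ (x : K) (c : k),
      (ρ v).R (algebraMap K L x) c ↔ v (x - algebraMap k K c) < 1)
    {z : ι → K} (hz : z ≠ 0) (hX : ∀ F ∈ I, MvPolynomial.aeval z F = 0)
    (P : Valuation K (WithZero (Multiplicative ℤ)) → ι → k)
    (hP : ∀ v ∈ S, (ρ v).RP (fun i => algebraMap K L (z i)) (P v)) :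
    ∑ v ∈ S, (-(WithZero.log (v g) : ℤ) : ℚ) • clI I (P v) = 0 := by
  have hQ : ∀ v, ∃ Q : Projectivization k (ι → k), v ∈ S → Value v z Q ∧
      clI I (P v) = Submodule.Quotient.mk (Finsupp.single Q 1) := fun v => by
    by_cases hv : v ∈ S
    · exact ⟨_, fun _ => ⟨value_of_rp (hρ v hv) (hP v hv), dif_pos (hP v hv).1⟩⟩
    · obtain ⟨i, -⟩ := Function.ne_iff.1 hz
      exact ⟨Projectivization.mk k (fun _ => 1) fun h => one_ne_zero (congrFun h i),
        fun h => absurd h hv⟩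
  choose Q hQ using hQ
  have hD : ∑ v ∈ S, Finsupp.single (Q v) (-(WithZero.log (v g) : ℤ) : ℚ) ∈ principal I :=
    ⟨K, _, _, z, g, S, Q, ‹_›, h1, hz, hX, hg, hS, fun v hv => (hQ v hv).1, rfl⟩
  have h2 := (Submodule.Quotient.mk_eq_zero _).2 (Submodule.subset_span (R := ℚ) hD)
  rw [← h2, ← Submodule.mkQ_apply, map_sum]
  refine Finset.sum_congr rfl fun v hv => ?_
  rw [(hQ v hv).2, ← Submodule.mkQ_apply, ← map_smul, Finsupp.smul_single, smul_eq_mul, mul_one]

theorem spec_eq [IsAlgClosed k] [Algebra.EssFiniteType k K] [Algebra.IsAlgebraic K L]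
    (h1 : Algebra.trdeg k K = 1) (I : Set (MvPolynomial ι k))
    (hI : ∀ F ∈ I, ∃ d, F.IsHomogeneous d) {g : K} (hg : Transcendental k g) {N : ℕ}
    (z : Fin N → ι → K) (hz : ∀ j, z j ≠ 0) (hX : ∀ j, ∀ F ∈ I, MvPolynomial.aeval (z j) F = 0)
    (α β : CH I)
    (hα : ∀ ρ : RPl k L, ρ.R (algebraMap K L g) 0 → ∃ P : Fin N → ι → k,
      (∀ j, ρ.RP (fun i => algebraMap K L (z j i)) (P j)) ∧ ∑ j, clI I (P j) = α)
    (hβ : ∀ ρ : RPl k L, ρ.R (algebraMap K L g)⁻¹ 0 → ∃ P : Fin N → ι → k,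
      (∀ j, ρ.RP (fun i => algebraMap K L (z j i)) (P j)) ∧ ∑ j, clI I (P j) = β) : α = β := by
  classical
  have hg0 : g ≠ 0 := fun h => hg (h ▸ isAlgebraic_zero)
  have hg' : Transcendental k g⁻¹ := fun h => hg (IsAlgebraic.inv_iff.1 h)
  set S := (finite_places h1 hg0).toFinset with hSd
  have hS : ∀ v, v ∈ S ↔ IsPlace k v ∧ v g ≠ 1 := fun v => Set.Finite.mem_toFinset _
  obtain ⟨v₀, hv₀, hl₀⟩ := exists_place_lt h1 hg
  obtain ⟨v₁, hv₁, hl₁⟩ := exists_place_lt h1 hg'
  have hρ : ∀ v : Valuation K (WithZero (Multiplicative ℤ)), ∃ ρ : RPl k L, v ∈ S →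
      ∀ (x : K) (c : k), ρ.R (algebraMap K L x) c ↔ v (x - algebraMap k K c) < 1 := fun v => by
    by_cases hv : v ∈ S
    · obtain ⟨ρ, h⟩ := exists_rpl (L := L) h1 v ((hS v).1 hv).1
      exact ⟨ρ, fun _ => h⟩
    · obtain ⟨ρ, -⟩ := exists_rpl (L := L) h1 v₀ hv₀
      exact ⟨ρ, fun h => absurd h hv⟩
  choose ρ hρ using hρ
  have hP : ∀ v, ∃ P : Fin N → ι → k, v ∈ S →
      (∀ j, (ρ v).RP (fun i => algebraMap K L (z j i)) (P j)) ∧
        ∑ j, clI I (P j) = if v g < 1 then α else β := fun v => by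
    by_cases hv : v ∈ S
    · by_cases hl : v g < 1
      · obtain ⟨P, h⟩ := hα (ρ v) ((hρ v hv g 0).2 (by rwa [map_zero, sub_zero]))
        exact ⟨P, fun _ => by rwa [if_pos hl]⟩
      · have hl' : 1 < v g := lt_of_le_of_ne (not_lt.1 hl) ((hS v).1 hv).2.symm
        obtain ⟨P, h⟩ := hβ (ρ v) (by
          rw [← map_inv₀]
          refine (hρ v hv g⁻¹ 0).2 ?_
          rw [map_zero, sub_zero, map_inv₀]
          exact inv_lt_one_of_one_lt₀ hl')
        exact ⟨P, fun _ => by rwa [if_neg hl]⟩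
    · exact ⟨0, fun h => absurd h hv⟩
  choose P hP using hP
  have hn₁ : ¬ v₁ g < 1 := fun h => by
    have h2 := mul_lt_one_of_nonneg_of_lt_one_left zero_le h hl₁.le
    rw [← map_mul, mul_inv_cancel₀ hg0, map_one] at h2
    exact lt_irrefl _ h2
  have hm₁ : v₁ ∈ S := (hS v₁).2 ⟨hv₁, fun h => by
    rw [map_inv₀, h, inv_one] at hl₁
    exact lt_irrefl _ hl₁⟩
  have hm₀ : v₀ ∈ S := (hS v₀).2 ⟨hv₀, hl₀.ne⟩
  have e1 : ∑ v ∈ S, (-(WithZero.log (v g) : ℤ) : ℚ) • (if v g < 1 then α else β) = 0 := by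
    rw [Finset.sum_congr rfl fun v hv => by rw [← (hP v hv).2, Finset.smul_sum], Finset.sum_comm]
    exact Finset.sum_eq_zero fun j _ => div_eq h1 I hg0 S hS ρ hρ (hz j) (hX j) (fun v => P v j)
      fun v hv => (hP v hv).1 j
  have e2 : ∑ v ∈ S, (-(WithZero.log (v g) : ℤ) : ℚ) • β = 0 := by
    have h2 := (hP v₁ hm₁).2
    rw [if_neg hn₁] at h2
    rw [Finset.sum_congr rfl fun v _ => by rw [← h2, Finset.smul_sum], Finset.sum_comm]
    refine Finset.sum_eq_zero fun j _ => ?_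
    have h3 := (hP v₁ hm₁).1 j
    refine div_eq h1 I hg0 S hS ρ hρ (z := fun i => algebraMap k K (P v₁ j i)) ?_
      (fun F hF => ?_) (fun _ => P v₁ j) fun v _ => ⟨h3.1, 1, fun i => ?_⟩
    · exact fun h => h3.1 (funext fun i => (algebraMap k K).injective
        ((congrFun h i).trans (map_zero _).symm))
    · obtain ⟨d, hd⟩ := hI F hF
      have h4 : MvPolynomial.aeval (fun i => algebraMap K L (z j i)) F = 0 := by
        rw [aeval_map, hX j F hF, map_zero]
      rw [aeval_map, MvPolynomial.aeval_eq_eval, red_mem h3 hd h4, map_zero]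
    · rw [one_smul, ← IsScalarTower.algebraMap_apply]
      exact (ρ v).const _
  have e3 : (∑ v ∈ S, if v g < 1 then (-(WithZero.log (v g) : ℤ) : ℚ) else 0) • (α - β) = 0 := by
    rw [← sub_zero (0 : CH I)]
    nth_rewrite 1 [← e1]
    rw [← e2, Finset.sum_smul, ← Finset.sum_sub_distrib]
    refine Finset.sum_congr rfl fun v _ => ?_
    split_ifs
    · rw [smul_sub]
    · rw [zero_smul, sub_self]
  have hpos : ∀ v : Valuation K (WithZero (Multiplicative ℤ)), v g < 1 →
      0 < (-(WithZero.log (v g) : ℤ) : ℚ) := fun v hv => by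
    have h2 := (WithZero.log_lt_log ((map_ne_zero v).2 hg0) one_ne_zero).2 hv
    rw [WithZero.log_one] at h2
    exact neg_pos.2 (by exact_mod_cast h2)
  have e4 : 0 < ∑ v ∈ S, if v g < 1 then (-(WithZero.log (v g) : ℤ) : ℚ) else 0 := by
    refine Finset.sum_pos' (fun v _ => ?_) ⟨v₀, hm₀, ?_⟩
    · split_ifs with h
      · exact (hpos v h).le
      · exact le_rfl
    · rw [if_pos hl₀]
      exact hpos v₀ hl₀
  exact sub_eq_zero.1 ((smul_eq_zero.1 e3).resolve_left e4.ne')

end div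

end PnSpecX

theorem sp_main [IsAlgClosed k] [Finite ι] (I : Set (MvPolynomial ι k))
    (hI : ∀ F ∈ I, ∃ d, F.IsHomogeneous d) :
    Sp (fun z : ι → LL k => ∀ F ∈ I, MvPolynomial.aeval z F = 0) (clI I) (TT k) := by
  refine ⟨fun c x hc => ?_, fun h => PnSpecX.tr_TT (k := k) (h ▸ isAlgebraic_zero), ?_,
    fun N z hz α β hα hβ => ?_⟩
  · by_cases hx : x = 0
    · rw [hx, smul_zero]
    · have hx' : c • x ≠ 0 := smul_ne_zero hc hx
      unfold clI
      rw [dif_pos hx, dif_pos hx', (Projectivization.mk_eq_mk_iff' k _ _ hx' hx).2 ⟨c, rfl⟩]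
  · have hT : TT k ∈ IntermediateField.adjoin k {TT k} :=
      IntermediateField.subset_adjoin _ _ rfl
    obtain ⟨h1, h2, h3⟩ := PnSpecX.field_of _ hT
    have : Algebra.EssFiniteType k (IntermediateField.adjoin k {TT k}) :=
      IntermediateField.essFiniteType_iff.2
        (IntermediateField.fg_adjoin_of_finite (Set.finite_singleton _))
    obtain ⟨v, hv, hl⟩ := exists_place_lt h2 h1
    obtain ⟨ρ, hρ⟩ := exists_rpl (L := LL k) h2 v hv
    exact ⟨ρ, (hρ ⟨TT k, hT⟩ 0).2 (by rwa [map_zero, sub_zero])⟩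
  · set K := IntermediateField.adjoin k (insert (TT k) (Set.range fun x : Fin N × ι => z x.1 x.2))
    have hT : TT k ∈ K := IntermediateField.subset_adjoin _ _ (Set.mem_insert _ _)
    have hm : ∀ j i, z j i ∈ K := fun j i =>
      IntermediateField.subset_adjoin _ _ (Set.mem_insert_of_mem _ ⟨(j, i), rfl⟩)
    obtain ⟨h1, h2, h3⟩ := PnSpecX.field_of K hT
    have : Algebra.EssFiniteType k K := IntermediateField.essFiniteType_iff.2
      (IntermediateField.fg_adjoin_of_finite ((Set.finite_range _).insert _))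
    refine PnSpecX.spec_eq (L := LL k) h2 I hI h1 (fun j i => (⟨z j i, hm j i⟩ : K))
      (fun j h => (hz j).1 (funext fun i => congrArg Subtype.val (congrFun h i)))
      (fun j F hF => (algebraMap K (LL k)).injective ?_) α β hα hβ
    rw [← PnSpecX.aeval_map, map_zero]
    exact (hz j).2 F hF

end Pool.Agent.MP_c1eb4d_ag.Pen
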