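import Pool.Agent.MP_c1eb4d_ag.PnPred
import Pool.Agent.MP_c1eb4d_ag.PnExist
import Pool.Agent.MP_c1eb4d_ag.PnPlane
import Pool.Agent.MP_c1eb4d_ag.PnRes3
import Pool.Agent.MP_c1eb4d_ag.PnSpec

/-! All points of the base locus of a pencil of `q`-bic forms have the same class. -/

namespace Pool.Agent.MP_c1eb4d_ag.Pen

open Polynomial Module

variable {k L ι A : Type} [Field k] [IsAlgClosed k] [Field L] [IsAlgClosed L] [Algebra k L]
  [Fintype ι] [AddCommGroup A] {p e : ℕ} [Fact p.Prime] [CharP k p] [CharP L p]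
  {onX : (ι → L) → Prop} {cl : (ι → k) → A} {T : L} {B C : Matrix ι ι k}

/-- A line with a plane that meets the hypersurface exactly along it. -/
structure SG (q : ℕ) (B : Matrix ι ι k) (u v y : ι → k) : Prop where
  iso : Iso q B u v
  li : LinearIndependent k ![u, v]
  orth : Orth q B u v y
  ne : bt q B y y ≠ 0

omit [IsAlgClosed k] in
theorem isoSet_span {s t : Set (ι → k)} (h : IsoSet (p ^ e) B s)
    (ht : t ⊆ Submodule.span k s) : IsoSet (p ^ e) B t := by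
  have hq : p ^ e ≠ 0 := pow_ne_zero _ (Fact.out : p.Prime).ne_zero
  have h1 : ∀ x ∈ s, ∀ y ∈ Submodule.span k s, bt (p ^ e) B x y = 0 := by
    intro x hx y hy
    induction hy using Submodule.span_induction with
    | mem y hy => exact h x hx y hy
    | zero => exact bt_zero_right _ _ _
    | add y z _ _ h1 h2 => rw [bt_add_right, h1, h2, add_zero]
    | smul c y _ h1 => rw [bt_smul_right, h1, mul_zero]
  intro x hx y hy
  have hx' := ht hx
  have hy' := ht hy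
  clear hx
  induction hx' using Submodule.span_induction with
  | mem x hx => exact h1 x hx y hy'
  | zero => exact bt_zero_left hq _ _
  | add x z _ _ h1 h2 => rw [bt_add_left, h1, h2, add_zero]
  | smul c x _ h1 => rw [bt_smul_left, h1, mul_zero]

omit [IsAlgClosed k] [Fact p.Prime] [CharP k p] [Fintype ι] in
theorem li_two {u v y : ι → k} (h : LinearIndependent k ![u, v, y]) :
    LinearIndependent k ![u, v] := by
  have := h.comp (Fin.castSucc : Fin 2 → Fin 3) (Fin.castSucc_injective 2)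
  convert this using 1
  ext i; fin_cases i <;> rfl

omit [IsAlgClosed k] [Fact p.Prime] [CharP k p] in
theorem IsoSet.iso {q : ℕ} {s : Set (ι → k)} (h : IsoSet q B s) {u v : ι → k} (hu : u ∈ s)
    (hv : v ∈ s) : Iso q B u v := ⟨h u hu u hu, h u hu v hv, h v hv u hu, h v hv v hv⟩

omit [IsAlgClosed k] [Fact p.Prime] [CharP k p] in
theorem isoSet_three {q : ℕ} {u v y : ι → k} (hB : Iso q B u v) (h1 : bt q B u y = 0)
    (h2 : bt q B v y = 0) (h3 : bt q B y u = 0) (h4 : bt q B y v = 0) (h5 : bt q B y y = 0) :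
    IsoSet q B {u, v, y} := by
  intro a ha b hb
  simp only [Set.mem_insert_iff, Set.mem_singleton_iff] at ha hb
  rcases ha with rfl | rfl | rfl <;> rcases hb with rfl | rfl | rfl <;>
    first | assumption | exact hB.uu | exact hB.uv | exact hB.vu | exact hB.vv

theorem plane_chain (H : Sp onX cl T)
    (hX : Cut onX (p ^ e) (B.map (algebraMap k L)) (C.map (algebraMap k L))) (he : 1 ≤ e)
    (hc : 6 ≤ Fintype.card ι) {y₀ : ι → k} (h0 : bt (p ^ e) B y₀ y₀ ≠ 0) {x₁ x₂ x₃ : ι → k}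
    (hi : LinearIndependent k ![x₁, x₂, x₃]) (h : IsoSet (p ^ e) B {x₁, x₂, x₃}) :
    ∃ u v y, SG (p ^ e) B u v y ∧ cyc cl (p ^ e) C u v = cyc cl (p ^ e) C x₁ x₂ := by
  obtain ⟨u, v, y, hl, ho, hy, hs⟩ := plane_sgood hc he hi h h0
  exact ⟨u, v, y, ⟨hs.iso (by simp) (by simp), hl, ho, hy⟩,
    (iso_sub H hX he (li_two hi) hl hs).symm⟩

theorem good_chain (H : Sp onX cl T)
    (hX : Cut onX (p ^ e) (B.map (algebraMap k L)) (C.map (algebraMap k L))) (he : 1 ≤ e)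
    (hc : 6 ≤ Fintype.card ι) {y₀ : ι → k} (h0 : bt (p ^ e) B y₀ y₀ ≠ 0) {u v : ι → k}
    (hB : Iso (p ^ e) B u v) (hg : Good (p ^ e) B u v) :
    ∃ u' v' y, SG (p ^ e) B u' v' y ∧ cyc cl (p ^ e) C u' v' = cyc cl (p ^ e) C u v := by
  obtain ⟨y, hi, ho⟩ := hg
  by_cases hy : bt (p ^ e) B y y = 0
  · exact plane_chain H hX he hc h0 hi (isoSet_three hB ho.uy ho.vy ho.yu ho.yv hy)
  · exact ⟨u, v, y, ⟨hB, li_two hi, ho, hy⟩, rfl⟩

theorem chain (H : Sp onX cl T)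
    (hX : Cut onX (p ^ e) (B.map (algebraMap k L)) (C.map (algebraMap k L))) (he : 1 ≤ e)
    (hc : 6 ≤ Fintype.card ι) {y₀ : ι → k} (h0 : bt (p ^ e) B y₀ y₀ ≠ 0) {u v : ι → k}
    (hB : Iso (p ^ e) B u v) (hi : LinearIndependent k ![u, v]) :
    ∃ u' v' y, SG (p ^ e) B u' v' y ∧ cyc cl (p ^ e) C u' v' = cyc cl (p ^ e) C u v := by
  rcases exists_succ hc hB hi with hg | ⟨u', v', y₁, hB', h₁u, h₁v, hi₁, hne₁, hpre⟩
  · exact good_chain H hX he hc h0 hB hg
  have hα : ∀ a b, Pre (p ^ e) B u' v' y₁ a b → cyc cl (p ^ e) C a b = cyc cl (p ^ e) C u v :=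
    fun a b hab => Pre.unique H hX he hB' h₁u h₁v hi₁ hne₁ hab hpre
  obtain ⟨y₂, h₂u, h₂v, hi₂, hcase⟩ := exists_pred hc hB' (li_two hi₁)
  rcases hcase with ⟨a1, a2, a3⟩ | ⟨hne₂, u₂, v₂, hpre₂, hg⟩
  · have hs := isoSet_three hB' a1 a2 h₂u h₂v a3
    have hβ : ∀ a b, Pre (p ^ e) B u' v' y₂ a b →
        cyc cl (p ^ e) C a b = cyc cl (p ^ e) C u' v' := by
      intro a b hab
      refine iso_sub H hX he hab.li (li_two hi₂) (isoSet_span hs ?_)
      intro x hx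
      simp only [Set.mem_insert_iff, Set.mem_singleton_iff] at hx
      rcases hx with rfl | rfl | rfl | rfl
      · exact hab.mu
      · exact hab.mv
      · exact Submodule.subset_span (by simp)
      · exact Submodule.subset_span (by simp)
    obtain ⟨a, b, y, hsg, hab⟩ := plane_chain H hX he hc h0 hi₂ hs
    exact ⟨a, b, y, hsg, hab.trans
      (pred_fam H hX he hB' h₁u h₁v h₂u h₂v hi₁ hi₂ hα hβ).symm⟩
  · have hβ : ∀ a b, Pre (p ^ e) B u' v' y₂ a b →
        cyc cl (p ^ e) C a b = cyc cl (p ^ e) C u₂ v₂ :=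
      fun a b hab => Pre.unique H hX he hB' h₂u h₂v hi₂ hne₂ hab hpre₂
    obtain ⟨a, b, y, hsg, hab⟩ := good_chain H hX he hc h0 (hpre₂.iso hB' h₂u h₂v) hg
    exact ⟨a, b, y, hsg, hab.trans
      (pred_fam H hX he hB' h₁u h₁v h₂u h₂v hi₁ hi₂ hα hβ).symm⟩

/-- A line that meets the second hypersurface only at `x`. -/
theorem cyc_tangent (H : Sp onX cl T)
    (hX : Cut onX (p ^ e) (B.map (algebraMap k L)) (C.map (algebraMap k L))) (he : 1 ≤ e)
    {x y : ι → k} (hB : Iso (p ^ e) B x y) (hi : LinearIndependent k ![x, y])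
    (h1 : bt (p ^ e) C x x = 0) (h2 : bt (p ^ e) C x y = 0) (h3 : bt (p ^ e) C y x = 0) :
    cyc cl (p ^ e) C x y = (p ^ e + 1) • cl x := by
  have hf : Fac (p ^ e) C x y ((-1) ^ (p ^ e + 1) * bt (p ^ e) C y y) (fun _ => 1) (fun _ => 0) := by
    refine ⟨fun _ => Or.inl one_ne_zero, fun a b => ?_⟩
    rw [bt_comb, h1, h2, h3]
    simp only [mul_zero, mul_one, zero_sub, Finset.prod_const, Finset.card_univ, Fintype.card_fin,
      zero_add]
    rw [neg_pow b, mul_mul_mul_comm, ← mul_pow]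
    simp only [mul_neg, mul_one, neg_neg, one_pow, one_mul]
    ring
  rw [← hf.sum_eq H hX he hB hi]
  simp

section pencil

variable (B₁ B₂ : Matrix ι ι k)

/-- The member `l` of the pencil. -/
def pen (l : k × k) : Matrix ι ι k := l.1 • B₁ + l.2 • B₂

omit [IsAlgClosed k] in
theorem bt_pen (q : ℕ) (l : k × k) (x y : ι → k) :
    bt q (pen B₁ B₂ l) x y = l.1 * bt q B₁ x y + l.2 * bt q B₂ x y := by
  rw [pen, bt_madd, bt_msmul, bt_msmul]

omit [IsAlgClosed k] [IsAlgClosed L] in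
theorem bt_penL (q : ℕ) (l : k × k) (x y : ι → L) :
    bt q ((pen B₁ B₂ l).map (algebraMap k L)) x y =
      algebraMap k L l.1 * bt q (B₁.map (algebraMap k L)) x y +
        algebraMap k L l.2 * bt q (B₂.map (algebraMap k L)) x y := by
  rw [← bt_msmul, ← bt_msmul, ← bt_madd]
  congr 1
  ext i j
  simp [pen, Algebra.smul_def]

variable {B₁ B₂}

omit [IsAlgClosed k] [IsAlgClosed L] in
theorem cut_pen {q : ℕ} (hX : Cut onX q (B₁.map (algebraMap k L)) (B₂.map (algebraMap k L)))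
    {l m : k × k} (h : l.1 * m.2 - l.2 * m.1 ≠ 0) :
    Cut onX q ((pen B₁ B₂ l).map (algebraMap k L)) ((pen B₁ B₂ m).map (algebraMap k L)) := by
  intro z h1 h2
  rw [bt_penL] at h1 h2
  have hd : algebraMap k L l.1 * algebraMap k L m.2 - algebraMap k L l.2 * algebraMap k L m.1 ≠ 0 := by
    rw [← map_mul, ← map_mul, ← map_sub]
    exact (_root_.map_ne_zero _).2 h
  refine hX z (mul_left_cancel₀ hd ?_) (mul_left_cancel₀ hd ?_)
  · linear_combination algebraMap k L m.2 * h1 - algebraMap k L l.2 * h2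
  · linear_combination algebraMap k L l.1 * h2 - algebraMap k L m.1 * h1

omit [IsAlgClosed k] [IsAlgClosed L] in
theorem cut_mix (H : Sp onX cl T) {q : ℕ}
    (hX : Cut onX q (B₁.map (algebraMap k L)) (B₂.map (algebraMap k L)))
    {l m : k × k} (h : l.1 * m.2 - l.2 * m.1 ≠ 0) (l' m' : k × k) :
    Cut onX q ((pen B₁ B₂ l).map (algebraMap k L) + T • (pen B₁ B₂ l').map (algebraMap k L))
      ((pen B₁ B₂ m).map (algebraMap k L) + T • (pen B₁ B₂ m').map (algebraMap k L)) := by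
  intro z h1 h2
  rw [bt_madd, bt_msmul, bt_penL, bt_penL] at h1 h2
  obtain ⟨ρ, hρ⟩ := H.pl0
  have r : ∀ a b : k, ρ.R (algebraMap k L a + T * algebraMap k L b) a := fun a b => by
    simpa using ρ.add (ρ.const a) (ρ.mul hρ (ρ.const b))
  have hd := RPl.ne_zero (RPl.sub (ρ.mul (r l.1 l'.1) (r m.2 m'.2))
    (ρ.mul (r l.2 l'.2) (r m.1 m'.1))) h
  refine hX z (mul_left_cancel₀ hd ?_) (mul_left_cancel₀ hd ?_)
  · linear_combination (algebraMap k L m.2 + T * algebraMap k L m'.2) * h1 -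
      (algebraMap k L l.2 + T * algebraMap k L l'.2) * h2
  · linear_combination (algebraMap k L l.1 + T * algebraMap k L l'.1) * h2 -
      (algebraMap k L m.1 + T * algebraMap k L m'.1) * h1

omit [IsAlgClosed k] in
theorem exists_compl {l : k × k} (h : l.1 ≠ 0 ∨ l.2 ≠ 0) :
    ∃ m : k × k, l.1 * m.2 - l.2 * m.1 ≠ 0 := by
  rcases h with h | h
  · exact ⟨(0, 1), by simpa using h⟩
  · exact ⟨(1, 0), by simpa using h⟩

theorem abstract_main (H : Sp onX cl T)
    (hX : Cut onX (p ^ e) (B₁.map (algebraMap k L)) (B₂.map (algebraMap k L))) (he : 1 ≤ e)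
    (hc : 6 ≤ Fintype.card ι) {x x' : ι → k} (hx : x ≠ 0) (hx' : x' ≠ 0)
    (h1 : bt (p ^ e) B₁ x x = 0) (h2 : bt (p ^ e) B₂ x x = 0)
    (h1' : bt (p ^ e) B₁ x' x' = 0) (h2' : bt (p ^ e) B₂ x' x' = 0) :
    (p ^ e + 1) • (p ^ e + 1) • cl x = (p ^ e + 1) • (p ^ e + 1) • cl x' := by
  by_cases hdeg : ∃ l : k × k, (l.1 ≠ 0 ∨ l.2 ≠ 0) ∧ ∀ y, bt (p ^ e) (pen B₁ B₂ l) y y = 0
  · obtain ⟨l, hl, h0⟩ := hdeg
    obtain ⟨m, hm⟩ := exists_compl hl
    have hall : ∀ a b, bt (p ^ e) (pen B₁ B₂ l) a b = 0 := fun a b =>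
      (polar he (h0 b) fun s => h0 _).2.1
    have hX' := cut_pen hX hm
    obtain ⟨y, hi, a1, a2, a3, a4⟩ := exists_tangent (p := p) (e := e) hc B₁ B₂ hx
    obtain ⟨y', hi', b1, b2, b3, b4⟩ := exists_tangent (p := p) (e := e) hc B₁ B₂ hx'
    rw [← cyc_tangent H hX' he ⟨hall _ _, hall _ _, hall _ _, hall _ _⟩ hi
        (by simp [bt_pen, h1, h2]) (by simp [bt_pen, a1, a3]) (by simp [bt_pen, a2, a4]),
      ← cyc_tangent H hX' he ⟨hall _ _, hall _ _, hall _ _, hall _ _⟩ hi'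
        (by simp [bt_pen, h1', h2']) (by simp [bt_pen, b1, b3]) (by simp [bt_pen, b2, b4]),
      iso_sub H hX' he hi hi' fun a _ b _ => hall a b]
  have key : ∀ x : ι → k, x ≠ 0 → bt (p ^ e) B₁ x x = 0 → bt (p ^ e) B₂ x x = 0 →
      ∃ (l m : k × k) (u v y : ι → k), l.1 * m.2 - l.2 * m.1 ≠ 0 ∧
        SG (p ^ e) (pen B₁ B₂ l) u v y ∧
        cyc cl (p ^ e) (pen B₁ B₂ m) u v = (p ^ e + 1) • cl x := by
    intro x hx h1 h2
    obtain ⟨y, hi, a1, a2, a3, a4⟩ := exists_tangent (p := p) (e := e) hc B₁ B₂ hx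
    obtain ⟨l, hl, hy⟩ : ∃ l : k × k, (l.1 ≠ 0 ∨ l.2 ≠ 0) ∧ bt (p ^ e) (pen B₁ B₂ l) y y = 0 := by
      by_cases h : bt (p ^ e) B₁ y y = 0
      · exact ⟨(1, 0), Or.inl one_ne_zero, by simp [bt_pen, h]⟩
      · exact ⟨(bt (p ^ e) B₂ y y, -bt (p ^ e) B₁ y y), Or.inr (neg_ne_zero.2 h), by
          rw [bt_pen]; ring⟩
    obtain ⟨m, hm⟩ := exists_compl hl
    obtain ⟨y₀, h0⟩ : ∃ y₀, bt (p ^ e) (pen B₁ B₂ l) y₀ y₀ ≠ 0 := by
      by_contra hn
      exact hdeg ⟨l, hl, fun y => by_contra fun h => hn ⟨y, h⟩⟩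
    have hX' := cut_pen hX hm
    have hB : Iso (p ^ e) (pen B₁ B₂ l) x y :=
      ⟨by simp [bt_pen, h1, h2], by simp [bt_pen, a1, a3], by simp [bt_pen, a2, a4], hy⟩
    obtain ⟨u, v, y', hsg, huv⟩ := chain H hX' he hc h0 hB hi
    exact ⟨l, m, u, v, y', hm, hsg, huv.trans (cyc_tangent H hX' he hB hi
      (by simp [bt_pen, h1, h2]) (by simp [bt_pen, a1, a3]) (by simp [bt_pen, a2, a4]))⟩
  obtain ⟨l, m, u, v, y, hd, hs, hcyc⟩ := key x hx h1 h2
  obtain ⟨l', m', u', v', y', hd', hs', hcyc'⟩ := key x' hx' h1' h2'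
  rw [← hcyc, ← hcyc']
  exact res0 H he (cut_pen hX hd) (cut_pen hX hd') (cut_mix H hX hd l' m') (cut_mix H hX hd' l m)
    hs.iso hs.li hs.orth hs.ne hs'.iso hs'.li hs'.orth hs'.ne

end pencil

omit [IsAlgClosed k] in
theorem qform_isHomogeneous (q : ℕ) (B : Matrix ι ι k) : (qform q B).IsHomogeneous (q + 1) := by
  refine MvPolynomial.IsHomogeneous.sum _ _ _ fun i _ =>
    MvPolynomial.IsHomogeneous.sum _ _ _ fun j _ => ?_
  have := ((MvPolynomial.isHomogeneous_C ι (B i j)).mul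
    ((MvPolynomial.isHomogeneous_X k i).pow q)).mul (MvPolynomial.isHomogeneous_X k j)
  simpa using this

theorem main (he : 1 ≤ e) (hc : 6 ≤ Fintype.card ι) (B₁ B₂ : Matrix ι ι k)
    (P Q : Projectivization k (ι → k))
    (hP : ∀ F ∈ ({qform (p ^ e) B₁, qform (p ^ e) B₂} : Set (MvPolynomial ι k)),
      MvPolynomial.eval P.rep F = 0)
    (hQ : ∀ F ∈ ({qform (p ^ e) B₁, qform (p ^ e) B₂} : Set (MvPolynomial ι k)),
      MvPolynomial.eval Q.rep F = 0) :
    Finsupp.single P 1 - Finsupp.single Q 1 ∈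
      Submodule.span ℚ (principal {qform (p ^ e) B₁, qform (p ^ e) B₂}) := by
  have : CharP (LL k) p := charP_of_injective_algebraMap (algebraMap k (LL k)).injective p
  have H := sp_main ({qform (p ^ e) B₁, qform (p ^ e) B₂} : Set (MvPolynomial ι k)) (by
    rintro F (rfl | rfl) <;> exact ⟨_, qform_isHomogeneous _ _⟩)
  have ev : ∀ (B : Matrix ι ι k) (x : ι → k),
      MvPolynomial.eval x (qform (p ^ e) B) = bt (p ^ e) B x x := fun B x => by
    simp [qform, bt, map_sum]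
  have h := abstract_main (B₁ := B₁) (B₂ := B₂) H (by
      rintro z h1 h2 F (rfl | rfl) <;> rwa [aeval_qform]) he hc P.rep_nonzero Q.rep_nonzero
    (by rw [← ev]; exact hP _ (by simp)) (by rw [← ev]; exact hP _ (by simp))
    (by rw [← ev]; exact hQ _ (by simp)) (by rw [← ev]; exact hQ _ (by simp))
  rw [← Nat.cast_smul_eq_nsmul ℚ, ← Nat.cast_smul_eq_nsmul ℚ, ← Nat.cast_smul_eq_nsmul ℚ,
    ← Nat.cast_smul_eq_nsmul ℚ] at h
  have hq : ((p ^ e + 1 : ℕ) : ℚ) ≠ 0 := by positivity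
  have h' := smul_right_injective _ hq (smul_right_injective _ hq h)
  simp only [clI, P.rep_nonzero, Q.rep_nonzero, ne_eq, not_false_eq_true, dite_true,
    Projectivization.mk_rep] at h'
  exact (Submodule.Quotient.eq _).1 h'

end Pool.Agent.MP_c1eb4d_ag.Pen
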