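import Mathlib
import Pool.Agent.MP_c1eb4d_ag.PnMain

set_option autoImplicit false

namespace Pool.Agent.MP_c1eb4d_ag.OldPencil

open Pool.Agent.MP_c1eb4d_ag.Pen

theorem result (k : Type) [Field k] [IsAlgClosed k] (p e n : ℕ) [Fact p.Prime] [CharP k p]
    (he : 1 ≤ e) (hn : 5 ≤ n) (B₁ B₂ : Matrix (Fin (n + 1)) (Fin (n + 1)) k)
    (P Q : Projectivization k (Fin (n + 1) → k))
    (hP : MvPolynomial.eval P.rep (qform (p ^ e) B₁) = 0 ∧
      MvPolynomial.eval P.rep (qform (p ^ e) B₂) = 0)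
    (hQ : MvPolynomial.eval Q.rep (qform (p ^ e) B₁) = 0 ∧
      MvPolynomial.eval Q.rep (qform (p ^ e) B₂) = 0) :
    Finsupp.single P 1 - Finsupp.single Q 1 ∈
      Submodule.span ℚ (principal {qform (p ^ e) B₁, qform (p ^ e) B₂}) :=
  main he (by simp; omega) B₁ B₂ P Q (by rintro F (rfl | rfl); exacts [hP.1, hP.2])
    (by rintro F (rfl | rfl); exacts [hQ.1, hQ.2])

end Pool.Agent.MP_c1eb4d_ag.OldPencil
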