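import Pool.Agent.MP_c1eb4d_ag.PnDefs

/-! The sesquilinear form `bt`, relational places, the abstract specialisation principle and the
definitions shared by the files `Pn*`. -/

namespace Pool.Agent.MP_c1eb4d_ag.Pen

open Polynomial

section bt

variable {R S ι : Type} [CommRing R] [CommRing S] [Fintype ι]

/-- `bt q B x y = ∑ B i j * x_i ^ q * y_j`. -/
def bt (q : ℕ) (B : Matrix ι ι R) (x y : ι → R) : R := ∑ i, ∑ j, B i j * x i ^ q * y j

theorem bt_add_right (q : ℕ) (B : Matrix ι ι R) (x y z : ι → R) :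
    bt q B x (y + z) = bt q B x y + bt q B x z := by
  simp only [bt, Pi.add_apply, mul_add, Finset.sum_add_distrib]

theorem bt_smul_right (q : ℕ) (B : Matrix ι ι R) (x y : ι → R) (c : R) :
    bt q B x (c • y) = c * bt q B x y := by
  simp only [bt, Pi.smul_apply, smul_eq_mul, Finset.mul_sum]
  exact Finset.sum_congr rfl fun i _ => Finset.sum_congr rfl fun j _ => by ring

theorem bt_smul_left (q : ℕ) (B : Matrix ι ι R) (x y : ι → R) (c : R) :
    bt q B (c • x) y = c ^ q * bt q B x y := by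
  simp only [bt, Pi.smul_apply, smul_eq_mul, Finset.mul_sum, mul_pow]
  exact Finset.sum_congr rfl fun i _ => Finset.sum_congr rfl fun j _ => by ring

theorem bt_add_left (p e : ℕ) [Fact p.Prime] [CharP R p] (B : Matrix ι ι R) (x y z : ι → R) :
    bt (p ^ e) B (x + y) z = bt (p ^ e) B x z + bt (p ^ e) B y z := by
  simp only [bt, Pi.add_apply, add_pow_char_pow, mul_add, add_mul, Finset.sum_add_distrib]

theorem bt_zero_right (q : ℕ) (B : Matrix ι ι R) (x : ι → R) : bt q B x 0 = 0 := by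
  simp [bt]

theorem bt_zero_left {q : ℕ} (hq : q ≠ 0) (B : Matrix ι ι R) (y : ι → R) : bt q B 0 y = 0 := by
  simp [bt, hq]

theorem bt_madd (q : ℕ) (B C : Matrix ι ι R) (x y : ι → R) :
    bt q (B + C) x y = bt q B x y + bt q C x y := by
  simp only [bt, Matrix.add_apply, add_mul, Finset.sum_add_distrib]

theorem bt_msmul (q : ℕ) (c : R) (B : Matrix ι ι R) (x y : ι → R) :
    bt q (c • B) x y = c * bt q B x y := by
  simp only [bt, Matrix.smul_apply, smul_eq_mul, Finset.mul_sum]
  exact Finset.sum_congr rfl fun i _ => Finset.sum_congr rfl fun j _ => by ring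

theorem map_bt (φ : R →+* S) (q : ℕ) (B : Matrix ι ι R) (x y : ι → R) :
    φ (bt q B x y) = bt q (B.map φ) (fun i => φ (x i)) (fun i => φ (y i)) := by
  simp [bt, map_sum]

/-- Full expansion on a combination of two vectors in each slot. -/
theorem bt_comb (p e : ℕ) [Fact p.Prime] [CharP R p] (B : Matrix ι ι R) (u v u' v' : ι → R)
    (a b c d : R) :
    bt (p ^ e) B (a • u + b • v) (c • u' + d • v') =
      a ^ p ^ e * c * bt (p ^ e) B u u' + a ^ p ^ e * d * bt (p ^ e) B u v' +
        b ^ p ^ e * c * bt (p ^ e) B v u' + b ^ p ^ e * d * bt (p ^ e) B v v' := by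
  simp only [bt_add_left, bt_add_right, bt_smul_left, bt_smul_right]; ring

/-- The line spanned by `u, v` lies on the hypersurface `bt B x x = 0`. -/
structure Iso (q : ℕ) (B : Matrix ι ι R) (u v : ι → R) : Prop where
  uu : bt q B u u = 0
  uv : bt q B u v = 0
  vu : bt q B v u = 0
  vv : bt q B v v = 0

theorem Iso.comb {p e : ℕ} [Fact p.Prime] [CharP R p] {B : Matrix ι ι R} {u v : ι → R}
    (h : Iso (p ^ e) B u v) (a b c d : R) :
    bt (p ^ e) B (a • u + b • v) (c • u + d • v) = 0 := by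
  rw [bt_comb, h.uu, h.uv, h.vu, h.vv]; ring

/-- `y` is orthogonal to `u` and `v` on both sides. -/
structure Orth (q : ℕ) (B : Matrix ι ι R) (u v y : ι → R) : Prop where
  uy : bt q B u y = 0
  vy : bt q B v y = 0
  yu : bt q B y u = 0
  yv : bt q B y v = 0

/-- The restriction `c₀ + c₁ w + c₂ w^q + c₃ w^(q+1)` of a form to an affine line. -/
noncomputable def pw (q : ℕ) (c₀ c₁ c₂ c₃ : R) : R[X] :=
  C c₀ + C c₁ * X + C c₂ * X ^ q + C c₃ * X ^ (q + 1)

/-- `lp q B a y` is the polynomial `w ↦ bt B (a + w y) (a + w y)`. -/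
noncomputable def lp (q : ℕ) (B : Matrix ι ι R) (a y : ι → R) : R[X] :=
  pw q (bt q B a a) (bt q B a y) (bt q B y a) (bt q B y y)

theorem eval_lp (p e : ℕ) [Fact p.Prime] [CharP R p] (B : Matrix ι ι R) (a y : ι → R) (w : R) :
    (lp (p ^ e) B a y).eval w = bt (p ^ e) B (a + w • y) (a + w • y) := by
  simp only [lp, pw, eval_add, eval_mul, eval_C, eval_X, eval_pow, bt_add_left, bt_add_right,
    bt_smul_left, bt_smul_right]
  ring

theorem map_pw (φ : R →+* S) (q : ℕ) (c₀ c₁ c₂ c₃ : R) :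
    (pw q c₀ c₁ c₂ c₃).map φ = pw q (φ c₀) (φ c₁) (φ c₂) (φ c₃) := by
  simp [pw, Polynomial.map_add, Polynomial.map_mul, Polynomial.map_pow]

theorem natDegree_pw_le (q : ℕ) (c₀ c₁ c₂ c₃ : R) : (pw q c₀ c₁ c₂ c₃).natDegree ≤ q + 1 := by
  unfold pw
  refine (natDegree_add_le _ _).trans (max_le ((natDegree_add_le _ _).trans (max_le
    ((natDegree_add_le _ _).trans (max_le (by simp) ?_)) ?_)) ?_)
  · exact (natDegree_C_mul_le _ _).trans (natDegree_X_le.trans (by omega))
  · exact (natDegree_C_mul_le _ _).trans ((natDegree_X_pow_le _).trans (by omega))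
  · exact (natDegree_C_mul_le _ _).trans (natDegree_X_pow_le _)

theorem coeff_pw_top {q : ℕ} (hq : q ≠ 0) (c₀ c₁ c₂ c₃ : R) :
    (pw q c₀ c₁ c₂ c₃).coeff (q + 1) = c₃ := by
  have h1 : ¬ (1 = q + 1) := by omega
  simp only [pw, coeff_add, coeff_C_mul, coeff_X, coeff_X_pow, coeff_C, h1]
  simp

/-- A factorisation of the binary form `bt C (a u + b v) (a u + b v)` into linear factors. -/
structure Fac (q : ℕ) (C : Matrix ι ι R) (u v : ι → R) (c : R) (s t : Fin (q + 1) → R) : Prop where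
  ne : ∀ j, s j ≠ 0 ∨ t j ≠ 0
  eq : ∀ a b : R, bt q C (a • u + b • v) (a • u + b • v) = c * ∏ j, (a * t j - b * s j)

end bt

theorem aeval_qform {k K ι : Type} [Field k] [CommRing K] [Algebra k K] [Fintype ι] (q : ℕ)
    (B : Matrix ι ι k) (z : ι → K) :
    MvPolynomial.aeval z (qform q B) = bt q (B.map (algebraMap k K)) z z := by
  simp [qform, bt, map_sum]

/-- A place of `L` with values in `k`, as a relation: `R x c` says that `x` is finite with
value `c`. -/
structure RPl (k L : Type) [Field k] [Field L] [Algebra k L] where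
  R : L → k → Prop
  uniq : ∀ {x a b}, R x a → R x b → a = b
  const : ∀ c, R (algebraMap k L c) c
  add : ∀ {x y a b}, R x a → R y b → R (x + y) (a + b)
  mul : ∀ {x y a b}, R x a → R y b → R (x * y) (a * b)
  inv : ∀ {x a}, R x a → a ≠ 0 → R x⁻¹ a⁻¹
  tot : ∀ x, (∃ c, R x c) ∨ R x⁻¹ 0

namespace RPl

variable {k L : Type} [Field k] [Field L] [Algebra k L] (ρ : RPl k L)

theorem zero : ρ.R 0 0 := by simpa using ρ.const 0

theorem one : ρ.R 1 1 := by simpa using ρ.const 1

variable {ρ}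

theorem neg {x : L} {a : k} (h : ρ.R x a) : ρ.R (-x) (-a) := by
  simpa using ρ.mul (ρ.const (-1)) h

theorem sub {x y : L} {a b : k} (h : ρ.R x a) (h' : ρ.R y b) : ρ.R (x - y) (a - b) := by
  simpa [sub_eq_add_neg] using ρ.add h (neg h')

theorem pow {x : L} {a : k} (h : ρ.R x a) (n : ℕ) : ρ.R (x ^ n) (a ^ n) := by
  induction n with
  | zero => simpa using ρ.one
  | succ n ih => simpa [pow_succ] using ρ.mul ih h

theorem div {x y : L} {a b : k} (h : ρ.R x a) (h' : ρ.R y b) (hb : b ≠ 0) :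
    ρ.R (x / y) (a / b) := by
  simpa [div_eq_mul_inv] using ρ.mul h (ρ.inv h' hb)

theorem sum {κ : Type} (s : Finset κ) {x : κ → L} {a : κ → k} (h : ∀ i ∈ s, ρ.R (x i) (a i)) :
    ρ.R (∑ i ∈ s, x i) (∑ i ∈ s, a i) := by
  classical
  induction s using Finset.induction_on with
  | empty => simpa using ρ.zero
  | insert i s hi ih =>
    rw [Finset.sum_insert hi, Finset.sum_insert hi]
    exact ρ.add (h i (by simp)) (ih fun j hj => h j (by simp [hj]))

theorem prod {κ : Type} (s : Finset κ) {x : κ → L} {a : κ → k} (h : ∀ i ∈ s, ρ.R (x i) (a i)) :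
    ρ.R (∏ i ∈ s, x i) (∏ i ∈ s, a i) := by
  classical
  induction s using Finset.induction_on with
  | empty => simpa using ρ.one
  | insert i s hi ih =>
    rw [Finset.prod_insert hi, Finset.prod_insert hi]
    exact ρ.mul (h i (by simp)) (ih fun j hj => h j (by simp [hj]))

theorem eq_zero {a : k} (h : ρ.R 0 a) : a = 0 := ρ.uniq h ρ.zero

theorem ne_zero {x : L} {a : k} (h : ρ.R x a) (ha : a ≠ 0) : x ≠ 0 := by
  rintro rfl; exact ha (eq_zero h)

/-- Coordinatewise reduction of vectors. -/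
def RV {ι : Type} (ρ : RPl k L) (x : ι → L) (a : ι → k) : Prop := ∀ i, ρ.R (x i) (a i)

/-- Entrywise reduction of matrices. -/
def RM {ι : Type} (ρ : RPl k L) (M : Matrix ι ι L) (B : Matrix ι ι k) : Prop :=
  ∀ i j, ρ.R (M i j) (B i j)

/-- Reduction of a projective point. -/
def RP {ι : Type} (ρ : RPl k L) (z : ι → L) (a : ι → k) : Prop :=
  a ≠ 0 ∧ ∃ s : L, ρ.RV (s • z) a

variable {ι : Type}

theorem RV.const (ρ : RPl k L) (a : ι → k) : ρ.RV (fun i => algebraMap k L (a i)) a :=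
  fun i => ρ.const (a i)

theorem RV.add {x y : ι → L} {a b : ι → k} (h : ρ.RV x a) (h' : ρ.RV y b) :
    ρ.RV (x + y) (a + b) := fun i => ρ.add (h i) (h' i)

theorem RV.smul {s : L} {c : k} {x : ι → L} {a : ι → k} (hs : ρ.R s c) (h : ρ.RV x a) :
    ρ.RV (s • x) (c • a) := fun i => ρ.mul hs (h i)

/-- `a + T a'` reduces to `a` where `T` vanishes. -/
theorem RV.pencil {T : L} (hT : ρ.R T 0) (a a' : ι → k) :
    ρ.RV ((fun i => algebraMap k L (a i)) + T • fun i => algebraMap k L (a' i)) a := by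
  simpa using (RV.const ρ a).add (RV.smul hT (RV.const ρ a'))

theorem RM.const (ρ : RPl k L) (B : Matrix ι ι k) : ρ.RM (B.map (algebraMap k L)) B :=
  fun i j => ρ.const (B i j)

theorem RM.pencil {T : L} (hT : ρ.R T 0) (B B' : Matrix ι ι k) :
    ρ.RM (B.map (algebraMap k L) + T • B'.map (algebraMap k L)) B := fun i j => by
  simpa using ρ.add (ρ.const (B i j)) (ρ.mul hT (ρ.const (B' i j)))

theorem RP.smul {z : ι → L} {a : ι → k} {t : L} (ht : t ≠ 0) (h : ρ.RP z a) : ρ.RP (t • z) a := by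
  obtain ⟨h0, s, hs⟩ := h
  exact ⟨h0, s / t, by rwa [smul_smul, div_mul_cancel₀ _ ht]⟩

theorem bt [Fintype ι] (q : ℕ) {M : Matrix ι ι L} {B : Matrix ι ι k} {x y : ι → L} {a b : ι → k}
    (hM : ρ.RM M B) (hx : ρ.RV x a) (hy : ρ.RV y b) : ρ.R (bt q M x y) (bt q B a b) :=
  sum _ fun i _ => sum _ fun j _ => ρ.mul (ρ.mul (hM i j) (pow (hx i) q)) (hy j)

/-- A nonzero vector can be divided by one of its coordinates so that it becomes finite. -/
theorem normalise (ρ : RPl k L) {κ : Type} [Finite κ] (s : κ → L) (hs : s ≠ 0) :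
    ∃ (i₀ : κ) (c : κ → k), s i₀ ≠ 0 ∧ c i₀ = 1 ∧ ∀ i, ρ.R (s i / s i₀) (c i) := by
  classical
  have key : ∀ t : Finset κ, (∃ i ∈ t, s i ≠ 0) →
      ∃ i₀ ∈ t, s i₀ ≠ 0 ∧ ∀ i ∈ t, ∃ c, ρ.R (s i / s i₀) c := by
    intro t
    induction t using Finset.induction_on with
    | empty => simp
    | insert j t hj ih =>
      intro h
      by_cases ht : ∃ i ∈ t, s i ≠ 0
      · obtain ⟨i₀, hi, h0, hf⟩ := ih ht
        rcases ρ.tot (s j / s i₀) with hc | hc
        · exact ⟨i₀, by simp [hi], h0, fun i hi' => by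
            rcases Finset.mem_insert.1 hi' with rfl | hi'
            exacts [hc, hf i hi']⟩
        · by_cases hj0 : s j = 0
          · exact ⟨i₀, by simp [hi], h0, fun i hi' => by
              rcases Finset.mem_insert.1 hi' with rfl | hi'
              exacts [⟨0, by simpa [hj0] using ρ.zero⟩, hf i hi']⟩
          refine ⟨j, by simp, hj0, fun i hi' => ?_⟩
          rcases Finset.mem_insert.1 hi' with rfl | hi'
          · exact ⟨1, by simpa [hj0] using ρ.one⟩
          · obtain ⟨c, hc'⟩ := hf i hi'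
            refine ⟨c * 0, ?_⟩
            have := ρ.mul hc' hc
            rwa [inv_div, div_mul_div_cancel₀ h0] at this
      · push Not at ht
        obtain ⟨i, hi, h0⟩ := h
        rcases Finset.mem_insert.1 hi with rfl | hi
        · refine ⟨i, by simp, h0, fun j hj => ?_⟩
          rcases Finset.mem_insert.1 hj with rfl | hj
          · exact ⟨1, by simpa [h0] using ρ.one⟩
          · exact ⟨0, by simpa [ht j hj] using ρ.zero⟩
        · exact absurd (ht i hi) h0
  have := Fintype.ofFinite κ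
  obtain ⟨i, hi⟩ := Function.ne_iff.1 hs
  obtain ⟨i₀, -, h0, hf⟩ := key Finset.univ ⟨i, Finset.mem_univ _, hi⟩
  choose c hc using fun i => hf i (Finset.mem_univ _)
  refine ⟨i₀, c, h0, ρ.uniq (hc i₀) (by simpa [h0] using ρ.one), hc⟩

end RPl

/-- The specialisation principle for the classes `cl` of points. -/
structure Sp {k L ι A : Type} [Field k] [Field L] [Algebra k L] [AddCommGroup A]
    (onX : (ι → L) → Prop) (cl : (ι → k) → A) (T : L) : Prop where
  smul : ∀ (c : k) (x : ι → k), c ≠ 0 → cl (c • x) = cl x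
  ne : T ≠ 0
  pl0 : ∃ ρ : RPl k L, ρ.R T 0
  spec : ∀ (N : ℕ) (z : Fin N → ι → L), (∀ j, z j ≠ 0 ∧ onX (z j)) → ∀ α β : A,
    (∀ ρ : RPl k L, ρ.R T 0 → ∃ P : Fin N → ι → k, (∀ j, ρ.RP (z j) (P j)) ∧ ∑ j, cl (P j) = α) →
    (∀ ρ : RPl k L, ρ.R T⁻¹ 0 →
      ∃ P : Fin N → ι → k, (∀ j, ρ.RP (z j) (P j)) ∧ ∑ j, cl (P j) = β) → α = β

/-- The common zeros over `L` of the two forms lie on `X`. -/
def Cut {L ι : Type} [Field L] [Fintype ι] (onX : (ι → L) → Prop) (q : ℕ) (M N : Matrix ι ι L) :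
    Prop := ∀ z, bt q M z z = 0 → bt q N z z = 0 → onX z

open Classical in
/-- The class of the intersection of the line through `u, v` with the hypersurface of `C`. -/
noncomputable def cyc {k ι A : Type} [Field k] [Fintype ι] [AddCommGroup A] (cl : (ι → k) → A)
    (q : ℕ) (C : Matrix ι ι k) (u v : ι → k) : A :=
  if lp q C u v = 0 then (q + 1) • cl u
  else ((lp q C u v).roots.map fun r => cl (u + r • v)).sum +
    (q + 1 - (lp q C u v).natDegree) • cl v

end Pool.Agent.MP_c1eb4d_ag.Pen
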