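import Pool.Agent.MP_c1eb4d_ag.PnDefs2

/-! The class `cyc` of a line section. -/

namespace Pool.Agent.MP_c1eb4d_ag.Pen

open Polynomial Module

namespace PnCycX

theorem iso_map {R S ι : Type} [CommRing R] [CommRing S] [Fintype ι] (φ : R →+* S) {q : ℕ}
    {B : Matrix ι ι R} {u v : ι → R} (h : Iso q B u v) :
    Iso q (B.map φ) (fun i => φ (u i)) (fun i => φ (v i)) :=
  ⟨by rw [← map_bt, h.uu, map_zero], by rw [← map_bt, h.uv, map_zero],
    by rw [← map_bt, h.vu, map_zero], by rw [← map_bt, h.vv, map_zero]⟩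

theorem natDegree_lin_le {F : Type} [Field F] (s t : F) : (C t - C s * X : F[X]).natDegree ≤ 1 :=
  (natDegree_sub_le _ _).trans (max_le (by simp) ((natDegree_C_mul_le _ _).trans natDegree_X_le))

theorem lin_eq {F : Type} [Field F] {s : F} (t : F) (hs : s ≠ 0) :
    (C t - C s * X : F[X]) = C (-s) * (X - C (t / s)) := by
  have : (C t : F[X]) = C s * C (t / s) := by rw [← C_mul, mul_div_cancel₀ _ hs]
  rw [this, C_neg]; ring

theorem lin_ne_zero {F : Type} [Field F] {s t : F} (h : s ≠ 0 ∨ t ≠ 0) :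
    (C t - C s * X : F[X]) ≠ 0 := by
  by_cases hs : s = 0
  · have ht : t ≠ 0 := h.resolve_left (by simpa using hs)
    simpa [hs] using ht
  · rw [lin_eq t hs]
    exact mul_ne_zero (by simpa using hs) (X_sub_C_ne_zero _)

/-- A polynomial of degree at most `n` is a product of `n` factors of degree at most one. -/
theorem poly_fac {F : Type} [Field F] [IsAlgClosed F] (n : ℕ) : ∀ G : F[X], G.natDegree ≤ n →
    ∃ (c : F) (s t : Fin n → F), (∀ j, s j ≠ 0 ∨ t j ≠ 0) ∧
      G = C c * ∏ j, (C (t j) - C (s j) * X) := by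
  induction n with
  | zero =>
    intro G hG
    exact ⟨G.coeff 0, Fin.elim0, Fin.elim0, fun j => j.elim0, by
      simpa using eq_C_of_natDegree_le_zero hG⟩
  | succ n ih =>
    intro G hG
    by_cases hn : G.natDegree ≤ n
    · obtain ⟨c, s, t, h1, h2⟩ := ih G hn
      refine ⟨c, Fin.cons 0 s, Fin.cons 1 t, fun j => ?_, ?_⟩
      · refine Fin.cases ?_ (fun j => ?_) j
        · simp
        · simpa using h1 j
      · rw [Fin.prod_univ_succ]
        simpa using h2
    · have hd : G.degree ≠ 0 := by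
        intro h0
        have := natDegree_eq_of_degree_eq_some (n := 0) h0
        omega
      obtain ⟨r, hr⟩ := IsAlgClosed.exists_root G hd
      obtain ⟨G', hG'⟩ := dvd_iff_isRoot.2 hr
      have h0 : G' ≠ 0 := by
        rintro rfl
        simp [hG'] at hn
      have hdeg : G'.natDegree ≤ n := by
        rw [hG', natDegree_mul (X_sub_C_ne_zero r) h0, natDegree_X_sub_C] at hG
        omega
      obtain ⟨c, s, t, h1, h2⟩ := ih G' hdeg
      refine ⟨-c, Fin.cons 1 s, Fin.cons r t, fun j => ?_, ?_⟩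
      · refine Fin.cases ?_ (fun j => ?_) j
        · simp
        · simpa using h1 j
      · rw [Fin.prod_univ_succ, hG', h2]
        simp only [Fin.cons_zero, Fin.cons_succ, C_neg, C_1]
        ring

theorem pair_ne_zero {k V : Type} [Field k] [AddCommGroup V] [Module k V] {u v : V}
    (hi : LinearIndependent k ![u, v]) {s t : k} (h : s ≠ 0 ∨ t ≠ 0) : s • u + t • v ≠ 0 := by
  intro h0
  obtain ⟨h1, h2⟩ := LinearIndependent.pair_iff.1 hi s t h0
  rcases h with h | h
  exacts [h h1, h h2]

end PnCycX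

open PnCycX

variable {k L ι A : Type} [Field k] [IsAlgClosed k] [Field L] [IsAlgClosed L] [Algebra k L]
  [Fintype ι] [AddCommGroup A] {p e : ℕ} [Fact p.Prime] [CharP k p] [CharP L p]
  {onX : (ι → L) → Prop} {cl : (ι → k) → A} {T : L} {B C : Matrix ι ι k}

theorem cl_line (H : Sp onX cl T)
    (hX : Cut onX (p ^ e) (B.map (algebraMap k L)) (C.map (algebraMap k L))) {u v : ι → k}
    (hB : Iso (p ^ e) B u v) (hC : Iso (p ^ e) C u v) {a b a' b' : k} (h : a • u + b • v ≠ 0)
    (h' : a' • u + b' • v ≠ 0) : cl (a • u + b • v) = cl (a' • u + b' • v) := by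
  set x := a • u + b • v with hx
  set x' := a' • u + b' • v with hx'
  set z : ι → L := (fun i => algebraMap k L (x i)) + T • fun i => algebraMap k L (x' i) with hz
  have hz0 : z ≠ 0 := by
    intro h0
    obtain ⟨ρ, hρ⟩ := H.pl0
    have := RPl.RV.pencil hρ x x'
    rw [← hz, h0] at this
    exact h (funext fun i => RPl.eq_zero (this i))
  have hzc : z = (algebraMap k L a + T * algebraMap k L a') • (fun i => algebraMap k L (u i)) +
      (algebraMap k L b + T * algebraMap k L b') • fun i => algebraMap k L (v i) := by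
    funext i
    simp only [hz, hx, hx', Pi.add_apply, Pi.smul_apply, smul_eq_mul, map_add, map_mul]
    ring
  have hon : onX z := by
    refine hX z ?_ ?_
    · rw [hzc]; exact (iso_map (algebraMap k L) hB).comb _ _ _ _
    · rw [hzc]; exact (iso_map (algebraMap k L) hC).comb _ _ _ _
  refine H.spec 1 (fun _ => z) (fun _ => ⟨hz0, hon⟩) _ _ (fun ρ hρ => ?_) (fun ρ hρ => ?_)
  · exact ⟨fun _ => x, fun _ => ⟨h, 1, by simpa using RPl.RV.pencil hρ x x'⟩, by simp⟩
  · refine ⟨fun _ => x', fun _ => ⟨h', T⁻¹, ?_⟩, by simp⟩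
    have := RPl.RV.pencil hρ x' x
    convert this using 1
    rw [hz, smul_add, smul_smul, inv_mul_cancel₀ H.ne, one_smul, add_comm]

theorem lp_eq_zero_iff {F : Type} [Field F] (he : 1 ≤ e) {N : Matrix ι ι F} {u v : ι → F} :
    lp (p ^ e) N u v = 0 ↔ Iso (p ^ e) N u v := by
  have hq : 2 ≤ p ^ e := (Fact.out : p.Prime).two_le.trans (Nat.le_self_pow (by omega) p)
  generalize p ^ e = q at hq
  constructor
  · intro h
    have key := fun n => congrArg (fun G : F[X] => G.coeff n) h
    have h0 := key 0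
    have h1 := key 1
    have h2 := key q
    have h3 := key (q + 1)
    have e1 : ¬ (0 = q) := by omega
    have e2 : ¬ (1 = q) := by omega
    have e3 : ¬ (1 = q + 1) := by omega
    have e4 : ¬ (q = 0) := by omega
    simp only [lp, pw, coeff_add, coeff_C_mul, coeff_X, coeff_X_pow, coeff_C, coeff_zero]
      at h0 h1 h2 h3
    simp [e1, e2, e3, e4] at h0 h1 h2 h3
    exact ⟨h0, h1, h2, h3⟩
  · intro h
    simp [lp, pw, h.uu, h.uv, h.vu, h.vv]

theorem Fac.change {F : Type} [Field F] {q : ℕ} {N : Matrix ι ι F} {u v : ι → F} {c₀ : F}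
    {s t : Fin (q + 1) → F} (h : Fac q N u v c₀ s t) {a b c d : F} (hdet : a * d - b * c ≠ 0) :
    ∃ (c₁ : F) (s₁ t₁ : Fin (q + 1) → F), Fac q N (a • u + b • v) (c • u + d • v) c₁ s₁ t₁ ∧
      ∀ j, s₁ j • (a • u + b • v) + t₁ j • (c • u + d • v) = s j • u + t j • v := by
  set D := a * d - b * c with hD
  have hs : ∀ j, (s j * d - t j * c) / D * a + (t j * a - s j * b) / D * c = s j := fun j => by
    field_simp; rw [hD]; ring
  have ht : ∀ j, (s j * d - t j * c) / D * b + (t j * a - s j * b) / D * d = t j := fun j => by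
    field_simp; rw [hD]; ring
  have hc : ∀ α β : F, α • (a • u + b • v) + β • (c • u + d • v) =
      (α * a + β * c) • u + (α * b + β * d) • v := fun α β => by
    simp only [smul_add, add_smul, smul_smul]; abel
  refine ⟨c₀ * D ^ (q + 1), fun j => (s j * d - t j * c) / D, fun j => (t j * a - s j * b) / D,
    ⟨fun j => ?_, fun α β => ?_⟩, fun j => ?_⟩
  · by_contra h0
    push Not at h0
    have h1 := hs j
    have h2 := ht j
    rw [h0.1, h0.2] at h1 h2
    rcases h.ne j with h3 | h3
    · exact h3 (by rw [← h1]; ring)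
    · exact h3 (by rw [← h2]; ring)
  · rw [hc, h.eq, mul_assoc]
    congr 1
    have : D ^ (q + 1) = ∏ _j : Fin (q + 1), D := by simp
    rw [this, ← Finset.prod_mul_distrib]
    refine Finset.prod_congr rfl fun j _ => ?_
    field_simp
    ring
  · rw [hc, hs, ht]

theorem fac_exists {F : Type} [Field F] [IsAlgClosed F] [CharP F p] (N : Matrix ι ι F)
    (u v : ι → F) : ∃ (c₀ : F) (s t : Fin (p ^ e + 1) → F), Fac (p ^ e) N u v c₀ s t := by
  have hq : p ^ e ≠ 0 := pow_ne_zero _ (Fact.out : p.Prime).ne_zero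
  obtain ⟨c, s, t, h1, h2⟩ := poly_fac (p ^ e + 1) (lp (p ^ e) N u v) (natDegree_pw_le _ _ _ _ _)
  refine ⟨c, s, t, h1, fun a b => ?_⟩
  by_cases ha : a = 0
  · have h3 : (lp (p ^ e) N u v).coeff (p ^ e + 1) = bt (p ^ e) N v v := coeff_pw_top hq _ _ _ _
    have h4 := coeff_prod_of_natDegree_le (s := Finset.univ)
      (fun j : Fin (p ^ e + 1) => (Polynomial.C (t j) - Polynomial.C (s j) * X : F[X])) 1
      (fun j _ => natDegree_lin_le _ _)
    simp only [Finset.card_univ, Fintype.card_fin, mul_one] at h4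
    rw [h2, coeff_C_mul, h4] at h3
    have h5 : b ^ p ^ e * b = ∏ _j : Fin (p ^ e + 1), b := by simp [pow_succ]
    rw [ha, zero_smul, zero_add, bt_smul_left, bt_smul_right, ← h3, ← mul_assoc, h5,
      mul_left_comm, ← Finset.prod_mul_distrib]
    congr 1
    refine Finset.prod_congr rfl fun j _ => ?_
    simp [coeff_C]
  · have h3 : a • u + b • v = a • (u + (b / a) • v) := by
      rw [smul_add, smul_smul, mul_div_cancel₀ _ ha]
    have h5 : a ^ p ^ e * a = ∏ _j : Fin (p ^ e + 1), a := by simp [pow_succ]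
    rw [h3, bt_smul_left, bt_smul_right, ← eval_lp, h2, ← mul_assoc, h5, eval_mul, eval_C,
      eval_prod, mul_left_comm, ← Finset.prod_mul_distrib]
    congr 1
    refine Finset.prod_congr rfl fun j _ => ?_
    simp only [eval_sub, eval_mul, eval_C, eval_X]
    field_simp

theorem Fac.sum_eq (H : Sp onX cl T)
    (hX : Cut onX (p ^ e) (B.map (algebraMap k L)) (C.map (algebraMap k L))) (he : 1 ≤ e)
    {u v : ι → k} (hB : Iso (p ^ e) B u v) (hi : LinearIndependent k ![u, v]) {c₀ : k}
    {s t : Fin (p ^ e + 1) → k} (h : Fac (p ^ e) C u v c₀ s t) :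
    ∑ j, cl (s j • u + t j • v) = cyc cl (p ^ e) C u v := by
  unfold cyc
  split_ifs with h0
  · have hC := (lp_eq_zero_iff he).1 h0
    have : ∀ j, cl (s j • u + t j • v) = cl u := fun j => by
      have := cl_line H hX hB hC (pair_ne_zero hi (h.ne j))
        (pair_ne_zero hi (s := 1) (t := 0) (Or.inl one_ne_zero))
      simpa using this
    simp [this]
  · set f : Fin (p ^ e + 1) → k[X] := fun j => Polynomial.C (t j) - Polynomial.C (s j) * X with hf
    have hG : lp (p ^ e) C u v = Polynomial.C c₀ * ∏ j, f j := by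
      refine Polynomial.funext fun w => ?_
      have := h.eq 1 w
      rw [one_smul] at this
      rw [eval_lp, this, eval_mul, eval_C, eval_prod]
      congr 1
      refine Finset.prod_congr rfl fun j _ => ?_
      simp only [hf, eval_sub, eval_mul, eval_C, eval_X]
      ring
    have hc : c₀ ≠ 0 := by
      rintro rfl
      exact h0 (by simp [hG])
    have hf0 : ∀ j, f j ≠ 0 := fun j => lin_ne_zero (h.ne j)
    have hp0 : ∏ j, f j ≠ 0 := Finset.prod_ne_zero_iff.2 fun j _ => hf0 j
    have hdeg : p ^ e + 1 - (lp (p ^ e) C u v).natDegree = ∑ j, (1 - (f j).natDegree) := by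
      rw [hG, natDegree_C_mul hc, natDegree_prod _ _ fun j _ => hf0 j]
      have : ∑ j, (1 - (f j).natDegree) + ∑ j, (f j).natDegree = p ^ e + 1 := by
        rw [← Finset.sum_add_distrib, Finset.sum_congr rfl fun j _ =>
          Nat.sub_add_cancel (natDegree_lin_le (s j) (t j))]
        simp
      omega
    rw [hdeg, hG, roots_C_mul _ hc, roots_prod _ _ hp0, Multiset.map_bind, Multiset.sum_bind,
      Finset.sum_smul]
    change _ = ∑ j, ((f j).roots.map fun r => cl (u + r • v)).sum + _
    rw [← Finset.sum_add_distrib]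
    refine Finset.sum_congr rfl fun j _ => ?_
    by_cases hs : s j = 0
    · have ht : t j ≠ 0 := (h.ne j).resolve_left (by simpa using hs)
      simp [hf, hs, H.smul _ _ ht]
    · have h3 : s j • u + t j • v = s j • (u + (t j / s j) • v) := by
        rw [smul_add, smul_smul, mul_div_cancel₀ _ hs]
      have h4 : (-s j) ≠ 0 := neg_ne_zero.2 hs
      simp only [hf]
      rw [lin_eq _ hs, roots_C_mul _ h4, roots_X_sub_C, natDegree_C_mul h4, natDegree_X_sub_C, h3,
        H.smul _ _ hs]
      simp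

theorem cyc_congr (H : Sp onX cl T)
    (hX : Cut onX (p ^ e) (B.map (algebraMap k L)) (C.map (algebraMap k L))) (he : 1 ≤ e)
    {u v : ι → k} (hB : Iso (p ^ e) B u v) (hi : LinearIndependent k ![u, v]) {a b c d : k}
    (hdet : a * d - b * c ≠ 0) :
    cyc cl (p ^ e) C (a • u + b • v) (c • u + d • v) = cyc cl (p ^ e) C u v := by
  obtain ⟨c₀, s, t, h⟩ := fac_exists (p := p) (e := e) C u v
  obtain ⟨c₁, s₁, t₁, h₁, h₂⟩ := h.change hdet
  have hB' : Iso (p ^ e) B (a • u + b • v) (c • u + d • v) :=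
    ⟨hB.comb _ _ _ _, hB.comb _ _ _ _, hB.comb _ _ _ _, hB.comb _ _ _ _⟩
  have hi' : LinearIndependent k ![a • u + b • v, c • u + d • v] := by
    refine LinearIndependent.pair_iff.2 fun α β h0 => ?_
    have h1 : (α * a + β * c) • u + (α * b + β * d) • v = 0 := by
      rw [← h0]; simp only [smul_add, add_smul, smul_smul]; abel
    obtain ⟨h2, h3⟩ := LinearIndependent.pair_iff.1 hi _ _ h1
    refine ⟨(mul_eq_zero.1 ?_).resolve_right hdet, (mul_eq_zero.1 ?_).resolve_right hdet⟩
    · linear_combination d * h2 - c * h3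
    · linear_combination a * h3 - b * h2
  rw [← h₁.sum_eq H hX he hB' hi', ← h.sum_eq H hX he hB hi]
  exact Finset.sum_congr rfl fun j _ => by rw [h₂]

end Pool.Agent.MP_c1eb4d_ag.Pen
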