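import Mathlib

namespace Pool.Agent.MP_c1eb4d_ag.Pen

open MvPolynomial

variable {k ι : Type} [Field k]

/-- The form `∑ B i j * x_i ^ q * x_j`, of degree `q + 1`. -/
noncomputable def qform [Fintype ι] (q : ℕ) (B : Matrix ι ι k) : MvPolynomial ι k :=
  ∑ i, ∑ j, C (B i j) * X i ^ q * X j

/-- Places of `K / k`: normalised discrete valuations of `K` that are trivial on `k`. -/
def IsPlace (k : Type) {K : Type} [Field k] [Field K] [Algebra k K]
    (v : Valuation K (WithZero (Multiplicative ℤ))) : Prop :=
  Function.Surjective v ∧ ∀ c : k, c ≠ 0 → v (algebraMap k K c) = 1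

/-- `P` is the value at the place `v` of the point with homogeneous coordinates `z`. -/
def Value {K : Type} [Field K] [Algebra k K] (v : Valuation K (WithZero (Multiplicative ℤ)))
    (z : ι → K) (P : Projectivization k (ι → k)) : Prop :=
  ∃ s : K, ∀ i, v (s * z i - algebraMap k K (P.rep i)) < 1

/-- Push-forwards of principal divisors: `K` is the function field of a smooth projective curve,
`z` a morphism from the curve to the zero locus of `I`, and `g` a rational function on the curve. -/
def principal (I : Set (MvPolynomial ι k)) : Set (Projectivization k (ι → k) →₀ ℚ) :=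
  {D | ∃ (K : Type) (_ : Field K) (_ : Algebra k K) (z : ι → K) (g : K)
    (S : Finset (Valuation K (WithZero (Multiplicative ℤ))))
    (P : Valuation K (WithZero (Multiplicative ℤ)) → Projectivization k (ι → k)),
    Algebra.EssFiniteType k K ∧ Algebra.trdeg k K = 1 ∧ z ≠ 0 ∧ (∀ F ∈ I, aeval z F = 0) ∧
    g ≠ 0 ∧ (∀ v, v ∈ S ↔ IsPlace k v ∧ v g ≠ 1) ∧ (∀ v ∈ S, Value v z (P v)) ∧
    D = ∑ v ∈ S, Finsupp.single (P v) (-(WithZero.log (v g) : ℤ) : ℚ)}

end Pool.Agent.MP_c1eb4d_ag.Pen
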