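import Pool.Agent.MP_c1eb4d_ag.PnBasic

/-! Shared definitions: reduction of lines, predecessor lines, good lines, the resultant. -/

namespace Pool.Agent.MP_c1eb4d_ag.Pen

open Polynomial Module

/-- The line through `U, V` reduces to the line through `u, v`. -/
def RL {k L ι : Type} [Field k] [Field L] [Algebra k L] (ρ : RPl k L) (U V : ι → L)
    (u v : ι → k) : Prop :=
  LinearIndependent k ![u, v] ∧
    ∃ a b c d : L, a * d - b * c ≠ 0 ∧ ρ.RV (a • U + b • V) u ∧ ρ.RV (c • U + d • V) v

/-- The line through `u, v` lies in the plane `u', v', y` and is left orthogonal to `y`. -/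
structure Pre {k ι : Type} [Field k] [Fintype ι] (q : ℕ) (B : Matrix ι ι k)
    (u' v' y u v : ι → k) : Prop where
  li : LinearIndependent k ![u, v]
  mu : u ∈ Submodule.span k {u', v', y}
  mv : v ∈ Submodule.span k {u', v', y}
  uy : bt q B u y = 0
  vy : bt q B v y = 0

/-- Some plane through the line meets the hypersurface only along the line, or lies on it. -/
def Good {k ι : Type} [Field k] [Fintype ι] (q : ℕ) (B : Matrix ι ι k) (u v : ι → k) : Prop :=
  ∃ y, LinearIndependent k ![u, v, y] ∧ Orth q B u v y

/-- All pairings between the vectors of `s` vanish. -/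
def IsoSet {R ι : Type} [CommRing R] [Fintype ι] (q : ℕ) (B : Matrix ι ι R) (s : Set (ι → R)) :
    Prop := ∀ x ∈ s, ∀ y ∈ s, bt q B x y = 0

/-- The resultant of the two forms along the line `w ↦ a + w y`. -/
noncomputable def rs {R ι : Type} [CommRing R] [Fintype ι] (q : ℕ) (M N : Matrix ι ι R)
    (a y : ι → R) : R :=
  resultant (lp q M a y) (lp q N a y) (q + 1) (q + 1)

end Pool.Agent.MP_c1eb4d_ag.Pen
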