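import Pool.Agent.MP_c1eb4d_ag.PnCyc

/-! Line sections are constant in rational families of lines. -/

namespace Pool.Agent.MP_c1eb4d_ag.Pen

open Polynomial Module

variable {k L ι A : Type} [Field k] [IsAlgClosed k] [Field L] [IsAlgClosed L] [Algebra k L]
  [Fintype ι] [AddCommGroup A] {p e : ℕ} [Fact p.Prime] [CharP k p] [CharP L p]
  {onX : (ι → L) → Prop} {cl : (ι → k) → A} {T : L} {B C : Matrix ι ι k}

namespace PnFamX

omit [IsAlgClosed k] [IsAlgClosed L] in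
theorem norm_pair (ρ : RPl k L) {s t : L} (h : s ≠ 0 ∨ t ≠ 0) :
    ∃ (l : L) (a b : k), l ≠ 0 ∧ (a ≠ 0 ∨ b ≠ 0) ∧ ρ.R (s / l) a ∧ ρ.R (t / l) b := by
  have hne : (![s, t] : Fin 2 → L) ≠ 0 := by
    intro h0
    have h1 := congrFun h0 0
    have h2 := congrFun h0 1
    simp only [Matrix.cons_val_zero, Matrix.cons_val_one, Pi.zero_apply] at h1 h2
    tauto
  obtain ⟨i, c, h0, h1, h2⟩ := ρ.normalise _ hne
  refine ⟨_, c 0, c 1, h0, ?_, h2 0, h2 1⟩
  fin_cases i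
  · exact Or.inl (by simp only [Fin.zero_eta] at h1; rw [h1]; exact one_ne_zero)
  · exact Or.inr (by simp only [Fin.mk_one] at h1; rw [h1]; exact one_ne_zero)

omit [IsAlgClosed L] in
theorem red_fac (ρ : RPl k L) {q : ℕ} {U V : ι → L} {u v : ι → k} (hu : ρ.RV U u)
    (hv : ρ.RV V v) {c : L} {s t : Fin (q + 1) → L}
    (h : Fac q (C.map (algebraMap k L)) U V c s t) :
    ∃ (c' : k) (s' t' : Fin (q + 1) → k), Fac q C u v c' s' t' ∧
      ∀ j, ∃ l : L, ρ.RV (l • (s j • U + t j • V)) (s' j • u + t' j • v) := by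
  classical
  choose l s' t' hl hne hs ht using fun j => norm_pair ρ (h.ne j)
  have hid : ∀ a b : L, bt q (C.map (algebraMap k L)) (a • U + b • V) (a • U + b • V) =
      (c * ∏ j, l j) * ∏ j, (a * (t j / l j) - b * (s j / l j)) := by
    intro a b
    rw [h.eq, mul_assoc, ← Finset.prod_mul_distrib]
    refine congrArg _ (Finset.prod_congr rfl fun j _ => ?_)
    have := hl j
    field_simp
  have hL : ∀ a b : k, ρ.R (bt q (C.map (algebraMap k L))
      (algebraMap k L a • U + algebraMap k L b • V) (algebraMap k L a • U + algebraMap k L b • V))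
      (bt q C (a • u + b • v) (a • u + b • v)) := fun a b =>
    RPl.bt q (RPl.RM.const ρ C) ((hu.smul (ρ.const a)).add (hv.smul (ρ.const b)))
      ((hu.smul (ρ.const a)).add (hv.smul (ρ.const b)))
  have hR : ∀ a b : k, ρ.R (∏ j, (algebraMap k L a * (t j / l j) - algebraMap k L b * (s j / l j)))
      (∏ j, (a * t' j - b * s' j)) := fun a b =>
    RPl.prod _ fun j _ => RPl.sub (ρ.mul (ρ.const a) (ht j)) (ρ.mul (ρ.const b) (hs j))
  obtain ⟨b₀, hb₀⟩ := Infinite.exists_notMem_finset (Finset.univ.image fun j => t' j / s' j)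
  have hπ : ∏ j, (1 * t' j - b₀ * s' j) ≠ 0 := by
    refine Finset.prod_ne_zero_iff.2 fun j _ h0 => ?_
    by_cases hs0 : s' j = 0
    · rw [hs0, mul_zero, sub_zero, one_mul] at h0
      exact (hne j).elim (fun h => h hs0) fun h => h h0
    · refine hb₀ (Finset.mem_image.2 ⟨j, Finset.mem_univ _, ?_⟩)
      rw [div_eq_iff hs0]
      linear_combination h0
  obtain ⟨c', hc⟩ : ∃ c', ρ.R (c * ∏ j, l j) c' := by
    have h1 := RPl.div (hL 1 b₀) (hR 1 b₀) hπ
    rw [hid, mul_div_cancel_right₀ _ (RPl.ne_zero (hR 1 b₀) hπ)] at h1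
    exact ⟨_, h1⟩
  refine ⟨c', s', t', ⟨hne, fun a b => ρ.uniq (hL a b) ?_⟩, fun j => ⟨(l j)⁻¹, ?_⟩⟩
  · rw [hid]
    exact ρ.mul hc (hR a b)
  · have : (l j)⁻¹ • (s j • U + t j • V) = (s j / l j) • U + (t j / l j) • V := by
      rw [smul_add, smul_smul, smul_smul, div_eq_inv_mul, div_eq_inv_mul]
    rw [this]
    exact (hu.smul (hs j)).add (hv.smul (ht j))

theorem red (H : Sp onX cl T)
    (hX : Cut onX (p ^ e) (B.map (algebraMap k L)) (C.map (algebraMap k L))) (he : 1 ≤ e)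
    {U V : ι → L} (hB : Iso (p ^ e) (B.map (algebraMap k L)) U V) {c₀ : L}
    {s t : Fin (p ^ e + 1) → L} (h : Fac (p ^ e) (C.map (algebraMap k L)) U V c₀ s t)
    (ρ : RPl k L) {u v : ι → k} (hr : RL ρ U V u v) :
    ∃ P : Fin (p ^ e + 1) → ι → k, (∀ j, ρ.RP (s j • U + t j • V) (P j)) ∧
      ∑ j, cl (P j) = cyc cl (p ^ e) C u v := by
  obtain ⟨hi, a, b, c, d, hdet, hu, hv⟩ := hr
  obtain ⟨c₁, s₁, t₁, h1, h2⟩ := h.change hdet
  obtain ⟨c', s', t', h3, h4⟩ := red_fac ρ hu hv h1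
  have hM := RPl.RM.const ρ B
  have hB' : Iso (p ^ e) B u v := by
    refine ⟨RPl.eq_zero (ρ := ρ) ?_, RPl.eq_zero (ρ := ρ) ?_, RPl.eq_zero (ρ := ρ) ?_,
      RPl.eq_zero (ρ := ρ) ?_⟩
    · rw [← hB.comb a b a b]; exact RPl.bt _ hM hu hu
    · rw [← hB.comb a b c d]; exact RPl.bt _ hM hu hv
    · rw [← hB.comb c d a b]; exact RPl.bt _ hM hv hu
    · rw [← hB.comb c d c d]; exact RPl.bt _ hM hv hv
  refine ⟨fun j => s' j • u + t' j • v, fun j => ⟨fun h0 => ?_, ?_⟩, h3.sum_eq H hX he hB' hi⟩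
  · obtain ⟨h5, h6⟩ := LinearIndependent.pair_iff.1 hi _ _ h0
    exact (h3.ne j).elim (fun h => h h5) fun h => h h6
  · rw [← h2 j]
    exact h4 j

end PnFamX

theorem fam (H : Sp onX cl T)
    (hX : Cut onX (p ^ e) (B.map (algebraMap k L)) (C.map (algebraMap k L))) (he : 1 ≤ e)
    {U V : ι → L} (hB : Iso (p ^ e) (B.map (algebraMap k L)) U V) {α β : A}
    (h0 : ∀ ρ : RPl k L, ρ.R T 0 → ∃ u v, RL ρ U V u v ∧ cyc cl (p ^ e) C u v = α)
    (h1 : ∀ ρ : RPl k L, ρ.R T⁻¹ 0 → ∃ u v, RL ρ U V u v ∧ cyc cl (p ^ e) C u v = β) :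
    α = β := by
  obtain ⟨c₀, s, t, h⟩ := fac_exists (p := p) (e := e) (C.map (algebraMap k L)) U V
  refine H.spec (p ^ e + 1) (fun j => s j • U + t j • V) (fun j => ⟨fun hz => ?_, ?_⟩) α β ?_ ?_
  · obtain ⟨ρ, hρ⟩ := H.pl0
    obtain ⟨u, v, hr, -⟩ := h0 ρ hρ
    obtain ⟨P, hP, -⟩ := PnFamX.red H hX he hB h ρ hr
    obtain ⟨hne, l, hl⟩ := hP j
    refine hne (funext fun i => RPl.eq_zero (ρ := ρ) ?_)
    have := hl i
    rwa [hz, smul_zero] at this
  · refine hX _ (hB.comb _ _ _ _) ?_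
    rw [h.eq, Finset.prod_eq_zero (Finset.mem_univ j) (by ring), mul_zero]
  · intro ρ hρ
    obtain ⟨u, v, hr, rfl⟩ := h0 ρ hρ
    exact PnFamX.red H hX he hB h ρ hr
  · intro ρ hρ
    obtain ⟨u, v, hr, rfl⟩ := h1 ρ hρ
    exact PnFamX.red H hX he hB h ρ hr

theorem iso_sub (H : Sp onX cl T)
    (hX : Cut onX (p ^ e) (B.map (algebraMap k L)) (C.map (algebraMap k L))) (he : 1 ≤ e)
    {u v u' v' : ι → k} (hi : LinearIndependent k ![u, v]) (hi' : LinearIndependent k ![u', v'])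
    (h : IsoSet (p ^ e) B {u, v, u', v'}) :
    cyc cl (p ^ e) C u v = cyc cl (p ^ e) C u' v' := by
  have hz : ∀ x ∈ ({u, v, u', v'} : Set (ι → k)), ∀ y ∈ ({u, v, u', v'} : Set (ι → k)),
      bt (p ^ e) (B.map (algebraMap k L)) (fun i => algebraMap k L (x i))
        (fun i => algebraMap k L (y i)) = 0 := by
    intro x hx y hy
    rw [← map_bt, h x hx y hy, map_zero]
  have hp : ∀ x ∈ ({u, v, u', v'} : Set (ι → k)), ∀ x' ∈ ({u, v, u', v'} : Set (ι → k)),
      ∀ y ∈ ({u, v, u', v'} : Set (ι → k)), ∀ y' ∈ ({u, v, u', v'} : Set (ι → k)),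
      bt (p ^ e) (B.map (algebraMap k L))
        ((fun i => algebraMap k L (x i)) + T • fun i => algebraMap k L (x' i))
        ((fun i => algebraMap k L (y i)) + T • fun i => algebraMap k L (y' i)) = 0 := by
    intro x hx x' hx' y hy y' hy'
    simp only [bt_add_left, bt_add_right, bt_smul_left, bt_smul_right, hz x hx y hy,
      hz x hx y' hy', hz x' hx' y hy, hz x' hx' y' hy', mul_zero, add_zero]
  have hinv : ∀ x x' : ι → k,
      T⁻¹ • ((fun i => algebraMap k L (x i)) + T • fun i => algebraMap k L (x' i)) =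
        (fun i => algebraMap k L (x' i)) + T⁻¹ • fun i => algebraMap k L (x i) := by
    intro x x'
    rw [smul_add, smul_smul, inv_mul_cancel₀ H.ne, one_smul, add_comm]
  refine fam H hX he
    (U := (fun i => algebraMap k L (u i)) + T • fun i => algebraMap k L (u' i))
    (V := (fun i => algebraMap k L (v i)) + T • fun i => algebraMap k L (v' i))
    ⟨hp _ (by simp) _ (by simp) _ (by simp) _ (by simp),
      hp _ (by simp) _ (by simp) _ (by simp) _ (by simp),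
      hp _ (by simp) _ (by simp) _ (by simp) _ (by simp),
      hp _ (by simp) _ (by simp) _ (by simp) _ (by simp)⟩
    (fun ρ hρ => ⟨u, v, ⟨hi, 1, 0, 0, 1, by simp, ?_, ?_⟩, rfl⟩)
    fun ρ hρ => ⟨u', v', ⟨hi', T⁻¹, 0, 0, T⁻¹, by simp [H.ne], ?_, ?_⟩, rfl⟩
  · rw [one_smul, zero_smul, add_zero]
    exact RPl.RV.pencil hρ u u'
  · rw [one_smul, zero_smul, zero_add]
    exact RPl.RV.pencil hρ v v'
  · rw [zero_smul, add_zero, hinv]
    exact RPl.RV.pencil hρ u' u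
  · rw [zero_smul, zero_add, hinv]
    exact RPl.RV.pencil hρ v' v

end Pool.Agent.MP_c1eb4d_ag.Pen
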