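import Pool.Agent.MP_c1eb4d_ag.PnDefs2

/-! Linear algebra: orthogonal complements, tangent lines, successors. -/

namespace Pool.Agent.MP_c1eb4d_ag.Pen

open Polynomial Module

variable {k ι : Type} [Field k] [IsAlgClosed k] [Fintype ι] {p e : ℕ} [Fact p.Prime] [CharP k p]
  {B : Matrix ι ι k}

/-- `y ↦ bt B x y` as a linear form. -/
def phi (q : ℕ) (B : Matrix ι ι k) (x : ι → k) : (ι → k) →ₗ[k] k where
  toFun y := bt q B x y
  map_add' := bt_add_right q B x
  map_smul' c y := bt_smul_right q B x y c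

namespace PnLinX

theorem li_two {F V : Type} [Field F] [AddCommGroup V] [Module F V] {u v : V} (hu : u ≠ 0)
    (hv : v ∉ Submodule.span F {u}) : LinearIndependent F ![u, v] := by
  rw [LinearIndependent.pair_iff' hu]
  intro a ha
  exact hv (Submodule.mem_span_singleton.2 ⟨a, ha⟩)

theorem finrank_pair {F V : Type} [Field F] [AddCommGroup V] [Module F V] (u v : V) :
    finrank F (Submodule.span F ({u, v} : Set V)) ≤ 2 := by
  classical
  have h := finrank_span_finset_le_card (R := F) ({u, v} : Finset V)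
  rw [Set.finrank, Finset.coe_pair] at h
  exact h.trans Finset.card_le_two

omit [IsAlgClosed k] in
theorem succ_aux {u v y : ι → k} (hB : Iso (p ^ e) B u v) (hi : LinearIndependent k ![u, v, y])
    (h1 : bt (p ^ e) B u y = 0) (h2 : bt (p ^ e) B v y = 0) (ha : bt (p ^ e) B y u ≠ 0) :
    ∃ u' v', Iso (p ^ e) B u' v' ∧ bt (p ^ e) B u u' = 0 ∧ bt (p ^ e) B u v' = 0 ∧
      LinearIndependent k ![u', v', u] ∧ bt (p ^ e) B v' u ≠ 0 ∧
      u ∈ Submodule.span k {u', v', u} ∧ v ∈ Submodule.span k {u', v', u} := by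
  set a := bt (p ^ e) B y u with hA
  set b := bt (p ^ e) B y v with hb
  set c := -(bt (p ^ e) B y y / a) with hc
  have e1 : bt (p ^ e) B y y + c * a = 0 := by rw [hc, neg_mul, div_mul_cancel₀ _ ha, add_neg_cancel]
  have m3 : u ∈ Submodule.span k {b • u + (-a) • v, y + c • u, u} :=
    Submodule.subset_span (by simp)
  have m1 : b • u + (-a) • v ∈ Submodule.span k {b • u + (-a) • v, y + c • u, u} :=
    Submodule.subset_span (by simp)
  refine ⟨b • u + (-a) • v, y + c • u, ⟨hB.comb _ _ _ _, ?_, ?_, ?_⟩, ?_, ?_, ?_, ?_, m3, ?_⟩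
  · simp only [bt_add_left, bt_add_right, bt_smul_left, bt_smul_right, h1, h2, hB.uu, hB.vu]
    ring
  · simp only [bt_add_left, bt_add_right, bt_smul_left, bt_smul_right, hB.uu, hB.uv, ← hA, ← hb]
    ring
  · simp only [bt_add_left, bt_add_right, bt_smul_left, bt_smul_right, hB.uu, h1, ← hA]
    linear_combination e1
  · simp only [bt_add_right, bt_smul_right, hB.uu, hB.uv]
    ring
  · simp only [bt_add_right, bt_smul_right, hB.uu, h1]
    ring
  · rw [Fintype.linearIndependent_iff] at hi ⊢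
    intro g hg
    simp only [Fin.sum_univ_three, Matrix.cons_val_zero, Matrix.cons_val_one, Matrix.cons_val_two,
      Matrix.head_cons, Matrix.tail_cons] at hg
    have h3 := hi ![g 0 * b + g 1 * c + g 2, -(g 0 * a), g 1] (by
      simp only [Fin.sum_univ_three, Matrix.cons_val_zero, Matrix.cons_val_one,
        Matrix.cons_val_two, Matrix.head_cons, Matrix.tail_cons]
      rw [← hg]
      module)
    have a0 : g 0 * b + g 1 * c + g 2 = 0 := h3 0
    have a1 : -(g 0 * a) = 0 := h3 1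
    have a2 : g 1 = 0 := h3 2
    have a3 : g 0 = 0 := (mul_eq_zero.1 (neg_eq_zero.1 a1)).resolve_right ha
    rw [a2, a3, zero_mul, zero_mul, zero_add, zero_add] at a0
    intro i
    fin_cases i
    exacts [a3, a2, a0]
  · simp only [bt_add_left, bt_smul_left, hB.uu, ← hA, mul_zero, add_zero]
    exact ha
  · have : v = (-a)⁻¹ • ((b • u + (-a) • v) - b • u) := by
      rw [add_sub_cancel_left, smul_smul, inv_mul_cancel₀ (neg_ne_zero.2 ha), one_smul]
    have h4 := Submodule.smul_mem _ (-a)⁻¹ (Submodule.sub_mem _ m1 (Submodule.smul_mem _ b m3))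
    rwa [← this] at h4

end PnLinX

theorem exists_psi (B : Matrix ι ι k) (x : ι → k) :
    ∃ ψ : (ι → k) →ₗ[k] k, ∀ y, ψ y ^ p ^ e = bt (p ^ e) B y x := by
  have hq : 0 < p ^ e := pow_pos (Fact.out : p.Prime).pos e
  choose r hr using fun i => IsAlgClosed.exists_pow_nat_eq (∑ j, B i j * x j) hq
  refine ⟨∑ i, r i • LinearMap.proj i, fun y => ?_⟩
  simp only [LinearMap.sum_apply, LinearMap.smul_apply, LinearMap.proj_apply, smul_eq_mul]
  rw [sum_pow_char_pow, bt]
  refine Finset.sum_congr rfl fun i _ => ?_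
  rw [mul_pow, hr, Finset.sum_mul]
  exact Finset.sum_congr rfl fun j _ => by ring

theorem exists_notMem {F V : Type} [Field F] [AddCommGroup V] [Module F V] [FiniteDimensional F V]
    {m : ℕ} (φ : Fin m → V →ₗ[F] F) (W : Submodule F V) (h : finrank F W + m < finrank F V) :
    ∃ y, y ∉ W ∧ ∀ i, φ i y = 0 := by
  have h1 := (LinearMap.pi φ).finrank_range_add_finrank_ker
  have h2 : finrank F (LinearMap.range (LinearMap.pi φ)) ≤ m := by
    simpa using (LinearMap.range (LinearMap.pi φ)).finrank_le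
  have h3 : ¬ LinearMap.ker (LinearMap.pi φ) ≤ W := fun h4 => by
    have := Submodule.finrank_mono h4
    omega
  obtain ⟨y, hy, hy'⟩ := SetLike.not_le_iff_exists.1 h3
  exact ⟨y, hy', fun i => congrFun (LinearMap.mem_ker.1 hy) i⟩

theorem exists_pair_ker {F V : Type} [Field F] [AddCommGroup V] [Module F V]
    [FiniteDimensional F V] {m : ℕ} (φ : Fin m → V →ₗ[F] F) (h : m + 2 ≤ finrank F V) :
    ∃ u v, LinearIndependent F ![u, v] ∧ ∀ i, φ i u = 0 ∧ φ i v = 0 := by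
  obtain ⟨u, hu, hu'⟩ := exists_notMem φ ⊥ (by rw [finrank_bot]; omega)
  have hu0 : u ≠ 0 := fun h0 => hu (h0 ▸ Submodule.zero_mem _)
  obtain ⟨v, hv, hv'⟩ := exists_notMem φ (Submodule.span F {u})
    (by rw [finrank_span_singleton hu0]; omega)
  exact ⟨u, v, PnLinX.li_two hu0 hv, fun i => ⟨hu' i, hv' i⟩⟩

theorem li_three {F V : Type} [Field F] [AddCommGroup V] [Module F V] {u v y : V}
    (hi : LinearIndependent F ![u, v]) (hy : y ∉ Submodule.span F {u, v}) :
    LinearIndependent F ![u, v, y] := by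
  rw [Fintype.linearIndependent_iff]
  intro g hg
  simp only [Fin.sum_univ_three, Matrix.cons_val_zero, Matrix.cons_val_one, Matrix.cons_val_two,
    Matrix.head_cons, Matrix.tail_cons] at hg
  have h2 : g 2 = 0 := by
    by_contra h2
    refine hy (Submodule.mem_span_pair.2 ⟨-(g 0 / g 2), -(g 1 / g 2), ?_⟩)
    have : g 2 • y = -(g 0 • u + g 1 • v) := eq_neg_of_add_eq_zero_right hg
    rw [← one_smul F y, ← inv_mul_cancel₀ h2, mul_smul, this]
    simp only [div_eq_inv_mul, neg_smul, smul_neg, smul_add, mul_smul, neg_add]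
  rw [h2, zero_smul, add_zero] at hg
  obtain ⟨h0, h1⟩ := LinearIndependent.pair_iff.1 hi _ _ hg
  intro i
  fin_cases i
  exacts [h0, h1, h2]

theorem exists_tangent (hc : 6 ≤ Fintype.card ι) (B₁ B₂ : Matrix ι ι k) {x : ι → k} (hx : x ≠ 0) :
    ∃ y, LinearIndependent k ![x, y] ∧ bt (p ^ e) B₁ x y = 0 ∧ bt (p ^ e) B₁ y x = 0 ∧
      bt (p ^ e) B₂ x y = 0 ∧ bt (p ^ e) B₂ y x = 0 := by
  have hq : p ^ e ≠ 0 := pow_ne_zero e (Fact.out : p.Prime).ne_zero
  obtain ⟨ψ₁, h₁⟩ := exists_psi (p := p) (e := e) B₁ x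
  obtain ⟨ψ₂, h₂⟩ := exists_psi (p := p) (e := e) B₂ x
  obtain ⟨y, hy, hy'⟩ := exists_notMem ![phi (p ^ e) B₁ x, ψ₁, phi (p ^ e) B₂ x, ψ₂]
    (Submodule.span k {x}) (by rw [finrank_span_singleton hx, finrank_fintype_fun_eq_card]; omega)
  have a1 : ψ₁ y = 0 := hy' 1
  have a2 : ψ₂ y = 0 := hy' 3
  refine ⟨y, PnLinX.li_two hx hy, hy' 0, ?_, hy' 2, ?_⟩
  · rw [← h₁, a1, zero_pow hq]
  · rw [← h₂, a2, zero_pow hq]

theorem good_of_dep (hc : 6 ≤ Fintype.card ι) {u v : ι → k} (hi : LinearIndependent k ![u, v])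
    {a b a' b' : k} (hab : a ≠ 0 ∨ b ≠ 0)
    (h : ∀ y, bt (p ^ e) B (a • u + b • v) y ^ p ^ e = bt (p ^ e) B y (a' • u + b' • v)) :
    Good (p ^ e) B u v := by
  have hq : p ^ e ≠ 0 := pow_ne_zero e (Fact.out : p.Prime).ne_zero
  obtain ⟨ψ₁, h₁⟩ := exists_psi (p := p) (e := e) B u
  obtain ⟨ψ₂, h₂⟩ := exists_psi (p := p) (e := e) B v
  have key : ∀ x : ι → k, ∃ y, LinearIndependent k ![u, v, y] ∧ bt (p ^ e) B x y = 0 ∧
      bt (p ^ e) B y u = 0 ∧ bt (p ^ e) B y v = 0 ∧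
      a ^ p ^ e * bt (p ^ e) B u y + b ^ p ^ e * bt (p ^ e) B v y = 0 := by
    intro x
    obtain ⟨y, hy, hy'⟩ := exists_notMem ![phi (p ^ e) B x, ψ₁, ψ₂] (Submodule.span k {u, v})
      (by have := PnLinX.finrank_pair (F := k) u v; rw [finrank_fintype_fun_eq_card]; omega)
    have a1 : ψ₁ y = 0 := hy' 1
    have a2 : ψ₂ y = 0 := hy' 2
    have b1 : bt (p ^ e) B y u = 0 := by rw [← h₁, a1, zero_pow hq]
    have b2 : bt (p ^ e) B y v = 0 := by rw [← h₂, a2, zero_pow hq]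
    refine ⟨y, li_three hi hy, hy' 0, b1, b2, ?_⟩
    have h3 := h y
    rw [bt_add_right, bt_smul_right, bt_smul_right, b1, b2, mul_zero, mul_zero, add_zero,
      pow_eq_zero_iff hq, bt_add_left, bt_smul_left, bt_smul_left] at h3
    exact h3
  rcases hab with ha | hb
  · obtain ⟨y, h1, h2, h3, h4, h5⟩ := key v
    rw [h2, mul_zero, add_zero, mul_eq_zero, pow_eq_zero_iff hq] at h5
    exact ⟨y, h1, h5.resolve_left ha, h2, h3, h4⟩
  · obtain ⟨y, h1, h2, h3, h4, h5⟩ := key u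
    rw [h2, mul_zero, zero_add, mul_eq_zero, pow_eq_zero_iff hq] at h5
    exact ⟨y, h1, h2, h5.resolve_left hb, h3, h4⟩

theorem exists_succ (hc : 6 ≤ Fintype.card ι) {u v : ι → k} (hB : Iso (p ^ e) B u v)
    (hi : LinearIndependent k ![u, v]) :
    Good (p ^ e) B u v ∨ ∃ u' v' y, Iso (p ^ e) B u' v' ∧ bt (p ^ e) B y u' = 0 ∧
      bt (p ^ e) B y v' = 0 ∧ LinearIndependent k ![u', v', y] ∧
      ¬ (bt (p ^ e) B u' y = 0 ∧ bt (p ^ e) B v' y = 0 ∧ bt (p ^ e) B y y = 0) ∧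
      Pre (p ^ e) B u' v' y u v := by
  obtain ⟨y, hy, hy'⟩ := exists_notMem ![phi (p ^ e) B u, phi (p ^ e) B v]
    (Submodule.span k {u, v})
    (by have := PnLinX.finrank_pair (F := k) u v; rw [finrank_fintype_fun_eq_card]; omega)
  have h1 : bt (p ^ e) B u y = 0 := hy' 0
  have h2 : bt (p ^ e) B v y = 0 := hy' 1
  by_cases ha : bt (p ^ e) B y u = 0
  · by_cases hb : bt (p ^ e) B y v = 0
    · exact Or.inl ⟨y, li_three hi hy, h1, h2, ha, hb⟩
    · have hi' : LinearIndependent k ![v, u] := LinearIndependent.pair_symm_iff.1 hi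
      rw [Set.pair_comm] at hy
      obtain ⟨u', v', a1, a2, a3, a4, a5, a6, a7⟩ :=
        PnLinX.succ_aux ⟨hB.vv, hB.vu, hB.uv, hB.uu⟩ (li_three hi' hy) h2 h1 hb
      exact Or.inr ⟨u', v', v, a1, a2, a3, a4, fun h => a5 h.2.1, hi, a7, a6, hB.uv, hB.vv⟩
  · obtain ⟨u', v', a1, a2, a3, a4, a5, a6, a7⟩ := PnLinX.succ_aux hB (li_three hi hy) h1 h2 ha
    exact Or.inr ⟨u', v', u, a1, a2, a3, a4, fun h => a5 h.2.1, hi, a6, a7, hB.uu, hB.vu⟩

end Pool.Agent.MP_c1eb4d_ag.Pen
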