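import Pool.Agent.MP_c1eb4d_ag.PnDefs

/-! Places of a function field in one variable over an algebraically closed field. -/

namespace Pool.Agent.MP_c1eb4d_ag.Pen

namespace PnPlaceX

open IsDedekindDomain IsDedekindDomain.HeightOneSpectrum

variable {k K : Type} [Field k] [Field K] [Algebra k K]

theorem fin_of_tr [Algebra.EssFiniteType k K] (h1 : Algebra.trdeg k K = 1) {t : K}
    (ht : Transcendental k t) : FiniteDimensional (IntermediateField.adjoin k {t}) K := by
  have hb : IsTranscendenceBasis k (fun _ : Unit => t) :=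
    (algebraicIndependent_unique_type_iff.2 ht).isTranscendenceBasis_of_trdeg_le_of_finite
      (by simp [h1])
  have ha := hb.isAlgebraic_field
  rw [Set.range_const] at ha
  have := Algebra.EssFiniteType.of_comp k (IntermediateField.adjoin k {t}) K
  exact Algebra.finite_of_essFiniteType_of_isAlgebraic

theorem exists_sep [IsAlgClosed k] [Algebra.EssFiniteType k K] (h1 : Algebra.trdeg k K = 1) :
    ∃ t : K, Transcendental k t ∧ Algebra.IsSeparable (IntermediateField.adjoin k {t}) K := by
  obtain ⟨s, hs, hsep⟩ := exists_isTranscendenceBasis_and_isSeparable_of_perfectField k K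
  have hc := hs.cardinalMk_eq_trdeg
  rw [h1, Cardinal.mk_coe_finset, Nat.cast_eq_one] at hc
  obtain ⟨t, rfl⟩ := Finset.card_eq_one.1 hc
  rw [Finset.coe_singleton] at hsep
  exact ⟨t, hs.1.transcendental ⟨t, Finset.mem_singleton_self t⟩, hsep⟩

theorem adjoin_inv (t : K) :
    IntermediateField.adjoin k {t⁻¹} = IntermediateField.adjoin k {t} := by
  apply le_antisymm
  · rw [IntermediateField.adjoin_simple_le_iff]
    exact inv_mem (IntermediateField.mem_adjoin_simple_self k t)
  · rw [IntermediateField.adjoin_simple_le_iff]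
    have h3 := inv_mem (IntermediateField.mem_adjoin_simple_self k t⁻¹)
    rwa [inv_inv] at h3

theorem mem_of_int {R : Type} [CommRing R] [Algebra R K] (V : ValuationSubring K)
    (hR : ∀ r, algebraMap R K r ∈ V) {x : K} (hx : IsIntegral R x) : x ∈ V := by
  let : Algebra R V := ((algebraMap R K).codRestrict V hR).toAlgebra
  have : IsScalarTower R V K := IsScalarTower.of_algebraMap_eq fun _ => rfl
  obtain ⟨y, hy⟩ := IsIntegrallyClosed.isIntegral_iff.1 (hx.tower_top (A := V))
  rw [← hy]
  exact y.2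

theorem mem_of_adjoin (V : ValuationSubring K) (hV : ∀ c : k, algebraMap k K c ∈ V) {t : K}
    (ht : t ∈ V) {x : K} (hx : x ∈ Algebra.adjoin k {t}) : x ∈ V := by
  induction hx using Algebra.adjoin_induction with
  | mem x hx => rw [Set.mem_singleton_iff.1 hx]; exact ht
  | algebraMap c => exact hV c
  | add x y _ _ hx hy => exact add_mem hx hy
  | mul x y _ _ hx hy => exact mul_mem hx hy

theorem centre {B : Type} [CommRing B] [IsDedekindDomain B] [Algebra B K]
    [IsFractionRing B K] (W : ValuationSubring K) (hW : W ≠ ⊤)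
    (hB : ∀ b : B, algebraMap B K b ∈ W) :
    ∃ w : HeightOneSpectrum B, W = (w.valuation K).valuationSubring := by
  let φ : B →+* W := (algebraMap B K).codRestrict W hB
  let P : Ideal B := (IsLocalRing.maximalIdeal W).comap φ
  have hP : ∀ b : B, b ∉ P → (algebraMap B K b)⁻¹ ∈ W := by
    intro b hb
    by_contra hc
    apply hb
    have : algebraMap B K b ∈ W.nonunits := by
      rw [ValuationSubring.mem_nonunits_iff_or]; exact Or.inr hc
    exact (ValuationSubring.coe_mem_nonunits_iff (a := φ b)).1 this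
  have hP0 : P ≠ ⊥ := by
    intro h0
    apply hW
    rw [eq_top_iff]
    intro x _
    obtain ⟨a, b, hb, rfl⟩ := IsFractionRing.div_surjective (A := B) x
    rw [div_eq_mul_inv]
    refine mul_mem (hB a) (hP b ?_)
    rw [h0]
    exact nonZeroDivisors.ne_zero hb
  let w : HeightOneSpectrum B := ⟨P, Ideal.comap_isPrime φ _, hP0⟩
  refine ⟨w, ?_⟩
  rw [← valuationSubringAtPrime_eq_valuationSubring]
  refine (ValuationSubring.eq_of_le_of_ne_top _ ?_ hW).symm
  rintro x ⟨a, s, hs, rfl⟩
  exact mul_mem (hB a) (hP s hs)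

theorem model [Algebra.EssFiniteType k K] (h1 : Algebra.trdeg k K = 1) {t : K}
    (ht : Transcendental k t) (hs : Algebra.IsSeparable (IntermediateField.adjoin k {t}) K) :
    ∃ B : Subring K, IsDedekindDomain B ∧ IsFractionRing B K ∧
      ∀ V : ValuationSubring K, (∀ c : k, algebraMap k K c ∈ V) → t ∈ V →
        ∀ b : B, algebraMap B K b ∈ V := by
  have hfin := fin_of_tr h1 ht
  have hpid : IsPrincipalIdealRing (Algebra.adjoin k {t}) :=
    IsPrincipalIdealRing.of_surjective (Polynomial.algEquivOfTranscendental k t ht).toRingHom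
      (Polynomial.algEquivOfTranscendental k t ht).surjective
  open IntermediateField.algebraAdjoinAdjoin in
  refine ⟨(integralClosure (Algebra.adjoin k {t}) K).toSubring,
    integralClosure.isDedekindDomain (Algebra.adjoin k {t}) (IntermediateField.adjoin k {t}) K,
    integralClosure.isFractionRing_of_finite_extension (IntermediateField.adjoin k {t}) K, ?_⟩
  intro V hk hV b
  exact mem_of_int V (fun r => mem_of_adjoin V hk hV r.2) b.2

/-- two models cover all places -/
theorem models [IsAlgClosed k] [Algebra.EssFiniteType k K] (h1 : Algebra.trdeg k K = 1) :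
    ∃ B : Bool → Subring K, (∀ i, IsDedekindDomain (B i)) ∧ (∀ i, IsFractionRing (B i) K) ∧
      ∀ V : ValuationSubring K, (∀ c : k, algebraMap k K c ∈ V) →
        ∃ i, ∀ b : B i, algebraMap (B i) K b ∈ V := by
  obtain ⟨t, ht, hs⟩ := exists_sep h1
  obtain ⟨B, b1, b2, b3⟩ := model h1 ht hs
  obtain ⟨B', c1, c2, c3⟩ := model h1 (t := t⁻¹) (fun ha => ht (IsAlgebraic.inv_iff.1 ha))
    (by rw [adjoin_inv]; exact hs)
  refine ⟨fun i => Bool.rec B B' i, fun i => ?_, fun i => ?_, fun V hV => ?_⟩
  · cases i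
    · exact b1
    · exact c1
  · cases i
    · exact b2
    · exact c2
  · rcases V.mem_or_inv_mem t with h | h
    · exact ⟨false, b3 V hV h⟩
    · exact ⟨true, c3 V hV h⟩

theorem le_of_lt_one {x : WithZero (Multiplicative ℤ)} (h : x < 1) : x ≤ WithZero.exp (-1) := by
  rw [← WithZero.lt_mul_exp_iff_le WithZero.exp_ne_zero, ← WithZero.exp_add]
  simpa using h

theorem eq_of_subring {v w : Valuation K (WithZero (Multiplicative ℤ))}
    (hv : Function.Surjective v) (hw : Function.Surjective w)
    (h : v.valuationSubring = w.valuationSubring) : v = w := by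
  have he := (Valuation.isEquiv_iff_valuationSubring v w).2 h
  have hlt : (WithZero.exp (-1) : WithZero (Multiplicative ℤ)) < 1 := by
    rw [← WithZero.exp_zero, WithZero.exp_lt_exp]
    norm_num
  obtain ⟨a, ha⟩ := hv (WithZero.exp (-1))
  obtain ⟨b, hb⟩ := hw (WithZero.exp (-1))
  have h1 : w a ≤ WithZero.exp (-1) := le_of_lt_one (he.lt_one_iff_lt_one.1 (ha ▸ hlt))
  have h2 : v b ≤ v a := ha ▸ le_of_lt_one (he.lt_one_iff_lt_one.2 (hb ▸ hlt))
  have h3 : w a = WithZero.exp (-1) := le_antisymm h1 (hb ▸ he.le_iff_le.1 h2)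
  ext x
  by_cases hx : v x = 0
  · rw [hx, he.eq_zero.1 hx]
  have h4 : WithZero.exp (-1 : ℤ) ^ (-WithZero.log (v x)) = v x := by
    rw [← WithZero.exp_zsmul, smul_eq_mul, neg_mul_neg, mul_one, WithZero.exp_log hx]
  have h5 : v x = v (a ^ (-WithZero.log (v x))) := by rw [map_zpow₀, ha, h4]
  rw [he.eq_iff.1 h5, map_zpow₀, h3, h4]

theorem ne_top {v : Valuation K (WithZero (Multiplicative ℤ))} (hv : Function.Surjective v) :
    v.valuationSubring ≠ ⊤ := by
  obtain ⟨a, ha⟩ := hv (WithZero.exp 1)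
  intro h
  have h1 : a ∈ v.valuationSubring := h ▸ ValuationSubring.mem_top a
  rw [Valuation.mem_valuationSubring_iff, ha, ← WithZero.exp_zero, WithZero.exp_le_exp] at h1
  norm_num at h1

theorem const_mem {v : Valuation K (WithZero (Multiplicative ℤ))} (hv : IsPlace k v) (c : k) :
    algebraMap k K c ∈ v.valuationSubring := by
  rw [Valuation.mem_valuationSubring_iff]
  by_cases hc : c = 0
  · simp [hc]
  · exact (hv.2 c hc).le

theorem fin_primes {B : Type} [CommRing B] [IsDedekindDomain B] [Algebra B K]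
    [IsFractionRing B K] {g : K} (hg : g ≠ 0) :
    {w : HeightOneSpectrum B | w.valuation K g ≠ 1}.Finite := by
  obtain ⟨a, b, hb, rfl⟩ := IsFractionRing.div_surjective (A := B) g
  have ha0 : a ≠ 0 := by
    rintro rfl
    simp at hg
  have hb0 : b ≠ 0 := nonZeroDivisors.ne_zero hb
  have hI : Ideal.span {a * b} ≠ (0 : Ideal B) := by
    simpa [Ideal.span_singleton_eq_bot] using ⟨ha0, hb0⟩
  refine (Ideal.finite_factors hI).subset fun w hw => ?_
  change w.asIdeal ∣ Ideal.span {a * b}
  rw [Ideal.dvd_span_singleton]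
  by_contra hab
  apply hw
  have ha : a ∉ w.asIdeal := fun hh => hab (Ideal.mul_mem_right _ _ hh)
  have hb' : b ∉ w.asIdeal := fun hh => hab (Ideal.mul_mem_left _ _ hh)
  rw [← valuation_lt_one_iff_mem (K := K), not_lt] at ha hb'
  rw [map_div₀, le_antisymm (w.valuation_le_one a) ha, le_antisymm (w.valuation_le_one b) hb',
    div_one]

theorem exists_zero {f : K} (hf : Transcendental k f) :
    ∃ V : ValuationSubring K, V ≠ ⊤ ∧ (∀ c : k, algebraMap k K c ∈ V) ∧ f ∈ V.nonunits := by
  have hf0 : f ≠ 0 := by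
    rintro rfl
    exact hf isAlgebraic_zero
  let A : Subring K := (Algebra.adjoin k {f}).toSubring
  let g : A := ⟨f, Algebra.self_mem_adjoin_singleton k f⟩
  have hI : Ideal.span {g} ≠ ⊤ := by
    rw [Ne, Ideal.span_singleton_eq_top, isUnit_iff_exists_inv]
    rintro ⟨⟨y, hy⟩, hy1⟩
    have hy2 : f * y = 1 := congrArg Subtype.val hy1
    have hy3 : y ∈ Algebra.adjoin k {f} := hy
    rw [Algebra.adjoin_singleton_eq_range_aeval] at hy3
    obtain ⟨p, hp⟩ := hy3
    have hp' : Polynomial.aeval f p = y := hp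
    apply hf
    refine ⟨Polynomial.X * p - 1, fun h0 => ?_, ?_⟩
    · have := congrArg (Polynomial.eval 0) h0
      simp at this
    · rw [map_sub, map_mul, Polynomial.aeval_X, hp', hy2, map_one, sub_self]
  obtain ⟨B, hAB, hB⟩ := Ideal.image_subset_nonunits_valuationSubring _ hI
  have hgB : f ∈ B.nonunits := hB ⟨g, Ideal.mem_span_singleton_self g, rfl⟩
  have hfB : f⁻¹ ∉ B := (B.mem_nonunits_iff_or.1 hgB).resolve_left hf0
  refine ⟨B, fun h => hfB (h ▸ ValuationSubring.mem_top _), fun c => hAB ?_, hgB⟩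
  exact (Algebra.adjoin k {f}).algebraMap_mem c

end PnPlaceX

open PnPlaceX

variable {k K : Type} [Field k] [IsAlgClosed k] [Field K] [Algebra k K] [Algebra.EssFiniteType k K]

theorem place_of_subring (h1 : Algebra.trdeg k K = 1) (O : ValuationSubring K) (hO : O ≠ ⊤)
    (hk : ∀ c : k, algebraMap k K c ∈ O) :
    ∃ v : Valuation K (WithZero (Multiplicative ℤ)), IsPlace k v ∧ v.valuationSubring = O := by
  obtain ⟨B, b1, b2, b3⟩ := models h1
  obtain ⟨i, hi⟩ := b3 O hk
  obtain ⟨w, hw⟩ := centre O hO hi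
  refine ⟨w.valuation K, ⟨w.valuation_surjective K, fun c hc => ?_⟩, hw.symm⟩
  have h2 := hk c
  have h3 := hk c⁻¹
  rw [hw, Valuation.mem_valuationSubring_iff] at h2 h3
  have h4 : w.valuation K (algebraMap k K c) ≠ 0 := by simpa using hc
  rw [map_inv₀, map_inv₀, inv_le_one₀ (zero_lt_iff.2 h4)] at h3
  exact le_antisymm h2 h3

theorem finite_places (h1 : Algebra.trdeg k K = 1) {g : K} (hg : g ≠ 0) :
    {v : Valuation K (WithZero (Multiplicative ℤ)) | IsPlace k v ∧ v g ≠ 1}.Finite := by
  obtain ⟨B, b1, b2, b3⟩ := models h1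
  refine (Set.finite_iUnion fun i => (fin_primes (B := B i) hg).image
    fun w => w.valuation K).subset ?_
  rintro v ⟨hv, hvg⟩
  obtain ⟨i, hi⟩ := b3 v.valuationSubring (const_mem hv)
  obtain ⟨w, hw⟩ := centre _ (ne_top hv.1) hi
  have h2 := eq_of_subring hv.1 (w.valuation_surjective K) hw
  rw [h2] at hvg
  exact Set.mem_iUnion.2 ⟨i, w, hvg, h2.symm⟩

theorem exists_place_lt (h1 : Algebra.trdeg k K = 1) {g : K} (hg : Transcendental k g) :
    ∃ v : Valuation K (WithZero (Multiplicative ℤ)), IsPlace k v ∧ v g < 1 := by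
  obtain ⟨V, hV, hk, hgV⟩ := exists_zero hg
  obtain ⟨v, hv, rfl⟩ := place_of_subring h1 V hV hk
  refine ⟨v, hv, ?_⟩
  rwa [ValuationSubring.mem_nonunits_iff,
    ← (Valuation.isEquiv_valuation_valuationSubring v).lt_one_iff_lt_one] at hgV

end Pool.Agent.MP_c1eb4d_ag.Pen
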