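import Pool.Agent.MP_c1eb4d_ag.PnFam

/-! The rational family of predecessors of a line. -/

namespace Pool.Agent.MP_c1eb4d_ag.Pen

open Polynomial Module

namespace PnPredX

section Gen

variable {F ι : Type} [Field F] [Fintype ι] {p e : ℕ} [Fact p.Prime] [CharP F p]
  {B : Matrix ι ι F}

theorem bt_three (B : Matrix ι ι F) (u v y x : ι → F) (s r w : F) :
    bt (p ^ e) B (s • u + r • v + w • y) x =
      s ^ p ^ e * bt (p ^ e) B u x + r ^ p ^ e * bt (p ^ e) B v x +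
        w ^ p ^ e * bt (p ^ e) B y x := by
  simp only [bt_add_left, bt_smul_left]

theorem bt_zero_three {u v y : ι → F} (hB : Iso (p ^ e) B u v) (hyu : bt (p ^ e) B y u = 0)
    (hyv : bt (p ^ e) B y v = 0) {s r w : F} (h : bt (p ^ e) B (s • u + r • v + w • y) y = 0)
    (s' r' w' : F) : bt (p ^ e) B (s • u + r • v + w • y) (s' • u + r' • v + w' • y) = 0 := by
  rw [bt_add_right, bt_add_right, bt_smul_right, bt_smul_right, bt_smul_right, h, bt_three,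
    bt_three, hB.uu, hB.uv, hB.vu, hB.vv, hyu, hyv]
  ring

theorem bt_root {u v y : ι → F} {a b c : F} (ha : a ^ p ^ e = bt (p ^ e) B u y)
    (hb : b ^ p ^ e = bt (p ^ e) B v y) (hc : c ^ p ^ e = bt (p ^ e) B y y) (s r w : F) :
    bt (p ^ e) B (s • u + r • v + w • y) y = (s * a + r * b + w * c) ^ p ^ e := by
  rw [bt_three, ← ha, ← hb, ← hc, add_pow_char_pow, add_pow_char_pow, mul_pow, mul_pow, mul_pow]

theorem ker_basis {a b c : F} (h : ¬ (a = 0 ∧ b = 0 ∧ c = 0)) :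
    ∃ s₁ r₁ w₁ s₂ r₂ w₂ : F, s₁ * a + r₁ * b + w₁ * c = 0 ∧ s₂ * a + r₂ * b + w₂ * c = 0 ∧
      ∀ s r w, s * a + r * b + w * c = 0 →
        ∃ α β, s = α * s₁ + β * s₂ ∧ r = α * r₁ + β * r₂ ∧ w = α * w₁ + β * w₂ := by
  by_cases ha : a = 0
  · by_cases hb : b = 0
    · have hc : c ≠ 0 := fun hc => h ⟨ha, hb, hc⟩
      refine ⟨1, 0, 0, 0, 1, 0, by simp [ha], by simp [hb], fun s r w hs => ⟨s, r, by simp,
        by simp, ?_⟩⟩
      simpa [ha, hb, hc] using hs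
    · refine ⟨1, 0, 0, 0, -c / b, 1, by simp [ha], by field_simp; ring,
        fun s r w hs => ⟨s, w, by simp, ?_, by simp⟩⟩
      rw [ha] at hs
      field_simp
      linear_combination hs
  · refine ⟨-b / a, 1, 0, -c / a, 0, 1, by field_simp; ring, by field_simp; ring,
      fun s r w hs => ⟨r, w, ?_, by simp, by simp⟩⟩
    field_simp
    linear_combination hs

omit [Fintype ι] in
theorem det_ne {U V : ι → F} {a b c d : F}
    (h : ∀ s t : F, s • (a • U + b • V) + t • (c • U + d • V) = 0 → s = 0 ∧ t = 0) :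
    a * d - b * c ≠ 0 := by
  intro h0
  have h1 := h d (-b) (by
    have : d • (a • U + b • V) + (-b) • (c • U + d • V) = (a * d - b * c) • U := by module
    rw [this, h0, zero_smul])
  have h2 := h (-c) a (by
    have : (-c) • (a • U + b • V) + a • (c • U + d • V) = (a * d - b * c) • V := by module
    rw [this, h0, zero_smul])
  have h3 := h 1 0 (by
    rw [h2.2, neg_eq_zero.1 h1.2]
    simp)
  exact one_ne_zero h3.1

omit [Fintype ι] in
theorem comb_eq (u v y : ι → F) (α β s₁ r₁ w₁ s₂ r₂ w₂ : F) :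
    (α * s₁ + β * s₂) • u + (α * r₁ + β * r₂) • v + (α * w₁ + β * w₂) • y =
      α • (s₁ • u + r₁ • v + w₁ • y) + β • (s₂ • u + r₂ • v + w₂ • y) := by
  module

end Gen

section Loc

variable {k L ι : Type} [Field k] [Field L] [Algebra k L] [Fintype ι] {q : ℕ}
  {B : Matrix ι ι k} {ρ : RPl k L}

omit [Fintype ι] in
theorem li_lift {z z' : ι → L} {u v : ι → k} (hi : LinearIndependent k ![u, v])
    (hz : ρ.RV z u) (hz' : ρ.RV z' v) (s t : L) (h : s • z + t • z' = 0) : s = 0 ∧ t = 0 := by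
  by_contra hne
  have hn : (![s, t] : Fin 2 → L) ≠ 0 := fun h0 =>
    hne ⟨by simpa using congrFun h0 0, by simpa using congrFun h0 1⟩
  obtain ⟨i₀, c, h0, hc1, hc⟩ := ρ.normalise _ hn
  have h1 := (RPl.RV.smul (hc 0) hz).add (RPl.RV.smul (hc 1) hz')
  have h2 : ((![s, t] : Fin 2 → L) 0 / ![s, t] i₀) • z + (![s, t] 1 / ![s, t] i₀) • z' = 0 := by
    have : ((![s, t] : Fin 2 → L) 0 / ![s, t] i₀) • z + (![s, t] 1 / ![s, t] i₀) • z' =
        (![s, t] i₀)⁻¹ • (s • z + t • z') := by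
      simp only [Matrix.cons_val_zero, Matrix.cons_val_one, div_eq_inv_mul, smul_add, smul_smul]
    rw [this, h, smul_zero]
  rw [h2] at h1
  have h3 : c 0 • u + c 1 • v = 0 := funext fun i => RPl.eq_zero (h1 i)
  have h4 := LinearIndependent.pair_iff.1 hi _ _ h3
  fin_cases i₀
  · exact one_ne_zero (hc1.symm.trans h4.1)
  · exact one_ne_zero (hc1.symm.trans h4.2)

theorem loc_core {u' v' y : ι → k} (hi : LinearIndependent k ![u', v', y]) {Y U V : ι → L}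
    (hY : ρ.RV Y y) {P : L → L → L → Prop}
    (hP : ∀ s r w, P s r w →
      (∃ α β : L, s • (fun i => algebraMap k L (u' i)) + r • (fun i => algebraMap k L (v' i)) +
        w • Y = α • U + β • V) ∧
      bt q (B.map (algebraMap k L)) (s • (fun i => algebraMap k L (u' i)) +
        r • (fun i => algebraMap k L (v' i)) + w • Y) Y = 0)
    {s₁ r₁ w₁ s₂ r₂ w₂ : L} (p₁ : P s₁ r₁ w₁) (p₂ : P s₂ r₂ w₂) {a₁ b₁ c₁ a₂ b₂ c₂ : k}
    (ha₁ : ρ.R s₁ a₁) (hb₁ : ρ.R r₁ b₁) (hc₁ : ρ.R w₁ c₁) (ha₂ : ρ.R s₂ a₂) (hb₂ : ρ.R r₂ b₂)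
    (hc₂ : ρ.R w₂ c₂)
    (hli : ∀ s t : k, s * a₁ + t * a₂ = 0 → s * b₁ + t * b₂ = 0 → s * c₁ + t * c₂ = 0 →
      s = 0 ∧ t = 0) : ∃ u v, RL ρ U V u v ∧ Pre q B u' v' y u v := by
  obtain ⟨⟨α₁, β₁, e₁⟩, o₁⟩ := hP _ _ _ p₁
  obtain ⟨⟨α₂, β₂, e₂⟩, o₂⟩ := hP _ _ _ p₂
  have v₁ := ((RPl.RV.smul ha₁ (RPl.RV.const ρ u')).add
    (RPl.RV.smul hb₁ (RPl.RV.const ρ v'))).add (RPl.RV.smul hc₁ hY)
  have v₂ := ((RPl.RV.smul ha₂ (RPl.RV.const ρ u')).add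
    (RPl.RV.smul hb₂ (RPl.RV.const ρ v'))).add (RPl.RV.smul hc₂ hY)
  have hl : LinearIndependent k ![a₁ • u' + b₁ • v' + c₁ • y, a₂ • u' + b₂ • v' + c₂ • y] := by
    refine LinearIndependent.pair_iff.2 fun s t hst => ?_
    rw [← comb_eq] at hst
    have := Fintype.linearIndependent_iff.1 hi
      ![s * a₁ + t * a₂, s * b₁ + t * b₂, s * c₁ + t * c₂] (by
        simpa [Fin.sum_univ_three] using hst)
    exact hli s t (this 0) (this 1) (this 2)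
  have z₁ := RPl.bt q (RPl.RM.const ρ B) v₁ hY
  have z₂ := RPl.bt q (RPl.RM.const ρ B) v₂ hY
  rw [o₁] at z₁
  rw [o₂] at z₂
  rw [e₁] at v₁
  rw [e₂] at v₂
  exact ⟨_, _, ⟨hl, α₁, β₁, α₂, β₂, det_ne (li_lift hl v₁ v₂), v₁, v₂⟩, hl,
    Submodule.mem_span_triple.2 ⟨_, _, _, rfl⟩, Submodule.mem_span_triple.2 ⟨_, _, _, rfl⟩,
    RPl.eq_zero z₁, RPl.eq_zero z₂⟩

theorem loc {u' v' y : ι → k} (hi : LinearIndependent k ![u', v', y]) {Y U V : ι → L}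
    (hY : ρ.RV Y y) {a b c : L} (hne : ¬ (a = 0 ∧ b = 0 ∧ c = 0))
    (hP : ∀ s r w, s * a + r * b + w * c = 0 →
      (∃ α β : L, s • (fun i => algebraMap k L (u' i)) + r • (fun i => algebraMap k L (v' i)) +
        w • Y = α • U + β • V) ∧
      bt q (B.map (algebraMap k L)) (s • (fun i => algebraMap k L (u' i)) +
        r • (fun i => algebraMap k L (v' i)) + w • Y) Y = 0) :
    ∃ u v, RL ρ U V u v ∧ Pre q B u' v' y u v := by
  have hn : (![a, b, c] : Fin 3 → L) ≠ 0 := fun h0 =>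
    hne ⟨by simpa using congrFun h0 0, by simpa using congrFun h0 1, by simpa using congrFun h0 2⟩
  obtain ⟨i₀, n, h0, -, hc⟩ := ρ.normalise _ hn
  have c0 := hc 0
  have c1 := hc 1
  have c2 := hc 2
  fin_cases i₀
  · have h0' : a ≠ 0 := h0
    have c1' : ρ.R (b / a) (n 1) := c1
    have c2' : ρ.R (c / a) (n 2) := c2
    refine loc_core hi hY hP (s₁ := -(b / a)) (r₁ := 1) (w₁ := 0) (s₂ := -(c / a)) (r₂ := 0)
      (w₂ := 1) (by field_simp; ring) (by field_simp; ring) (RPl.neg c1') ρ.one ρ.zero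
      (RPl.neg c2') ρ.zero ρ.one fun s t _ h2 h3 => ⟨by simpa using h2, by simpa using h3⟩
  · have h0' : b ≠ 0 := h0
    have c0' : ρ.R (a / b) (n 0) := c0
    have c2' : ρ.R (c / b) (n 2) := c2
    refine loc_core hi hY hP (s₁ := 1) (r₁ := -(a / b)) (w₁ := 0) (s₂ := 0) (r₂ := -(c / b))
      (w₂ := 1) (by field_simp; ring) (by field_simp; ring) ρ.one (RPl.neg c0') ρ.zero
      ρ.zero (RPl.neg c2') ρ.one fun s t h1 _ h3 => ⟨by simpa using h1, by simpa using h3⟩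
  · have h0' : c ≠ 0 := h0
    have c0' : ρ.R (a / c) (n 0) := c0
    have c1' : ρ.R (b / c) (n 1) := c1
    refine loc_core hi hY hP (s₁ := 1) (r₁ := 0) (w₁ := -(a / c)) (s₂ := 0) (r₂ := 1)
      (w₂ := -(b / c)) (by field_simp; ring) (by field_simp; ring) ρ.one ρ.zero (RPl.neg c0')
      ρ.zero ρ.one (RPl.neg c1') fun s t h1 h2 _ => ⟨by simpa using h1, by simpa using h2⟩

theorem bt_map (q : ℕ) (B : Matrix ι ι k) (x y : ι → k) :
    bt q (B.map (algebraMap k L)) (fun i => algebraMap k L (x i)) (fun i => algebraMap k L (y i)) =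
      algebraMap k L (bt q B x y) := (map_bt _ q B x y).symm

end Loc

end PnPredX

open PnPredX

variable {k L ι A : Type} [Field k] [IsAlgClosed k] [Field L] [IsAlgClosed L] [Algebra k L]
  [Fintype ι] [AddCommGroup A] {p e : ℕ} [Fact p.Prime] [CharP k p] [CharP L p]
  {onX : (ι → L) → Prop} {cl : (ι → k) → A} {T : L} {B C : Matrix ι ι k}

omit [IsAlgClosed k] in
theorem Pre.iso {u' v' y u v : ι → k} (hB : Iso (p ^ e) B u' v') (hyu : bt (p ^ e) B y u' = 0)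
    (hyv : bt (p ^ e) B y v' = 0) (h : Pre (p ^ e) B u' v' y u v) : Iso (p ^ e) B u v := by
  obtain ⟨-, hu, hv, h1, h2⟩ := h
  obtain ⟨s, r, w, rfl⟩ := Submodule.mem_span_triple.1 hu
  obtain ⟨s', r', w', rfl⟩ := Submodule.mem_span_triple.1 hv
  exact ⟨bt_zero_three hB hyu hyv h1 _ _ _, bt_zero_three hB hyu hyv h1 _ _ _,
    bt_zero_three hB hyu hyv h2 _ _ _, bt_zero_three hB hyu hyv h2 _ _ _⟩

theorem Pre.unique (H : Sp onX cl T)
    (hX : Cut onX (p ^ e) (B.map (algebraMap k L)) (C.map (algebraMap k L))) (he : 1 ≤ e)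
    {u' v' y u₁ v₁ u₂ v₂ : ι → k} (hB : Iso (p ^ e) B u' v') (hyu : bt (p ^ e) B y u' = 0)
    (hyv : bt (p ^ e) B y v' = 0) (hi : LinearIndependent k ![u', v', y])
    (hne : ¬ (bt (p ^ e) B u' y = 0 ∧ bt (p ^ e) B v' y = 0 ∧ bt (p ^ e) B y y = 0))
    (h₁ : Pre (p ^ e) B u' v' y u₁ v₁) (h₂ : Pre (p ^ e) B u' v' y u₂ v₂) :
    cyc cl (p ^ e) C u₁ v₁ = cyc cl (p ^ e) C u₂ v₂ := by
  have _ := hi
  have hq : 0 < p ^ e := pow_pos (Fact.out : p.Prime).pos e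
  obtain ⟨a, ha⟩ := IsAlgClosed.exists_pow_nat_eq (bt (p ^ e) B u' y) hq
  obtain ⟨b, hb⟩ := IsAlgClosed.exists_pow_nat_eq (bt (p ^ e) B v' y) hq
  obtain ⟨c, hc⟩ := IsAlgClosed.exists_pow_nat_eq (bt (p ^ e) B y y) hq
  have hne' : ¬ (a = 0 ∧ b = 0 ∧ c = 0) := by
    rintro ⟨rfl, rfl, rfl⟩
    exact hne ⟨by rw [← ha, zero_pow hq.ne'], by rw [← hb, zero_pow hq.ne'],
      by rw [← hc, zero_pow hq.ne']⟩
  obtain ⟨s₁, r₁, w₁, s₂, r₂, w₂, -, -, hk⟩ := ker_basis hne'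
  have key : ∀ z ∈ Submodule.span k {u', v', y}, bt (p ^ e) B z y = 0 → ∃ α β : k,
      z = α • (s₁ • u' + r₁ • v' + w₁ • y) + β • (s₂ • u' + r₂ • v' + w₂ • y) := by
    intro z hz h0
    obtain ⟨s, r, w, rfl⟩ := Submodule.mem_span_triple.1 hz
    rw [bt_root ha hb hc] at h0
    obtain ⟨α, β, rfl, rfl, rfl⟩ := hk s r w (pow_eq_zero_iff hq.ne' |>.1 h0)
    exact ⟨α, β, comb_eq ..⟩
  generalize s₁ • u' + r₁ • v' + w₁ • y = U at key
  generalize s₂ • u' + r₂ • v' + w₂ • y = V at key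
  obtain ⟨a₁, b₁, e₁⟩ := key _ h₁.mu h₁.uy
  obtain ⟨c₁, d₁, f₁⟩ := key _ h₁.mv h₁.vy
  obtain ⟨a₂, b₂, e₂⟩ := key _ h₂.mu h₂.uy
  obtain ⟨c₂, d₂, f₂⟩ := key _ h₂.mv h₂.vy
  have hd : a₁ * d₁ - b₁ * c₁ ≠ 0 := det_ne (U := U) (V := V) (by
    rw [← e₁, ← f₁]; exact LinearIndependent.pair_iff.1 h₁.li)
  have inv : ∀ x y : k, x • U + y • V =
      ((x * d₁ - y * c₁) / (a₁ * d₁ - b₁ * c₁)) • u₁ +
        ((y * a₁ - x * b₁) / (a₁ * d₁ - b₁ * c₁)) • v₁ := by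
    intro x y
    have hD := mul_inv_cancel₀ hd
    rw [e₁, f₁, div_eq_mul_inv, div_eq_mul_inv]
    generalize (a₁ * d₁ - b₁ * c₁)⁻¹ = D at hD
    match_scalars
    · linear_combination (-x) * hD
    · linear_combination (-y) * hD
  rw [inv] at e₂ f₂
  have hl := LinearIndependent.pair_iff.1 h₂.li
  rw [e₂, f₂] at hl ⊢
  exact (cyc_congr H hX he (h₁.iso hB hyu hyv) h₁.li (det_ne hl)).symm

theorem pred_fam (H : Sp onX cl T)
    (hX : Cut onX (p ^ e) (B.map (algebraMap k L)) (C.map (algebraMap k L))) (he : 1 ≤ e)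
    {u' v' y₁ y₂ : ι → k} (hB : Iso (p ^ e) B u' v')
    (h₁u : bt (p ^ e) B y₁ u' = 0) (h₁v : bt (p ^ e) B y₁ v' = 0)
    (h₂u : bt (p ^ e) B y₂ u' = 0) (h₂v : bt (p ^ e) B y₂ v' = 0)
    (hi₁ : LinearIndependent k ![u', v', y₁]) (hi₂ : LinearIndependent k ![u', v', y₂])
    {α β : A} (hα : ∀ u v, Pre (p ^ e) B u' v' y₁ u v → cyc cl (p ^ e) C u v = α)
    (hβ : ∀ u v, Pre (p ^ e) B u' v' y₂ u v → cyc cl (p ^ e) C u v = β) : α = β := by
  have hq : 0 < p ^ e := pow_pos (Fact.out : p.Prime).pos e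
  have hT := H.ne
  set uL : ι → L := fun i => algebraMap k L (u' i) with huL
  set vL : ι → L := fun i => algebraMap k L (v' i) with hvL
  set Y : ι → L := (fun i => algebraMap k L (y₁ i)) + T • fun i => algebraMap k L (y₂ i) with hY
  set M := B.map (algebraMap k L) with hM
  have hBL : Iso (p ^ e) M uL vL :=
    ⟨by rw [bt_map, hB.uu, map_zero], by rw [bt_map, hB.uv, map_zero],
      by rw [bt_map, hB.vu, map_zero], by rw [bt_map, hB.vv, map_zero]⟩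
  have hYu : bt (p ^ e) M Y uL = 0 := by
    rw [hY, bt_add_left, bt_smul_left, bt_map, bt_map, h₁u, h₂u]; simp
  have hYv : bt (p ^ e) M Y vL = 0 := by
    rw [hY, bt_add_left, bt_smul_left, bt_map, bt_map, h₁v, h₂v]; simp
  obtain ⟨a, b, c, hne, ho⟩ : ∃ a b c : L, ¬ (a = 0 ∧ b = 0 ∧ c = 0) ∧
      ∀ s r w, s * a + r * b + w * c = 0 → bt (p ^ e) M (s • uL + r • vL + w • Y) Y = 0 := by
    obtain ⟨a, ha⟩ := IsAlgClosed.exists_pow_nat_eq (bt (p ^ e) M uL Y) hq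
    obtain ⟨b, hb⟩ := IsAlgClosed.exists_pow_nat_eq (bt (p ^ e) M vL Y) hq
    obtain ⟨c, hc⟩ := IsAlgClosed.exists_pow_nat_eq (bt (p ^ e) M Y Y) hq
    by_cases h0 : a = 0 ∧ b = 0 ∧ c = 0
    · refine ⟨0, 0, 1, by simp, fun s r w _ => ?_⟩
      rw [bt_root ha hb hc, h0.1, h0.2.1, h0.2.2, mul_zero, mul_zero, mul_zero, add_zero,
        add_zero, zero_pow hq.ne']
    · refine ⟨a, b, c, h0, fun s r w h => ?_⟩
      rw [bt_root ha hb hc, h, zero_pow hq.ne']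
  obtain ⟨s₁, r₁, w₁, s₂, r₂, w₂, k₁, k₂, hk⟩ := ker_basis hne
  have hsp : ∀ s r w, s * a + r * b + w * c = 0 → ∃ α β : L, s • uL + r • vL + w • Y =
      α • (s₁ • uL + r₁ • vL + w₁ • Y) + β • (s₂ • uL + r₂ • vL + w₂ • Y) := by
    intro s r w h
    obtain ⟨α, β, rfl, rfl, rfl⟩ := hk s r w h
    exact ⟨α, β, comb_eq ..⟩
  refine fam H hX he (U := s₁ • uL + r₁ • vL + w₁ • Y) (V := s₂ • uL + r₂ • vL + w₂ • Y)
    ⟨bt_zero_three hBL hYu hYv (ho _ _ _ k₁) _ _ _, bt_zero_three hBL hYu hYv (ho _ _ _ k₁) _ _ _,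
      bt_zero_three hBL hYu hYv (ho _ _ _ k₂) _ _ _,
      bt_zero_three hBL hYu hYv (ho _ _ _ k₂) _ _ _⟩ (fun ρ hρ => ?_) (fun ρ hρ => ?_)
  · obtain ⟨u, v, h1, h2⟩ := loc (q := p ^ e) (B := B) hi₁ (RPl.RV.pencil hρ y₁ y₂) hne
      fun s r w h => ⟨hsp s r w h, ho s r w h⟩
    exact ⟨u, v, h1, hα u v h2⟩
  · have hY' : ((fun i => algebraMap k L (y₂ i)) + T⁻¹ • fun i => algebraMap k L (y₁ i)) =
        T⁻¹ • Y := by
      rw [hY, smul_add, smul_smul, inv_mul_cancel₀ hT, one_smul, add_comm]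
    have hR := RPl.RV.pencil hρ y₂ y₁
    rw [hY'] at hR
    have hne' : ¬ (a = 0 ∧ b = 0 ∧ T⁻¹ * c = 0) := fun h =>
      hne ⟨h.1, h.2.1, (mul_eq_zero.1 h.2.2).resolve_left (inv_ne_zero hT)⟩
    obtain ⟨u, v, h1, h2⟩ := loc (q := p ^ e) (B := B) hi₂ hR hne' fun s r w h => by
      rw [← mul_assoc] at h
      rw [smul_smul, bt_smul_right, ho s r _ h, mul_zero]
      exact ⟨hsp s r _ h, rfl⟩
    exact ⟨u, v, h1, hβ u v h2⟩

end Pool.Agent.MP_c1eb4d_ag.Pen
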