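import Pool.Agent.MP_c1eb4d_ag.PnDefs2

/-! The resultant along a line. -/

namespace Pool.Agent.MP_c1eb4d_ag.Pen

open Polynomial Module

namespace PnResX

/-- The graph of a place. -/
def graph {k L : Type} [Field k] [Field L] [Algebra k L] (ρ : RPl k L) : Subring (L × k) where
  carrier := {z | ρ.R z.1 z.2}
  mul_mem' ha hb := ρ.mul ha hb
  one_mem' := ρ.one
  add_mem' ha hb := ρ.add ha hb
  zero_mem' := ρ.zero
  neg_mem' ha := RPl.neg ha

theorem lp_scale {R ι : Type} [CommRing R] [Fintype ι] (q : ℕ) (M : Matrix ι ι R) (a y : ι → R)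
    (s t : R) : lp q (s • M) (t • a) (t • y) = C (s * t ^ (q + 1)) * lp q M a y := by
  simp only [lp, pw, bt_msmul, bt_smul_left, bt_smul_right, map_mul, map_pow]
  ring

theorem map_lp {R S ι : Type} [CommRing R] [CommRing S] [Fintype ι] (φ : R →+* S) (q : ℕ)
    (M : Matrix ι ι R) (a y : ι → R) :
    (lp q M a y).map φ = lp q (M.map φ) (fun i => φ (a i)) (fun i => φ (y i)) := by
  simp only [lp, map_pw, map_bt]

end PnResX

variable {ι : Type} [Fintype ι] {p e : ℕ} [Fact p.Prime]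

theorem map_rs {R S : Type} [CommRing R] [CommRing S] (φ : R →+* S) (q : ℕ) (M N : Matrix ι ι R)
    (a y : ι → R) :
    φ (rs q M N a y) = rs q (M.map φ) (N.map φ) (fun i => φ (a i)) (fun i => φ (y i)) := by
  rw [rs, rs, ← resultant_map_map, PnResX.map_lp, PnResX.map_lp]

theorem RPl.rs {k L : Type} [Field k] [Field L] [Algebra k L] {ρ : RPl k L} (q : ℕ)
    {M N : Matrix ι ι L} {B C : Matrix ι ι k} {a y : ι → L} {a' y' : ι → k} (hM : ρ.RM M B)
    (hN : ρ.RM N C) (ha : ρ.RV a a') (hy : ρ.RV y y') :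
    ρ.R (rs q M N a y) (rs q B C a' y') := by
  let M' : Matrix ι ι (PnResX.graph ρ) := fun i j => ⟨(M i j, B i j), hM i j⟩
  let N' : Matrix ι ι (PnResX.graph ρ) := fun i j => ⟨(N i j, C i j), hN i j⟩
  let a₀ : ι → PnResX.graph ρ := fun i => ⟨(a i, a' i), ha i⟩
  let y₀ : ι → PnResX.graph ρ := fun i => ⟨(y i, y' i), hy i⟩
  have h1 := map_rs ((RingHom.fst L k).comp (PnResX.graph ρ).subtype) q M' N' a₀ y₀
  have h2 := map_rs ((RingHom.snd L k).comp (PnResX.graph ρ).subtype) q M' N' a₀ y₀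
  have h3 : ρ.R _ _ := (Pen.rs q M' N' a₀ y₀).2
  exact (congrArg₂ ρ.R h1 h2).mp h3

theorem rs_scale {R : Type} [CommRing R] (q : ℕ) (M N : Matrix ι ι R) (a y : ι → R) (s t : R) :
    rs q (s • M) (s • N) (t • a) (t • y) = (s * t ^ (q + 1)) ^ (2 * (q + 1)) * rs q M N a y := by
  rw [rs, rs, PnResX.lp_scale, PnResX.lp_scale, resultant_C_mul_left, resultant_C_mul_right,
    ← mul_assoc, ← pow_add, two_mul]

theorem rs_root {F : Type} [Field F] [IsAlgClosed F] [CharP F p] {M N : Matrix ι ι F}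
    {a y : ι → F} (hy : bt (p ^ e) M y y ≠ 0) (h : rs (p ^ e) M N a y = 0) :
    ∃ w : F, bt (p ^ e) M (a + w • y) (a + w • y) = 0 ∧
      bt (p ^ e) N (a + w • y) (a + w • y) = 0 := by
  have hq : p ^ e ≠ 0 := pow_ne_zero _ (Fact.out : p.Prime).ne_zero
  have h1 : (lp (p ^ e) M a y).coeff (p ^ e + 1) ≠ 0 := by rwa [lp, coeff_pw_top hq]
  have h2 : (lp (p ^ e) M a y).natDegree = p ^ e + 1 :=
    natDegree_eq_of_le_of_coeff_ne_zero (natDegree_pw_le _ _ _ _ _) h1
  have h3 := resultant_eq_prod_eval (lp (p ^ e) M a y) (lp (p ^ e) N a y) (p ^ e + 1)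
    (natDegree_pw_le _ _ _ _ _) (IsAlgClosed.splits _)
  rw [leadingCoeff, h2, ← rs, h] at h3
  obtain ⟨w, w1, w2⟩ := Multiset.mem_map.1 (Multiset.prod_eq_zero_iff.1
    ((mul_eq_zero.1 h3.symm).resolve_left (pow_ne_zero _ h1)))
  exact ⟨w, by rw [← eval_lp]; exact (isRoot_of_mem_roots w1), by rw [← eval_lp, w2]⟩

theorem rs_good {R : Type} [CommRing R] {q : ℕ} (hq : q ≠ 0) {M N : Matrix ι ι R} {a y : ι → R}
    (h0 : bt q M a a = 0) (h1 : bt q M a y = 0) (h2 : bt q M y a = 0) :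
    rs q M N a y = bt q M y y ^ (q + 1) * bt q N a a ^ (q + 1) := by
  have e1 : lp q M a y = C (bt q M y y) * X ^ (q + 1) := by simp [lp, pw, h0, h1, h2]
  have e2 : (lp q N a y).coeff 0 = bt q N a a := by simp [lp, pw, coeff_X_pow, hq.symm]
  rw [rs, e1, resultant_C_mul_left,
    resultant_X_pow_left (lp q N a y) _ _ (natDegree_pw_le _ _ _ _ _), e2]

theorem rs_poly {R : Type} [CommRing R] (q : ℕ) (M N : Matrix ι ι R) (U V Y : ι → R) :
    ∃ P : R[X], ∀ r, P.eval r = rs q M N (U + r • V) Y := by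
  refine ⟨rs q (M.map C) (N.map C) (fun i => C (U i) + X * C (V i)) (fun i => C (Y i)),
    fun r => (map_rs (evalRingHom r) q _ _ _ _).trans ?_⟩
  congr 1
  · ext i j; simp
  · ext i j; simp
  · ext i
    simp only [coe_evalRingHom, eval_add, eval_mul, eval_C, eval_X, Pi.add_apply, Pi.smul_apply,
      smul_eq_mul]
  · ext i; simp

theorem factor {F : Type} [Field F] [IsAlgClosed F] (P : F[X]) :
    ∃ (n : ℕ) (r : Fin n → F), ∀ x, P.eval x = P.leadingCoeff * ∏ j, (x - r j) := by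
  obtain ⟨l, hl⟩ := Quotient.exists_rep P.roots
  refine ⟨l.length, l.get, fun x => ?_⟩
  rw [(IsAlgClosed.splits P).eval_eq_prod_roots, ← hl]
  congr 1
  rw [Multiset.quot_mk_to_coe, Multiset.map_coe, Multiset.prod_coe, ← List.prod_ofFn]
  congr 1
  conv_lhs => rw [← List.ofFn_get l]
  rw [List.map_ofFn]
  rfl

end Pool.Agent.MP_c1eb4d_ag.Pen
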