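import Pool.Agent.MP_c1eb4d_ag.PnRes
import Pool.Agent.MP_c1eb4d_ag.PnCyc

/-! Reduction of a plane section at a place where the plane meets the first hypersurface only
along a line. -/

namespace Pool.Agent.MP_c1eb4d_ag.Pen

open Polynomial Module

variable {k L ι A : Type} [Field k] [IsAlgClosed k] [Field L] [IsAlgClosed L] [Algebra k L]
  [Fintype ι] [AddCommGroup A] {p e : ℕ} [Fact p.Prime] [CharP k p] [CharP L p]
  {onX : (ι → L) → Prop} {cl : (ι → k) → A} {T : L} {B C : Matrix ι ι k}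

/-- Every common zero in the plane reduces to a point of the line. -/
theorem red_point {u v y : ι → k} (hB : Iso (p ^ e) B u v) (hi : LinearIndependent k ![u, v])
    (ho : Orth (p ^ e) B u v y) (hy : bt (p ^ e) B y y ≠ 0) (ρ : RPl k L) {M N : Matrix ι ι L}
    {U V Y : ι → L} (hM : ρ.RM M B) (hN : ρ.RM N C) (hU : ρ.RV U u) (hV : ρ.RV V v)
    (hY : ρ.RV Y y) {s r w : L} (h0 : s ≠ 0 ∨ r ≠ 0 ∨ w ≠ 0)
    (hz : bt (p ^ e) M (s • U + r • V + w • Y) (s • U + r • V + w • Y) = 0)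
    (hz' : bt (p ^ e) N (s • U + r • V + w • Y) (s • U + r • V + w • Y) = 0) :
    ∃ (t : L) (a b : k), t ≠ 0 ∧ ρ.R (t * s) a ∧ ρ.R (t * r) b ∧ ρ.R (t * w) 0 ∧
      a • u + b • v ≠ 0 ∧ bt (p ^ e) C (a • u + b • v) (a • u + b • v) = 0 ∧
      ρ.RP (s • U + r • V + w • Y) (a • u + b • v) := by
  have hs : (![s, r, w] : Fin 3 → L) ≠ 0 := fun h => by
    rcases h0 with h0 | h0 | h0
    exacts [h0 (congrFun h 0), h0 (congrFun h 1), h0 (congrFun h 2)]
  obtain ⟨i₀, c, h1, h2, h3⟩ := ρ.normalise _ hs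
  set t := (![s, r, w] i₀)⁻¹ with ht
  have c0 : ρ.R (t * s) (c 0) := by simpa [div_eq_inv_mul] using h3 0
  have c1 : ρ.R (t * r) (c 1) := by simpa [div_eq_inv_mul] using h3 1
  have c2 : ρ.R (t * w) (c 2) := by simpa [div_eq_inv_mul] using h3 2
  have hv : ρ.RV (t • (s • U + r • V + w • Y)) (c 0 • u + c 1 • v + c 2 • y) := by
    simp only [smul_add, smul_smul]
    exact ((hU.smul c0).add (hV.smul c1)).add (hY.smul c2)
  have e1 := RPl.bt (p ^ e) hM hv hv
  have e2 := RPl.bt (p ^ e) hN hv hv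
  rw [bt_smul_left, bt_smul_right, hz, mul_zero, mul_zero] at e1
  rw [bt_smul_left, bt_smul_right, hz', mul_zero, mul_zero] at e2
  have e3 : c 2 = 0 := by
    have := RPl.eq_zero e1
    simp only [bt_add_left, bt_add_right, bt_smul_left, bt_smul_right, hB.uu, hB.uv, hB.vu, hB.vv,
      ho.uy, ho.vy, ho.yu, ho.yv, mul_zero, zero_add, mul_eq_zero, hy, or_false] at this
    exact this.elim id eq_zero_of_pow_eq_zero
  rw [e3, zero_smul, add_zero] at hv e2
  rw [e3] at c2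
  have e4 : c 0 • u + c 1 • v ≠ 0 := fun h => by
    obtain ⟨a1, a2⟩ := LinearIndependent.pair_iff.1 hi _ _ h
    have : ∀ i, c i = 0 := fun i => by fin_cases i <;> assumption
    exact one_ne_zero (h2.symm.trans (this i₀))
  exact ⟨t, c 0, c 1, inv_ne_zero h1, c0, c1, c2, e4, RPl.eq_zero e2, e4, t, hv⟩

theorem res_local_deg (H : Sp onX cl T)
    (hX : Cut onX (p ^ e) (B.map (algebraMap k L)) (C.map (algebraMap k L)))
    {u v y : ι → k} (hB : Iso (p ^ e) B u v) (hi : LinearIndependent k ![u, v])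
    (ho : Orth (p ^ e) B u v y) (hy : bt (p ^ e) B y y ≠ 0) (ρ : RPl k L) {M N : Matrix ι ι L}
    {U V Y : ι → L} (hM : ρ.RM M B) (hN : ρ.RM N C) (hU : ρ.RV U u) (hV : ρ.RV V v)
    (hY : ρ.RV Y y) (hC : Iso (p ^ e) C u v) {s r w : L} (h0 : s ≠ 0 ∨ r ≠ 0 ∨ w ≠ 0)
    (hz : bt (p ^ e) M (s • U + r • V + w • Y) (s • U + r • V + w • Y) = 0)
    (hz' : bt (p ^ e) N (s • U + r • V + w • Y) (s • U + r • V + w • Y) = 0) :
    ∃ P, ρ.RP (s • U + r • V + w • Y) P ∧ cl P = cl u := by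
  obtain ⟨t, a, b, -, -, -, -, h1, -, h2⟩ := red_point hB hi ho hy ρ hM hN hU hV hY h0 hz hz'
  have e : u = (1 : k) • u + (0 : k) • v := by simp
  refine ⟨_, h2, ?_⟩
  conv_rhs => rw [e]
  exact cl_line H hX hB hC h1 (e ▸ hi.ne_zero 0)

theorem res_local
    {u v y : ι → k} (hB : Iso (p ^ e) B u v) (hi : LinearIndependent k ![u, v])
    (ho : Orth (p ^ e) B u v y) (hy : bt (p ^ e) B y y ≠ 0) (ρ : RPl k L) {M N : Matrix ι ι L}
    {U V Y : ι → L} (hM : ρ.RM M B) (hN : ρ.RM N C) (hU : ρ.RV U u) (hV : ρ.RV V v)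
    (hY : ρ.RV Y y) (hC : bt (p ^ e) C v v ≠ 0) {n : ℕ} {r w : Fin n → L}
    (hz : ∀ j, bt (p ^ e) M (U + r j • V + w j • Y) (U + r j • V + w j • Y) = 0)
    (hz' : ∀ j, bt (p ^ e) N (U + r j • V + w j • Y) (U + r j • V + w j • Y) = 0) {a : L}
    (ha : ∀ x, rs (p ^ e) M N (U + x • V) Y = a * ∏ j, (x - r j)) :
    n = (p ^ e + 1) * (p ^ e + 1) ∧ ∃ P : Fin n → ι → k,
      (∀ j, ρ.RP (U + r j • V + w j • Y) (P j)) ∧
        ∑ j, cl (P j) = (p ^ e + 1) • cyc cl (p ^ e) C u v := by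
  have hq : p ^ e ≠ 0 := pow_ne_zero _ (Fact.out : p.Prime).ne_zero
  have h1 : ∀ j, ∃ b, ρ.R (r j) b ∧ ρ.R (w j) 0 := fun j => by
    obtain ⟨t, a, b, ht, a1, a2, a3, a4, a5, -⟩ := red_point hB hi ho hy ρ hM hN hU hV hY
      (s := 1) (r := r j) (w := w j) (Or.inl one_ne_zero) (by rw [one_smul, hz])
      (by rw [one_smul, hz'])
    have ha : a ≠ 0 := by
      rintro rfl
      rw [zero_smul, zero_add] at a4 a5
      rw [bt_smul_left, bt_smul_right] at a5
      simp only [mul_eq_zero, hC, or_false] at a5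
      exact a4 (by rw [a5.elim eq_zero_of_pow_eq_zero id, zero_smul])
    rw [mul_one] at a1
    exact ⟨b / a, by simpa [ht] using RPl.div a2 a1 ha, by simpa [ht] using RPl.div a3 a1 ha⟩
  choose rb h1 h2 using h1
  have h3 : ∀ x : k, ρ.R (a * ∏ j, (algebraMap k L x - r j))
      (bt (p ^ e) B y y ^ (p ^ e + 1) * (lp (p ^ e) C u v).eval x ^ (p ^ e + 1)) := fun x => by
    have := RPl.rs (p ^ e) hM hN (hU.add (hV.smul (ρ.const x))) hY
    rwa [ha, rs_good hq, ← eval_lp] at this <;>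
      simp only [bt_add_left, bt_add_right, bt_smul_left, bt_smul_right, hB.uu, hB.uv, hB.vu,
        hB.vv, ho.uy, ho.vy, ho.yu, ho.yv, mul_zero, zero_add]
  have h4 : ∀ x : k, ρ.R (∏ j, (algebraMap k L x - r j)) (∏ j, (x - rb j)) := fun x =>
    RPl.prod _ fun j _ => RPl.sub (ρ.const x) (h1 j)
  obtain ⟨x₀, hx⟩ := (Set.finite_range rb).exists_notMem
  have h5 : ∏ j, (x₀ - rb j) ≠ 0 :=
    Finset.prod_ne_zero_iff.2 fun j _ => sub_ne_zero.2 fun h => hx ⟨j, h.symm⟩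
  have h6 := RPl.div (h3 x₀) (h4 x₀) h5
  rw [mul_div_cancel_right₀ _ (RPl.ne_zero (h4 x₀) h5)] at h6
  generalize _ / ∏ j, (x₀ - rb j) = ab at h6
  set G := lp (p ^ e) C u v with hG
  have h7 : Polynomial.C (bt (p ^ e) B y y ^ (p ^ e + 1)) * G ^ (p ^ e + 1) =
      Polynomial.C ab * ((Finset.univ.val.map rb).map fun a => X - Polynomial.C a).prod :=
    Polynomial.funext fun x => by
      have := ρ.uniq (h3 x) (ρ.mul h6 (h4 x))
      rw [Multiset.map_map, ← Finset.prod_eq_multiset_prod]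
      simpa [eval_prod] using this
  have g1 : G.coeff (p ^ e + 1) ≠ 0 := by
    rw [hG, lp, coeff_pw_top hq]
    exact hC
  have g2 : G.natDegree = p ^ e + 1 :=
    natDegree_eq_of_le_of_coeff_ne_zero (natDegree_pw_le _ _ _ _ _) g1
  have g3 : G ≠ 0 := fun h => g1 (by rw [h, coeff_zero])
  have g4 : ab ≠ 0 := by
    rintro rfl
    rw [map_zero, zero_mul] at h7
    exact mul_ne_zero (C_ne_zero.2 (pow_ne_zero _ hy)) (pow_ne_zero _ g3) h7
  have g5 := congrArg natDegree h7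
  have g6 := congrArg roots h7
  rw [natDegree_C_mul (pow_ne_zero _ hy), natDegree_C_mul g4, natDegree_pow, g2,
    natDegree_multiset_prod_X_sub_C_eq_card, Multiset.card_map, Finset.card_val,
    Finset.card_fin] at g5
  rw [roots_C_mul _ (pow_ne_zero _ hy), roots_C_mul _ g4, roots_pow,
    roots_multiset_prod_X_sub_C] at g6
  refine ⟨g5.symm, fun j => u + rb j • v, fun j => ⟨fun h => ?_, 1, ?_⟩, ?_⟩
  · exact one_ne_zero (LinearIndependent.pair_iff.1 hi 1 (rb j) (by rwa [one_smul])).1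
  · simpa using (hU.add (hV.smul (h1 j))).add (hY.smul (h2 j))
  · rw [cyc, ← hG, if_neg g3, g2, Nat.sub_self, zero_smul, add_zero, ← Multiset.sum_nsmul,
      ← Multiset.map_nsmul, g6, Multiset.map_map]
    rfl

end Pool.Agent.MP_c1eb4d_ag.Pen
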