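import Pool.Agent.MP_c1eb4d_ag.UHf

open Function TensorProduct Matrix

namespace Pool.Agent.MP_c1eb4d_ag

open Pool.Agent.MP_a9d3bd_ag

section

variable {k F σ τ : Type} [Field k] [Field F] [Fintype F] [Algebra F k] [Fintype σ]
  [DecidableEq σ] [Fintype τ] [DecidableEq τ] {q : ℕ}

omit [Fintype F] [DecidableEq σ] [DecidableEq τ] in
theorem UBasis_nat (G : Matrix σ τ F) (G' : Matrix τ σ F) :
    IsNat (fun R _ _ y a => (rm k R G * mt y * rm k R G') a.1 a.2 : PMap k (τ × τ) (σ × σ)) := by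
  intro R R' _ _ _ _ f y a
  simp only [Matrix.mul_apply, map_sum, map_mul, rm, Matrix.map_apply, mt, Matrix.of_apply,
    cF_map k f]

omit [DecidableEq σ] in
theorem UBasis_one (hq : Fintype.card F = q ^ 2) (N : Matrix σ σ F) (r : ℕ) (G : Matrix σ τ F)
    (G' : Matrix τ σ F) (h2 : G' * G = 1) {Ω : Type} [Field Ω] [Algebra k Ω] {y : τ × τ → Ω}
    (hy : JU k q ((G.map (· ^ q))ᵀ * N * G) r Ω y) :
    JU k q N r Ω fun a => (rm k Ω G * mt y * rm k Ω G') a.1 a.2 := by
  obtain ⟨h1, h3, h4⟩ := hy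
  have e : mt (fun a : σ × σ => (rm k Ω G * mt y * rm k Ω G') a.1 a.2) =
      rm k Ω G * mt y * rm k Ω G' := rfl
  have hG : rm k Ω G' * rm k Ω G = 1 := by rw [← rm_mul, h2, rm_one]
  refine ⟨?_, ?_, ?_⟩
  · rw [e]
    calc rm k Ω G * mt y * rm k Ω G' * (rm k Ω G * mt y * rm k Ω G')
        = rm k Ω G * (mt y * (rm k Ω G' * rm k Ω G) * mt y) * rm k Ω G' := by
          simp only [Matrix.mul_assoc]
      _ = _ := by rw [hG, Matrix.mul_one, h1]
  · rw [e, ← h3]
    refine le_antisymm ((Matrix.rank_mul_le_left _ _).trans (Matrix.rank_mul_le_right _ _)) ?_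
    have e2 : mt y = rm k Ω G' * (rm k Ω G * mt y * rm k Ω G') * rm k Ω G := by
      calc mt y = (rm k Ω G' * rm k Ω G) * mt y * (rm k Ω G' * rm k Ω G) := by
            rw [hG, Matrix.one_mul, Matrix.mul_one]
        _ = _ := by simp only [Matrix.mul_assoc]
    conv_lhs => rw [e2]
    exact (Matrix.rank_mul_le_left _ _).trans (Matrix.rank_mul_le_right _ _)
  · intro a b
    refine hf_mul k hq N (rm k Ω G * mt y) (rm k Ω G') (fun i j => ?_) a b
    have h5 := h4 i j
    rw [← hf_basis k hq] at h5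
    exact h5

end

/-- change of basis -/
theorem IsCls.ju_basis {k F σ τ : Type} [Field k] [Field F] [Fintype F] [Algebra F k] [Fintype σ]
    [DecidableEq σ] [Fintype τ] [DecidableEq τ] {q : ℕ} {V : ∀ σ : Type, Fam k σ → Prop}
    (hV : IsCls V) (hq : Fintype.card F = q ^ 2) (N : Matrix σ σ F) (r : ℕ) (G : Matrix σ τ F)
    (G' : Matrix τ σ F) (h1 : G * G' = 1) (h2 : G' * G = 1)
    (h : V _ (JU k q ((G.map (· ^ q))ᵀ * N * G) r)) : V _ (JU k q N r) := by
  obtain ⟨φ, hφ⟩ := ff_conj hq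
  have hφ' : (fun a : F => a ^ q) = φ := funext fun a => (hφ a).symm
  have hN : (G'.map (· ^ q))ᵀ * ((G.map (· ^ q))ᵀ * N * G) * G' = N := by
    calc (G'.map (· ^ q))ᵀ * ((G.map (· ^ q))ᵀ * N * G) * G'
        = ((G * G').map φ)ᵀ * N * (G * G') := by
          rw [hφ', Matrix.map_mul, Matrix.transpose_mul]
          simp only [Matrix.mul_assoc]
      _ = N := by
          rw [h1, Matrix.map_one _ (map_zero φ) (map_one φ), Matrix.transpose_one, Matrix.one_mul,
            Matrix.mul_one]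
  have key : ∀ {α β : Type} [Fintype α] [Fintype β] [DecidableEq α] (H : Matrix α β F)
      (H' : Matrix β α F), H * H' = 1 → ∀ (Ω : Type) [Field Ω] [Algebra k Ω] (x : α × α → Ω),
      (fun a : α × α => (rm k Ω H * mt (fun b : β × β => (rm k Ω H' * mt x * rm k Ω H) b.1 b.2) *
        rm k Ω H') a.1 a.2) = x := by
    intro α β _ _ _ H H' hH Ω _ _ x
    have hG : rm k Ω H * rm k Ω H' = 1 := by rw [← rm_mul, hH, rm_one]
    have e : mt (fun b : β × β => (rm k Ω H' * mt x * rm k Ω H) b.1 b.2) =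
        rm k Ω H' * mt x * rm k Ω H := rfl
    have e2 : rm k Ω H * (rm k Ω H' * mt x * rm k Ω H) * rm k Ω H' = mt x := by
      calc _ = (rm k Ω H * rm k Ω H') * mt x * (rm k Ω H * rm k Ω H') := by
            simp only [Matrix.mul_assoc]
        _ = _ := by rw [hG, Matrix.one_mul, Matrix.mul_one]
    funext a
    rw [e, e2]
    rfl
  refine hV.iso' (UBasis_nat G G') (UBasis_nat G' G) (isCl_ju k N r) h ?_ ?_
  · intro Ω _ _ y hy
    exact ⟨UBasis_one hq N r G G' h2 hy, key G' G h2 Ω y⟩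
  · intro Ω _ _ x hx
    refine ⟨UBasis_one hq _ r G' G h1 ?_, key G G' h1 Ω x⟩
    rw [hN]
    exact hx

end Pool.Agent.MP_c1eb4d_ag
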