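import Pool.Agent.MP_c1eb4d_ag.UHf

open Function TensorProduct Matrix

namespace Pool.Agent.MP_c1eb4d_ag

open Pool.Agent.MP_a9d3bd_ag

variable {k F I J C E : Type} [Field k] [Field F] [Fintype F] [Algebra F k] {q : ℕ} [Fintype I]
  [Fintype J] [Fintype C] [Fintype E] [DecidableEq I] [DecidableEq J] [DecidableEq C]
  [DecidableEq E]

/-- the point of the cover built from the entries of a matrix and chosen roots -/
def UCellL_pt {I J C E Ω : Type} (x : NI (I ⊕ J ⊕ C) E × (I ⊕ J) → Ω) (m : I → C → Ω)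
    (n : I → J → Ω) : BI I J C E ⊕ I × I → Ω
  | Sum.inl (Sum.inl (Sum.inl (Sum.inl (j, c)))) =>
      x (Sum.inr (Sum.inl (Sum.inr (Sum.inr c))), Sum.inr j)
  | Sum.inl (Sum.inl (Sum.inl (Sum.inr (Sum.inl (i, c))))) => m i c
  | Sum.inl (Sum.inl (Sum.inl (Sum.inr (Sum.inr (i, j))))) => n i j
  | Sum.inl (Sum.inl (Sum.inr (i, e))) => x (Sum.inr (Sum.inr e), Sum.inl i)
  | Sum.inl (Sum.inr (i, c)) => x (Sum.inr (Sum.inl (Sum.inr (Sum.inr c))), Sum.inl i)
  | Sum.inr (i, i') => x (Sum.inr (Sum.inl (Sum.inl i')), Sum.inl i)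

theorem UCellL_ite_pow {Ω : Type} [Field Ω] {q : ℕ} (hq : q ≠ 0) (p : Prop) [Decidable p] :
    (if p then (1 : Ω) else 0) ^ q = if p then 1 else 0 := by
  split_ifs
  · exact one_pow q
  · exact zero_pow hq

theorem cell_lift (hq : Fintype.card F = q ^ 2) (o : I ⊕ J ⊕ C → ℕ) (M : ℕ) (hM : ∀ p, o p < M)
    {Ω : Type} [Field Ω] [IsAlgClosed Ω] [Algebra k Ω] {x : NI (I ⊕ J ⊕ C) E × (I ⊕ J) → Ω}
    (hx : Cell k q (nf F (I ⊕ J ⊕ C) E) (nord E o M) (apv I J C E) Ω x) :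
    ∃ y, HCov k q (WO k F E o) (tt k q) Ω y ∧ cellMap k q Ω y = x := by
  obtain ⟨⟨hpiv, hzero⟩, hiso⟩ := hx
  have hq0 : 0 < q := lt_of_lt_of_le (by norm_num) (ff_two_le hq)
  have hq0' : q ≠ 0 := hq0.ne'
  choose m hm using fun (i : I) (c : C) =>
    IsAlgClosed.exists_pow_nat_eq (x (Sum.inl (Sum.inr (Sum.inr c)), Sum.inl i)) hq0
  choose n hn using fun (i : I) (j : J) =>
    IsAlgClosed.exists_pow_nat_eq (x (Sum.inl (Sum.inr (Sum.inl j)), Sum.inl i)) hq0
  have hII : ∀ i' i : I, x (Sum.inl (Sum.inl i'), Sum.inl i) = if i' = i then 1 else 0 := by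
    intro i' i
    have := hpiv (Sum.inl i') (Sum.inl i)
    simpa [mt, apv] using this
  have hJI : ∀ (j : J) (i : I), x (Sum.inr (Sum.inl (Sum.inr (Sum.inl j))), Sum.inl i) = 0 := by
    intro j i
    have := hpiv (Sum.inr j) (Sum.inl i)
    simpa [mt, apv] using this
  have hJJ : ∀ j' j : J, x (Sum.inr (Sum.inl (Sum.inr (Sum.inl j'))), Sum.inr j) =
      if j' = j then 1 else 0 := by
    intro j' j
    have := hpiv (Sum.inr j') (Sum.inr j)
    simpa [mt, apv] using this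
  have hPJ : ∀ (p : I ⊕ J ⊕ C) (j : J), x (Sum.inl p, Sum.inr j) = 0 := by
    intro p j
    refine hzero (Sum.inl p) (Sum.inr j) ?_
    have h1 := hM p
    have h2 := hM (Sum.inr (Sum.inl j))
    simp only [nord, apv, Sum.elim_inl, Sum.elim_inr]
    omega
  have hEJ : ∀ (e : E) (j : J), x (Sum.inr (Sum.inr e), Sum.inr j) = 0 := by
    intro e j
    refine hzero (Sum.inr (Sum.inr e)) (Sum.inr j) ?_
    have h2 := hM (Sum.inr (Sum.inl j))
    simp only [nord, apv, Sum.elim_inl, Sum.elim_inr]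
    omega
  have hW : ∀ (i : I) (j : J), x (Sum.inr (Sum.inl (Sum.inl i)), Sum.inr j) =
      -((n i j ^ q) ^ q + ∑ c, (m i c ^ q) ^ q *
        x (Sum.inr (Sum.inl (Sum.inr (Sum.inr c))), Sum.inr j)) := by
    intro i j
    have h := hiso (Sum.inl i) (Sum.inr j)
    rw [hf_nf] at h
    simp only [Fintype.sum_sum_type, hII, hJJ, hPJ, hEJ, UCellL_ite_pow hq0', mul_zero, add_zero,
      ite_mul, one_mul, zero_mul, mul_ite, mul_one, Finset.sum_ite_eq', Finset.mem_univ, if_true,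
      Finset.sum_const_zero, ← hm, ← hn] at h
    linear_combination h
  have hW' : ∀ (i : I) (j : J), x (Sum.inr (Sum.inl (Sum.inl i)), Sum.inr j) ^ q + n i j ^ q +
      ∑ c, x (Sum.inr (Sum.inl (Sum.inr (Sum.inr c))), Sum.inr j) ^ q * m i c ^ q = 0 := by
    intro i j
    have h := hiso (Sum.inr j) (Sum.inl i)
    rw [hf_nf] at h
    simp only [Fintype.sum_sum_type, hII, hJJ, hPJ, hEJ, UCellL_ite_pow hq0', zero_pow hq0',
      add_zero, zero_add, ite_mul, one_mul, zero_mul, mul_ite, mul_one, mul_zero,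
      Finset.sum_ite_eq', Finset.mem_univ, if_true, Finset.sum_const_zero, ← hm, ← hn] at h
    linear_combination h
  have hA : ∀ i i' : I, x (Sum.inr (Sum.inl (Sum.inl i')), Sum.inl i) ^ q +
      x (Sum.inr (Sum.inl (Sum.inl i)), Sum.inl i') =
      -(∑ c, (x (Sum.inr (Sum.inl (Sum.inr (Sum.inr c))), Sum.inl i) ^ q * m i' c ^ q +
        (m i c ^ q) ^ q * x (Sum.inr (Sum.inl (Sum.inr (Sum.inr c))), Sum.inl i')) +
        ∑ e, x (Sum.inr (Sum.inr e), Sum.inl i) ^ q * x (Sum.inr (Sum.inr e), Sum.inl i')) := by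
    intro i i'
    have h := hiso (Sum.inl i) (Sum.inl i')
    rw [hf_nf] at h
    simp only [Fintype.sum_sum_type, hII, hJI, UCellL_ite_pow hq0', zero_pow hq0',
      zero_add, ite_mul, one_mul, zero_mul, mul_ite, mul_one, mul_zero,
      Finset.sum_add_distrib, Finset.sum_ite_eq', Finset.mem_univ, if_true, Finset.sum_const_zero,
      ← hm, ← hn] at h
    simp only [Finset.sum_add_distrib]
    linear_combination h
  refine ⟨UCellL_pt x m n, ⟨⟨?_, ?_, ?_, ?_⟩, ?_⟩, ?_⟩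
  · intro j c h
    refine hzero (Sum.inr (Sum.inl (Sum.inr (Sum.inr c)))) (Sum.inr j) ?_
    have h1 := hM (Sum.inr (Sum.inr c))
    simp only [nord, apv, Sum.elim_inl, Sum.elim_inr]
    omega
  · intro i c h
    have h0 : x (Sum.inl (Sum.inr (Sum.inr c)), Sum.inl i) = 0 := by
      refine hzero (Sum.inl (Sum.inr (Sum.inr c))) (Sum.inl i) ?_
      simp only [nord, apv, Sum.elim_inl]
      omega
    rw [← hm] at h0
    exact (pow_eq_zero_iff hq0').mp h0
  · intro i j h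
    have h0 : x (Sum.inl (Sum.inr (Sum.inl j)), Sum.inl i) = 0 := by
      refine hzero (Sum.inl (Sum.inr (Sum.inl j))) (Sum.inl i) ?_
      simp only [nord, apv, Sum.elim_inl]
      omega
    rw [← hn] at h0
    exact (pow_eq_zero_iff hq0').mp h0
  · intro i j _
    change n i j ^ Fintype.card F - n i j =
      -∑ c, x (Sum.inr (Sum.inl (Sum.inr (Sum.inr c))), Sum.inr j) *
        (m i c ^ Fintype.card F - m i c)
    refine ff_inj k hq ?_
    have h := hW' i j
    rw [hW, ff_neg k hq, ff_add k hq, ff_sum k hq] at h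
    simp only [ff_pow_card hq, ff_neg k hq, ff_sum k hq, ff_sub k hq, mul_pow, mul_sub,
      Finset.sum_sub_distrib]
    simp only [mul_pow] at h
    have e : ∑ c, ((m i c ^ q) ^ q) ^ q *
        x (Sum.inr (Sum.inl (Sum.inr (Sum.inr c))), Sum.inr j) ^ q =
        ∑ c, x (Sum.inr (Sum.inl (Sum.inr (Sum.inr c))), Sum.inr j) ^ q *
          ((m i c ^ q) ^ q) ^ q := Finset.sum_congr rfl fun c _ => mul_comm _ _
    rw [e] at h
    linear_combination -h
  · intro i i'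
    exact hA i i'
  · funext a
    rcases a with ⟨((i' | j' | c) | (i' | j' | c) | e), (i | j)⟩
    · exact (hII i' i).symm
    · exact (hPJ _ j).symm
    · exact hn i j'
    · exact (hPJ _ j).symm
    · exact hm i c
    · exact (hPJ _ j).symm
    · rfl
    · exact (hW i' j).symm
    · exact (hJI j' i).symm
    · exact (hJJ j' j).symm
    · rfl
    · rfl
    · rfl
    · exact (hEJ e j).symm

omit [Fintype I] [Fintype J] [Fintype E] [DecidableEq C] [DecidableEq E] [Algebra F k] in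
theorem cell_val (hq : Fintype.card F = q ^ 2) (S : Fam k (BI I J C E ⊕ I × I)) :
    ValCrit S (fun _ _ _ _ => True) (cellMap k q) := by
  have hq0 : 0 < q := lt_of_lt_of_le (by norm_num) (ff_two_le hq)
  intro O Ω κ _ _ _ _ _ _ _ _ _ _ _ π _ y x _ hx _ t
  rcases t with ((((⟨j, c⟩ | ⟨i, c⟩ | ⟨i, j⟩) | ⟨i, e⟩) | ⟨i, c⟩) | ⟨i, i'⟩)
  · exact ⟨_, hx (Sum.inr (Sum.inl (Sum.inr (Sum.inr c))), Sum.inr j)⟩
  · exact val_pow hq0 (hx (Sum.inl (Sum.inr (Sum.inr c)), Sum.inl i)).symm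
  · exact val_pow hq0 (hx (Sum.inl (Sum.inr (Sum.inl j)), Sum.inl i)).symm
  · exact ⟨_, hx (Sum.inr (Sum.inr e), Sum.inl i)⟩
  · exact ⟨_, hx (Sum.inr (Sum.inl (Sum.inr (Sum.inr c))), Sum.inl i)⟩
  · exact ⟨_, hx (Sum.inr (Sum.inl (Sum.inl i')), Sum.inl i)⟩

end Pool.Agent.MP_c1eb4d_ag
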