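import Pool.Agent.MP_c1eb4d_ag.UHf

open Function TensorProduct Matrix

namespace Pool.Agent.MP_c1eb4d_ag

open Pool.Agent.MP_a9d3bd_ag

variable {k F I J C E : Type} [Field k] [Field F] [Fintype F] [Algebra F k] {q : ℕ} [Fintype I]
  [Fintype J] [Fintype C] [Fintype E] [DecidableEq I] [DecidableEq J] [DecidableEq C]
  [DecidableEq E]

omit [Fintype F] [Fintype I] [Fintype J] [Fintype E] [DecidableEq C] [DecidableEq E] [Field F]
  [Algebra F k] in
theorem isNat_cellMap : IsNat (cellMap k (I := I) (J := J) (C := C) (E := E) q) := by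
  intro R R' _ _ _ _ f y a
  rcases a with ⟨(i' | j' | c) | (i' | j' | c) | e, i | j⟩ <;>
    simp only [cellMap, map_pow, map_zero, map_neg, map_add, map_sum, map_mul, apply_ite f, map_one]

theorem cell_map (hq : Fintype.card F = q ^ 2) (o : I ⊕ J ⊕ C → ℕ) (M : ℕ) (hM : ∀ p, o p < M)
    {Ω : Type} [Field Ω] [Algebra k Ω] {y : BI I J C E ⊕ I × I → Ω}
    (hy : HCov k q (WO k F E o) (tt k q) Ω y) :
    Cell k q (nf F (I ⊕ J ⊕ C) E) (nord E o M) (apv I J C E) Ω (cellMap k q Ω y) := by
  obtain ⟨⟨hu, hm, hn, hW⟩, hH⟩ := hy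
  simp only [not_not, ff_pow_card hq] at hu hm hn hW
  have hq2 := ff_two_le hq
  have h0 : (0 : Ω) ^ q = 0 := zero_pow (by omega)
  have hmu : ∀ i j c, o (Sum.inr (Sum.inl j)) < o (Sum.inl i) →
      y (Sum.inl (Sum.inl (Sum.inl (Sum.inr (Sum.inl (i, c)))))) = 0 ∨
        y (Sum.inl (Sum.inl (Sum.inl (Sum.inl (j, c))))) = 0 := fun i j c h => by
    by_cases h1 : o (Sum.inr (Sum.inr c)) < o (Sum.inl i)
    · exact Or.inl (hm i c h1)
    · exact Or.inr (hu j c (by omega))
  refine ⟨⟨?_, ?_⟩, ?_⟩
  · rintro (i | j) (i' | j') <;> simp [mt, apv, cellMap]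
  · rintro ((i' | j' | c) | (i' | j' | c) | e) (i | j) h <;>
      simp only [nord, apv, Sum.elim_inl, Sum.elim_inr] at h <;>
      simp only [mt, of_apply, cellMap]
    · exact if_neg fun h1 => by rw [h1] at h; omega
    · rw [hn i j' h, h0]
    · rw [hm i c h, h0]
    · have := hM (Sum.inl i')
      have := hM (Sum.inl i)
      omega
    · have h1 : o (Sum.inr (Sum.inl j)) < o (Sum.inl i') := by omega
      rw [hn i' j h1, h0, h0, zero_add, neg_eq_zero]
      refine Finset.sum_eq_zero fun c _ => ?_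
      rcases hmu i' j c h1 with h2 | h2 <;> rw [h2]
      · rw [h0, h0, zero_mul]
      · rw [mul_zero]
    · exact if_neg fun h1 => by rw [h1] at h; omega
    · have := hM (Sum.inr (Sum.inr c))
      have := hM (Sum.inl i)
      omega
    · exact hu j c (by omega)
    · have := hM (Sum.inl i)
      omega
  · rintro (i | j) (i' | j') <;>
      simp only [hf_nf, Fintype.sum_sum_type, cellMap, h0, ite_pow, one_pow, mul_zero, zero_mul,
        add_zero, zero_add, ite_mul, mul_ite, one_mul, mul_one, Finset.sum_add_distrib,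
        Finset.sum_ite_eq', Finset.mem_univ, if_true, Finset.sum_const_zero]
    · have h1 := hH i i'
      simp only [tt, Finset.sum_add_distrib] at h1
      linear_combination h1
    · ring
    · have h1 : -((y (Sum.inl (Sum.inl (Sum.inl (Sum.inr (Sum.inr (i', j)))))) ^ q) ^ q +
          ∑ c, (y (Sum.inl (Sum.inl (Sum.inl (Sum.inr (Sum.inl (i', c)))))) ^ q) ^ q *
            y (Sum.inl (Sum.inl (Sum.inl (Sum.inl (j, c)))))) +
          (y (Sum.inl (Sum.inl (Sum.inl (Sum.inr (Sum.inr (i', j)))))) +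
          ∑ c, y (Sum.inl (Sum.inl (Sum.inl (Sum.inl (j, c))))) *
            y (Sum.inl (Sum.inl (Sum.inl (Sum.inr (Sum.inl (i', c))))))) = 0 := by
        by_cases h2 : o (Sum.inr (Sum.inl j)) < o (Sum.inl i')
        · rw [hn i' j h2, h0, h0, Finset.sum_eq_zero, Finset.sum_eq_zero]
          · simp
          · intro c _
            rcases hmu i' j c h2 with h3 | h3 <;> simp [h3]
          · intro c _
            rcases hmu i' j c h2 with h3 | h3 <;> simp [h3, h0]
        · have h3 := hW i' j h2
          simp only [mul_sub, Finset.sum_sub_distrib] at h3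
          simp only [mul_comm (_ ^ q) (y (Sum.inl (Sum.inl (Sum.inl (Sum.inl _)))))]
          linear_combination -h3
      have h4 := congrArg (· ^ q) h1
      simp only [h0] at h4
      rw [ff_add k hq, ff_add k hq, ff_sum k hq] at h4
      simp only [mul_pow] at h4
      linear_combination h4

end Pool.Agent.MP_c1eb4d_ag
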