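import Pool.Agent.MP_c1eb4d_ag.UHf

open Function TensorProduct Matrix

namespace Pool.Agent.MP_c1eb4d_ag

open Pool.Agent.MP_a9d3bd_ag

variable {k F : Type} [Field k] [Field F] [Algebra F k] {q : ℕ} {V : ∀ σ : Type, Fam k σ → Prop}

/-- renaming rows and columns -/
theorem IsCls.cell_reindex (hV : IsCls V) {σ σ' κ κ' : Type} [Fintype σ] [Fintype σ'] [Finite κ]
    [DecidableEq κ] [DecidableEq κ'] (e : σ' ≃ σ) (f : κ' ≃ κ) (N : Matrix σ σ F) (ord : σ → ℕ)
    (pv : κ → σ) (pv' : κ' → σ') (h : ∀ j, e (pv' j) = pv (f j))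
    (h' : V (σ' × κ') (Cell k q (N.submatrix e e) (fun a => ord (e a)) pv')) :
    V (σ × κ) (Cell k q N ord pv) := by
  have : Finite κ' := Finite.of_equiv κ f.symm
  refine hV.congr (hV.reindex (Equiv.prodCongr e f) h') fun Ω _ _ x => ?_
  have e1 : ∀ i j, hf k q (N.submatrix e e) (fun s => x (e s, f i)) (fun s => x (e s, f j)) =
      hf k q N (fun s => x (s, f i)) (fun s => x (s, f j)) := fun i j =>
    hf_reindex k e N (fun s => x (s, f i)) (fun s => x (s, f j))
  show ((∀ i j, x (pv i, j) = if i = j then 1 else 0) ∧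
      ∀ a j, ord a < ord (pv j) → x (a, j) = 0) ∧
      (∀ i j, hf k q N (fun s => x (s, i)) (fun s => x (s, j)) = 0) ↔
    ((∀ i j, x (e (pv' i), f j) = if i = j then 1 else 0) ∧
      ∀ a j, ord (e a) < ord (e (pv' j)) → x (e a, f j) = 0) ∧
      ∀ i j, hf k q (N.submatrix e e) (fun s => x (e s, f i)) (fun s => x (e s, f j)) = 0
  simp only [e1, h, f.surjective.forall, e.surjective.forall, f.injective.eq_iff]

variable {P E κ : Type} [Fintype P] [Fintype E] [DecidableEq P] [DecidableEq E] [DecidableEq κ]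

theorem nord_inj [Subsingleton E] (o : P → ℕ) (ho : Injective o) (M : ℕ) (hM : ∀ p, o p < M) :
    Injective (nord E o M) := by
  rintro (a | a | a) (b | b | b) hab <;> simp only [nord, Sum.elim_inl, Sum.elim_inr] at hab
  · rw [ho hab]
  · have := hM a; have := hM b; omega
  · have := hM a; omega
  · have := hM a; have := hM b; omega
  · have := hM a; have := hM b; rw [ho (show o a = o b by omega)]
  · have := hM a; omega
  · have := hM b; omega
  · have := hM b; omega
  · rw [Subsingleton.elim a b]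

/-- no pivot in the anisotropic part -/
theorem cell_empty_mid [Subsingleton E] (hq : 0 < q) (o : P → ℕ) (M : ℕ) (hM : ∀ p, o p < M)
    (pv : κ → NI P E) (j : κ) (e : E) (h : pv j = Sum.inr (Sum.inr e)) {Ω : Type} [Field Ω]
    [Algebra k Ω] (x : NI P E × κ → Ω) : ¬ Cell k q (nf F P E) (nord E o M) pv Ω x := by
  rintro ⟨⟨h1, h2⟩, h3⟩
  have e1 : x (Sum.inr (Sum.inr e), j) = 1 := by
    have := h1 j j
    rwa [h, if_pos rfl] at this
  have e2 : ∀ p, x (Sum.inl p, j) = 0 := fun p => h2 (Sum.inl p) j (by rw [h]; exact hM p)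
  have e3 := h3 j j
  rw [hf_nf, Fintype.sum_subsingleton _ e] at e3
  simp [e1, e2, hq.ne'] at e3

/-- no pair of dual pivots -/
theorem cell_empty_dual (hq : 0 < q) (o : P → ℕ) (ho : Injective o) (M : ℕ) (hM : ∀ p, o p < M)
    (pv : κ → NI P E) (i j : κ) (p : P) (hi : pv i = Sum.inl p) (hj : pv j = Sum.inr (Sum.inl p))
    {Ω : Type} [Field Ω] [Algebra k Ω] (x : NI P E × κ → Ω) :
    ¬ Cell k q (nf F P E) (nord E o M) pv Ω x := by
  rintro ⟨⟨h1, h2⟩, h3⟩
  have e1 : x (Sum.inl p, i) = 1 := by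
    have := h1 i i
    rwa [hi, if_pos rfl] at this
  have e2 : x (Sum.inr (Sum.inl p), j) = 1 := by
    have := h1 j j
    rwa [hj, if_pos rfl] at this
  have hp := hM p
  have e3 : ∀ p', x (Sum.inl p', j) = 0 := fun p' => h2 (Sum.inl p') j (by
    have := hM p'
    rw [hj]
    show o p' < 2 * M - o p
    omega)
  have e4 : ∀ e, x (Sum.inr (Sum.inr e), j) = 0 := fun e => h2 (Sum.inr (Sum.inr e)) j (by
    rw [hj]
    show M < 2 * M - o p
    omega)
  have e5 : ∀ p', p' ≠ p → x (Sum.inl p', i) ^ q * x (Sum.inr (Sum.inl p'), j) = 0 := by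
    intro p' hp'
    rcases lt_or_gt_of_ne (ho.ne hp') with hlt | hlt
    · have : x (Sum.inl p', i) = 0 := h2 (Sum.inl p') i (by rw [hi]; exact hlt)
      rw [this, zero_pow hq.ne', zero_mul]
    · have : x (Sum.inr (Sum.inl p'), j) = 0 := h2 (Sum.inr (Sum.inl p')) j (by
        have := hM p'
        rw [hj]
        show 2 * M - o p' < 2 * M - o p
        omega)
      rw [this, mul_zero]
  have e6 := h3 i j
  rw [hf_nf] at e6
  simp only [e3, e4, mul_zero, add_zero, Finset.sum_const_zero] at e6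
  rw [Finset.sum_eq_single p (fun p' _ hp' => e5 p' hp') (by simp), e1, e2] at e6
  simp at e6

/-- reduction to adapted coordinates -/
theorem IsCls.cell_adapt (hV : IsCls V) [Subsingleton E] [Finite κ] (hq : 0 < q) (o : P → ℕ)
    (ho : Injective o) (M : ℕ) (hM : ∀ p, o p < M) (pv : κ → NI P E) (hpv : Injective pv)
    (h : ∀ (I J C : Type) [Fintype I] [Fintype J] [Fintype C] [DecidableEq I] [DecidableEq J]
      [DecidableEq C] (o' : I ⊕ J ⊕ C → ℕ), (∀ p, o' p < M) →
        V _ (Cell k q (nf F (I ⊕ J ⊕ C) E) (nord E o' M) (apv I J C E))) :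
    V _ (Cell k q (nf F P E) (nord E o M) pv) := by
  classical
  by_cases h1 : ∃ j e, pv j = Sum.inr (Sum.inr e)
  · obtain ⟨j, e, he⟩ := h1
    exact hV.empty (isCl_cell k _ _ _) fun Ω _ _ _ x => cell_empty_mid hq o M hM pv j e he x
  by_cases h2 : ∃ i j p, pv i = Sum.inl p ∧ pv j = Sum.inr (Sum.inl p)
  · obtain ⟨i, j, p, hi, hj⟩ := h2
    exact hV.empty (isCl_cell k _ _ _) fun Ω _ _ _ x =>
      cell_empty_dual hq o ho M hM pv i j p hi hj x
  let I := {p : P // ∃ i, pv i = Sum.inl p}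
  let J := {p : P // ∃ j, pv j = Sum.inr (Sum.inl p)}
  let C := {p : P // (¬ ∃ i, pv i = Sum.inl p) ∧ ¬ ∃ j, pv j = Sum.inr (Sum.inl p)}
  let g : I ⊕ J ⊕ C → P := Sum.elim Subtype.val (Sum.elim Subtype.val Subtype.val)
  have hg : Bijective g := by
    constructor
    · rintro (⟨a, ha⟩ | ⟨a, ha⟩ | ⟨a, ha⟩) (⟨b, hb⟩ | ⟨b, hb⟩ | ⟨b, hb⟩) hab <;>
        obtain rfl : a = b := hab
      · rfl
      · exact (h2 ⟨_, _, a, ha.choose_spec, hb.choose_spec⟩).elim
      · exact (hb.1 ha).elim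
      · exact (h2 ⟨_, _, a, hb.choose_spec, ha.choose_spec⟩).elim
      · rfl
      · exact (hb.2 ha).elim
      · exact (ha.1 hb).elim
      · exact (ha.2 hb).elim
      · rfl
    · intro p
      by_cases c1 : ∃ i, pv i = Sum.inl p
      · exact ⟨Sum.inl ⟨p, c1⟩, rfl⟩
      by_cases c2 : ∃ j, pv j = Sum.inr (Sum.inl p)
      · exact ⟨Sum.inr (Sum.inl ⟨p, c2⟩), rfl⟩
      · exact ⟨Sum.inr (Sum.inr ⟨p, c1, c2⟩), rfl⟩
  let e₀ : I ⊕ J ⊕ C ≃ P := Equiv.ofBijective g hg
  let e : NI (I ⊕ J ⊕ C) E ≃ NI P E := e₀.sumCongr (e₀.sumCongr (Equiv.refl E))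
  let f : I ⊕ J → κ := Sum.elim (fun i => i.2.choose) fun j => j.2.choose
  have hef : ∀ j, e (apv I J C E j) = pv (f j) := by
    rintro (i | j)
    · exact i.2.choose_spec.symm
    · exact j.2.choose_spec.symm
  have hfb : Bijective f := by
    constructor
    · intro a b hab
      have h3 := e.injective ((hef a).trans ((congrArg pv hab).trans (hef b).symm))
      rcases a with a | a <;> rcases b with b | b <;> simpa [apv] using h3
    · intro j
      rcases hj : pv j with p | p | p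
      · exact ⟨Sum.inl ⟨p, j, hj⟩, hpv ((hef _).symm.trans hj.symm)⟩
      · exact ⟨Sum.inr ⟨p, j, hj⟩, hpv ((hef _).symm.trans hj.symm)⟩
      · exact (h1 ⟨j, p, hj⟩).elim
  refine hV.cell_reindex e (Equiv.ofBijective f hfb) _ _ pv (apv I J C E) hef ?_
  have e1 : (nf F P E).submatrix e e = nf F (I ⊕ J ⊕ C) E := by
    ext (a | a | a) (b | b | b) <;>
      simp only [Matrix.submatrix_apply, e, Equiv.sumCongr_apply, Sum.map_inl, Sum.map_inr, nf,
        e₀.injective.eq_iff, Equiv.refl_apply]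
  have e2 : (fun a => nord E o M (e a)) = nord E (fun a => o (e₀ a)) M := by
    funext a
    rcases a with a | a | a <;> rfl
  rw [e1, e2]
  exact h I J C _ fun p => hM _

end Pool.Agent.MP_c1eb4d_ag
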