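import Pool.Agent.MP_c1eb4d_ag.UI
import Pool.Agent.MP_a9d3bd_ag.GalS
import Pool.Agent.MP_a9d3bd_ag.PresD

open Function TensorProduct Matrix

namespace Pool.Agent.MP_c1eb4d_ag

open Pool.Agent.MP_a9d3bd_ag

variable {k σ τ : Type} [Field k] {V : ∀ σ : Type, Fam k σ → Prop}

theorem isCls_van (k : Type) [Field k] : IsCls (fun σ (S : Fam k σ) => VanS S) where
  isCl h := h.isCl
  ofVan h := h
  strat C G _ hΦ hS hC hS' hG map lift val := stratS C G hΦ hS hC hS' hG map lift val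
  prod h := prodS h
  gal act _ _ H S Φ hS' hact h1 hm hmem hΦ hS map fix lift trans val hc :=
    galS hS' act hact h1 hm hmem H S Φ hΦ hS map fix lift trans val hc

theorem IsCls.congr (_hV : IsCls V) {S S' : Fam k σ} (h : V σ S)
    (e : ∀ (Ω : Type) [Field Ω] [Algebra k Ω] x, S' Ω x ↔ S Ω x) : V σ S' := by
  have : S' = S := by
    funext Ω _ _ x
    exact propext (e Ω x)
  rwa [this]

variable [Finite σ]

theorem IsCls.empty (hV : IsCls V) {S : Fam k σ} (hS : IsCl S)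
    (h : ∀ (Ω : Type) [Field Ω] [IsAlgClosed Ω] [Algebra k Ω] x, ¬ S Ω x) : V σ S :=
  hV.ofVan (emptyS hS h)

/-- finite closed covers -/
theorem IsCls.cover (hV : IsCls V) {β : Type} [Finite β] {S : Fam k σ} (C : β → Fam k σ)
    (hS : IsCl S) (hC : ∀ b, V σ fun Ω _ _ x => S Ω x ∧ C b Ω x)
    (h : ∀ (Ω : Type) [Field Ω] [IsAlgClosed Ω] [Algebra k Ω] x, S Ω x → ∃ b, C b Ω x) :
    V σ S := by
  refine hV.strat (τ := Empty) (S' := fun _ _ _ _ => False) C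
    (fun Ω _ _ x => ∀ b, ¬ C b Ω x) (Φ := fun _ _ _ _ _ => 0) ?_ hS hC
    (hV.empty isCl_false fun _ _ _ _ _ hx => hx) (fun _ _ _ _ _ => Iff.rfl)
    (fun _ _ _ _ hy => hy.elim) ?_ ?_
  · intro R R' _ _ _ _ f y a
    exact map_zero f
  · intro Ω _ _ _ x hx hG
    obtain ⟨b, hb⟩ := h Ω x hx
    exact (hG b hb).elim
  · intro O Ω κ _ _ _ _ _ _ _ _ _ _ _ π _ y x hy
    exact hy.elim

/-- finite surjective images -/
theorem IsCls.fin (hV : IsCls V) [Finite τ] {S : Fam k σ} {S' : Fam k τ} {Φ : PMap k τ σ}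
    (hΦ : IsNat Φ) (hS : IsCl S) (hS' : V τ S')
    (map : ∀ (Ω : Type) [Field Ω] [Algebra k Ω] y, S' Ω y → S Ω (Φ Ω y))
    (lift : ∀ (Ω : Type) [Field Ω] [IsAlgClosed Ω] [Algebra k Ω] x, S Ω x →
      ∃ y, S' Ω y ∧ Φ Ω y = x)
    (val : ValCrit S' (fun _ _ _ _ => True) Φ) : V σ S := by
  refine hV.strat (β := Empty) (fun b => b.elim) (fun _ _ _ _ => True) hΦ hS (fun b => b.elim) hS'
    (fun _ _ _ _ _ => ⟨fun _ b => b.elim, fun _ => trivial⟩)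
    (fun Ω _ _ y hy => ⟨map Ω y hy, trivial⟩) (fun Ω _ _ _ x hx _ => lift Ω x hx) ?_
  intro O Ω κ _ _ _ _ _ _ _ _ _ _ _ π hπ y x hy hx _ t
  exact val O Ω κ π hπ y x hy hx trivial t

/-- a polynomial surjection with a polynomial left inverse -/
theorem IsCls.iso (hV : IsCls V) [Finite τ] {S : Fam k σ} {S' : Fam k τ} {Φ : PMap k τ σ}
    {Ψ : PMap k σ τ} (hΦ : IsNat Φ) (hΨ : IsNat Ψ) (hS : IsCl S) (hS' : V τ S')
    (map : ∀ (Ω : Type) [Field Ω] [Algebra k Ω] y, S' Ω y → S Ω (Φ Ω y) ∧ Ψ Ω (Φ Ω y) = y)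
    (lift : ∀ (Ω : Type) [Field Ω] [Algebra k Ω] x, S Ω x → ∃ y, S' Ω y ∧ Φ Ω y = x) :
    V σ S := by
  refine hV.fin hΦ hS hS' (fun Ω _ _ y hy => (map Ω y hy).1) (fun Ω _ _ _ x hx => lift Ω x hx) ?_
  intro O Ω κ _ _ _ _ _ _ _ _ _ _ _ π _ y x hy hx _ t
  refine ⟨Ψ O x t, ?_⟩
  have h1 := hΨ O Ω (IsScalarTower.toAlgHom k O Ω) x t
  have h2 : (fun a => IsScalarTower.toAlgHom k O Ω (x a)) = Φ Ω y := funext hx
  rw [h2, (map Ω y hy).2] at h1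
  exact h1

/-- mutually inverse polynomial maps -/
theorem IsCls.iso' (hV : IsCls V) [Finite τ] {S : Fam k σ} {S' : Fam k τ} {Φ : PMap k τ σ}
    {Ψ : PMap k σ τ} (hΦ : IsNat Φ) (hΨ : IsNat Ψ) (hS : IsCl S) (hS' : V τ S')
    (map : ∀ (Ω : Type) [Field Ω] [Algebra k Ω] y, S' Ω y → S Ω (Φ Ω y) ∧ Ψ Ω (Φ Ω y) = y)
    (map' : ∀ (Ω : Type) [Field Ω] [Algebra k Ω] x, S Ω x → S' Ω (Ψ Ω x) ∧ Φ Ω (Ψ Ω x) = x) :
    V σ S :=
  hV.iso hΦ hΨ hS hS' map fun Ω _ _ x hx => ⟨Ψ Ω x, map' Ω x hx⟩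

/-- the closed part `g = 0`, and a parametrisation of the open part; the inverse map is polynomial
in the point and the inverse of `g` -/
theorem IsCls.split (hV : IsCls V) [Finite τ] {S : Fam k σ} {S' : Fam k τ} {g : PFun k σ}
    {Φ : PMap k τ σ} {Ψ : PMap k (Option σ) τ} (hg : IsNatF g) (hΦ : IsNat Φ) (hΨ : IsNat Ψ)
    (hS : IsCl S) (h0 : V σ fun Ω _ _ x => S Ω x ∧ g Ω x = 0) (hS' : V τ S')
    (map : ∀ (Ω : Type) [Field Ω] [Algebra k Ω] y, S' Ω y → S Ω (Φ Ω y) ∧ g Ω (Φ Ω y) ≠ 0 ∧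
      Ψ Ω (fun o => o.elim (g Ω (Φ Ω y))⁻¹ (Φ Ω y)) = y)
    (lift : ∀ (Ω : Type) [Field Ω] [Algebra k Ω] x, S Ω x → g Ω x ≠ 0 →
      ∃ y, S' Ω y ∧ Φ Ω y = x) : V σ S := by
  refine hV.strat (β := Unit) (fun _ Ω _ _ x => g Ω x = 0) (fun Ω _ _ x => g Ω x ≠ 0) hΦ hS
    (fun _ => h0) hS' (fun _ _ _ _ _ => ⟨fun h _ => h, fun h => h ()⟩)
    (fun Ω _ _ y hy => ⟨(map Ω y hy).1, (map Ω y hy).2.1⟩)
    (fun Ω _ _ _ x hx hG => lift Ω x hx hG) ?_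
  intro O Ω κ _ _ _ _ _ _ _ _ _ _ _ π hπ y x hy hx hG t
  have hu : IsUnit (g O x) := hπ _ (by rw [hg O κ π x]; exact hG.2)
  obtain ⟨u, hu⟩ := hu
  have h2 : (fun a => IsScalarTower.toAlgHom k O Ω (x a)) = Φ Ω y := funext hx
  have h3 : algebraMap O Ω (u : O) = g Ω (Φ Ω y) := by
    have := hg O Ω (IsScalarTower.toAlgHom k O Ω) x
    rw [h2] at this
    rw [hu]
    exact this
  have h4 : algebraMap O Ω ((u⁻¹ : Oˣ) : O) = (g Ω (Φ Ω y))⁻¹ := by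
    apply eq_inv_of_mul_eq_one_left
    rw [← h3, ← map_mul, Units.inv_mul, map_one]
  refine ⟨Ψ O (fun o => o.elim ((u⁻¹ : Oˣ) : O) x) t, ?_⟩
  have h1 := hΨ O Ω (IsScalarTower.toAlgHom k O Ω) (fun o => o.elim ((u⁻¹ : Oˣ) : O) x) t
  have h5 : (fun o : Option σ => IsScalarTower.toAlgHom k O Ω (o.elim ((u⁻¹ : Oˣ) : O) x)) =
      fun o => o.elim (g Ω (Φ Ω y))⁻¹ (Φ Ω y) := by
    funext o
    cases o with
    | none => exact h4
    | some a => exact hx a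
  rw [h5, (map Ω y hy).2.2] at h1
  exact h1

omit [Finite σ] in
/-- a choice of coordinates is a polynomial map -/
theorem isNat_pre (f : σ → τ) : IsNat (fun _ _ _ y a => y (f a) : PMap k τ σ) :=
  fun _ _ _ _ _ _ _ _ _ => rfl

omit [Finite σ] in
theorem isCl_pre {S : Fam k σ} (h : IsCl S) (f : σ → τ) :
    IsCl (fun Ω _ _ y => S Ω fun a => y (f a) : Fam k τ) :=
  h.comp (isNat_pre f)

/-- renaming the coordinates -/
theorem IsCls.reindex (hV : IsCls V) [Finite τ] (e : τ ≃ σ) {S : Fam k τ} (h : V τ S) :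
    V σ fun Ω _ _ x => S Ω fun a => x (e a) := by
  refine hV.iso' (Φ := fun _ _ _ y a => y (e.symm a)) (Ψ := fun _ _ _ x a => x (e a))
    (isNat_pre _) (isNat_pre _) (isCl_pre (hV.isCl h) _) h ?_ ?_
  · intro Ω _ _ y hy
    simpa using hy
  · intro Ω _ _ x hx
    exact ⟨hx, by simp⟩

/-- free additional coordinates -/
theorem IsCls.inj (hV : IsCls V) [Finite τ] (f : τ → σ) (hf : Injective f) {S : Fam k τ}
    (h : V τ S) : V σ fun Ω _ _ x => S Ω fun a => x (f a) := by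
  classical
  have h1 := hV.reindex (((Equiv.ofInjective f hf).sumCongr (Equiv.refl _)).trans
    (Equiv.Set.sumCompl (Set.range f))) (hV.prod (τ := ((Set.range f)ᶜ : Set σ)) h)
  exact h1

end Pool.Agent.MP_c1eb4d_ag
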