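import Pool.Agent.MP_a9d3bd_ag.Defs

open MvPolynomial TensorProduct Matrix

namespace Pool.Agent.MP_c1eb4d_ag

open Pool.Agent.MP_a9d3bd_ag

/-- A closed subscheme `V(I)` of `Spec A × 𝔸²` is a family of closed subschemes of `Spec A`; this
is the ideal of its member at the point `w` of the plane. -/
noncomputable def fibre (k L : Type) {A : Type} [Field k] [Field L] [Algebra k L] [CommRing A]
    [Algebra k A] (I : Ideal (MvPolynomial (Fin 2) A)) (w : Fin 2 → L) : Ideal (L ⊗[k] A) :=
  I.map (eval₂Hom (Algebra.TensorProduct.includeRight : A →ₐ[k] L ⊗[k] A).toRingHom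
    fun i => w i ⊗ₜ[k] (1 : A))

/-- the span of the pull-backs to `L` of the members of `T` of dimension `j` -/
noncomputable def constSpan (k L : Type) {A : Type} [Field k] [Field L] [Algebra k L] [CommRing A]
    [Algebra k A] (j : ℕ) (T : Finset (PrimeSpectrum A)) :
    Submodule ℚ (PrimeSpectrum (L ⊗[k] A) → ℚ) :=
  Submodule.span ℚ {z | ∃ P ∈ T, dim k P = j ∧
    z = cyc L j (P.asIdeal.map (Algebra.TensorProduct.includeRight : A →ₐ[k] L ⊗[k] A))}

/-- the span of the `j`-cycles of the members of the families in `Γ` at the `L`-points of the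
Hermitian curve `y ^ q + y = x ^ (q + 1)` -/
noncomputable def curveSpan (k L : Type) {A : Type} [Field k] [Field L] [Algebra k L] [CommRing A]
    [Algebra k A] (q j : ℕ) (Γ : Finset (Ideal (MvPolynomial (Fin 2) A))) :
    Submodule ℚ (PrimeSpectrum (L ⊗[k] A) → ℚ) :=
  Submodule.span ℚ {z | ∃ I ∈ Γ, ∃ w : Fin 2 → L, w 1 ^ q + w 1 = w 0 ^ (q + 1) ∧
    z = cyc L j (fibre k L I w)}

open Classical in
/-- `CH_j(Spec B) ⊗ ℚ` is spanned by the classes of the cycles in `W` and `W'` -/
def Spans (L : Type) {B : Type} [Field L] [CommRing B] [Algebra L B] (j : ℕ)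
    (W W' : Submodule ℚ (PrimeSpectrum B → ℚ)) : Prop :=
  ∀ Q : PrimeSpectrum B, dim L Q = j → Pi.single Q 1 ∈ RatZero L j ⊔ W ⊔ W'

/-- There are finitely many subvarieties `T` of `Spec A` and finitely many families `Γ` of closed
subschemes of `Spec A`, none if `c` holds, such that for every algebraically closed field `L` over
`k` and every `j` the group `CH_j(Spec A_L) ⊗ ℚ` is spanned by the pull-backs of the members of `T`
and the `j`-cycles of the members of the families at the `L`-points of the Hermitian curve. -/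
def CurveSpanned (k A : Type) [Field k] [CommRing A] [Algebra k A] (q : ℕ) (c : Prop) : Prop :=
  ∃ (T : Finset (PrimeSpectrum A)) (Γ : Finset (Ideal (MvPolynomial (Fin 2) A))), (c → Γ = ∅) ∧
    ∀ (L : Type) [Field L] [IsAlgClosed L] [Algebra k L] (j : ℕ),
      Spans L j (constSpan k L j T) (curveSpan k L q j Γ)

/-- The equations for a square matrix `e`: it is an idempotent of rank `r`, and the form
`(x, y) ↦ ∑ x_a ^ q N_ab y_b` vanishes on its image. -/
def ueqs {R σ : Type} [CommRing R] [Fintype σ] [DecidableEq σ] (q r : ℕ) (N e : Matrix σ σ R) :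
    Set R :=
  {p | ∃ a b, p = (e * e - e) a b} ∪
  {p | ∃ i, p = (e.charpoly -
    Polynomial.X ^ (Fintype.card σ - r) * (Polynomial.X - 1) ^ r).coeff i} ∪
  {p | ∃ a b, p = ((e.map (· ^ q))ᵀ * N * e) a b}

/-- The coordinate ring over `k` of the variety of the matrices `e` satisfying `ueqs`, for a matrix
`N` over the finite field `F`. -/
abbrev URing (k : Type) {F σ : Type} [Field F] [Field k] [Algebra F k] [Fintype σ]
    [DecidableEq σ] (q : ℕ) (N : Matrix σ σ F) (r : ℕ) : Type :=
  MvPolynomial (σ × σ) k ⧸ Ideal.span (ueqs q r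
    (N.map fun c => C (algebraMap F k c)) (Matrix.of fun a b => X (a, b)))

end Pool.Agent.MP_c1eb4d_ag
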