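import Pool.Agent.MP_c1eb4d_ag.UCls

open Function TensorProduct Matrix

namespace Pool.Agent.MP_c1eb4d_ag

open Pool.Agent.MP_a9d3bd_ag

/-- a matrix of rank at least `n` has `n` independent rows -/
theorem URank_rows {Ω α β : Type} [Field Ω] [Fintype α] [Fintype β] (M : Matrix α β Ω) (n : ℕ)
    (h : n ≤ M.rank) : ∃ s : Fin n → α, LinearIndependent Ω (M.submatrix s id).row := by
  rw [Matrix.rank_eq_finrank_span_row] at h
  obtain ⟨f, hf, -, hli⟩ := Submodule.exists_fun_fin_finrank_span_eq Ω (Set.range M.row)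
  choose g hg using hf
  refine ⟨fun i => g (Fin.castLE h i), ?_⟩
  have h1 := hli.comp (Fin.castLE h) (Fin.castLE_injective h)
  have h2 : (M.submatrix (fun i => g (Fin.castLE h i)) id).row = f ∘ Fin.castLE h := by
    funext i
    rw [Function.comp_apply, ← hg]
    rfl
  rwa [h2]

/-- the rank is bounded exactly if the minors vanish -/
theorem rank_le_iff {Ω α β : Type} [Field Ω] [Fintype α] [Fintype β] (M : Matrix α β Ω) (m : ℕ) :
    M.rank ≤ m ↔ ∀ (s : Fin (m + 1) → α) (t : Fin (m + 1) → β), (M.submatrix s t).det = 0 := by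
  constructor
  · intro h s t
    by_contra h0
    have hu : IsUnit (M.submatrix s t) :=
      (Matrix.isUnit_iff_isUnit_det _).2 (isUnit_iff_ne_zero.2 h0)
    have h1 := Matrix.rank_of_isUnit _ hu
    have h2 := Matrix.rank_submatrix_le M s t
    rw [h1, Fintype.card_fin] at h2
    omega
  · intro h
    by_contra h0
    obtain ⟨s, hs⟩ := URank_rows M (m + 1) (by omega)
    have h1 := hs.rank_matrix
    rw [Fintype.card_fin, ← Matrix.rank_transpose] at h1
    obtain ⟨t, ht⟩ := URank_rows (M.submatrix s id)ᵀ (m + 1) h1.ge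
    have h2 : IsUnit (((M.submatrix s id)ᵀ).submatrix t id) :=
      Matrix.linearIndependent_rows_iff_isUnit.1 ht
    have h3 : ((M.submatrix s id)ᵀ).submatrix t id = (M.submatrix s t)ᵀ := rfl
    rw [h3, Matrix.isUnit_iff_isUnit_det, Matrix.det_transpose, h s t] at h2
    exact not_isUnit_zero h2

theorem isCl_rank {k σ α β : Type} [Field k] [Fintype α] [Fintype β] {Φ : PMap k σ (α × β)}
    (hΦ : IsNat Φ) (m : ℕ) : IsCl (fun Ω _ _ x => (mt (Φ Ω x)).rank ≤ m : Fam k σ) := by
  have h : ∀ (s : Fin (m + 1) → α) (t : Fin (m + 1) → β),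
      IsCl (fun Ω _ _ x => ((mt (Φ Ω x)).submatrix s t).det = 0 : Fam k σ) := by
    intro s t
    refine isCl_eq (k := k) (σ := σ)
      (g := fun (R : Type) [CommRing R] [Algebra k R] x => ((mt (Φ R x)).submatrix s t).det)
      (g' := fun _ _ _ _ => 0) ?_ ?_
    · intro R R' _ _ _ _ f x
      have h1 := RingHom.map_det (f : R →+* R') ((mt (Φ R x)).submatrix s t)
      refine h1.trans ?_
      congr 1
      ext i j
      exact hΦ R R' f x (s i, t j)
    · intro R R' _ _ _ _ f x
      exact map_zero f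
  exact (IsCl.forall fun s => IsCl.forall fun t => h s t).congr
    fun Ω _ _ x => rank_le_iff _ m

theorem isCl_rkf {k σ : Type} [Field k] [Fintype σ] (ord : σ → ℕ) (f : ℕ → ℕ) :
    IsCl (fun _ _ _ x => ∀ t, rkf ord (mt x) t ≤ f t : Fam k (σ × σ)) := by
  refine IsCl.forall fun t => ?_
  refine isCl_rank (Φ := fun _ _ _ x a => if ord a.1 < t then x a else 0) ?_ (f t)
  intro R R' _ _ _ _ g y a
  by_cases h : ord a.1 < t
  · simp only [if_pos h]
  · simp only [if_neg h, map_zero]

end Pool.Agent.MP_c1eb4d_ag
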