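import Pool.Agent.MP_c1eb4d_ag.UI

open Function TensorProduct Matrix

namespace Pool.Agent.MP_c1eb4d_ag

open Pool.Agent.MP_a9d3bd_ag

variable {σ Ω : Type} [Fintype σ] [DecidableEq σ] [Field Ω] {ord : σ → ℕ}

omit [DecidableEq σ] in
theorem USchA_inv {κ : Type} [Fintype κ] [DecidableEq κ] (D : Matrix κ σ Ω)
    (h : LinearIndependent Ω D.row) : ∃ D' : Matrix σ κ Ω, D * D' = 1 := by
  classical
  have h1 : Injective (Matrix.toLin' Dᵀ) := fun x y e => Matrix.vecMul_injective_iff.2 h (by
    simpa only [Matrix.toLin'_apply, Matrix.mulVec_transpose] using e)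
  obtain ⟨g, hg⟩ := LinearMap.exists_leftInverse_of_injective _ (LinearMap.ker_eq_bot.2 h1)
  refine ⟨(LinearMap.toMatrix' g)ᵀ, ?_⟩
  have h2 := congrArg LinearMap.toMatrix' hg
  rw [LinearMap.toMatrix'_comp, LinearMap.toMatrix'_toLin', LinearMap.toMatrix'_id] at h2
  rw [← Matrix.transpose_transpose D, ← Matrix.transpose_mul, h2, Matrix.transpose_one]

theorem USchA_sel {κ μ : Type} (f : κ → σ) (M : Matrix σ μ Ω) :
    (1 : Matrix σ σ Ω).submatrix f id * M = M.submatrix f id := by
  ext i j
  simp [Matrix.mul_apply, Matrix.one_apply]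

/-- echelon factorisation -/
theorem sch_fact (ho : Injective ord) (e : Matrix σ σ Ω) :
    ∃ (π : Finset σ) (B : Matrix σ π Ω) (D : Matrix π σ Ω) (D' : Matrix σ π Ω),
      Ech ord Subtype.val B ∧ e = B * D ∧ D * D' = 1 := by
  classical
  obtain ⟨π, hπ⟩ : ∃ π : Finset σ, ∀ a, a ∈ π ↔
      e a ∉ Submodule.span Ω (e '' {b | ord b < ord a}) :=
    ⟨Finset.univ.filter fun a => e a ∉ Submodule.span Ω (e '' {b | ord b < ord a}),
      fun a => by rw [Finset.mem_filter, and_iff_right (Finset.mem_univ a)]⟩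
  have key : ∀ n a, ord a = n → ∃ c : π → Ω, (∀ j : π, ord a < ord j → c j = 0) ∧
      (∀ i : π, a = i → ∀ j, c j = if i = j then 1 else 0) ∧ e a = ∑ j, c j • e j := by
    intro n
    induction n using Nat.strong_induction_on with
    | _ n ih =>
      rintro a rfl
      by_cases ha : a ∈ π
      · refine ⟨fun j => if (⟨a, ha⟩ : π) = j then 1 else 0, fun j hj => if_neg ?_, ?_, ?_⟩
        · rintro rfl
          exact lt_irrefl _ hj
        · rintro i rfl j
          rfl
        · simp
      · have h1 := not_not.1 fun hh => ha ((hπ a).2 hh)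
        have h2 : ∀ v ∈ Submodule.span Ω (e '' {b | ord b < ord a}), ∃ c : π → Ω,
            (∀ j : π, ord a < ord j → c j = 0) ∧ v = ∑ j, c j • e j := fun v hv => by
          induction hv using Submodule.span_induction with
          | mem x hx =>
            obtain ⟨b, hb, rfl⟩ := hx
            obtain ⟨c, h3, -, h4⟩ := ih _ hb b rfl
            exact ⟨c, fun j hj => h3 j (lt_trans hb hj), h4⟩
          | zero => exact ⟨0, fun _ _ => rfl, by simp⟩
          | add x y _ _ hx hy =>
            obtain ⟨c, h3, rfl⟩ := hx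
            obtain ⟨d, h4, rfl⟩ := hy
            refine ⟨c + d, fun j hj => by rw [Pi.add_apply, h3 j hj, h4 j hj, add_zero], ?_⟩
            simp only [Pi.add_apply c d, add_smul, Finset.sum_add_distrib]
          | smul r x _ hx =>
            obtain ⟨c, h3, rfl⟩ := hx
            refine ⟨r • c, fun j hj => by rw [Pi.smul_apply, h3 j hj, smul_zero], ?_⟩
            simp only [Pi.smul_apply r c, smul_assoc, Finset.smul_sum]
        obtain ⟨c, h3, h4⟩ := h2 _ h1
        exact ⟨c, h3, fun i hi => absurd (hi ▸ i.2) ha, h4⟩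
  choose c h1 h2 h3 using fun a => key _ a rfl
  have hl : LinearIndependent Ω (e.submatrix (Subtype.val : π → σ) id).row := by
    rw [Fintype.linearIndependent_iff]
    intro g hg
    by_contra hh
    push Not at hh
    obtain ⟨j, hj, hm⟩ := Finset.exists_max_image (Finset.univ.filter fun j => g j ≠ 0)
      (fun j => ord j) (hh.imp fun j hj => by simpa using hj)
    rw [Finset.mem_filter] at hj
    refine (hπ j).1 j.2 ((Submodule.smul_mem_iff _ hj.2).1 ?_)
    rw [← Finset.add_sum_erase _ _ (Finset.mem_univ j), add_eq_zero_iff_eq_neg] at hg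
    change g j • e j = _ at hg
    rw [hg]
    refine neg_mem (sum_mem fun i hi => ?_)
    by_cases h0 : g i = 0
    · rw [h0, zero_smul]
      exact zero_mem _
    · refine Submodule.smul_mem _ _ (Submodule.subset_span ⟨i, ?_, rfl⟩)
      exact lt_of_le_of_ne (hm i (by simpa using h0)) fun e' =>
        (Finset.mem_erase.1 hi).1 (Subtype.ext (ho e'))
  obtain ⟨D', hD⟩ := USchA_inv _ hl
  refine ⟨π, Matrix.of c, _, D', ⟨fun i j => h2 i i rfl j, h1⟩, ?_, hD⟩
  ext a b
  rw [h3 a, Finset.sum_apply]
  rfl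

theorem sch_rkf (π : Finset σ) (B : Matrix σ π Ω) (D : Matrix π σ Ω) (D' : Matrix σ π Ω)
    (hB : Ech ord Subtype.val B) (hD : D * D' = 1) (t : ℕ) : rkf ord (B * D) t = cnt ord π t := by
  let Bt : Matrix σ π Ω := Matrix.of fun a j => if ord a < t then B a j else 0
  let P : Matrix π π Ω := Matrix.diagonal fun j => if ord j < t then 1 else 0
  have e1 : (Matrix.of fun a b => if ord a < t then (B * D) a b else 0 : Matrix σ σ Ω) =
      Bt * D := by
    ext a b
    by_cases h : ord a < t <;> simp [Bt, Matrix.mul_apply, h]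
  have e2 : Bt * P = Bt := by
    ext a j
    rw [Matrix.mul_diagonal]
    by_cases h : ord j < t
    · rw [if_pos h, mul_one]
    · rw [if_neg h, mul_zero]
      change 0 = if ord a < t then B a j else 0
      split_ifs with h'
      · exact (hB.2 a j (by omega)).symm
      · rfl
  have e3 : (1 : Matrix σ σ Ω).submatrix (Subtype.val : π → σ) id * (Bt * D) * D' = P := by
    rw [Matrix.mul_assoc, Matrix.mul_assoc, hD, Matrix.mul_one, USchA_sel]
    ext i j
    change (if ord i < t then B i j else 0) = if i = j then (if ord i < t then 1 else 0) else 0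
    rw [hB.1]
    split_ifs <;> rfl
  have e4 : P.rank = cnt ord π t := by
    classical
    rw [Matrix.rank_diagonal, Fintype.card_subtype, cnt, ← Finset.card_image_of_injective _
      Subtype.val_injective]
    congr 1
    ext a
    simp [and_comm]
  rw [rkf, e1, ← e4]
  refine le_antisymm ((Matrix.rank_mul_le_left _ _).trans ?_) ?_
  · rw [← e2]
    exact Matrix.rank_mul_le_right _ _
  · rw [← e3]
    exact (Matrix.rank_mul_le_left _ _).trans (Matrix.rank_mul_le_right _ _)

theorem sch_rank (π : Finset σ) (B : Matrix σ π Ω) (D : Matrix π σ Ω) (D' : Matrix σ π Ω)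
    (hB : Ech ord Subtype.val B) (hD : D * D' = 1) : (B * D).rank = π.card := by
  have h1 : ∀ a, ord a < Finset.univ.sup ord + 1 := fun a =>
    Nat.lt_succ_of_le (Finset.le_sup (Finset.mem_univ a))
  have h2 := sch_rkf π B D D' hB hD (Finset.univ.sup ord + 1)
  simp only [rkf, cnt, h1, if_true, Finset.filter_true] at h2
  exact h2

/-- for an idempotent the two factors are inverse to each other -/
theorem sch_idem (π : Finset σ) (B : Matrix σ π Ω) (D : Matrix π σ Ω) (D' : Matrix σ π Ω)
    (hB : Ech ord Subtype.val B) (hD : D * D' = 1) (h : B * D * (B * D) = B * D) : D * B = 1 := by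
  have e1 : (1 : Matrix σ σ Ω).submatrix (Subtype.val : π → σ) id * B = 1 := by
    rw [USchA_sel]
    ext i j
    exact (hB.1 i j).trans (Matrix.one_apply).symm
  have e2 := congrArg (fun M => (1 : Matrix σ σ Ω).submatrix (Subtype.val : π → σ) id * M * D') h
  simp only [← Matrix.mul_assoc, e1, Matrix.one_mul] at e2
  rwa [Matrix.mul_assoc, hD, Matrix.mul_one] at e2

omit [Fintype σ] [DecidableEq σ] in
theorem cnt_inj (ho : Injective ord) {π π' : Finset σ} (h : ∀ t, cnt ord π t = cnt ord π' t) :
    π = π' := by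
  have key : ∀ (s : Finset σ) a, a ∈ s ↔ cnt ord s (ord a) ≠ cnt ord s (ord a + 1) := by
    intro s a
    constructor
    · intro ha
      refine (Finset.card_lt_card ⟨fun b hb => ?_, fun hh => ?_⟩).ne
      · rw [Finset.mem_filter] at hb ⊢
        exact ⟨hb.1, Nat.lt_succ_of_lt hb.2⟩
      · exact lt_irrefl _ (Finset.mem_filter.1
          (hh (Finset.mem_filter.2 ⟨ha, Nat.lt_succ_self _⟩))).2
    · intro hh
      by_contra ha
      refine hh (congrArg Finset.card (Finset.filter_congr fun b hb => ?_))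
      have : ord b ≠ ord a := fun e => ha (ho e ▸ hb)
      omega
  ext a
  rw [key, key, h, h]

omit [DecidableEq σ] in
/-- the order on the pivot sets is well founded -/
theorem cnt_wf (ord : σ → ℕ) : ∃ μ : Finset σ → ℕ, ∀ π π' : Finset σ,
    (∀ t, cnt ord π' t ≤ cnt ord π t) → (∃ t, cnt ord π' t ≠ cnt ord π t) → μ π' < μ π := by
  obtain ⟨M, hM⟩ : ∃ M, ∀ a, ord a < M := ⟨Finset.univ.sup ord + 1, fun a =>
    Nat.lt_succ_of_le (Finset.le_sup (Finset.mem_univ a))⟩
  have h1 : ∀ (s : Finset σ) t, cnt ord s (min t M) = cnt ord s t := fun s t =>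
    congrArg Finset.card (Finset.filter_congr fun b _ => by rw [lt_min_iff, and_iff_left (hM b)])
  refine ⟨fun s => ∑ t ∈ Finset.range (M + 1), cnt ord s t, fun π π' h ⟨t, ht⟩ =>
    Finset.sum_lt_sum (fun t _ => h t) ⟨min t M, Finset.mem_range.2 (by omega), ?_⟩⟩
  rw [h1, h1]
  exact lt_of_le_of_ne (h t) ht

end Pool.Agent.MP_c1eb4d_ag
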