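import Pool.Agent.MP_c1eb4d_ag.UHf
import Pool.Agent.MP_c1eb4d_ag.USchA

open Function TensorProduct Matrix

namespace Pool.Agent.MP_c1eb4d_ag

open Pool.Agent.MP_a9d3bd_ag

variable {k F σ : Type} [Field k] [Field F] [Fintype F] [Algebra F k] [Fintype σ] [DecidableEq σ]
  {q : ℕ} {ord : σ → ℕ}

omit [Fintype σ] [DecidableEq σ] in
theorem USchC_piv {κ R : Type} [CommRing R] [Fintype κ] [DecidableEq κ] {pv : κ → σ}
    {B : Matrix σ κ R} (hB : Ech ord pv B) (w : κ → R) (i : κ) : (B *ᵥ w) (pv i) = w i := by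
  simp only [Matrix.mulVec, dotProduct, hB.1, ite_mul, one_mul, zero_mul, Finset.sum_ite_eq,
    Finset.mem_univ, if_true]

theorem sch_map (hq : Fintype.card F = q ^ 2) (N : Matrix σ σ F) (π : Finset σ) {Ω : Type}
    [Field Ω] [Algebra k Ω] {y : σ × π ⊕ π × σ → Ω} (hy : Pair k q N ord Subtype.val Ω y) :
    JU k q N π.card Ω (pairMap k σ π Ω y) ∧
      ∀ t, rkf ord (mt (pairMap k σ π Ω y)) t = cnt ord π t := by
  obtain ⟨⟨hE, hI⟩, hD⟩ := hy
  have e : mt (pairMap k σ π Ω y) =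
      mt (fun a => y (Sum.inl a)) * mt fun a => y (Sum.inr a) := rfl
  refine ⟨⟨?_, ?_, fun a b => hf_mul k hq N _ _ hI a b⟩, fun t => ?_⟩
  · rw [e, Matrix.mul_assoc, ← Matrix.mul_assoc (mt fun a => y (Sum.inr a)), hD, Matrix.one_mul]
  · rw [e]
    exact sch_rank π _ _ _ hE hD
  · rw [e]
    exact sch_rkf π _ _ _ hE hD t

theorem sch_lift (hq : Fintype.card F = q ^ 2) (ho : Injective ord) (N : Matrix σ σ F) {r : ℕ}
    {Ω : Type} [Field Ω] [Algebra k Ω] {x : σ × σ → Ω} (hx : JU k q N r Ω x) :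
    ∃ π : Finset σ, π.card = r ∧ (∀ t, rkf ord (mt x) t = cnt ord π t) ∧
      ∃ y, Pair k q N ord (Subtype.val : π → σ) Ω y ∧ pairMap k σ π Ω y = x := by
  obtain ⟨h1, h2, h3⟩ := hx
  obtain ⟨π, B, D, D', hB, e, hD⟩ := sch_fact ho (mt x)
  have hDB : D * B = 1 := sch_idem π B D D' hB hD (by rw [← e]; exact h1)
  have hb : mt x * B = B := by rw [e, Matrix.mul_assoc, hDB, Matrix.mul_one]
  refine ⟨π, ?_, fun t => ?_, Sum.elim (fun a => B a.1 a.2) fun a => D a.1 a.2,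
    ⟨⟨hB, fun i j => ?_⟩, hDB⟩, funext fun a => ?_⟩
  · rw [← h2, e, sch_rank π B D D' hB hD]
  · rw [e, sch_rkf π B D D' hB hD]
  · have h := hf_mul k hq N (mt x) B h3 i j
    rwa [hb] at h
  · exact (congrFun (congrFun e a.1) a.2).symm

theorem sch_val (hq : Fintype.card F = q ^ 2) (ho : Injective ord) (N : Matrix σ σ F)
    (π : Finset σ) (G : Fam k (σ × σ))
    (hG : ∀ (Ω : Type) [Field Ω] [Algebra k Ω] x, G Ω x →
      JU k q N π.card Ω x ∧ ∀ t, rkf ord (mt x) t = cnt ord π t) :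
    ValCrit (Pair k q N ord (Subtype.val : π → σ)) G (pairMap k σ π) := by
  intro O Ω κ _ _ _ _ _ _ _ _ _ _ _ ρ hρ y x hy hx hg
  obtain ⟨⟨hE, -⟩, hD⟩ := hy
  generalize hB : mt (fun a => y (Sum.inl a)) = B at hE hD
  have hx' : ∀ a b, algebraMap O Ω (x (a, b)) = (B * mt fun a => y (Sum.inr a)) a b :=
    fun a b => by rw [hx, ← hB]; rfl
  have inj := IsFractionRing.injective O Ω
  rintro (⟨a, j⟩ | ⟨j, b⟩)
  · by_contra hn
    obtain ⟨t, z, i₀, ht, hz, hv⟩ := val_scale (O := O) (fun a => B a j) fun h =>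
      hn (by rw [← hB] at h; exact h a)
    have h0 : ρ t = 0 := not_not.1 fun h => ht (hρ t h)
    have h1 : ∀ a, ∑ b, x (a, b) * z b = z a := fun a => inj (by
      have e : (B * (mt fun a => y (Sum.inr a)) * B) a j = B a j := by
        rw [Matrix.mul_assoc, hD, Matrix.mul_one]
      rw [map_sum, hv, ← e, Matrix.mul_apply, Finset.mul_sum]
      refine Finset.sum_congr rfl fun b _ => ?_
      rw [map_mul, hx', hv, mul_left_comm])
    have h2 : ∀ i : π, ρ (z i) = 0 := fun i => by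
      have e : z i = t * if i = j then 1 else 0 := inj (by
        rw [hv, hE.1, map_mul, apply_ite (algebraMap O Ω), map_one, map_zero])
      rw [e, map_mul, h0, zero_mul]
    obtain ⟨g1, g2⟩ := hG κ _ hg
    obtain ⟨π', -, g3, y', ⟨⟨g4, -⟩, -⟩, g5⟩ := sch_lift hq ho N g1
    obtain rfl : π' = π := cnt_inj ho fun t => (g3 t).symm.trans (g2 t)
    have h3 : (mt fun a => y' (Sum.inl a)) *ᵥ ((mt fun a => y' (Sum.inr a)) *ᵥ fun b => ρ (z b)) =
        fun b => ρ (z b) := by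
      rw [Matrix.mulVec_mulVec]
      funext a
      rw [← h1 a, map_sum]
      refine Finset.sum_congr rfl fun b _ => ?_
      rw [map_mul]
      exact congrArg (· * ρ (z b)) (congrFun g5 (a, b))
    have h4 : ((mt fun a => y' (Sum.inr a)) *ᵥ fun b => ρ (z b)) = 0 := funext fun i =>
      (USchC_piv g4 _ i).symm.trans ((congrFun h3 i).trans (h2 i))
    have h5 := congrFun h3 i₀
    rw [h4, Matrix.mulVec_zero, hz, map_one] at h5
    exact zero_ne_one h5
  · exact ⟨x (j, b), (hx' j b).trans (USchC_piv hE (fun i => y (Sum.inr (i, b))) j)⟩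

end Pool.Agent.MP_c1eb4d_ag
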