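import Pool.Agent.MP_c1eb4d_ag.USchB
import Pool.Agent.MP_c1eb4d_ag.USchC
import Pool.Agent.MP_c1eb4d_ag.URank

open Function TensorProduct Matrix

namespace Pool.Agent.MP_c1eb4d_ag

open Pool.Agent.MP_a9d3bd_ag

theorem USchD_cs {k F σ : Type} [Field k] [Field F] [Fintype F] [Algebra F k] [Fintype σ]
    [DecidableEq σ] {q : ℕ} {V : ∀ σ : Type, Fam k σ → Prop} (hV : IsCls V)
    (hq : Fintype.card F = q ^ 2) (N : Matrix σ σ F) {ord : σ → ℕ} (ho : Injective ord)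
    (h : ∀ π : Finset σ, V _ (Cell k q N ord (Subtype.val : π → σ))) (r : ℕ) (π : Finset σ)
    (hπ : π.card = r) : V (σ × σ) fun Ω _ _ x =>
      JU k q N r Ω x ∧ ∀ t, rkf ord (mt x) t ≤ cnt ord π t := by
  obtain ⟨μ, hμ⟩ := cnt_wf ord
  obtain ⟨n, hn⟩ : ∃ n, μ π = n := ⟨_, rfl⟩
  induction n using Nat.strong_induction_on generalizing π with
  | _ n ih =>
  subst hπ
  refine hV.strat (β := {π' : Finset σ // π'.card = π.card ∧
      (∀ t, cnt ord π' t ≤ cnt ord π t) ∧ ∃ t, cnt ord π' t ≠ cnt ord π t})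
    (fun b _ _ _ x => ∀ t, rkf ord (mt x) t ≤ cnt ord b.1 t)
    (fun _ _ _ x => ∀ t, rkf ord (mt x) t = cnt ord π t)
    (isNat_pairMap k (σ := σ) (κ := π))
    ((isCl_ju k N π.card).and (isCl_rkf ord (cnt ord π))) (fun b => ?_) (hV.pair N ord π (h π))
    ?_ ?_ ?_ ?_
  · refine hV.congr (ih _ (hn ▸ hμ π b.1 b.2.2.1 b.2.2.2) b.1 b.2.1 rfl) fun Ω _ _ x => ?_
    exact ⟨fun hx => ⟨hx.1.1, hx.2⟩,
      fun hx => ⟨⟨hx.1, fun t => (hx.2 t).trans (b.2.2.1 t)⟩, hx.2⟩⟩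
  · intro Ω _ _ x hx
    refine ⟨fun hG b hb => ?_, fun hb => ?_⟩
    · obtain ⟨t, ht⟩ := b.2.2.2
      exact ht (le_antisymm (b.2.2.1 t) ((hG t).ge.trans (hb t)))
    · obtain ⟨π', h1, h2, -⟩ := sch_lift hq ho N hx.1
      by_contra hc
      obtain ⟨t, ht⟩ := not_forall.1 hc
      exact hb ⟨π', h1, fun t => (h2 t).ge.trans (hx.2 t), t, fun e => ht ((h2 t).trans e)⟩
        fun t => (h2 t).le
  · intro Ω _ _ y hy
    obtain ⟨h1, h2⟩ := sch_map hq N π hy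
    exact ⟨⟨h1, fun t => (h2 t).le⟩, h2⟩
  · intro Ω _ _ _ x hx hG
    obtain ⟨π', -, h2, h3⟩ := sch_lift hq ho N hx.1
    obtain rfl : π' = π := cnt_inj ho fun t => (h2 t).symm.trans (hG t)
    exact h3
  · exact sch_val hq ho N π _ fun Ω _ _ x hx => ⟨hx.1.1, hx.2⟩

/-- decomposition into Schubert cells -/
theorem IsCls.sch {k F σ : Type} [Field k] [Field F] [Fintype F] [Algebra F k] [Fintype σ]
    [DecidableEq σ] {q : ℕ} {V : ∀ σ : Type, Fam k σ → Prop} (hV : IsCls V)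
    (hq : Fintype.card F = q ^ 2) (N : Matrix σ σ F) {ord : σ → ℕ} (ho : Injective ord) (r : ℕ)
    (h : ∀ π : Finset σ, V _ (Cell k q N ord (Subtype.val : π → σ))) : V _ (JU k q N r) := by
  refine hV.cover (β := {π : Finset σ // π.card = r})
    (fun b _ _ _ x => ∀ t, rkf ord (mt x) t ≤ cnt ord b.1 t) (isCl_ju k N r)
    (fun b => USchD_cs hV hq N ho h r b.1 b.2) fun Ω _ _ _ x hx => ?_
  obtain ⟨π, h1, h2, -⟩ := sch_lift hq ho N hx
  exact ⟨⟨π, h1⟩, fun t => (h2 t).le⟩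

end Pool.Agent.MP_c1eb4d_ag
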