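import Pool.Agent.MP_c1eb4d_ag.UStep
import Pool.Agent.MP_c1eb4d_ag.UCellM
import Pool.Agent.MP_c1eb4d_ag.UCellL
import Pool.Agent.MP_c1eb4d_ag.UCellR
import Pool.Agent.MP_c1eb4d_ag.USchD
import Pool.Agent.MP_c1eb4d_ag.UBasis

open Function TensorProduct Matrix

namespace Pool.Agent.MP_c1eb4d_ag

open Pool.Agent.MP_a9d3bd_ag

theorem IsCls.ju {k F σ : Type} [Field k] [Field F] [Fintype F] [Algebra F k] [Fintype σ]
    [DecidableEq σ] {q : ℕ} {V : ∀ σ : Type, Fam k σ → Prop} (hV : IsCls V)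
    (hq : Fintype.card F = q ^ 2) (N : Matrix σ σ F) (hN : ∀ a b, N a b ^ q = N b a)
    (hd : N.det ≠ 0) (hC : Even (Fintype.card σ) ∨ Curve V q) (r : ℕ) : V _ (JU k q N r) := by
  obtain ⟨a, e, G, G', he, hev, h1, h2, h3⟩ := witt_nd hq N hN hd
  have hsub : Subsingleton (Fin e) := ⟨fun i j => Fin.ext (by omega)⟩
  have hE : IsEmpty (Fin e) ∨ Curve V q := hC.imp_left fun h => by
    rw [hev h]
    infer_instance
  have hq0 : 0 < q := lt_of_lt_of_le two_pos (ff_two_le hq)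
  refine hV.ju_basis hq N r G G' h1 h2 ?_
  rw [h3]
  have hM : ∀ p : Fin a, p.val < a := fun p => p.2
  refine hV.sch hq _ (nord_inj Fin.val Fin.val_injective a hM) r fun π => ?_
  refine hV.cell_adapt hq0 Fin.val Fin.val_injective a hM _ Subtype.val_injective ?_
  intro I J C _ _ _ _ _ _ o ho
  exact hV.fin isNat_cellMap (isCl_cell k _ _ _) (hV.hat hq hE o)
    (fun Ω _ _ y hy => cell_map hq o a ho hy) (fun Ω _ _ _ x hx => cell_lift hq o a ho hx)
    (cell_val hq _)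

end Pool.Agent.MP_c1eb4d_ag
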