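import Pool.Agent.MP_c1eb4d_ag.UPair
import Pool.Agent.MP_c1eb4d_ag.UFF

open Function TensorProduct Matrix

namespace Pool.Agent.MP_c1eb4d_ag

open Pool.Agent.MP_a9d3bd_ag

variable {F I : Type} [Field F] [Fintype F] [Fintype I] {q : ℕ}

theorem UHC0_swap {R : Type} [AddCommMonoid R] (f : I × I → R) :
    ∑ a : I × I, f (a.2, a.1) = ∑ a : I × I, f a :=
  Equiv.sum_comp (Equiv.prodComm I I) f

theorem UHC0_core {R : Type} [CommRing R] (φ : R →+* R) (T A : I × I → R)
    (hT : ∀ i i', φ (T (i, i')) = T (i', i)) :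
    φ (∑ a : I × I, T a * A (a.2, a.1)) + ∑ a : I × I, T a * A (a.2, a.1) =
      ∑ a : I × I, T a * (φ (A a) + A (a.2, a.1)) := by
  have h1 : φ (∑ a : I × I, T a * A (a.2, a.1)) = ∑ a : I × I, T a * φ (A a) := by
    rw [map_sum, ← UHC0_swap fun a => T a * φ (A a)]
    exact Finset.sum_congr rfl fun a _ => by rw [map_mul, hT a.1 a.2]
  rw [h1, ← Finset.sum_add_distrib]
  exact Finset.sum_congr rfl fun a _ => by ring

open Classical in
theorem UHC0_single {R : Type} [CommRing R] (φ : R →+* R) (B : I × I → R) (b : I × I) (y : R) :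
    ∑ a : I × I, φ ((Pi.single b y : I × I → R) a) * B a = φ y * B b := by
  rw [Finset.sum_eq_single b]
  · simp
  · intro a _ ha
    simp [Pi.single_eq_of_ne ha]
  · simp

open Classical in
/-- the group of anti-Hermitian matrices and the kernels of the Hermitian matrices -/
theorem hc_group (hq : Fintype.card F = q ^ 2) :
    ∃ (G : AddSubgroup (I × I → F)) (H : (I × I → F) → Subgroup (Multiplicative G)),
      (∀ g, g ∈ G ↔ ∀ i i', g (i, i') ^ q + g (i', i) = 0) ∧
      (∀ Y g, g ∈ H Y ↔
        ∑ a : I × I, (Y a + Y (a.2, a.1) ^ q) * (g.toAdd : I × I → F) (a.2, a.1) = 0) ∧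
      ∀ a : Multiplicative G → ℚ, (∀ Y, ∑ h : H Y, a h = 0) → a 1 = 0 := by
  obtain ⟨φ, hφ⟩ := ff_conj hq
  have hφφ : ∀ c, φ (φ c) = c := fun c => by rw [hφ, hφ, ff_qq hq]
  let G : AddSubgroup (I × I → F) :=
    { carrier := {g | ∀ i i', φ (g (i, i')) + g (i', i) = 0}
      zero_mem' := fun i i' => by simp
      add_mem' := fun {g g'} hg hg' i i' => by
        have h1 := hg i i'
        have h2 := hg' i i'
        simp only [Pi.add_apply, map_add]
        linear_combination h1 + h2
      neg_mem' := fun {g} hg i i' => by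
        have h1 := hg i i'
        simp only [Pi.neg_apply, map_neg]
        linear_combination -h1 }
  let β : (I × I → F) →+ G →+ F := AddMonoidHom.mk'
    (fun Y => AddMonoidHom.mk'
      (fun g => ∑ a : I × I, (Y a + φ (Y (a.2, a.1))) * (g : I × I → F) (a.2, a.1))
      fun g g' => by
        rw [← Finset.sum_add_distrib]
        exact Finset.sum_congr rfl fun a _ => by
          simp only [AddSubgroup.coe_add, Pi.add_apply]; ring)
    fun Y Y' => by
      ext g
      simp only [AddMonoidHom.mk'_apply, AddMonoidHom.add_apply]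
      rw [← Finset.sum_add_distrib]
      exact Finset.sum_congr rfl fun a _ => by
        simp only [Pi.add_apply, map_add]; ring
  have hβ : ∀ Y (g : G), β Y g =
      ∑ a : I × I, (Y a + φ (Y (a.2, a.1))) * (g : I × I → F) (a.2, a.1) := fun _ _ => rfl
  let Z₀ : AddSubgroup F :=
    { carrier := {d | φ d + d = 0}
      zero_mem' := by simp
      add_mem' := fun {g g'} hg hg' => by
        have h1 : φ g + g = 0 := hg
        have h2 : φ g' + g' = 0 := hg'
        change φ (g + g') + (g + g') = 0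
        rw [map_add]
        linear_combination h1 + h2
      neg_mem' := fun {g} hg => by
        have h1 : φ g + g = 0 := hg
        change φ (-g) + -g = 0
        rw [map_neg]
        linear_combination -h1 }
  have hZ : Z₀ ≠ ⊥ := by
    obtain ⟨θ, h0, h1⟩ := ff_anti hq
    intro h
    have : θ ∈ Z₀ := by
      change φ θ + θ = 0
      rw [hφ]; exact h1
    rw [h] at this
    exact h0 (AddSubgroup.mem_bot.1 this)
  have hr : ∀ g : G, g ≠ 0 → (β.flip g).range = Z₀ := by
    intro g hg
    have hG : ∀ i i', φ ((g : I × I → F) (i, i')) + (g : I × I → F) (i', i) = 0 := g.2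
    ext d
    constructor
    · rintro ⟨Y, rfl⟩
      change φ (β Y g) + β Y g = 0
      rw [hβ, UHC0_core φ (fun a => Y a + φ (Y (a.2, a.1))) g
        fun i i' => by rw [map_add, hφφ, add_comm]]
      exact Finset.sum_eq_zero fun a _ => by rw [hG a.1 a.2, mul_zero]
    · intro hd
      have hd' : d ^ q + d = 0 := by rw [← hφ]; exact hd
      obtain ⟨z, hz⟩ := ff_h90 hq hd'
      obtain ⟨⟨i', i⟩, hb⟩ : ∃ b, (g : I × I → F) b ≠ 0 := by
        by_contra hc
        push Not at hc
        exact hg (Subtype.ext (funext hc))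
      refine ⟨Pi.single (i, i') (z / (g : I × I → F) (i', i)), ?_⟩
      change β _ g = d
      rw [hβ]
      simp only [add_mul]
      rw [Finset.sum_add_distrib,
        UHC0_swap fun a => φ ((Pi.single (i, i') (z / (g : I × I → F) (i', i)) : I × I → F) a) *
          (g : I × I → F) a, UHC0_single φ]
      have h1 := UHC0_single (RingHom.id F) (fun a : I × I => (g : I × I → F) (a.2, a.1)) (i, i')
        (z / (g : I × I → F) (i', i))
      simp only [RingHom.id_apply] at h1
      rw [h1, div_mul_cancel₀ _ hb, ← hz, ← hφ]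
      have h2 : (g : I × I → F) (i, i') = -φ ((g : I × I → F) (i', i)) := by
        linear_combination hG i' i
      rw [h2, mul_neg, ← map_mul, div_mul_cancel₀ _ hb]
      ring
  obtain ⟨H, hH, hH'⟩ := pair_hc β Z₀ hZ hr
  refine ⟨G, H, fun g => ?_, fun Y g => ?_, ?_⟩
  · simp only [← hφ]
    rfl
  · rw [hH, hβ]
    simp only [hφ]
  · intro a ha
    refine hH' a fun l => ?_
    convert ha l

/-- a nonzero Hermitian matrix takes every anti-invariant value -/
theorem hc_surj (hq : Fintype.card F = q ^ 2) (T : I × I → F)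
    (hT : ∀ i i', T (i, i') ^ q = T (i', i)) (h0 : T ≠ 0) {d : F} (hd : d ^ q + d = 0) :
    ∃ g : I × I → F, (∀ i i', g (i, i') ^ q + g (i', i) = 0) ∧
      ∑ a : I × I, T a * g (a.2, a.1) = d := by
  classical
  obtain ⟨φ, hφ⟩ := ff_conj hq
  have hφφ : ∀ c, φ (φ c) = c := fun c => by rw [hφ, hφ, ff_qq hq]
  obtain ⟨z, hz⟩ := ff_h90 hq hd
  obtain ⟨⟨i, i'⟩, hb⟩ : ∃ b, T b ≠ 0 := by
    by_contra hc
    push Not at hc
    exact h0 (funext hc)
  set Y : I × I → F := Pi.single (i', i) (z / T (i, i')) with hY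
  refine ⟨fun a => Y a - φ (Y (a.2, a.1)), fun j j' => ?_, ?_⟩
  · rw [← hφ, map_sub, hφφ]
    ring
  · have e : ∀ a : I × I, T a * (Y (a.2, a.1) - φ (Y a)) =
        Y (a.2, a.1) * T a - φ (Y a) * T a := fun a => by ring
    simp only [Prod.mk.eta, e]
    have h1 := UHC0_single (RingHom.id F) (fun a : I × I => T (a.2, a.1)) (i', i) (z / T (i, i'))
    simp only [RingHom.id_apply] at h1
    have h2 := UHC0_swap fun a : I × I => Y a * T (a.2, a.1)
    simp only [Prod.mk.eta] at h2
    rw [Finset.sum_sub_distrib, h2, hY, h1, UHC0_single φ, div_mul_cancel₀ _ hb, ← hT i i', ← hφ,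
      ← map_mul, div_mul_cancel₀ _ hb, hφ, hz]

variable (k : Type) [Field k] [Algebra F k]

theorem hc_pair (hq : Fintype.card F = q ^ 2) (T : I × I → F)
    (hT : ∀ i i', T (i, i') ^ q = T (i', i)) {R : Type} [CommRing R] [Algebra k R]
    (A : I × I → R) :
    (∑ a : I × I, cF k R (T a) * A (a.2, a.1)) ^ q + ∑ a : I × I, cF k R (T a) * A (a.2, a.1) =
      ∑ a : I × I, cF k R (T a) * (A a ^ q + A (a.2, a.1)) := by
  obtain ⟨φ, hφ⟩ := ff_frob k hq R
  simp only [← hφ]
  exact UHC0_core φ (fun a => cF k R (T a)) A fun i i' => by rw [hφ, ← map_pow, hT]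

omit [Fintype I] in
include k in
theorem hc_solve (hq : Fintype.card F = q ^ 2) {Ω : Type} [Field Ω] [IsAlgClosed Ω] [Algebra k Ω]
    (t : I × I → Ω) : ∃ A : I × I → Ω, ∀ i i', A (i, i') ^ q + A (i', i) = t (i, i') := by
  choose Y hY using fun a : I × I =>
    Lang_root (Ω := Ω) (Fintype.one_lt_card (α := F)) (-t (a.2, a.1))
  refine ⟨fun a => Y a - Y (a.2, a.1) ^ q, fun i i' => ?_⟩
  have h1 := hY (i', i)
  rw [ff_pow_card hq] at h1
  simp only
  rw [ff_sub k hq]
  linear_combination -h1

omit [Fintype I] in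
theorem hc_rat (hq : Fintype.card F = q ^ 2) {Ω : Type} [Field Ω] [Algebra k Ω]
    (A : I × I → Ω) (h : ∀ i i', A (i, i') ^ q + A (i', i) = 0) :
    ∃ g : I × I → F, (∀ i i', g (i, i') ^ q + g (i', i) = 0) ∧ ∀ a, cF k Ω (g a) = A a := by
  have h1 : ∀ a : I × I, ∃ c : F, cF k Ω c = A a := fun a => by
    apply fix_rat k
    have e : A a ^ q = -A (a.2, a.1) := by linear_combination h a.1 a.2
    rw [ff_pow_card hq, e, ff_neg k hq]
    linear_combination -h a.2 a.1
  choose g hg using h1
  refine ⟨g, fun i i' => (cF k Ω).injective ?_, hg⟩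
  rw [map_add, map_pow, hg, hg, map_zero, h]

omit [Fintype I] in
include k in
theorem hc_val (hq : Fintype.card F = q ^ 2) {O Ω : Type} [CommRing O] [IsDomain O]
    [ValuationRing O] [Field Ω] [Algebra k Ω] [Algebra O Ω] [IsFractionRing O Ω]
    (A : I × I → Ω) (t : I × I → O)
    (h : ∀ i i', A (i, i') ^ q + A (i', i) = algebraMap O Ω (t (i, i'))) (a : I × I) :
    ∃ o : O, algebraMap O Ω o = A a := by
  refine val_lang (Fintype.one_lt_card (α := F)) (a := t a ^ q - t (a.2, a.1)) ?_
  have e : A a ^ q = algebraMap O Ω (t a) - A (a.2, a.1) := by linear_combination h a.1 a.2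
  rw [ff_pow_card hq, e, ff_sub k hq, map_sub, map_pow]
  linear_combination -h a.2 a.1

end Pool.Agent.MP_c1eb4d_ag
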