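import Pool.Agent.MP_c1eb4d_ag.UCls
import Pool.Agent.MP_c1eb4d_ag.UHC0

open Function TensorProduct Matrix

namespace Pool.Agent.MP_c1eb4d_ag

open Pool.Agent.MP_a9d3bd_ag

/-- a Hermitian cover from its quotients -/
theorem IsCls.hcov {k : Type} [Field k] {V : ∀ σ : Type, Fam k σ → Prop} (hV : IsCls V)
    {F σ I : Type} [Field F] [Fintype F] [Algebra F k] {q : ℕ} (hq : Fintype.card F = q ^ 2)
    [Finite σ] [Fintype I] {S : Fam k σ} (t : PMap k σ (I × I)) (ht : IsNat t) (hS : V σ S)
    (hT : ∀ T : I × I → F, (∀ i i', T (i, i') ^ q = T (i', i)) → T ≠ 0 →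
      V (Option σ) fun Ω _ _ x => S Ω (fun a => x (some a)) ∧
        x none ^ q + x none = ∑ a : I × I, cF k Ω (T a) * t Ω (fun a => x (some a)) a) :
    V (σ ⊕ I × I) (HCov k q S t) := by
  classical
  obtain ⟨G, H, hG, hH, hc⟩ := hc_group (I := I) hq
  obtain ⟨φ, hφ⟩ := ff_conj hq
  have hq0 : q ≠ 0 := by have := ff_two_le hq; omega
  let T : (I × I → F) → I × I → F := fun Y a => Y a + Y (a.2, a.1) ^ q
  have hTY : ∀ Y i i', T Y (i, i') ^ q = T Y (i', i) := by
    intro Y i i'
    change (Y (i, i') + Y (i', i) ^ q) ^ q = Y (i', i) + Y (i, i') ^ q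
    rw [← hφ, map_add, hφ, hφ, ff_qq hq, add_comm]
  have hinl : IsNat (fun _ _ _ y a => y (Sum.inl a) : PMap k (σ ⊕ I × I) σ) := isNat_pre _
  have hsome : IsNat (fun _ _ _ y a => y (some a) : PMap k (Option σ) σ) := isNat_pre _
  have hcl : IsCl (HCov k q S t) := by
    refine (isCl_pre (hV.isCl hS) Sum.inl).and
      (IsCl.forall fun i => IsCl.forall fun i' => isCl_eq
        (g := fun _ _ _ x => x (Sum.inr (i, i')) ^ q + x (Sum.inr (i', i)))
        (g' := fun R i1 i2 x => @t R i1 i2 (fun a => x (Sum.inl a)) (i, i')) ?_ ?_)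
    · intro R R' _ _ _ _ f y
      simp only [map_add, map_pow]
    · intro R R' _ _ _ _ f y
      exact ht R R' f _ _
  have hshift : ∀ (g : I × I → F), (∀ i i', g (i, i') ^ q + g (i', i) = 0) →
      ∀ (Ω : Type) [Field Ω] [Algebra k Ω] (A : I × I → Ω) i i',
        (A (i, i') + cF k Ω (g (i, i'))) ^ q + (A (i', i) + cF k Ω (g (i', i))) =
          A (i, i') ^ q + A (i', i) := by
    intro g hg Ω _ _ A i i'
    have h1 := congrArg (cF k Ω) (hg i i')
    rw [map_add, map_zero, ← ff_cF] at h1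
    rw [ff_add k hq]
    linear_combination h1
  have hsum : ∀ (Y g : I × I → F) (Ω : Type) [Field Ω] [Algebra k Ω] (A : I × I → Ω),
      ∑ a : I × I, cF k Ω (T Y a) * (A (a.2, a.1) + cF k Ω (g (a.2, a.1))) =
        ∑ a : I × I, cF k Ω (T Y a) * A (a.2, a.1) +
          cF k Ω (∑ a : I × I, T Y a * g (a.2, a.1)) := by
    intro Y g Ω _ _ A
    rw [map_sum, ← Finset.sum_add_distrib]
    refine Finset.sum_congr rfl fun a _ => ?_
    rw [map_mul, mul_add]
  have hpair : ∀ (Y : I × I → F) (Ω : Type) [Field Ω] [Algebra k Ω] (A B : I × I → Ω),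
      (∀ i i', A (i, i') ^ q + A (i', i) = B (i, i')) →
      (∑ a : I × I, cF k Ω (T Y a) * A (a.2, a.1)) ^ q +
        ∑ a : I × I, cF k Ω (T Y a) * A (a.2, a.1) = ∑ a : I × I, cF k Ω (T Y a) * B a := by
    intro Y Ω _ _ A B h
    rw [hc_pair k hq (T Y) (hTY Y) A]
    refine Finset.sum_congr rfl fun a _ => ?_
    rw [h a.1 a.2]
  refine hV.gal (G := Multiplicative G) (σ := Option σ)
    (fun g R _ _ x => Sum.elim (fun a => x (Sum.inl a))
      fun a => x (Sum.inr a) + cF k R ((g.toAdd : I × I → F) a)) H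
    (fun Y Ω _ _ x => (S Ω (fun a => x (some a)) ∧ x none ^ q + x none =
      ∑ a : I × I, cF k Ω (T Y a) * t Ω (fun a => x (some a)) a) ∧ (T Y = 0 → x none = 0))
    (fun Y R _ _ x o => o.elim (∑ a : I × I, cF k R (T Y a) * x (Sum.inr (a.2, a.1)))
      fun a => x (Sum.inl a)) hcl ?_ ?_ ?_ ?_ ?_ ?_ ?_ ?_ ?_ ?_ ?_ ?_
  · intro g R R' _ _ _ _ f y a
    cases a with
    | inl a => rfl
    | inr a => simp only [Sum.elim_inr, map_add, cF_map]
  · intro R _ _ y
    funext a
    cases a with
    | inl a => rfl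
    | inr a => simp
  · intro g h R _ _ y
    funext a
    cases a with
    | inl a => rfl
    | inr a =>
      simp only [Sum.elim_inr, toAdd_mul, AddSubgroup.coe_add, Pi.add_apply, map_add]
      ring
  · intro g Ω _ _ y hy
    refine ⟨hy.1, fun i i' => ?_⟩
    exact (hshift _ ((hG _).1 g.toAdd.2) Ω (fun a => y (Sum.inr a)) i i').trans (hy.2 i i')
  · intro Y R R' _ _ _ _ f y o
    cases o with
    | none => simp only [Option.elim, map_sum, map_mul, cF_map]
    | some a => rfl
  · intro Y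
    by_cases hY : T Y = 0
    · have hn : IsNatF (fun R _ _ x => x none : PFun k (Option σ)) := by
        intro R R' _ _ _ _ f y
        rfl
      have h0 : IsNatF (fun R _ _ _ => 0 : PFun k (Option σ)) := by
        intro R R' _ _ _ _ f y
        exact map_zero f
      refine hV.congr (S := fun Ω _ _ x => S Ω (fun a => x (some a)) ∧ x none = 0) ?_ ?_
      · refine hV.iso' (S' := S) (Φ := fun R _ _ y o => o.elim 0 y)
          (Ψ := fun R _ _ x a => x (some a)) ?_ hsome
          ((isCl_pre (hV.isCl hS) some).and (isCl_eq hn h0)) hS ?_ ?_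
        · intro R R' _ _ _ _ f y o
          cases o with
          | none => exact map_zero f
          | some a => rfl
        · intro Ω _ _ y hy
          exact ⟨⟨hy, rfl⟩, rfl⟩
        · rintro Ω _ _ x ⟨hx, hx0⟩
          refine ⟨hx, ?_⟩
          funext o
          cases o with
          | none => exact hx0.symm
          | some a => rfl
      · intro Ω _ _ x
        constructor
        · rintro ⟨⟨h1, -⟩, h2⟩
          exact ⟨h1, h2 hY⟩
        · rintro ⟨h1, h2⟩
          refine ⟨⟨h1, ?_⟩, fun _ => h2⟩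
          simp [h2, hY, hq0]
    · refine hV.congr (hT (T Y) (hTY Y) hY) ?_
      intro Ω _ _ x
      exact ⟨fun h => h.1, fun h => ⟨h, fun h0 => (hY h0).elim⟩⟩
  · intro Y Ω _ _ y hy
    refine ⟨⟨hy.1, hpair Y Ω (fun a => y (Sum.inr a)) _ hy.2⟩, fun hY => ?_⟩
    simp [hY]
  · intro Y h hh Ω _ _ y _
    funext o
    cases o with
    | none =>
      refine (hsum Y (h.toAdd : G) Ω fun a => y (Sum.inr a)).trans ?_
      rw [(hH Y h).1 hh, map_zero, add_zero]
      rfl
    | some a => rfl
  · rintro Y Ω _ _ _ x ⟨⟨hx, hx0⟩, hY0⟩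
    obtain ⟨A, hA⟩ := hc_solve k hq (t Ω fun a => x (some a))
    have h1 := hpair Y Ω A _ hA
    have hd : ∃ g : I × I → F, (∀ i i', g (i, i') ^ q + g (i', i) = 0) ∧
        ∑ a : I × I, cF k Ω (T Y a) * A (a.2, a.1) +
          cF k Ω (∑ a : I × I, T Y a * g (a.2, a.1)) = x none := by
      by_cases hY : T Y = 0
      · exact ⟨0, fun i i' => by simp [hq0], by simp [hY, hY0 hY]⟩
      · obtain ⟨c, hc0, hc1⟩ := ff_anti_rat k hq
          (x := x none - ∑ a : I × I, cF k Ω (T Y a) * A (a.2, a.1)) (by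
            rw [ff_sub k hq]
            linear_combination hx0 - h1)
        obtain ⟨g, hg, hg1⟩ := hc_surj hq (T Y) (hTY Y) hY hc0
        refine ⟨g, hg, ?_⟩
        rw [hg1, hc1]
        ring
    obtain ⟨g, hg, hd⟩ := hd
    refine ⟨Sum.elim (fun a => x (some a)) fun a => A a + cF k Ω (g a), ⟨hx, fun i i' => ?_⟩, ?_⟩
    · exact (hshift g hg Ω A i i').trans (hA i i')
    · funext o
      cases o with
      | none => exact (hsum Y g Ω A).trans hd
      | some a => rfl
  · intro Y Ω _ _ y y' hy hy' e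
    have e1 : (fun a => y (Sum.inl a)) = fun a => y' (Sum.inl a) :=
      funext fun a => congrFun e (some a)
    have e0 : ∑ a : I × I, cF k Ω (T Y a) * y (Sum.inr (a.2, a.1)) =
        ∑ a : I × I, cF k Ω (T Y a) * y' (Sum.inr (a.2, a.1)) := congrFun e none
    obtain ⟨g, hg, hg1⟩ := hc_rat k hq (fun a => y' (Sum.inr a) - y (Sum.inr a)) (by
      intro i i'
      have h1 := hy.2 i i'
      have h2 := hy'.2 i i'
      rw [e1] at h1
      rw [ff_sub k hq]
      linear_combination h2 - h1)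
    have h3 : ∀ a, y' (Sum.inr a) = y (Sum.inr a) + cF k Ω (g a) := fun a => by
      rw [hg1 a]; ring
    refine ⟨Multiplicative.ofAdd ⟨g, (hG g).2 hg⟩, (hH Y _).2 ?_, ?_⟩
    · have h4 := hsum Y g Ω fun a => y (Sum.inr a)
      simp only [← h3] at h4
      have h5 : cF k Ω (∑ a : I × I, T Y a * g (a.2, a.1)) = 0 := by
        linear_combination - e0 - h4
      exact (map_eq_zero_iff _ (cF k Ω : F →+* Ω).injective).mp h5
    · funext a
      cases a with
      | inl a => exact (congrFun e1 a).symm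
      | inr a => exact h3 a
  · intro Y O Ω κ _ _ _ _ _ _ _ _ _ _ _ π _ y x hy hx _ s
    cases s with
    | inl a => exact ⟨_, hx (some a)⟩
    | inr a =>
      refine hc_val k hq (fun a => y (Sum.inr a)) (t O fun a => x (some a)) (fun i i' => ?_) a
      have h1 := ht O Ω (IsScalarTower.toAlgHom k O Ω) (fun a => x (some a)) (i, i')
      have h2 : (fun a => IsScalarTower.toAlgHom k O Ω (x (some a))) = fun a => y (Sum.inl a) :=
        funext fun a => hx (some a)
      rw [h2] at h1
      exact (hy.2 i i').trans h1.symm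
  · intro a ha
    refine hc a fun Y => ?_
    convert ha Y

end Pool.Agent.MP_c1eb4d_ag
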