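import Pool.Agent.MP_c1eb4d_ag.ULin

open Function TensorProduct Matrix

namespace Pool.Agent.MP_c1eb4d_ag

open Pool.Agent.MP_a9d3bd_ag

variable {k F : Type} [Field k] [Field F] [Fintype F] [Algebra F k] {q : ℕ}
  {V : ∀ σ : Type, Fam k σ → Prop}

/-- finitely many copies -/
theorem IsCls.herm_zero (hV : IsCls V) (hq : Fintype.card F = q ^ 2) {σ : Type} [Finite σ]
    {S : Fam k σ} (h : V σ S) :
    V (Option σ) fun Ω _ _ x => S Ω (fun a => x (some a)) ∧ x none ^ q + x none = 0 := by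
  have hcl : IsCl (fun Ω _ _ x => S Ω (fun a => x (some a)) ∧ x none ^ q + x none = 0 :
      Fam k (Option σ)) :=
    (isCl_pre (hV.isCl h) some).and (isCl_eq (g := fun _ _ _ x => x none ^ q + x none)
      (g' := fun _ _ _ _ => 0) (fun _ _ _ _ _ _ f x => by rw [map_add, map_pow])
      fun _ _ _ _ _ _ f _ => map_zero f)
  refine hV.cover (β := {c : F // c ^ q + c = 0}) (fun c Ω _ _ x => x none = cF k Ω c.1) hcl
    (fun c => ?_) fun Ω _ _ _ x hx => ?_
  · refine hV.iso' (Φ := fun R _ _ y o => o.elim (cF k R c.1) y)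
      (Ψ := fun _ _ _ x a => x (some a)) (fun _ _ _ _ _ _ f y o => ?_) (isNat_pre _)
      (hcl.and (isCl_eq (g := fun _ _ _ x => x none) (g' := fun R _ _ _ => cF k R c.1)
        (fun _ _ _ _ _ _ _ _ => rfl) fun _ _ _ _ _ _ f _ => cF_map k f _)) h
      (fun Ω _ _ y hy => ⟨⟨⟨hy, ?_⟩, rfl⟩, rfl⟩) fun Ω _ _ x hx => ⟨hx.1.1, ?_⟩
    · cases o
      exacts [cF_map k f _, rfl]
    · change cF k Ω c.1 ^ q + cF k Ω c.1 = 0
      rw [← map_pow, ← map_add, c.2, map_zero]
    · funext o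
      cases o
      exacts [hx.2.symm, rfl]
  · obtain ⟨c, h1, h2⟩ := ff_anti_rat k hq hx.2
    exact ⟨⟨c, h1⟩, h2.symm⟩

/-- at most one norm -/
theorem IsCls.herm_one (hV : IsCls V) (hq : Fintype.card F = q ^ 2) {σ E : Type} [Finite σ]
    [Fintype E] [Subsingleton E] (hC : IsEmpty E ∨ Curve V q) {S : Fam k σ} (h : VanS S) :
    V (Option (σ ⊕ E)) fun Ω _ _ x => S Ω (fun a => x (some (Sum.inl a))) ∧
      x none ^ q + x none = ∑ e, x (some (Sum.inr e)) ^ q * x (some (Sum.inr e)) := by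
  rcases isEmpty_or_nonempty E with hE | ⟨⟨e⟩⟩
  · exact hV.congr (hV.herm_zero hq (hV.prod (τ := E) (hV.ofVan h))) fun Ω _ _ x => by
      rw [Fintype.sum_empty]
  · have hi : Injective fun o : Option σ => (o.elim (Sum.inr e) Sum.inl : σ ⊕ E) := by
      rintro (_ | a) (_ | b) <;> simp
    refine hV.congr (hV.inj _ (Option.map_injective hi)
      (hC.resolve_left (fun h => h.elim e) σ S h)) fun Ω _ _ x => ?_
    rw [Fintype.sum_subsingleton _ e, pow_succ]
    rfl

/-- prescribing that some free coordinates are rational -/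
theorem van_ratco {σ P : Type} [Finite σ] [Finite P] {S : Fam k σ} (h : VanS S) (J : Set P) :
    VanS (fun Ω _ _ x => S Ω (fun a => x (Sum.inl a)) ∧
      ∀ p ∈ J, x (Sum.inr p) ^ Fintype.card F = x (Sum.inr p) : Fam k (σ ⊕ P)) := by
  classical
  let _ := Fintype.ofFinite P
  refine (isCls_van k).rat (S := fun Ω _ _ x => S Ω fun a => x (Sum.inl a)) (isCl_pre h.isCl _)
    (fun p _ _ _ x => x (Sum.inr p)) (fun _ _ _ _ _ _ _ _ _ => rfl) J fun v => ?_
  refine ((isCls_van k).prodAff h ((1 : Matrix P P F).submatrix (Subtype.val : J → P) id)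
    fun j => v j).congr fun Ω _ _ x => and_congr_right fun _ => ?_
  simp [funext_iff, rm, rv, Matrix.mulVec, dotProduct, Matrix.one_apply, apply_ite (cF k Ω)]

end Pool.Agent.MP_c1eb4d_ag
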