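import Pool.Agent.MP_c1eb4d_ag.UCls
import Pool.Agent.MP_c1eb4d_ag.UFF
import Pool.Agent.MP_a9d3bd_ag.Idem

open Function TensorProduct Matrix

namespace Pool.Agent.MP_c1eb4d_ag

open Pool.Agent.MP_a9d3bd_ag

theorem UHf_all {R R' σ : Type} [CommRing R] [CommRing R'] [Fintype σ] [DecidableEq σ]
    (f : R →+* R') (q r : ℕ) (N e : Matrix σ σ R) : (∀ p ∈ ueqs q r N e, f p = 0) ↔
      e.map f * e.map f = e.map f ∧
      (e.map f).charpoly = Polynomial.X ^ (Fintype.card σ - r) * (Polynomial.X - 1) ^ r ∧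
      ((e.map f).map (· ^ q))ᵀ * N.map f * e.map f = 0 := by
  have h1 : ∀ a b, f ((e * e - e) a b) = (e.map f * e.map f - e.map f) a b := by
    intro a b
    rw [← Matrix.map_mul, Matrix.sub_apply, Matrix.sub_apply, map_sub]
    rfl
  have h2 : ∀ i, f ((e.charpoly -
      Polynomial.X ^ (Fintype.card σ - r) * (Polynomial.X - 1) ^ r).coeff i) =
      ((e.map f).charpoly -
        Polynomial.X ^ (Fintype.card σ - r) * (Polynomial.X - 1) ^ r).coeff i := by
    intro i
    rw [← Polynomial.coeff_map, Matrix.charpoly_map]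
    simp
  have h3 : ∀ a b, f (((e.map (· ^ q))ᵀ * N * e) a b) =
      (((e.map f).map (· ^ q))ᵀ * N.map f * e.map f) a b := by
    intro a b
    simp only [mul_apply, transpose_apply, Matrix.map_apply, map_sum, map_mul, map_pow]
  constructor
  · intro h
    refine ⟨sub_eq_zero.1 ?_, sub_eq_zero.1 ?_, ?_⟩
    · ext a b
      exact (h1 a b).symm.trans (h _ (Or.inl (Or.inl ⟨a, b, rfl⟩)))
    · ext i
      exact (h2 i).symm.trans (h _ (Or.inl (Or.inr ⟨i, rfl⟩)))
    · ext a b
      exact (h3 a b).symm.trans (h _ (Or.inr ⟨a, b, rfl⟩))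
  · rintro ⟨a1, a2, a3⟩ p ((⟨a, b, rfl⟩ | ⟨i, rfl⟩) | ⟨a, b, rfl⟩)
    · rw [h1, a1, sub_self, Matrix.zero_apply]
    · rw [h2, a2, sub_self, Polynomial.coeff_zero]
    · rw [h3, a3, Matrix.zero_apply]

variable (k : Type) {F σ τ : Type} [Field k] [Field F] [Algebra F k] [Fintype σ] {q : ℕ}

section

variable {R R' : Type} [CommRing R] [Algebra k R] [CommRing R'] [Algebra k R']

theorem hf_map (f : R →ₐ[k] R') (N : Matrix σ σ F) (x y : σ → R) :
    f (hf k q N x y) = hf k q N (fun a => f (x a)) fun a => f (y a) := by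
  simp only [hf, map_sum, map_mul, map_pow, cF_map]

theorem hf_eq (N : Matrix σ σ F) (x y : σ → R) :
    hf k q N x y = (fun a => x a ^ q) ⬝ᵥ rm k R N *ᵥ y := by
  simp only [hf, dotProduct, mulVec, rm, Matrix.map_apply, Finset.mul_sum, mul_assoc]

/-- the form on the columns of two matrices -/
theorem hf_mat {κ κ' : Type} (N : Matrix σ σ F) (B : Matrix σ κ R) (B' : Matrix σ κ' R) (i : κ)
    (j : κ') : hf k q N (fun s => B s i) (fun s => B' s j) =
      ((B.map (· ^ q))ᵀ * rm k R N * B') i j := by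
  simp only [hf, mul_apply, rm, Matrix.map_apply, transpose_apply, Finset.sum_mul]
  exact Finset.sum_comm

theorem hf_nf {P E : Type} [Fintype P] [Fintype E] [DecidableEq P] [DecidableEq E]
    (x y : NI P E → R) : hf k q (nf F P E) x y =
      ∑ p, (x (Sum.inl p) ^ q * y (Sum.inr (Sum.inl p)) +
        x (Sum.inr (Sum.inl p)) ^ q * y (Sum.inl p)) +
      ∑ e, x (Sum.inr (Sum.inr e)) ^ q * y (Sum.inr (Sum.inr e)) := by
  simp [hf, nf, Fintype.sum_sum_type, apply_ite (cF k R), Finset.sum_add_distrib]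
  ring

theorem hf_blocks {D : Type} [Fintype D] (N : Matrix σ σ F) (x y : σ ⊕ D → R) :
    hf k q (Matrix.fromBlocks N 0 0 0) x y =
      hf k q N (fun a => x (Sum.inl a)) fun a => y (Sum.inl a) := by
  simp [hf, Fintype.sum_sum_type]

theorem hf_reindex [Fintype τ] (e : τ ≃ σ) (N : Matrix σ σ F) (x y : σ → R) :
    hf k q (N.submatrix e e) (fun a => x (e a)) (fun a => y (e a)) = hf k q N x y := by
  simp only [hf, submatrix_apply]
  rw [← e.sum_comp]
  exact Finset.sum_congr rfl fun a _ => e.sum_comp fun b => x (e a) ^ q * cF k R (N (e a) b) * y b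

variable [Fintype F]

include k in
theorem map_pow_mul (hq : Fintype.card F = q ^ 2) {κ κ' : Type} (B : Matrix κ σ R)
    (D : Matrix σ κ' R) : (B * D).map (· ^ q) = B.map (· ^ q) * D.map (· ^ q) := by
  obtain ⟨φ, hφ⟩ := ff_frob k hq R
  rw [← funext hφ]
  exact Matrix.map_mul

theorem hf_basis (hq : Fintype.card F = q ^ 2) [Fintype τ] (N : Matrix σ σ F) (G : Matrix σ τ F)
    (x y : τ → R) : hf k q N (rm k R G *ᵥ x) (rm k R G *ᵥ y) =
      hf k q ((G.map (· ^ q))ᵀ * N * G) x y := by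
  obtain ⟨φ, hφ⟩ := ff_frob k hq R
  have h1 : (fun a => (rm k R G *ᵥ x) a ^ q) = rm k R (G.map (· ^ q)) *ᵥ fun a => x a ^ q := by
    funext a
    simp only [rm, mulVec, dotProduct, Matrix.map_apply, map_pow, ← hφ, map_sum, map_mul]
  rw [hf_eq, hf_eq, h1, rm_mul, rm_mul, rm_transpose, ← mulVec_mulVec, ← mulVec_mulVec,
    dotProduct_mulVec (fun a => x a ^ q), vecMul_transpose]

/-- isotropy of the columns passes to linear combinations of the columns -/
theorem hf_mul (hq : Fintype.card F = q ^ 2) {κ κ' : Type} [Fintype κ] (N : Matrix σ σ F)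
    (B : Matrix σ κ R) (D : Matrix κ κ' R)
    (h : ∀ i j, hf k q N (fun s => B s i) (fun s => B s j) = 0) (i j : κ') :
    hf k q N (fun s => (B * D) s i) (fun s => (B * D) s j) = 0 := by
  have h1 : (B.map (· ^ q))ᵀ * rm k R N * B = 0 :=
    Matrix.ext fun i j => (hf_mat k N B B i j).symm.trans (h i j)
  have h2 : ((B * D).map (· ^ q))ᵀ * rm k R N * (B * D) =
      (D.map (· ^ q))ᵀ * ((B.map (· ^ q))ᵀ * rm k R N * B) * D := by
    rw [← funext (ff_frob k hq R).choose_spec, Matrix.map_mul, transpose_mul]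
    simp only [Matrix.mul_assoc]
  rw [hf_mat, h2, h1, Matrix.mul_zero, Matrix.zero_mul, Matrix.zero_apply]

end

theorem isNatF_hf (N : Matrix σ σ F) (f g : σ → τ) :
    IsNatF (fun _ _ _ x => hf k q N (fun a => x (f a)) fun a => x (g a) : PFun k τ) := by
  intro R R' _ _ _ _ φ x
  exact hf_map k φ N _ _

theorem isCl_cell {κ : Type} [DecidableEq κ] (N : Matrix σ σ F) (ord : σ → ℕ) (pv : κ → σ) :
    IsCl (Cell k q N ord pv) := by
  have h0 : IsNatF (fun _ _ _ _ => 0 : PFun k (σ × κ)) := fun _ _ _ _ _ _ f _ => map_zero f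
  have h1 : ∀ a, IsNatF (fun _ _ _ x => x a : PFun k (σ × κ)) := fun _ _ _ _ _ _ _ _ _ => rfl
  have h2 : ∀ i j : κ, IsNatF (fun _ _ _ _ => if i = j then 1 else 0 : PFun k (σ × κ)) :=
    fun i j _ _ _ _ _ _ f _ => by
      dsimp only
      split_ifs
      exacts [map_one f, map_zero f]
  exact (((IsCl.forall fun i => IsCl.forall fun j => isCl_eq (h1 (pv i, j)) (h2 i j)).and
    (IsCl.forall fun a => IsCl.forall fun j => IsCl.forall (ι := ord a < ord (pv j)) fun _ =>
      isCl_eq (h1 (a, j)) h0)).and (IsCl.forall fun i => IsCl.forall fun j =>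
        isCl_eq (isNatF_hf k N (fun s => (s, i)) fun s => (s, j)) h0)).congr
    fun _ _ _ _ => Iff.rfl

theorem isCl_pair {κ : Type} [DecidableEq κ] (N : Matrix σ σ F) (ord : σ → ℕ) (pv : κ → σ) :
    IsCl (Pair k q N ord pv) := by
  have h1 : ∀ i j : κ, IsNatF (fun _ _ _ x =>
      (mt (fun a => x (Sum.inr a)) * mt (fun a => x (Sum.inl a))) i j : PFun k (σ × κ ⊕ κ × σ)) :=
    fun i j _ _ _ _ _ _ f _ => by simp only [mul_apply, mt, of_apply, map_sum, map_mul]
  have h2 : ∀ i j : κ, IsNatF (fun _ _ _ _ => if i = j then 1 else 0 : PFun k (σ × κ ⊕ κ × σ)) :=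
    fun i j _ _ _ _ _ _ f _ => by
      dsimp only
      split_ifs
      exacts [map_one f, map_zero f]
  exact ((isCl_pre (isCl_cell k N ord pv) Sum.inl).and (IsCl.forall fun i => IsCl.forall fun j =>
    isCl_eq (h1 i j) (h2 i j))).congr fun _ _ _ _ => and_congr_right fun _ => Matrix.ext_iff.symm

omit [Fintype σ] in
theorem isNat_pairMap {κ : Type} [Fintype κ] : IsNat (pairMap k σ κ) := by
  intro R R' _ _ _ _ f x a
  simp only [pairMap, mul_apply, mt, of_apply, map_sum, map_mul]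

theorem cut_ju [DecidableEq σ] (N : Matrix σ σ F) (r : ℕ) : Cut (JU k q N r) (ueqs q r
    (N.map fun c => MvPolynomial.C (algebraMap F k c))
    (Matrix.of fun a b => MvPolynomial.X (a, b))) := by
  intro Ω _ _ x
  let f := (MvPolynomial.aeval x : MvPolynomial (σ × σ) k →ₐ[k] Ω).toRingHom
  have h1 : (N.map fun c => (MvPolynomial.C (algebraMap F k c) : MvPolynomial (σ × σ) k)).map f =
      rm k Ω N := by
    ext a b
    simp [f, rm, cF]
  have h2 : (Matrix.of fun a b => (MvPolynomial.X (a, b) : MvPolynomial (σ × σ) k)).map f =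
      mt x := by
    ext a b
    simp [f, mt]
  refine Iff.trans ?_ (UHf_all f q r _ _).symm
  rw [h1, h2]
  refine and_congr_right fun he => and_congr ⟨?_, fun h => ?_⟩ ?_
  · rintro rfl
    exact idem_charpoly he
  · rw [idem_charpoly he] at h
    exact Idem_rank_eq h
  · rw [← Matrix.ext_iff]
    exact forall₂_congr fun a b => by rw [← hf_mat]; rfl

theorem isCl_ju (N : Matrix σ σ F) (r : ℕ) : IsCl (JU k q N r) := by
  classical
  exact ⟨_, cut_ju k N r⟩

end Pool.Agent.MP_c1eb4d_ag
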