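import Pool.Agent.MP_c1eb4d_ag.UHerm0
import Pool.Agent.MP_c1eb4d_ag.UHf

open Function TensorProduct Matrix

namespace Pool.Agent.MP_c1eb4d_ag

open Pool.Agent.MP_a9d3bd_ag

/-- the parametrisation -/
def UHerm1_map (k σ P E : Type) [Field k] [Fintype P] (q : ℕ) :
    PMap k (Option ((σ ⊕ P) ⊕ E) ⊕ P) (Option (σ ⊕ NI P E)) := fun _ _ _ y o =>
  match o with
  | none => y (.inl none) + ∑ p, y (.inl (some (.inl (.inr p)))) * y (.inr p)
  | some (.inl a) => y (.inl (some (.inl (.inl a))))
  | some (.inr (.inl p)) => y (.inr p)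
  | some (.inr (.inr (.inl p))) => y (.inl (some (.inl (.inr p)))) ^ q
  | some (.inr (.inr (.inr e))) => y (.inl (some (.inr e)))

theorem UHerm1_key {k F Ω P : Type} [Field k] [Field F] [Fintype F] [Algebra F k] {q : ℕ}
    (hq : Fintype.card F = q ^ 2) [Field Ω] [Algebra k Ω] [Fintype P] (c t : Ω) (γ y : P → Ω) :
    (c + ∑ p, γ p * y p) ^ q + (c + ∑ p, γ p * y p) =
        ∑ p, (y p ^ q * γ p ^ q + (γ p ^ q) ^ q * y p) + t ↔
      c ^ q + c = ∑ p, (γ p ^ Fintype.card F - γ p) * y p + t := by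
  rw [ff_add k hq, ff_sum k hq]
  simp only [ff_pow_card hq, sub_mul, Finset.sum_sub_distrib, Finset.sum_add_distrib, mul_pow,
    mul_comm (y _ ^ q)]
  constructor <;> intro h <;> linear_combination h

/-- the Artin-Schreier cover of the normal form -/
theorem IsCls.herm_nf {k F : Type} [Field k] [Field F] [Fintype F] [Algebra F k] {q : ℕ}
    {V : ∀ σ : Type, Fam k σ → Prop} (hV : IsCls V) (hq : Fintype.card F = q ^ 2)
    {σ P E : Type} [Finite σ] [Fintype P] [Fintype E] [DecidableEq P] [DecidableEq E]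
    [Subsingleton E] (hC : IsEmpty E ∨ Curve V q) {S : Fam k σ} (h : VanS S) :
    V (Option (σ ⊕ NI P E)) fun Ω _ _ x => S Ω (fun a => x (some (Sum.inl a))) ∧
      x none ^ q + x none =
        hf k q (nf F P E) (fun a => x (some (Sum.inr a))) fun a => x (some (Sum.inr a)) := by
  have hq0 : 0 < q := lt_of_lt_of_le two_pos (ff_two_le hq)
  have h1 := hV.lin (σ := (σ ⊕ P) ⊕ E) (ι := P)
    (S := fun Ω _ _ x => S Ω fun a => x (.inl (.inl a)))
    (fun p _ _ _ x => x (.inl (.inr p)) ^ Fintype.card F - x (.inl (.inr p)))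
    (fun p R R' _ _ _ _ f x => by simp only [map_sub, map_pow])
    (fun _ _ _ x => ∑ e, x (.inr e) ^ q * x (.inr e))
    (fun R R' _ _ _ _ f x => by simp only [map_sum, map_mul, map_pow])
    (fun _ _ _ x => x () ^ q + x ())
    (fun R R' _ _ _ _ f x => by simp only [map_add, map_pow])
    (fun J => (isCls_van k).congr (prodS (τ := E) (van_ratco (F := F) h J)) fun Ω _ _ x => by
      simp only [sub_eq_zero])
    (hV.congr (hV.herm_one hq hC (van_ratco (F := F) (P := P) h Set.univ)) fun Ω _ _ x => by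
      simp only [sub_eq_zero, Set.mem_univ, forall_true_left])
  refine hV.fin (Φ := UHerm1_map k σ P E q) ?_ ?_ h1 ?_ ?_ ?_
  · rintro R R' _ _ _ _ f y (_ | a | p | p | e) <;>
      simp only [UHerm1_map, map_add, map_sum, map_mul, map_pow]
  · refine (isCl_pre h.isCl fun a => some (Sum.inl a)).and
      (isCl_eq (g := fun _ _ _ x => x none ^ q + x none) ?_ (isNatF_hf k _ _ _))
    intro R R' _ _ _ _ f x
    simp only [map_add, map_pow]
  · rintro Ω _ _ y ⟨h2, h3⟩
    refine ⟨h2, ?_⟩
    rw [hf_nf]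
    exact (UHerm1_key (k := k) hq _ _ _ _).2 h3
  · rintro Ω _ _ _ x ⟨h2, h3⟩
    choose γ hγ using fun p => IsAlgClosed.exists_pow_nat_eq (x (some (.inr (.inr (.inl p))))) hq0
    refine ⟨Sum.elim (fun o => o.elim (x none - ∑ p, γ p * x (some (.inr (.inl p))))
      (Sum.elim (Sum.elim (fun a => x (some (.inl a))) γ) fun e => x (some (.inr (.inr (.inr e))))))
      fun p => x (some (.inr (.inl p))), ⟨h2, ?_⟩, ?_⟩
    · refine (UHerm1_key (k := k) hq _ _ γ fun p => x (some (.inr (.inl p)))).1 ?_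
      rw [hf_nf] at h3
      simp only [Sum.elim_inl, Sum.elim_inr, Option.elim_none, Option.elim_some, sub_add_cancel, hγ]
      exact h3
    · funext o
      rcases o with _ | a | p | p | e
      · exact sub_add_cancel _ _
      · rfl
      · rfl
      · exact hγ p
      · rfl
  · intro O Ω κ _ _ _ _ _ _ _ _ _ _ _ π _ y x _ hx _ t
    have hγ := fun p => val_pow hq0 (hx (some (.inr (.inr (.inl p))))).symm
    rcases t with (_ | (a | p) | e) | p
    · choose γ hγ using hγ
      refine ⟨x none - ∑ p, γ p * x (some (.inr (.inl p))), ?_⟩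
      simp only [map_sub, map_sum, map_mul, hx, hγ, UHerm1_map, add_sub_cancel_right]
    · exact ⟨_, hx (some (.inl a))⟩
    · exact hγ p
    · exact ⟨_, hx (some (.inr (.inr (.inr e))))⟩
    · exact ⟨_, hx (some (.inr (.inl p)))⟩

end Pool.Agent.MP_c1eb4d_ag
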