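import Pool.Agent.MP_c1eb4d_ag.UWitt0

open Function TensorProduct Matrix

namespace Pool.Agent.MP_c1eb4d_ag

open Pool.Agent.MP_a9d3bd_ag

variable {F σ : Type} [Field F] [Fintype F] [Fintype σ] [DecidableEq σ] {q : ℕ}

/-- congruence of Hermitian matrices -/
def UWittC (q : ℕ) {τ : Type} [Fintype τ] [DecidableEq τ] (N : Matrix σ σ F) (M : Matrix τ τ F) :
    Prop :=
  ∃ (G : Matrix σ τ F) (G' : Matrix τ σ F), G * G' = 1 ∧ G' * G = 1 ∧ (G.map (· ^ q))ᵀ * N * G = M

section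

variable {τ ρ : Type} [Fintype τ] [DecidableEq τ] [Fintype ρ] [DecidableEq ρ]

theorem UWitt_trans (hq : Fintype.card F = q ^ 2) {N : Matrix σ σ F} {M : Matrix τ τ F}
    {K : Matrix ρ ρ F} (h : UWittC q N M) (h' : UWittC q M K) : UWittC q N K := by
  obtain ⟨G, G', a1, a2, a3⟩ := h
  obtain ⟨H, H', b1, b2, b3⟩ := h'
  refine ⟨G * H, H' * G', ?_, ?_, ?_⟩
  · rw [Matrix.mul_assoc, ← Matrix.mul_assoc H, b1, Matrix.one_mul, a1]
  · rw [Matrix.mul_assoc, ← Matrix.mul_assoc G', a2, Matrix.one_mul, b2]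
  · rw [witt_trans hq, a3, b3]

omit [Fintype σ] in
theorem UWitt_one (hq : Fintype.card F = q ^ 2) : (1 : Matrix σ σ F).map (· ^ q) = 1 :=
  Matrix.map_one _ (zero_pow (by have := ff_two_le hq; omega)) (one_pow q)

theorem UWitt_re (hq : Fintype.card F = q ^ 2) {N : Matrix σ σ F} {M : Matrix τ τ F} (e : τ ≃ σ)
    (h : ∀ a b, M a b = N (e a) (e b)) : UWittC q N M := by
  refine ⟨(1 : Matrix σ σ F).submatrix id e, (1 : Matrix σ σ F).submatrix e id, ?_, ?_, ?_⟩
  · rw [Matrix.submatrix_mul_equiv, Matrix.one_mul, Matrix.submatrix_id_id]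
  · rw [← Matrix.submatrix_mul _ _ e id e Function.bijective_id, Matrix.one_mul,
      Matrix.submatrix_one_equiv]
  · rw [← Matrix.submatrix_map, UWitt_one hq, Matrix.transpose_submatrix, Matrix.transpose_one]
    ext a b
    simp [Matrix.mul_apply, Matrix.one_apply, h]

theorem UWitt_block (hq : Fintype.card F = q ^ 2) (A : Matrix ρ ρ F) {N : Matrix σ σ F}
    {M : Matrix τ τ F} (h : UWittC q N M) :
    UWittC q (Matrix.fromBlocks A 0 0 N) (Matrix.fromBlocks A 0 0 M) := by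
  obtain ⟨G, G', a1, a2, a3⟩ := h
  have h0 : (0 : F) ^ q = 0 := zero_pow (by have := ff_two_le hq; omega)
  refine ⟨Matrix.fromBlocks 1 0 0 G, Matrix.fromBlocks 1 0 0 G', ?_, ?_, ?_⟩
  · simp [Matrix.fromBlocks_multiply, a1]
  · simp [Matrix.fromBlocks_multiply, a2]
  · rw [Matrix.fromBlocks_map, UWitt_one hq, Matrix.map_zero (fun x : F => x ^ q) h0,
      Matrix.map_zero (fun x : F => x ^ q) h0,
      Matrix.fromBlocks_transpose, ← a3]
    simp [Matrix.fromBlocks_multiply]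

end

/-- the index of the new radical vector is moved -/
def UWittE1 (X D : Type) : X ⊕ (Unit ⊕ D) ≃ Unit ⊕ (X ⊕ D) where
  toFun := Sum.elim (fun x => Sum.inr (Sum.inl x)) (Sum.elim Sum.inl fun d => Sum.inr (Sum.inr d))
  invFun := Sum.elim (fun u => Sum.inr (Sum.inl u)) (Sum.elim Sum.inl fun d => Sum.inr (Sum.inr d))
  left_inv := by rintro (_ | _ | _) <;> rfl
  right_inv := by rintro (_ | _ | _) <;> rfl

/-- the indices of the new hyperbolic plane are moved -/
def UWittE2 (P E D : Type) : NI (Unit ⊕ P) E ⊕ D ≃ Bool ⊕ (NI P E ⊕ D) where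
  toFun := Sum.elim (Sum.elim
      (Sum.elim (fun _ => Sum.inl false) fun p => Sum.inr (Sum.inl (Sum.inl p)))
      (Sum.elim (Sum.elim (fun _ => Sum.inl true)
        fun p => Sum.inr (Sum.inl (Sum.inr (Sum.inl p))))
        fun e => Sum.inr (Sum.inl (Sum.inr (Sum.inr e)))))
    fun d => Sum.inr (Sum.inr d)
  invFun := Sum.elim
    (fun b => cond b (Sum.inl (Sum.inr (Sum.inl (Sum.inl ())))) (Sum.inl (Sum.inl (Sum.inl ()))))
    (Sum.elim (Sum.elim (fun p => Sum.inl (Sum.inl (Sum.inr p)))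
      (Sum.elim (fun p => Sum.inl (Sum.inr (Sum.inl (Sum.inr p))))
        fun e => Sum.inl (Sum.inr (Sum.inr e)))) Sum.inr)
  left_inv := by rintro (((_ | _) | (_ | _) | _) | _) <;> rfl
  right_inv := by rintro ((_ | _) | (_ | _ | _) | _) <;> rfl

/-- one point is added -/
def UWittE0 (X : Type) : Unit ⊕ X ≃ Option X where
  toFun := Sum.elim (fun _ => none) some
  invFun := fun o => o.elim (Sum.inl ()) Sum.inr
  left_inv := by rintro (_ | _) <;> rfl
  right_inv := by rintro (_ | _) <;> rfl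

/-- the anisotropic case -/
def UWittE3 (X : Type) : NI Empty X ⊕ Empty ≃ X where
  toFun := Sum.elim (Sum.elim Empty.elim (Sum.elim Empty.elim id)) Empty.elim
  invFun := fun x => Sum.inl (Sum.inr (Sum.inr x))
  left_inv := by rintro ((⟨⟨⟩⟩ | ⟨⟨⟩⟩ | _) | ⟨⟨⟩⟩); rfl
  right_inv := fun _ => rfl

theorem UWitt_an (hq : Fintype.card F = q ^ 2) (N : Matrix σ σ F) (hN : ∀ a b, N a b ^ q = N b a)
    (h : ∀ v : σ → F, (fun a => v a ^ q) ⬝ᵥ N *ᵥ v = 0 → v = 0) :
    UWittC q N (1 : Matrix σ σ F) := by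
  haveI := witt_aniso hq N hN h
  choose s hs using fun a => ff_norm hq (hN a a)
  have hs0 : ∀ a, s a ≠ 0 := fun a h0 => by
    haveI : Unique σ := uniqueOfSubsingleton a
    have h1 : N a a = 0 := by rw [← hs, h0, zero_pow (Nat.succ_ne_zero q)]
    have h2 := h (fun _ => 1) (by
      simp only [dotProduct, mulVec, Fintype.sum_unique, mul_one, one_pow, one_mul]
      rwa [Subsingleton.elim default a])
    exact one_ne_zero (congrFun h2 a)
  have h0 : (0 : F) ^ q = 0 := zero_pow (by have := ff_two_le hq; omega)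
  refine ⟨Matrix.diagonal fun a => (s a)⁻¹, Matrix.diagonal s, ?_, ?_, ?_⟩
  · rw [Matrix.diagonal_mul_diagonal, ← Matrix.diagonal_one]
    exact congrArg _ (funext fun a => inv_mul_cancel₀ (hs0 a))
  · rw [Matrix.diagonal_mul_diagonal, ← Matrix.diagonal_one]
    exact congrArg _ (funext fun a => mul_inv_cancel₀ (hs0 a))
  · rw [Matrix.diagonal_map (f := fun x : F => x ^ q) h0, Matrix.diagonal_transpose]
    ext a b
    obtain rfl := Subsingleton.elim a b
    rw [Matrix.mul_diagonal, Matrix.diagonal_mul, Matrix.one_apply_eq, ← hs, inv_pow, pow_succ]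
    have := hs0 a
    field_simp

theorem UWitt_gen (hq : Fintype.card F = q ^ 2) (n : ℕ) :
    ∀ (σ : Type) [Fintype σ] [DecidableEq σ] (N : Matrix σ σ F), Fintype.card σ = n →
      (∀ a b, N a b ^ q = N b a) →
      ∃ (P E D : Type) (_ : Fintype P) (_ : DecidableEq P) (_ : Fintype E) (_ : DecidableEq E)
        (_ : Fintype D) (_ : DecidableEq D), Subsingleton E ∧
        UWittC q N (Matrix.fromBlocks (nf F P E) 0 0 (0 : Matrix D D F)) := by
  induction n using Nat.strong_induction_on with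
  | _ n ih =>
    intro σ _ _ N hn hN
    by_cases h : ∀ v : σ → F, (fun a => v a ^ q) ⬝ᵥ N *ᵥ v = 0 → v = 0
    · refine ⟨Empty, σ, Empty, inferInstance, inferInstance, inferInstance, inferInstance,
        inferInstance, inferInstance, witt_aniso hq N hN h,
        UWitt_trans hq (UWitt_an hq N hN h) (UWitt_re hq (UWittE3 σ) ?_)⟩
      rintro ((⟨⟨⟩⟩ | ⟨⟨⟩⟩ | a) | ⟨⟨⟩⟩) ((⟨⟨⟩⟩ | ⟨⟨⟩⟩ | b) | ⟨⟨⟩⟩)
      rfl
    · obtain ⟨v, hv⟩ := not_forall.1 h
      obtain ⟨hv0, hv1⟩ := Classical.not_imp.1 hv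
      by_cases hr : N *ᵥ v = 0
      · obtain ⟨m, G, G', a1, a2, a3, a4⟩ := witt_rad hq N hN v hv1 hr
        obtain ⟨P, E, D, _, _, _, _, _, _, hE, hC⟩ := ih m (by omega) (Fin m)
          (((G.map (· ^ q))ᵀ * N * G).submatrix some some) (Fintype.card_fin m)
          fun a b => witt_herm hq N hN G _ _
        refine ⟨P, E, Unit ⊕ D, inferInstance, inferInstance, inferInstance, inferInstance,
          inferInstance, inferInstance, hE, UWitt_trans hq ⟨G, G', a1, a2, rfl⟩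
            (UWitt_trans hq (UWitt_re hq (UWittE0 (Fin m)) ?_)
              (UWitt_trans hq (UWitt_block hq (0 : Matrix Unit Unit F) hC)
                (UWitt_re hq (UWittE1 _ D) ?_)))⟩
        · rintro (a | a) (b | b)
          · exact (a4 _).1.symm
          · exact (a4 _).1.symm
          · exact (a4 _).2.symm
          · rfl
        · rintro (a | a | a) (b | b | b) <;> rfl
      · obtain ⟨m, G, G', N', a1, a2, a3, a4⟩ := witt_hyp hq N hN v hv0 hr
        obtain ⟨P, E, D, _, _, _, _, _, _, hE, hC⟩ := ih m (by omega) (Fin m) N'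
          (Fintype.card_fin m) fun a b => by
            have := witt_herm hq N hN G (Sum.inr a) (Sum.inr b)
            rwa [a4] at this
        refine ⟨Unit ⊕ P, E, D, inferInstance, inferInstance, inferInstance, inferInstance,
          inferInstance, inferInstance, hE, UWitt_trans hq ⟨G, G', a1, a2, a4⟩
            (UWitt_trans hq (UWitt_block hq _ hC) (UWitt_re hq (UWittE2 P E D) ?_))⟩
        rintro (((a | a) | (a | a) | a) | a) (((b | b) | (b | b) | b) | b) <;>
          simp [UWittE2, nf]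

/-- Witt decomposition of a Hermitian matrix -/
theorem witt (hq : Fintype.card F = q ^ 2) (N : Matrix σ σ F) (hN : ∀ a b, N a b ^ q = N b a) :
    ∃ (a e d : ℕ) (G : Matrix σ (NI (Fin a) (Fin e) ⊕ Fin d) F)
      (G' : Matrix (NI (Fin a) (Fin e) ⊕ Fin d) σ F), e ≤ 1 ∧ G * G' = 1 ∧ G' * G = 1 ∧
      (G.map (· ^ q))ᵀ * N * G = Matrix.fromBlocks (nf F (Fin a) (Fin e)) 0 0 0 := by
  obtain ⟨P, E, D, _, _, _, _, _, _, hE, hC⟩ := UWitt_gen hq _ σ N rfl hN
  let p := (Fintype.equivFin P).symm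
  let e := (Fintype.equivFin E).symm
  let d := (Fintype.equivFin D).symm
  obtain ⟨G, G', h⟩ := UWitt_trans hq hC (UWitt_re hq
    (M := Matrix.fromBlocks (nf F (Fin (Fintype.card P)) (Fin (Fintype.card E))) 0 0 0)
    (Equiv.sumCongr (Equiv.sumCongr p (Equiv.sumCongr p e)) d) (by
      rintro ((a | a | a) | a) ((b | b | b) | b) <;> simp [nf]))
  exact ⟨_, _, _, G, G', Fintype.card_le_one_iff_subsingleton.2 hE, h⟩

/-- the nondegenerate case -/
theorem witt_nd (hq : Fintype.card F = q ^ 2) (N : Matrix σ σ F) (hN : ∀ a b, N a b ^ q = N b a)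
    (hd : N.det ≠ 0) :
    ∃ (a e : ℕ) (G : Matrix σ (NI (Fin a) (Fin e)) F) (G' : Matrix (NI (Fin a) (Fin e)) σ F),
      e ≤ 1 ∧ (Even (Fintype.card σ) → e = 0) ∧ G * G' = 1 ∧ G' * G = 1 ∧
      (G.map (· ^ q))ᵀ * N * G = nf F (Fin a) (Fin e) := by
  obtain ⟨a, e, d, G, G', he, a1, a2, a3⟩ := witt hq N hN
  have hd0 : d = 0 := by
    by_contra hne
    let j : Fin d := ⟨0, Nat.pos_of_ne_zero hne⟩
    have h1 := witt_trans hq N G G'
    rw [a1, a3, UWitt_one hq, Matrix.transpose_one, Matrix.one_mul, Matrix.mul_one] at h1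
    have h2 : (1 : Matrix _ _ F) = G' * N⁻¹ * (G'.map (· ^ q))ᵀ *
        Matrix.fromBlocks (nf F (Fin a) (Fin e)) 0 0 (0 : Matrix (Fin d) (Fin d) F) := by
      have h3 : N * G = (G'.map (· ^ q))ᵀ *
          Matrix.fromBlocks (nf F (Fin a) (Fin e)) 0 0 (0 : Matrix (Fin d) (Fin d) F) := by
        conv_lhs => rw [h1]
        rw [Matrix.mul_assoc, a2, Matrix.mul_one]
      rw [Matrix.mul_assoc, ← h3, Matrix.mul_assoc, ← Matrix.mul_assoc N⁻¹,
        Matrix.nonsing_inv_mul _ (Ne.isUnit hd), Matrix.one_mul, a2]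
    have h4 := congrFun (congrFun h2 (Sum.inr j)) (Sum.inr j)
    rw [Matrix.one_apply_eq, Matrix.mul_apply, Finset.sum_eq_zero] at h4
    · exact one_ne_zero h4
    · rintro (x | x) - <;> simp
  subst hd0
  obtain ⟨H, H', b1, b2, b3⟩ := UWitt_trans hq ⟨G, G', a1, a2, a3⟩
    (UWitt_re hq (M := nf F (Fin a) (Fin e)) (Equiv.sumEmpty _ (Fin 0)).symm fun _ _ => rfl)
  refine ⟨a, e, H, H', he, fun h => ?_, b1, b2, b3⟩
  have hc := Fintype.card_congr (Matrix.indexEquivOfInv b1 b2)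
  simp only [Fintype.card_sum, Fintype.card_fin] at hc
  obtain ⟨r, hr⟩ := h
  omega

end Pool.Agent.MP_c1eb4d_ag
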