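import Pool.Agent.MP_c1eb4d_ag.UHerm1
import Pool.Agent.MP_c1eb4d_ag.UWitt

open Function TensorProduct Matrix

namespace Pool.Agent.MP_c1eb4d_ag

open Pool.Agent.MP_a9d3bd_ag

section

variable (k : Type) {F : Type} (σ : Type) {K K' : Type} [Field k] [Field F] [Algebra F k] [Fintype K']

/-- a linear change of the last coordinates -/
def UHerm2lin (G : Matrix K K' F) : PMap k (Option (σ ⊕ K')) (Option (σ ⊕ K)) := fun R _ _ y o =>
  o.elim (y none) (Sum.elim (fun a => y (some (Sum.inl a)))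
    (rm k R G *ᵥ fun b => y (some (Sum.inr b))))

theorem UHerm2_nat (G : Matrix K K' F) : IsNat (UHerm2lin k σ G) := by
  rintro R R' _ _ _ _ f y (_ | a | a)
  · rfl
  · rfl
  · exact mulVec_map k f G _ a

theorem UHerm2_inv [Fintype K] [DecidableEq K'] {G : Matrix K K' F} {G' : Matrix K' K F}
    (h : G' * G = 1) (R : Type) [CommRing R] [Algebra k R] (y : Option (σ ⊕ K') → R) :
    UHerm2lin k σ G' R (UHerm2lin k σ G R y) = y := by
  funext o
  rcases o with _ | a | a
  · rfl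
  · rfl
  · change (rm k R G' *ᵥ rm k R G *ᵥ fun b => y (some (Sum.inr b))) a = _
    rw [mulVec_mulVec, ← rm_mul, h, rm_one, one_mulVec]

end

/-- the Artin-Schreier cover of a Hermitian form -/
theorem IsCls.herm {k F : Type} [Field k] [Field F] [Fintype F] [Algebra F k] {q : ℕ}
    {V : ∀ σ : Type, Fam k σ → Prop} (hV : IsCls V) (hq : Fintype.card F = q ^ 2)
    {σ K : Type} [Finite σ] [Fintype K] (hC : IsEmpty K ∨ Curve V q) (T : Matrix K K F)
    (hT : ∀ a b, T a b ^ q = T b a) {S : Fam k σ} (h : VanS S) :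
    V (Option (σ ⊕ K)) fun Ω _ _ x => S Ω (fun a => x (some (Sum.inl a))) ∧
      x none ^ q + x none =
        hf k q T (fun a => x (some (Sum.inr a))) fun a => x (some (Sum.inr a)) := by
  classical
  obtain ⟨a, e, d, G, G', he, h1, h2, h3⟩ := witt hq T hT
  have : Subsingleton (Fin e) := Fin.subsingleton_iff_le_one.2 he
  have h4 : V (Option (σ ⊕ (NI (Fin a) (Fin e) ⊕ Fin d))) fun Ω _ _ x =>
      S Ω (fun a => x (some (Sum.inl a))) ∧ x none ^ q + x none = hf k q (nf F (Fin a) (Fin e))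
        (fun b => x (some (Sum.inr (Sum.inl b)))) fun b => x (some (Sum.inr (Sum.inl b))) :=
    hV.reindex (Equiv.optionCongr ((Equiv.sumAssoc _ _ _).trans
      ((Equiv.refl σ).sumCongr (Equiv.sumComm _ _)))) (hV.herm_nf hq (P := Fin a) (E := Fin e)
      (hC.imp_left fun hK => ⟨fun i => by
        have := hK
        have := congrFun (congrFun h2 (.inl (.inr (.inr i)))) (.inl (.inr (.inr i)))
        rw [Matrix.mul_apply, Finset.univ_eq_empty] at this
        simp at this⟩) (prodS (τ := Fin d) h))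
  have key : ∀ (Ω : Type) [Field Ω] [Algebra k Ω] (y : NI (Fin a) (Fin e) ⊕ Fin d → Ω),
      hf k q T (rm k Ω G *ᵥ y) (rm k Ω G *ᵥ y) =
        hf k q (nf F (Fin a) (Fin e)) (fun b => y (Sum.inl b)) fun b => y (Sum.inl b) :=
    fun Ω _ _ y => by rw [hf_basis k hq, h3, hf_blocks]
  refine hV.iso' (UHerm2_nat k σ G) (UHerm2_nat k σ G')
    ((isCl_pre h.isCl _).and (isCl_eq (g := fun _ _ _ x => x none ^ q + x none)
      (fun R R' _ _ _ _ f x => by simp) (isNatF_hf k T _ _))) h4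
    (fun Ω _ _ y hy => ⟨⟨hy.1, hy.2.trans (key Ω fun b => y (some (Sum.inr b))).symm⟩, UHerm2_inv k σ h2 Ω y⟩)
    fun Ω _ _ x hx => ⟨⟨hx.1, hx.2.trans (Eq.trans ?_
      (key Ω (rm k Ω G' *ᵥ fun b => x (some (Sum.inr b)))))⟩, UHerm2_inv k σ h1 Ω x⟩
  rw [mulVec_mulVec, ← rm_mul, h1, rm_one, one_mulVec]

end Pool.Agent.MP_c1eb4d_ag
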