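import Pool.Agent.MP_a9d3bd_ag.IDefs
import Pool.Agent.MP_c1eb4d_ag.UDefs

open Function TensorProduct Matrix

namespace Pool.Agent.MP_c1eb4d_ag

open Pool.Agent.MP_a9d3bd_ag

/-- a function on points, for each ring -/
abbrev PFun (k σ : Type) [Field k] : Type 1 := Pool.Agent.MP_a9d3bd_ag.PFun k σ

open Classical in
/-- a class of closed sets with the closure properties of `VanS` -/
structure IsCls {k : Type} [Field k] (V : ∀ σ : Type, Fam k σ → Prop) : Prop where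
  isCl : ∀ {σ : Type} {S : Fam k σ}, V σ S → IsCl S
  ofVan : ∀ {σ : Type} [Finite σ] {S : Fam k σ}, VanS S → V σ S
  strat : ∀ {σ τ β : Type} [Finite σ] [Finite τ] [Finite β] {S : Fam k σ} {S' : Fam k τ}
    (C : β → Fam k σ) (G : Fam k σ) {Φ : PMap k τ σ}, IsNat Φ → IsCl S →
    (∀ b, V σ fun Ω _ _ x => S Ω x ∧ C b Ω x) → V τ S' →
    (∀ (Ω : Type) [Field Ω] [Algebra k Ω] x, S Ω x → (G Ω x ↔ ∀ b, ¬ C b Ω x)) →
    (∀ (Ω : Type) [Field Ω] [Algebra k Ω] y, S' Ω y → S Ω (Φ Ω y) ∧ G Ω (Φ Ω y)) →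
    (∀ (Ω : Type) [Field Ω] [IsAlgClosed Ω] [Algebra k Ω] x, S Ω x → G Ω x →
      ∃ y, S' Ω y ∧ Φ Ω y = x) →
    ValCrit S' (fun Ω _ _ x => S Ω x ∧ G Ω x) Φ → V σ S
  prod : ∀ {σ τ : Type} [Finite σ] [Finite τ] {S : Fam k σ}, V σ S →
    V (σ ⊕ τ) fun Ω _ _ x => S Ω fun a => x (Sum.inl a)
  gal : ∀ {σ τ : Type} [Finite σ] [Finite τ] {G : Type} [CommGroup G] [Fintype G]
    {S' : Fam k τ} (act : G → PMap k τ τ) {Λ : Type} [Finite Λ] (H : Λ → Subgroup G)
    (S : Λ → Fam k σ) (Φ : Λ → PMap k τ σ), IsCl S' → (∀ g, IsNat (act g)) →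
    (∀ (R : Type) [CommRing R] [Algebra k R] y, act 1 R y = y) →
    (∀ g h (R : Type) [CommRing R] [Algebra k R] y, act (g * h) R y = act g R (act h R y)) →
    (∀ g (Ω : Type) [Field Ω] [Algebra k Ω] y, S' Ω y → S' Ω (act g Ω y)) →
    (∀ l, IsNat (Φ l)) → (∀ l, V σ (S l)) →
    (∀ l (Ω : Type) [Field Ω] [Algebra k Ω] y, S' Ω y → S l Ω (Φ l Ω y)) →
    (∀ l, ∀ h ∈ H l, ∀ (Ω : Type) [Field Ω] [Algebra k Ω] y, S' Ω y →
      Φ l Ω (act h Ω y) = Φ l Ω y) →
    (∀ l (Ω : Type) [Field Ω] [IsAlgClosed Ω] [Algebra k Ω] x, S l Ω x →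
      ∃ y, S' Ω y ∧ Φ l Ω y = x) →
    (∀ l (Ω : Type) [Field Ω] [Algebra k Ω] y y', S' Ω y → S' Ω y' →
      Φ l Ω y = Φ l Ω y' → ∃ h ∈ H l, y' = act h Ω y) →
    (∀ l, ValCrit S' (fun _ _ _ _ => True) (Φ l)) →
    (∀ a : G → ℚ, (∀ l, ∑ h : H l, a h = 0) → a 1 = 0) → V τ S'

/-- the class contains the products with the Hermitian curve -/
def Curve {k : Type} [Field k] (V : ∀ σ : Type, Fam k σ → Prop) (q : ℕ) : Prop :=
  ∀ (σ : Type) [Finite σ] (S : Fam k σ), VanS S →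
    V (Option (Option σ)) fun Ω _ _ x => S Ω (fun a => x (some (some a))) ∧
      x none ^ q + x none = x (some none) ^ (q + 1)

section geo

variable (k : Type) {F : Type} [Field k] [Field F] [Algebra F k]

/-- the sesquilinear form of a matrix -/
def hf {σ R : Type} [Fintype σ] [CommRing R] [Algebra k R] (q : ℕ) (N : Matrix σ σ F)
    (x y : σ → R) : R := ∑ a, ∑ b, x a ^ q * cF k R (N a b) * y b

/-- a point as a rectangular matrix -/
def mt {σ κ R : Type} (x : σ × κ → R) : Matrix σ κ R := Matrix.of fun a b => x (a, b)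

/-- idempotents of rank `r` with isotropic image -/
def JU {σ : Type} [Fintype σ] (q : ℕ) (N : Matrix σ σ F) (r : ℕ) : Fam k (σ × σ) :=
  fun _ _ _ x => mt x * mt x = mt x ∧ (mt x).rank = r ∧
    ∀ a b, hf k q N (fun s => x (s, a)) (fun s => x (s, b)) = 0

/-- column echelon form with pivots `pv` -/
def Ech {σ κ R : Type} [Zero R] [One R] [DecidableEq κ] (ord : σ → ℕ) (pv : κ → σ)
    (B : Matrix σ κ R) : Prop :=
  (∀ i j, B (pv i) j = if i = j then 1 else 0) ∧ ∀ a j, ord a < ord (pv j) → B a j = 0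

/-- isotropic subspaces in a Schubert cell -/
def Cell {σ κ : Type} [Fintype σ] [DecidableEq κ] (q : ℕ) (N : Matrix σ σ F) (ord : σ → ℕ)
    (pv : κ → σ) : Fam k (σ × κ) := fun _ _ _ x =>
  Ech ord pv (mt x) ∧ ∀ i j, hf k q N (fun s => x (s, i)) (fun s => x (s, j)) = 0

/-- a point of the cell with a complement -/
def Pair {σ κ : Type} [Fintype σ] [DecidableEq κ] (q : ℕ) (N : Matrix σ σ F) (ord : σ → ℕ)
    (pv : κ → σ) : Fam k (σ × κ ⊕ κ × σ) := fun Ω _ _ x =>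
  Cell k q N ord pv Ω (fun a => x (Sum.inl a)) ∧
    mt (fun a => x (Sum.inr a)) * mt (fun a => x (Sum.inl a)) = 1

/-- the product of the two matrices -/
def pairMap (σ κ : Type) [Fintype κ] : PMap k (σ × κ ⊕ κ × σ) (σ × σ) := fun _ _ _ x a =>
  (mt (fun a => x (Sum.inl a)) * mt fun a => x (Sum.inr a)) a.1 a.2

/-- the rank of the first rows -/
noncomputable def rkf {σ Ω : Type} [Fintype σ] [Field Ω] (ord : σ → ℕ) (e : Matrix σ σ Ω) (t : ℕ) :
    ℕ := (Matrix.of fun a b => if ord a < t then e a b else 0 : Matrix σ σ Ω).rank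

/-- the number of early pivots -/
def cnt {σ : Type} (ord : σ → ℕ) (π : Finset σ) (t : ℕ) : ℕ := (π.filter fun a => ord a < t).card

/-- the index type of the normal form -/
abbrev NI (P E : Type) : Type := P ⊕ P ⊕ E

/-- hyperbolic planes and a sum of norms -/
def nf (F : Type) [Field F] (P E : Type) [DecidableEq P] [DecidableEq E] :
    Matrix (NI P E) (NI P E) F := fun a b =>
  match a, b with
  | Sum.inl p, Sum.inr (Sum.inl p') => if p = p' then 1 else 0
  | Sum.inr (Sum.inl p), Sum.inl p' => if p = p' then 1 else 0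
  | Sum.inr (Sum.inr e), Sum.inr (Sum.inr e') => if e = e' then 1 else 0
  | _, _ => 0

/-- the order on the coordinates of the normal form -/
def nord {P : Type} (E : Type) (o : P → ℕ) (M : ℕ) : NI P E → ℕ :=
  Sum.elim o (Sum.elim (fun p => 2 * M - o p) fun _ => M)

variable (I J C E : Type)

/-- the pivots in adapted coordinates -/
def apv : I ⊕ J → NI (I ⊕ J ⊕ C) E :=
  Sum.elim (fun i => Sum.inl (Sum.inl i)) fun j => Sum.inr (Sum.inl (Sum.inr (Sum.inl j)))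

/-- the coordinates `u, m, n` of the type A variety -/
abbrev ZI : Type := J × C ⊕ I × C ⊕ I × J

/-- the coordinates `u, m, n, b, y` -/
abbrev BI : Type := (ZI I J C ⊕ I × E) ⊕ I × C

variable {I J C E}

/-- the type A variety -/
def WA (F : Type) [Fintype F] [Fintype C] (su : J → C → Prop) (sm : I → C → Prop)
    (sn : I → J → Prop) : Fam k (ZI I J C) := fun _ _ _ z =>
  (∀ j c, ¬ su j c → z (Sum.inl (j, c)) = 0) ∧
  (∀ i c, ¬ sm i c → z (Sum.inr (Sum.inl (i, c))) = 0) ∧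
  (∀ i j, ¬ sn i j → z (Sum.inr (Sum.inr (i, j))) = 0) ∧
  ∀ i j, sn i j → z (Sum.inr (Sum.inr (i, j))) ^ Fintype.card F - z (Sum.inr (Sum.inr (i, j))) =
    -∑ c, z (Sum.inl (j, c)) *
      (z (Sum.inr (Sum.inl (i, c))) ^ Fintype.card F - z (Sum.inr (Sum.inl (i, c))))

/-- the right hand side of the Hermitian cover -/
def tt [Fintype C] [Fintype E] (q : ℕ) : PMap k (BI I J C E) (I × I) := fun _ _ _ z a =>
  -(∑ c, (z (Sum.inr (a.1, c)) ^ q * z (Sum.inl (Sum.inl (Sum.inr (Sum.inl (a.2, c))))) ^ q +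
      (z (Sum.inl (Sum.inl (Sum.inr (Sum.inl (a.1, c))))) ^ q) ^ q * z (Sum.inr (a.2, c))) +
    ∑ e, z (Sum.inl (Sum.inr (a.1, e))) ^ q * z (Sum.inl (Sum.inr (a.2, e))))

/-- the Hermitian cover -/
def HCov {σ I : Type} (q : ℕ) (S : Fam k σ) (t : PMap k σ (I × I)) : Fam k (σ ⊕ I × I) :=
  fun Ω _ _ x => S Ω (fun a => x (Sum.inl a)) ∧
    ∀ i i', x (Sum.inr (i, i')) ^ q + x (Sum.inr (i', i)) = t Ω (fun a => x (Sum.inl a)) (i, i')

/-- the type A variety attached to an order, inside the larger coordinate space -/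
def WO (F : Type) [Fintype F] [Fintype C] (E : Type) (o : I ⊕ J ⊕ C → ℕ) : Fam k (BI I J C E) :=
  fun Ω _ _ z => WA k F (fun j c => ¬ o (Sum.inr (Sum.inl j)) < o (Sum.inr (Sum.inr c)))
    (fun i c => ¬ o (Sum.inr (Sum.inr c)) < o (Sum.inl i))
    (fun i j => ¬ o (Sum.inr (Sum.inl j)) < o (Sum.inl i)) Ω fun a => z (Sum.inl (Sum.inl a))

/-- the parametrisation of the cell -/
def cellMap [Fintype C] [DecidableEq I] [DecidableEq J] (q : ℕ) :
    PMap k (BI I J C E ⊕ I × I) (NI (I ⊕ J ⊕ C) E × (I ⊕ J)) := fun _ _ _ x a =>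
  match a with
  | (Sum.inl (Sum.inl i'), Sum.inl i) => if i' = i then 1 else 0
  | (Sum.inl (Sum.inr (Sum.inl j)), Sum.inl i) =>
      x (Sum.inl (Sum.inl (Sum.inl (Sum.inr (Sum.inr (i, j)))))) ^ q
  | (Sum.inl (Sum.inr (Sum.inr c)), Sum.inl i) =>
      x (Sum.inl (Sum.inl (Sum.inl (Sum.inr (Sum.inl (i, c)))))) ^ q
  | (Sum.inr (Sum.inl (Sum.inl i')), Sum.inl i) => x (Sum.inr (i, i'))
  | (Sum.inr (Sum.inl (Sum.inr (Sum.inl _))), Sum.inl _) => 0
  | (Sum.inr (Sum.inl (Sum.inr (Sum.inr c))), Sum.inl i) => x (Sum.inl (Sum.inr (i, c)))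
  | (Sum.inr (Sum.inr e), Sum.inl i) => x (Sum.inl (Sum.inl (Sum.inr (i, e))))
  | (Sum.inl _, Sum.inr _) => 0
  | (Sum.inr (Sum.inl (Sum.inl i)), Sum.inr j) =>
      -((x (Sum.inl (Sum.inl (Sum.inl (Sum.inr (Sum.inr (i, j)))))) ^ q) ^ q +
        ∑ c, (x (Sum.inl (Sum.inl (Sum.inl (Sum.inr (Sum.inl (i, c)))))) ^ q) ^ q *
          x (Sum.inl (Sum.inl (Sum.inl (Sum.inl (j, c))))))
  | (Sum.inr (Sum.inl (Sum.inr (Sum.inl j'))), Sum.inr j) => if j' = j then 1 else 0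
  | (Sum.inr (Sum.inl (Sum.inr (Sum.inr c))), Sum.inr j) =>
      x (Sum.inl (Sum.inl (Sum.inl (Sum.inl (j, c)))))
  | (Sum.inr (Sum.inr _), Sum.inr _) => 0

end geo

section kl

/-- `χ` kills the pull-backs of the members of `T` along every embedding of `K` into `L` -/
def KillsK (k K A : Type) {AK L A' : Type} [Field k] [Field K] [Algebra k K] [Field L]
    [Algebra k L] [CommRing A] [CommRing AK] [Algebra K AK] [Algebra A AK] [CommRing A']
    [Algebra L A'] [Algebra A A'] {j : ℕ} (T : Set (PrimeSpectrum AK)) (χ : Inv L A' j) : Prop :=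
  ∀ [Algebra K L] [IsScalarTower k K L] [Algebra K A'] [IsScalarTower K L A'] [Algebra AK A']
    [IsScalarTower K AK A'] [IsScalarTower A AK A'], Kills K T χ

/-- like `Van`, with additional tests defined over the field `K` -/
def VanK (k K A : Type) [Field k] [Field K] [Algebra k K] [CommRing A] [Algebra k A] : Prop :=
  ∀ (AK : Type) [CommRing AK] [Algebra k AK] [Algebra K AK] [Algebra A AK] [IsScalarTower k K AK]
    [IsScalarTower k A AK] [Algebra.IsPushout k K A AK],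
    ∃ (T₀ : Set (PrimeSpectrum A)) (T₁ : Set (PrimeSpectrum AK)), T₀.Finite ∧ T₁.Finite ∧
      ∀ (L A' : Type) [Field L] [IsAlgClosed L] [Algebra k L] [CommRing A'] [Algebra k A']
        [Algebra L A'] [Algebra A A'] [IsScalarTower k L A'] [IsScalarTower k A A']
        [Algebra.IsPushout k L A A'] (j : ℕ) (χ : Inv L A' j), Kills k T₀ χ → KillsK k K A T₁ χ →
          ∀ Q : PrimeSpectrum A', dm L Q ≤ j → χ.val (A' ⧸ Q.asIdeal) = 0

/-- `S` is closed and has the property `VanK` -/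
def VanKS {k : Type} (K : Type) [Field k] [Field K] [Algebra k K] (σ : Type) (S : Fam k σ) :
    Prop := ∃ E, Cut S E ∧ VanK k K (MvPolynomial σ k ⧸ Ideal.span E)

/-- `A` is the universal `B`-algebra with a point `(x, c)` of the Hermitian curve -/
structure IsCA (q : ℕ) (B : Type) {A : Type} [CommRing B] [CommRing A] [Algebra B A] (x c : A) :
    Prop where
  eqn : c ^ q + c = x ^ (q + 1)
  lift : ∀ (R : Type) [CommRing R] [Algebra B R] (x₀ c₀ : R), c₀ ^ q + c₀ = x₀ ^ (q + 1) →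
    ∃ f : A →ₐ[B] R, f x = x₀ ∧ f c = c₀
  ext : ∀ (R : Type) [CommRing R] [Algebra B R] (f g : A →ₐ[B] R), f x = g x → f c = g c → f = g

/-- the ideal of the point `(x₀, c₀)` -/
def ptI {L A : Type} [CommRing L] [CommRing A] [Algebra L A] (x c : A) (x₀ c₀ : L) : Ideal A :=
  Ideal.span {x - algebraMap L A x₀, c - algebraMap L A c₀}

end kl

end Pool.Agent.MP_c1eb4d_ag
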