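import Pool.Agent.MP_c1eb4d_ag.UI

open Function TensorProduct Matrix

namespace Pool.Agent.MP_c1eb4d_ag

open Pool.Agent.MP_a9d3bd_ag

theorem UPair_card {Λ Z : Type} [AddCommGroup Λ] [AddCommGroup Z] (f : Λ →+ Z) :
    Nat.card f.range * Nat.card {l // f l = 0} = Nat.card Λ := by
  rw [← AddSubgroup.card_mul_index f.ker, AddSubgroup.index_ker, mul_comm]
  rfl

open Classical in
/-- the kernels of a pairing detect the value at the origin -/
theorem pair_hc {G Λ Z : Type} [AddCommGroup G] [Fintype G] [AddCommGroup Λ] [Finite Λ]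
    [AddCommGroup Z] (β : Λ →+ G →+ Z) (Z₀ : AddSubgroup Z) (hZ : Z₀ ≠ ⊥)
    (hr : ∀ g : G, g ≠ 0 → (β.flip g).range = Z₀) :
    ∃ H : Λ → Subgroup (Multiplicative G), (∀ l g, g ∈ H l ↔ β l g.toAdd = 0) ∧
      ∀ a : Multiplicative G → ℚ, (∀ l, ∑ h : H l, a h = 0) → a 1 = 0 := by
  let H : Λ → Subgroup (Multiplicative G) := fun l => AddSubgroup.toSubgroup (β l).ker
  have hH : ∀ l g, g ∈ H l ↔ β l g.toAdd = 0 := fun _ _ => Iff.rfl
  refine ⟨H, hH, fun a ha => ?_⟩
  have := Fintype.ofFinite Λ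
  have h1 : ∀ l, ∑ d, (if β l d.toAdd = 0 then a d else 0) = 0 := fun l => by
    rw [← Finset.sum_filter, ← ha l]
    exact Finset.sum_subtype _ (fun d => by simp [hH]) a
  have h2 : ∑ d, a d = 0 := by simpa using h1 0
  by_cases hG : ∀ g : Multiplicative G, g = 1
  · rw [Finset.sum_eq_single 1 (fun b _ hb => absurd (hG b) hb) (by simp)] at h2
    exact h2
  push Not at hG
  obtain ⟨g₀, hg₀⟩ := hG
  have hfin : Finite Z₀ := by
    rw [← hr g₀.toAdd hg₀]
    exact Finite.of_surjective _ (β.flip g₀.toAdd).rangeRestrict_surjective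
  obtain ⟨R, hR⟩ : ∃ R, R = Nat.card Z₀ := ⟨_, rfl⟩
  obtain ⟨N, hN⟩ : ∃ N, N = Nat.card Λ := ⟨_, rfl⟩
  have hR1 : 1 < R := by
    rw [hR, AddSubgroup.one_lt_card_iff_ne_bot]
    exact hZ
  have hN0 : 0 < N := hN ▸ Nat.card_pos
  have h3 : ∀ d : Multiplicative G,
      (R : ℚ) * ∑ l, (if β l d.toAdd = 0 then a d else 0) =
        N * a d + if d = 1 then (R - 1) * N * a d else 0 := fun d => by
    rw [← Finset.sum_filter, Finset.sum_const, nsmul_eq_mul, ← Fintype.card_subtype,
      ← Nat.card_eq_fintype_card]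
    split_ifs with h
    · subst h
      rw [Nat.card_congr (Equiv.subtypeUnivEquiv fun l => by simp), ← hN]
      ring
    · have h4 := UPair_card (β.flip d.toAdd)
      rw [hr d.toAdd h, ← hR, ← hN] at h4
      rw [← h4]
      push_cast
      simp only [AddMonoidHom.flip_apply]
      ring
  have h4 := Finset.sum_congr (rfl : (Finset.univ : Finset (Multiplicative G)) = _)
    fun d _ => h3 d
  rw [← Finset.mul_sum, Finset.sum_comm, Finset.sum_eq_zero fun l _ => h1 l, mul_zero,
    Finset.sum_add_distrib, ← Finset.mul_sum, h2, mul_zero, zero_add, Finset.sum_ite_eq',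
    if_pos (Finset.mem_univ _)] at h4
  have h5 : ((R : ℚ) - 1) * N ≠ 0 := by
    have a1 : (1 : ℚ) < R := by exact_mod_cast hR1
    have a2 : (0 : ℚ) < N := by exact_mod_cast hN0
    exact mul_ne_zero (by linarith) a2.ne'
  exact (mul_eq_zero.mp h4.symm).resolve_left h5

/-- solving a linear system, uniformly in the coefficient ring -/
theorem lin_param {F ι σ : Type} [Field F] [Fintype ι] [Fintype σ] [DecidableEq σ]
    (C : Matrix ι σ F) (d : ι → F) :
    (∃ l : ι → F, l ᵥ* C = 0 ∧ l ⬝ᵥ d = 1) ∨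
    ∃ (m : ℕ) (x₀ : σ → F) (G : Matrix σ (Fin m) F) (G' : Matrix (Fin m) σ F) (H : Matrix σ ι F),
      C *ᵥ x₀ = d ∧ C * G = 0 ∧ G' * G = 1 ∧ G * G' + H * C = 1 := by
  classical
  by_cases hd : d ∈ LinearMap.range (Matrix.toLin' C)
  · right
    obtain ⟨x₀, hx₀⟩ := hd
    set K := LinearMap.ker (Matrix.toLin' C) with hK
    let b := Module.finBasis F K
    let g : (Fin (Module.finrank F K) → F) →ₗ[F] (σ → F) := K.subtype ∘ₗ b.equivFun.symm.toLinearMap
    have hg : LinearMap.ker g = ⊥ :=
      LinearMap.ker_eq_bot.mpr (K.subtype_injective.comp b.equivFun.symm.injective)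
    obtain ⟨g', hg'⟩ := g.exists_leftInverse_of_injective hg
    have hle : LinearMap.ker (Matrix.toLin' C) ≤ LinearMap.ker (LinearMap.id - g ∘ₗ g') := by
      intro x hx
      have e : x = g (b.equivFun ⟨x, hx⟩) := by simp [g]
      rw [LinearMap.mem_ker, LinearMap.sub_apply, LinearMap.id_apply, LinearMap.comp_apply, e]
      have := LinearMap.congr_fun hg' (b.equivFun ⟨x, hx⟩)
      rw [LinearMap.comp_apply, LinearMap.id_apply] at this
      rw [this, sub_self]
    obtain ⟨h, hh⟩ := LinearMap.exists_extend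
      ((K.liftQ (LinearMap.id - g ∘ₗ g') hle) ∘ₗ
        (Matrix.toLin' C).quotKerEquivRange.symm.toLinearMap)
    have hhC : h ∘ₗ Matrix.toLin' C = LinearMap.id - g ∘ₗ g' := by
      refine LinearMap.ext fun x => ?_
      have := LinearMap.congr_fun hh ⟨Matrix.toLin' C x, LinearMap.mem_range_self _ x⟩
      rw [LinearMap.comp_apply, Submodule.subtype_apply, LinearMap.comp_apply,
        LinearEquiv.coe_coe, LinearMap.quotKerEquivRange_symm_apply_image] at this
      exact this
    refine ⟨_, x₀, LinearMap.toMatrix' g, LinearMap.toMatrix' g', LinearMap.toMatrix' h,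
      hx₀, ?_, ?_, ?_⟩
    · have e : Matrix.toLin' C ∘ₗ g = 0 := LinearMap.ext fun x => (b.equivFun.symm x).2
      have := congrArg LinearMap.toMatrix' e
      rwa [LinearMap.toMatrix'_comp, LinearMap.toMatrix'_toLin', map_zero] at this
    · rw [← LinearMap.toMatrix'_comp, hg', LinearMap.toMatrix'_id]
    · have := congrArg LinearMap.toMatrix' hhC
      rw [LinearMap.toMatrix'_comp, LinearMap.toMatrix'_toLin', map_sub, LinearMap.toMatrix'_comp,
        LinearMap.toMatrix'_id] at this
      rw [this, add_sub_cancel]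
  · left
    obtain ⟨f, hf, hf0⟩ := Submodule.exists_dual_map_eq_bot_of_notMem hd inferInstance
    have key : ∀ v : ι → F, (fun i => f (Pi.single i 1)) ⬝ᵥ v = f v := fun v => by
      conv_rhs => rw [← Finset.univ_sum_single v, map_sum]
      refine Finset.sum_congr rfl fun i _ => ?_
      rw [mul_comm, ← smul_eq_mul, ← map_smul, ← Pi.single_smul, smul_eq_mul, mul_one]
    refine ⟨(f d)⁻¹ • fun i => f (Pi.single i 1), ?_, ?_⟩
    · rw [Matrix.smul_vecMul]
      have : (fun i => f (Pi.single i 1)) ᵥ* C = 0 := by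
        funext j
        have h1 : f (Matrix.toLin' C (Pi.single j 1)) = 0 := by
          have : f (Matrix.toLin' C (Pi.single j 1)) ∈
              (LinearMap.range (Matrix.toLin' C)).map f :=
            Submodule.mem_map_of_mem (LinearMap.mem_range_self _ _)
          rwa [hf0, Submodule.mem_bot] at this
        rw [← key, Matrix.toLin'_apply, Matrix.mulVec_single_one] at h1
        exact h1
      rw [this, smul_zero]
    · rw [smul_dotProduct, key, smul_eq_mul, inv_mul_cancel₀ hf]

end Pool.Agent.MP_c1eb4d_ag
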