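import Pool.Agent.MP_c1eb4d_ag.UCls
import Pool.Agent.MP_c1eb4d_ag.UPair
import Pool.Agent.MP_c1eb4d_ag.UFF

open Function TensorProduct Matrix

namespace Pool.Agent.MP_c1eb4d_ag

open Pool.Agent.MP_a9d3bd_ag

section

variable (k : Type) {F ρ R : Type} [Field k] [Field F] [Fintype F] [Algebra F k] [CommRing R]
  [Algebra k R]

theorem ULC_shift (y : ρ → R) (d : ρ → F) (b : ρ) :
    (y b + rv k R d b) ^ Fintype.card F - (y b + rv k R d b) = y b ^ Fintype.card F - y b := by
  have := congrFun (Lang_shift (k := k) y d) b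
  simpa only [Pi.sub_apply, fr, Pi.add_apply, pow_one] using this

theorem ULC_dot [Fintype ρ] (l : ρ → F) (y : ρ → R) :
    (rv k R l ⬝ᵥ y) ^ Fintype.card F - rv k R l ⬝ᵥ y =
      rv k R l ⬝ᵥ fun b => y b ^ Fintype.card F - y b := by
  have := dot_fr k 1 l y
  rw [pow_one] at this
  rw [← this, ← dotProduct_sub]
  congr 1
  funext b
  simp only [Pi.sub_apply, fr, pow_one]

omit [Fintype F] in
theorem ULC_add [Fintype ρ] (l d : ρ → F) (y : ρ → R) :
    (rv k R l ⬝ᵥ fun b => y b + rv k R d b) = rv k R l ⬝ᵥ y + cF k R (l ⬝ᵥ d) := by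
  rw [← rv_dot, ← dotProduct_add]
  rfl

omit [Fintype F] in
theorem ULC_surj [Fintype ρ] {l : ρ → F} (hl : l ≠ 0) (c : F) : ∃ d : ρ → F, l ⬝ᵥ d = c := by
  classical
  obtain ⟨a, ha⟩ := Function.ne_iff.mp hl
  have ha' : l a ≠ 0 := ha
  exact ⟨Pi.single a (c / l a), by rw [dotProduct_single, mul_div_cancel₀ _ ha']⟩

end

/-- a Lang cover from its quotients -/
theorem IsCls.lang {k : Type} [Field k] {V : ∀ σ : Type, Fam k σ → Prop} (hV : IsCls V)
    {F σ ρ : Type} [Field F] [Fintype F] [Algebra F k] [Finite σ] [Fintype ρ] {S : Fam k σ}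
    (t : PMap k σ ρ) (ht : IsNat t) (hS : V σ S)
    (hl : ∀ l : ρ → F, l ≠ 0 → V (Option σ) fun Ω _ _ x => S Ω (fun a => x (some a)) ∧
      x none ^ Fintype.card F - x none = rv k Ω l ⬝ᵥ t Ω fun a => x (some a)) :
    V (σ ⊕ ρ) fun Ω _ _ x => S Ω (fun a => x (Sum.inl a)) ∧
      ∀ b, x (Sum.inr b) ^ Fintype.card F - x (Sum.inr b) = t Ω (fun a => x (Sum.inl a)) b := by
  classical
  obtain ⟨H, hH, hc⟩ := pair_hc (G := ρ → F) (Λ := ρ → F) (Z := F)
    (AddMonoidHom.mk' (fun l => AddMonoidHom.mk' (fun g => l ⬝ᵥ g) (dotProduct_add l))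
      fun l l' => AddMonoidHom.ext fun g => add_dotProduct l l' g) ⊤ top_ne_bot (by
      intro g hg
      refine AddMonoidHom.range_eq_top.mpr fun c => ?_
      obtain ⟨d, hd⟩ := ULC_surj hg c
      exact ⟨d, (dotProduct_comm d g).trans hd⟩)
  have hH' : ∀ l g, g ∈ H l ↔ l ⬝ᵥ g.toAdd = 0 := hH
  have hq1 : 1 < Fintype.card F := Fintype.one_lt_card
  have hcl : IsCl (fun Ω _ _ x => S Ω (fun a => x (Sum.inl a)) ∧
      ∀ b, x (Sum.inr b) ^ Fintype.card F - x (Sum.inr b) = t Ω (fun a => x (Sum.inl a)) b :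
      Fam k (σ ⊕ ρ)) := by
    refine (isCl_pre (hV.isCl hS) Sum.inl).and (IsCl.forall fun b => ?_)
    have n1 : IsNatF (fun R _ _ x => x (Sum.inr b) ^ Fintype.card F - x (Sum.inr b) :
        PFun k (σ ⊕ ρ)) := by
      intro R R' _ _ _ _ f y
      simp only [map_sub, map_pow]
    have n2 : IsNatF (fun R _ _ x => t R (fun a => x (Sum.inl a)) b : PFun k (σ ⊕ ρ)) := by
      intro R R' _ _ _ _ f y
      exact ht R R' f _ b
    exact isCl_eq n1 n2
  refine hV.gal (G := Multiplicative (ρ → F)) (σ := Option σ)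
    (fun d R _ _ x => Sum.elim (fun a => x (Sum.inl a))
      fun b => x (Sum.inr b) + rv k R d.toAdd b) H
    (fun l Ω _ _ x => (S Ω (fun a => x (some a)) ∧
      x none ^ Fintype.card F - x none = rv k Ω l ⬝ᵥ t Ω fun a => x (some a)) ∧
        (l = 0 → x none = 0))
    (fun l R _ _ x o => o.elim (rv k R l ⬝ᵥ fun b => x (Sum.inr b)) fun a => x (Sum.inl a))
    hcl ?_ ?_ ?_ ?_ ?_ ?_ ?_ ?_ ?_ ?_ ?_ ?_
  · intro d R R' _ _ _ _ f y o
    cases o with
    | inl a => rfl
    | inr b => simp only [Sum.elim_inr, map_add, rv_map k f]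
  · intro R _ _ y
    funext o
    cases o with
    | inl a => rfl
    | inr b => simp only [Sum.elim_inr, toAdd_one, rv_zero, Pi.zero_apply, add_zero]
  · intro g h R _ _ y
    funext o
    cases o with
    | inl a => rfl
    | inr b =>
      simp only [Sum.elim_inr, toAdd_mul, rv_add, Pi.add_apply]
      ring
  · intro d Ω _ _ y hy
    exact ⟨hy.1, fun b => (ULC_shift k (fun b => y (Sum.inr b)) d.toAdd b).trans (hy.2 b)⟩
  · intro l R R' _ _ _ _ f y o
    cases o with
    | none => exact dot_map k f l _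
    | some a => rfl
  · intro l
    by_cases hl0 : l = 0
    · subst hl0
      have hn : IsNatF (fun R _ _ x => x none : PFun k (Option σ)) := by
        intro R R' _ _ _ _ f y
        rfl
      refine hV.congr (S := fun Ω _ _ x => S Ω (fun a => x (some a)) ∧ x none = 0) ?_ ?_
      · refine hV.iso (S' := S) (Φ := fun R _ _ y o => o.elim 0 y)
          (Ψ := fun R _ _ x a => x (some a)) ?_ (isNat_pre _)
          ((isCl_pre (hV.isCl hS) some).and (isCl_eq hn (GBas_nat0 k))) hS ?_ ?_
        · intro R R' _ _ _ _ f y o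
          cases o with
          | none => exact map_zero f
          | some a => rfl
        · intro Ω _ _ y hy
          exact ⟨⟨hy, rfl⟩, rfl⟩
        · rintro Ω _ _ x ⟨hx, hx0⟩
          refine ⟨fun a => x (some a), hx, ?_⟩
          funext o
          cases o with
          | none => exact hx0.symm
          | some a => rfl
      · intro Ω _ _ x
        constructor
        · rintro ⟨⟨h1, -⟩, h2⟩
          exact ⟨h1, h2 rfl⟩
        · rintro ⟨h1, h2⟩
          refine ⟨⟨h1, ?_⟩, fun _ => h2⟩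
          rw [h2, rv_zero, zero_dotProduct, zero_pow (by omega), sub_zero]
    · refine hV.congr (hl l hl0) ?_
      intro Ω _ _ x
      exact ⟨fun h => h.1, fun h => ⟨h, fun h0 => (hl0 h0).elim⟩⟩
  · intro l Ω _ _ y hy
    refine ⟨⟨hy.1, (ULC_dot k l fun b => y (Sum.inr b)).trans ?_⟩, ?_⟩
    · exact congrArg (rv k Ω l ⬝ᵥ ·) (funext hy.2)
    · rintro rfl
      simp only [Option.elim, rv_zero, zero_dotProduct]
  · intro l h hh Ω _ _ y _
    funext o
    cases o with
    | none =>
      refine (ULC_add k l h.toAdd fun b => y (Sum.inr b)).trans ?_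
      rw [(hH' l h).mp hh, map_zero, add_zero]
      rfl
    | some a => rfl
  · rintro l Ω _ _ _ x ⟨⟨hx, hx0⟩, hl0⟩
    choose y hy using fun b => Lang_root hq1 (t Ω (fun a => x (some a)) b)
    have h1 := ULC_dot k l y
    rw [funext hy] at h1
    have hd : ∃ d : ρ → F, rv k Ω l ⬝ᵥ y + cF k Ω (l ⬝ᵥ d) = x none := by
      by_cases hl' : l = 0
      · refine ⟨0, ?_⟩
        rw [hl0 hl', hl', rv_zero, zero_dotProduct, zero_dotProduct, map_zero, add_zero]
      · obtain ⟨φ, hφ⟩ := exists_frob k F Ω 1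
        rw [pow_one] at hφ
        obtain ⟨c, hc⟩ := fix_rat k (F := F) (a := x none - rv k Ω l ⬝ᵥ y) (by
          rw [← hφ, map_sub, hφ, hφ]
          linear_combination hx0 - h1)
        obtain ⟨d, hd⟩ := ULC_surj hl' c
        exact ⟨d, by rw [hd, hc, add_sub_cancel]⟩
    obtain ⟨d, hd⟩ := hd
    refine ⟨Sum.elim (fun a => x (some a)) fun b => y b + rv k Ω d b,
      ⟨hx, fun b => (ULC_shift k y d b).trans (hy b)⟩, ?_⟩
    funext o
    cases o with
    | none => exact (ULC_add k l d y).trans hd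
    | some a => rfl
  · intro l Ω _ _ y y' hy hy' e
    have e1 : (fun a => y (Sum.inl a)) = fun a => y' (Sum.inl a) :=
      funext fun a => congrFun e (some a)
    have e0 : (rv k Ω l ⬝ᵥ fun b => y (Sum.inr b)) = rv k Ω l ⬝ᵥ fun b => y' (Sum.inr b) :=
      congrFun e none
    obtain ⟨φ, hφ⟩ := exists_frob k F Ω 1
    rw [pow_one] at hφ
    choose u hu using fun b => fix_rat k (F := F) (a := y' (Sum.inr b) - y (Sum.inr b)) (by
      have h1 := hy.2 b
      rw [e1, ← hy'.2 b] at h1
      rw [← hφ, map_sub, hφ, hφ]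
      linear_combination -h1)
    have e2 : (fun b => y' (Sum.inr b)) = fun b => y (Sum.inr b) + rv k Ω u b :=
      funext fun b => by rw [rv, hu, add_sub_cancel]
    refine ⟨Multiplicative.ofAdd u, (hH' l _).mpr ?_, ?_⟩
    · rw [e2, ULC_add, left_eq_add] at e0
      exact (map_eq_zero_iff _ (cF k Ω : F →+* Ω).injective).mp e0
    · funext o
      cases o with
      | inl a => exact (congrFun e1 a).symm
      | inr b => exact congrFun e2 b
  · intro l O Ω κ _ _ _ _ _ _ _ _ _ _ _ π _ y x hy hx _ o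
    cases o with
    | inl a => exact ⟨x (some a), hx (some a)⟩
    | inr b =>
      refine val_lang hq1 (a := t O (fun a => x (some a)) b) ((hy.2 b).trans ?_)
      have h1 := ht O Ω (IsScalarTower.toAlgHom k O Ω) (fun a => x (some a)) b
      have h2 : (fun a => IsScalarTower.toAlgHom k O Ω (x (some a))) = fun a => y (Sum.inl a) :=
        funext fun a => hx (some a)
      rw [h2] at h1
      exact h1.symm
  · intro a ha
    refine hc a fun l => ?_
    convert ha l

end Pool.Agent.MP_c1eb4d_ag
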