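import Pool.Agent.MP_c1eb4d_ag.UCls
import Pool.Agent.MP_c1eb4d_ag.UPair
import Pool.Agent.MP_c1eb4d_ag.UFF

open Function TensorProduct Matrix

namespace Pool.Agent.MP_c1eb4d_ag

open Pool.Agent.MP_a9d3bd_ag

variable {k : Type} [Field k] {V : ∀ σ : Type, Fam k σ → Prop}

/-- product with a rational affine subspace -/
theorem IsCls.prodAff (hV : IsCls V) {F σ τ ι : Type} [Field F] [Algebra F k] [Finite σ]
    [Fintype τ] [Fintype ι] {S : Fam k σ} (h : V σ S) (C : Matrix ι τ F) (d : ι → F) :
    V (σ ⊕ τ) fun Ω _ _ x => S Ω (fun a => x (Sum.inl a)) ∧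
      rm k Ω C *ᵥ (fun a => x (Sum.inr a)) = rv k Ω d := by
  classical
  have hcl : IsCl (fun Ω _ _ x => S Ω (fun a => x (Sum.inl a)) ∧
      rm k Ω C *ᵥ (fun a => x (Sum.inr a)) = rv k Ω d : Fam k (σ ⊕ τ)) := by
    refine IsCl.and (isCl_pre (hV.isCl h) Sum.inl) ?_
    exact isCl_veq (Φ := fun R _ _ x => rm k R C *ᵥ fun a => x (Sum.inr a))
      (Ψ := fun R _ _ _ => rv k R d)
      (fun _ _ _ _ _ _ f x a => mulVec_map k f C _ a) (fun _ _ _ _ _ _ f _ a => rv_map k f d a)
  rcases lin_param C d with ⟨l, hl, hd⟩ | ⟨m, x₀, G, G', H, h1, h2, h3, h4⟩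
  · refine hV.empty hcl fun Ω _ _ _ x hx => ?_
    have h1 := congrArg (fun z => rv k Ω l ⬝ᵥ z) hx.2
    simp only [dotProduct_mulVec, ← rv_vecMul, hl, rv_zero, zero_dotProduct, rv_dot, hd,
      map_one] at h1
    exact zero_ne_one h1
  · refine hV.iso' (τ := σ ⊕ Fin m)
      (Φ := fun R _ _ y => Sum.elim (fun a => y (Sum.inl a))
        (rv k R x₀ + rm k R G *ᵥ fun a => y (Sum.inr a)))
      (Ψ := fun R _ _ x => Sum.elim (fun a => x (Sum.inl a))
        (rm k R G' *ᵥ ((fun a => x (Sum.inr a)) - rv k R x₀))) ?_ ?_ hcl (hV.prod h) ?_ ?_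
    · intro R R' _ _ _ _ f y a
      rcases a with a | a
      · rfl
      · simp only [Sum.elim_inr, Pi.add_apply, map_add, rv_map, mulVec_map]
    · intro R R' _ _ _ _ f y a
      rcases a with a | a
      · rfl
      · simp only [Sum.elim_inr, mulVec_map]
        congr 2
        funext b
        simp only [Pi.sub_apply, map_sub, rv_map]
    · intro Ω _ _ y hy
      have e0 : rm k Ω (0 : Matrix ι (Fin m) F) = 0 := by
        ext a b
        simp [rm]
      refine ⟨⟨hy, ?_⟩, ?_⟩
      · change rm k Ω C *ᵥ (rv k Ω x₀ + rm k Ω G *ᵥ fun a => y (Sum.inr a)) = rv k Ω d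
        rw [mulVec_add, ← rv_mulVec, h1, mulVec_mulVec, ← rm_mul, h2, e0, zero_mulVec, add_zero]
      · funext a
        rcases a with a | a
        · rfl
        · change (rm k Ω G' *ᵥ ((rv k Ω x₀ + rm k Ω G *ᵥ fun a => y (Sum.inr a)) - rv k Ω x₀)) a =
            y (Sum.inr a)
          rw [add_sub_cancel_left, mulVec_mulVec, ← rm_mul, h3, rm_one, one_mulVec]
    · intro Ω _ _ x hx
      refine ⟨hx.1, ?_⟩
      funext a
      rcases a with a | a
      · rfl
      · change (rv k Ω x₀ + rm k Ω G *ᵥ (rm k Ω G' *ᵥ ((fun a => x (Sum.inr a)) - rv k Ω x₀))) a =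
          x (Sum.inr a)
        have e1 : rm k Ω G * rm k Ω G' + rm k Ω H * rm k Ω C = 1 := by
          rw [← rm_mul, ← rm_mul, ← rm_one k (F := F), ← h4]
          ext a b
          exact (map_add (cF k Ω) _ _).symm
        have e2 : rm k Ω C *ᵥ ((fun a => x (Sum.inr a)) - rv k Ω x₀) = 0 := by
          rw [mulVec_sub, hx.2, ← rv_mulVec, h1, sub_self]
        have e3 := congrArg (fun M => M *ᵥ ((fun a => x (Sum.inr a)) - rv k Ω x₀)) e1
        simp only [add_mulVec, ← mulVec_mulVec, e2, mulVec_zero, add_zero, one_mulVec] at e3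
        rw [e3, add_sub_cancel]

/-- rational affine subspaces -/
theorem affSub {F τ ι : Type} [Field F] [Algebra F k] [Fintype τ] [Fintype ι]
    (C : Matrix ι τ F) (d : ι → F) :
    VanS (fun Ω _ _ x => rm k Ω C *ᵥ x = rv k Ω d : Fam k τ) := by
  have h1 := (isCls_van k).prodAff (σ := Empty) affS C d
  have h2 := (isCls_van k).reindex (Equiv.emptySum Empty τ) h1
  exact VanS.congr h2 fun Ω _ _ x => ⟨fun hx => ⟨trivial, hx⟩, fun hx => hx.2⟩

/-- the locus where finitely many functions take rational values -/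
theorem IsCls.rat (hV : IsCls V) {F σ ι : Type} [Field F] [Fintype F] [Algebra F k] [Finite σ]
    [Finite ι] {S : Fam k σ} (hS : IsCl S) (γ : ι → PFun k σ) (hγ : ∀ i, IsNatF (γ i))
    (J : Set ι) (h : ∀ v : ι → F, V σ fun Ω _ _ x => S Ω x ∧ ∀ i ∈ J, γ i Ω x = cF k Ω (v i)) :
    V σ fun Ω _ _ x => S Ω x ∧ ∀ i ∈ J, γ i Ω x ^ Fintype.card F = γ i Ω x := by
  have hc : ∀ (Ω : Type) [Field Ω] [Algebra k Ω] (c : F),
      cF k Ω c ^ Fintype.card F = cF k Ω c := fun Ω _ _ c => by
    simpa using cF_pow k (R := Ω) c 1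
  refine hV.cover (β := ι → F) (fun v Ω _ _ x => ∀ i ∈ J, γ i Ω x = cF k Ω (v i)) ?_ ?_ ?_
  · refine IsCl.and hS (IsCl.forall fun i => IsCl.forall fun _ => ?_)
    refine isCl_eq (g := fun Ω _ _ x => γ i Ω x ^ Fintype.card F) ?_ (hγ i)
    intro R R' _ _ _ _ f x
    rw [map_pow, hγ i R R' f x]
  · intro v
    refine hV.congr (h v) fun Ω _ _ x => ⟨fun hx => ⟨hx.1.1, hx.2⟩, fun hx => ⟨⟨hx.1, ?_⟩, hx.2⟩⟩
    intro i hi
    rw [hx.2 i hi, hc]
  · intro Ω _ _ _ x hx
    have h1 : ∀ i, ∃ c : F, i ∈ J → γ i Ω x = cF k Ω c := fun i => by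
      by_cases hi : i ∈ J
      · obtain ⟨c, hc⟩ := fix_rat k (hx.2 i hi)
        exact ⟨c, fun _ => hc.symm⟩
      · exact ⟨0, fun h => (hi h).elim⟩
    choose v hv using h1
    exact ⟨v, hv⟩

/-- an equation `P(c) = ∑ h_i y_i + g` that is linear in free variables `y_i` -/
theorem IsCls.lin (hV : IsCls V) {σ ι : Type} [Finite σ] [Fintype ι] {S : Fam k σ}
    (h : ι → PFun k σ) (hh : ∀ i, IsNatF (h i)) (g : PFun k σ) (hg : IsNatF g)
    (P : PFun k Unit) (hP : IsNatF P)
    (hS : ∀ J : Set ι, VanS (fun Ω _ _ x => S Ω x ∧ ∀ i ∈ J, h i Ω x = 0 : Fam k σ))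
    (h0 : V (Option σ) fun Ω _ _ x => (S Ω (fun a => x (some a)) ∧
      ∀ i, h i Ω (fun a => x (some a)) = 0) ∧ P Ω (fun _ => x none) = g Ω fun a => x (some a)) :
    V (Option σ ⊕ ι) fun Ω _ _ x => S Ω (fun a => x (Sum.inl (some a))) ∧
      P Ω (fun _ => x (Sum.inl none)) =
        ∑ i, h i Ω (fun a => x (Sum.inl (some a))) * x (Sum.inr i) +
          g Ω fun a => x (Sum.inl (some a)) := by
  classical
  have key : ∀ K : Finset ι, V (Option σ ⊕ ι) fun Ω _ _ x =>
      (S Ω (fun a => x (Sum.inl (some a))) ∧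
        ∀ i ∈ {i | i ∉ K}, h i Ω (fun a => x (Sum.inl (some a))) = 0) ∧
      P Ω (fun _ => x (Sum.inl none)) =
        ∑ i, h i Ω (fun a => x (Sum.inl (some a))) * x (Sum.inr i) +
          g Ω fun a => x (Sum.inl (some a)) := by
    intro K
    induction K using Finset.induction_on with
    | empty =>
      refine hV.congr (hV.prod (τ := ι) h0) fun Ω _ _ x => ?_
      constructor
      · rintro ⟨⟨h1, h2⟩, h3⟩
        have h4 : ∀ i, h i Ω (fun a => x (Sum.inl (some a))) = 0 :=
          fun i => h2 i (Finset.notMem_empty i)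
        refine ⟨⟨h1, h4⟩, ?_⟩
        simpa [h4] using h3
      · rintro ⟨⟨h1, h2⟩, h3⟩
        refine ⟨⟨h1, fun i _ => h2 i⟩, ?_⟩
        simpa [h2] using h3
    | insert i K hi ih =>
      refine hV.split (τ := Option σ ⊕ ι)
        (g := fun Ω _ _ x => h i Ω fun a => x (Sum.inl (some a)))
        (Φ := fun R _ _ y => Sum.elim
          (fun o => o.elim (y (Sum.inr i)) fun a => y (Sum.inl (some a)))
          fun j => if j = i then y (Sum.inl none) * (P R (fun _ => y (Sum.inr i)) -
            g R (fun a => y (Sum.inl (some a))) -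
            ∑ j ∈ Finset.univ.erase i, h j R (fun a => y (Sum.inl (some a))) * y (Sum.inr j))
            else y (Sum.inr j))
        (Ψ := fun R _ _ z => Sum.elim
          (fun o => o.elim (z none) fun a => z (some (Sum.inl (some a))))
          fun j => if j = i then z (some (Sum.inl none)) else z (some (Sum.inr j)))
        (fun R R' _ _ _ _ f x => hh i R R' f _) ?_ ?_ ?_ ?_
        (hV.ofVan (prodS (τ := ι) (openS (hS {j | j ∉ insert i K}) (hh i)))) ?_ ?_
      · intro R R' _ _ _ _ f y a
        rcases a with (_ | a) | a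
        · rfl
        · rfl
        · simp only [Sum.elim_inr]
          split_ifs
          · simp only [map_mul, map_sub, map_sum, hP R R' f, hg R R' f, fun j => hh j R R' f]
          · rfl
      · intro R R' _ _ _ _ f y a
        rcases a with (_ | a) | a
        · rfl
        · rfl
        · simp only [Sum.elim_inr]
          split_ifs <;> rfl
      · refine IsCl.and (isCl_pre (hS _).isCl fun a => Sum.inl (some a)) ?_
        refine isCl_eq (g := fun Ω _ _ x => P Ω fun _ => x (Sum.inl none))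
          (g' := fun Ω _ _ x => ∑ i, h i Ω (fun a => x (Sum.inl (some a))) * x (Sum.inr i) +
            g Ω fun a => x (Sum.inl (some a))) (fun R R' _ _ _ _ f x => hP R R' f _) ?_
        intro R R' _ _ _ _ f x
        simp only [map_mul, map_add, map_sum, hg R R' f, fun j => hh j R R' f]
      · refine hV.congr ih fun Ω _ _ x => ?_
        constructor
        · rintro ⟨⟨⟨h1, h2⟩, h3⟩, h4⟩
          refine ⟨⟨h1, fun j hj => ?_⟩, h3⟩
          by_cases hji : j = i
          · rw [hji]
            exact h4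
          · exact h2 j fun hm => (Finset.mem_insert.1 hm).elim hji hj
        · rintro ⟨⟨h1, h2⟩, h3⟩
          exact ⟨⟨⟨h1, fun j hj => h2 j fun hm => hj (Finset.mem_insert_of_mem hm)⟩, h3⟩, h2 i hi⟩
      · rintro Ω _ _ y ⟨hy, hu⟩
        have hne : h i Ω (fun a => y (Sum.inl (some a))) ≠ 0 := right_ne_zero_of_mul_eq_one hu
        refine ⟨⟨hy, ?_⟩, hne, ?_⟩
        · simp only [Sum.elim_inl, Sum.elim_inr, Option.elim_none, Option.elim_some]
          rw [← Finset.add_sum_erase _ _ (Finset.mem_univ i), if_pos rfl, ← mul_assoc,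
            mul_comm (h i Ω _), hu, one_mul]
          have e : ∑ j ∈ Finset.univ.erase i, h j Ω (fun a => y (Sum.inl (some a))) *
              (if j = i then y (Sum.inl none) * (P Ω (fun _ => y (Sum.inr i)) -
                g Ω (fun a => y (Sum.inl (some a))) - ∑ j ∈ Finset.univ.erase i,
                  h j Ω (fun a => y (Sum.inl (some a))) * y (Sum.inr j)) else y (Sum.inr j)) =
              ∑ j ∈ Finset.univ.erase i, h j Ω (fun a => y (Sum.inl (some a))) * y (Sum.inr j) :=
            Finset.sum_congr rfl fun j hj => by rw [if_neg (Finset.ne_of_mem_erase hj)]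
          rw [e]
          ring
        · funext a
          rcases a with (_ | a) | a
          · exact (eq_inv_of_mul_eq_one_left hu).symm
          · rfl
          · simp only [Sum.elim_inl, Sum.elim_inr, Option.elim_none, Option.elim_some]
            split_ifs with ha
            · rw [ha]
            · rfl
      · rintro Ω _ _ x ⟨hx, he⟩ hne
        refine ⟨Sum.elim (fun o => o.elim (h i Ω fun a => x (Sum.inl (some a)))⁻¹
          fun a => x (Sum.inl (some a)))
          fun j => if j = i then x (Sum.inl none) else x (Sum.inr j),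
          ⟨hx, inv_mul_cancel₀ hne⟩, ?_⟩
        funext a
        rcases a with (_ | a) | a
        · simp
        · rfl
        · simp only [Sum.elim_inl, Sum.elim_inr, Option.elim_none, Option.elim_some, if_true]
          split_ifs with ha
          · have e : ∑ j ∈ Finset.univ.erase i, h j Ω (fun a => x (Sum.inl (some a))) *
                (if j = i then x (Sum.inl none) else x (Sum.inr j)) =
                ∑ j ∈ Finset.univ.erase i,
                  h j Ω (fun a => x (Sum.inl (some a))) * x (Sum.inr j) :=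
              Finset.sum_congr rfl fun j hj => by rw [if_neg (Finset.ne_of_mem_erase hj)]
            rw [e, he, ← Finset.add_sum_erase _ _ (Finset.mem_univ i), ha,
              inv_mul_eq_iff_eq_mul₀ hne]
            ring
          · rfl
  refine hV.congr (key Finset.univ) fun Ω _ _ x => ?_
  exact ⟨fun hx => ⟨⟨hx.1, fun i hi => (hi (Finset.mem_univ i)).elim⟩, hx.2⟩,
    fun hx => ⟨hx.1.1, hx.2⟩⟩

end Pool.Agent.MP_c1eb4d_ag
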