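import Pool.Agent.MP_c1eb4d_ag.UGeo
import Pool.Agent.MP_c1eb4d_ag.KCls
import Pool.Agent.MP_c1eb4d_ag.CPres
import Pool.Agent.MP_c1eb4d_ag.KBridge

open Function TensorProduct Matrix

namespace Pool.Agent.MP_c1eb4d_ag

open Pool.Agent.MP_a9d3bd_ag

theorem umain {k F σ : Type} [Field k] [Field F] [Fintype F] [Algebra F k]
    [Algebra.IsAlgebraic F k] [Fintype σ] [DecidableEq σ] (q : ℕ) (hq : Fintype.card F = q ^ 2)
    (N : Matrix σ σ F) (hN : ∀ a b, N a b ^ q = N b a) (hd : N.det ≠ 0) (r : ℕ) :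
    CurveSpanned k (URing k q N r) q (Even (Fintype.card σ)) := by
  by_cases he : Even (Fintype.card σ)
  · have h := (isCls_van k).ju hq N hN hd (Or.inl he) r
    exact curveSpanned_of_chow (VanS.van h (cut_ju k N r) le_rfl Ideal.le_radical).chowSpanned _ _
  · obtain ⟨O, _, _, x, c, hO⟩ := isCA_exists q k
    have := hO.isDomain (ff_two_le hq)
    have h := (isCls_vanK k (FractionRing O)).ju hq N hN hd (Or.inr (curve_vanKS hq hO)) r
    exact vanK_bridge hO (vanKS_van h (cut_ju k N r) le_rfl Ideal.le_radical) he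

end Pool.Agent.MP_c1eb4d_ag
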