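import Pool.Agent.MP_c1eb4d_ag.UHf

open Function TensorProduct Matrix

namespace Pool.Agent.MP_c1eb4d_ag

open Pool.Agent.MP_a9d3bd_ag

theorem USchB_mul {σ R : Type} [CommRing R] [Fintype σ] [DecidableEq σ] (π : Finset σ)
    (B : Matrix σ π R) (D : Matrix π σ R) (hB : ∀ i j : π, B i j = if i = j then 1 else 0)
    (j i : π) : (D * B) j i = D j i + ∑ c : {a // a ∉ π}, D j c * B c i := by
  rw [Matrix.mul_apply, ← Fintype.sum_subtype_add_sum_subtype (fun a => a ∈ π)]
  congr 1
  refine (Finset.sum_eq_single i (fun b _ hb => ?_) fun h => absurd (by simp) h).trans ?_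
  · rw [hB, if_neg hb, mul_zero]
  · rw [hB, if_pos rfl, mul_one]

/-- the complement with given free columns -/
def USchB_map (k : Type) {σ : Type} [Field k] [Fintype σ] [DecidableEq σ] (π : Finset σ) :
    PMap k (σ × π ⊕ π × {a // a ∉ π}) (σ × π ⊕ π × σ) := fun _ _ _ y =>
  Sum.elim (fun a => y (Sum.inl a)) fun a =>
    if h : a.2 ∈ π then (if a.1 = ⟨a.2, h⟩ then 1 else 0) -
      ∑ c : {a // a ∉ π}, y (Sum.inr (a.1, c)) * y (Sum.inl (c, ⟨a.2, h⟩))
    else y (Sum.inr (a.1, ⟨a.2, h⟩))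

theorem USchB_nat (k : Type) {σ : Type} [Field k] [Fintype σ] [DecidableEq σ] (π : Finset σ) :
    IsNat (USchB_map k π) := by
  rintro R R' _ _ _ _ f y (a | a)
  · rfl
  · simp only [USchB_map, Sum.elim_inr]
    split_ifs <;> simp only [map_sub, map_sum, map_mul, map_one, map_zero]

/-- the complements form an affine space -/
theorem IsCls.pair {k F σ : Type} [Field k] [Field F] [Algebra F k] [Fintype σ] [DecidableEq σ]
    {q : ℕ} {V : ∀ σ : Type, Fam k σ → Prop} (hV : IsCls V) (N : Matrix σ σ F) (ord : σ → ℕ)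
    (π : Finset σ) (h : V _ (Cell k q N ord (Subtype.val : π → σ))) :
    V _ (Pair k q N ord (Subtype.val : π → σ)) := by
  refine hV.iso' (Φ := USchB_map k π)
    (Ψ := fun _ _ _ x a => x (Sum.map id (Prod.map id Subtype.val) a)) (USchB_nat k π)
    (isNat_pre _) ?_ (hV.prod (τ := π × {a // a ∉ π}) h) ?_ ?_
  · refine (isCl_pre (hV.isCl h) Sum.inl).and ?_
    refine (IsCl.forall fun j : π => IsCl.forall fun i : π => isCl_eq
      (g := fun _ _ _ x => ∑ a, x (Sum.inr (j, a)) * x (Sum.inl (a, i)))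
      (g' := fun _ _ _ _ => if j = i then 1 else 0) ?_ ?_).congr fun Ω _ _ x => ?_
    · intro R R' _ _ _ _ f x
      simp only [map_sum, map_mul]
    · intro R R' _ _ _ _ f x
      split_ifs <;> simp only [map_one, map_zero]
    · exact Matrix.ext_iff.symm
  · intro Ω _ _ y hy
    refine ⟨⟨hy, ?_⟩, ?_⟩
    · ext j i
      refine (USchB_mul π _ (mt fun a => USchB_map k π Ω y (Sum.inr a)) hy.1.1 j i).trans ?_
      rw [Matrix.one_apply]
      have h1 : ∀ c : {a // a ∉ π}, mt (fun a => USchB_map k π Ω y (Sum.inr a)) j c =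
          y (Sum.inr (j, c)) := fun c => dif_neg c.2
      have h2 : mt (fun a => USchB_map k π Ω y (Sum.inr a)) j i = (if j = i then 1 else 0) -
          ∑ c : {a // a ∉ π}, y (Sum.inr (j, c)) * y (Sum.inl (c, i)) := dif_pos i.2
      rw [h2, Finset.sum_congr rfl fun c _ => congrArg (· * _) (h1 c)]
      exact sub_add_cancel _ _
    · funext a
      rcases a with a | a
      · rfl
      · exact dif_neg a.2.2
  · intro Ω _ _ x hx
    refine ⟨hx.1, ?_⟩
    funext a
    rcases a with a | ⟨j, a⟩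
    · rfl
    · by_cases ha : a ∈ π
      · have h1 := USchB_mul π _ (mt fun a => x (Sum.inr a)) hx.1.1.1 j ⟨a, ha⟩
        rw [hx.2, Matrix.one_apply] at h1
        exact (dif_pos ha).trans (sub_eq_of_eq_add h1)
      · exact dif_neg ha

end Pool.Agent.MP_c1eb4d_ag
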