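import Pool.Agent.MP_c1eb4d_ag.UStep0
import Pool.Agent.MP_c1eb4d_ag.UHerm2
import Pool.Agent.MP_c1eb4d_ag.UHC

open Function TensorProduct Matrix

namespace Pool.Agent.MP_c1eb4d_ag

open Pool.Agent.MP_a9d3bd_ag

variable {k F I J C E : Type} [Field k] [Field F] [Fintype F] [Algebra F k] {q : ℕ} [Fintype I]
  [Fintype J] [Fintype C] [Fintype E] {V : ∀ σ : Type, Fam k σ → Prop}

/-- the functions `γ` -/
def UStep_g (k : Type) [Field k] [Algebra F k] (T : I × I → F) {R : Type} [CommRing R]
    [Algebra k R] (z : ZI I J C → R) (a : I × C) : R :=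
  ∑ i, cF k R (T (i, a.1)) * z (Sum.inr (Sum.inl (i, a.2)))

omit [Fintype F] [Fintype J] [Fintype C] in
theorem UStep_map (T : I × I → F) {R R' : Type} [CommRing R] [Algebra k R] [CommRing R']
    [Algebra k R'] (f : R →ₐ[k] R') (z : ZI I J C → R) (a : I × C) :
    f (UStep_g k T z a) = UStep_g k T (fun t => f (z t)) a := by
  simp only [UStep_g, map_sum, map_mul, cF_map]

theorem UStep_lin [DecidableEq E] (hV : IsCls V) (hq : Fintype.card F = q ^ 2)
    (hC : IsEmpty E ∨ Curve V q) (su : J → C → Prop) (sm : I → C → Prop) (sn : I → J → Prop)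
    (T : I × I → F) (hT : ∀ i i', T (i, i') ^ q = T (i', i)) :
    V (Option (ZI I J C ⊕ I × E) ⊕ I × C) fun Ω _ _ x =>
      WA k F su sm sn Ω (fun a => x (Sum.inl (some (Sum.inl a)))) ∧
        x (Sum.inl none) ^ q + x (Sum.inl none) =
          ∑ a, (UStep_g k T (fun a => x (Sum.inl (some (Sum.inl a)))) a -
            UStep_g k T (fun a => x (Sum.inl (some (Sum.inl a)))) a ^ Fintype.card F) *
              x (Sum.inr a) +
          hf k q (Matrix.of fun a b : I × E => if a.2 = b.2 then -T (a.1, b.1) else 0)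
            (fun a => x (Sum.inl (some (Sum.inr a)))) fun a => x (Sum.inl (some (Sum.inr a))) := by
  have hC' : IsEmpty (I × E) ∨ Curve V q := hC.imp_left fun h => ⟨fun a => h.false a.2⟩
  have hT' : ∀ a b : I × E,
      (Matrix.of fun a b : I × E => if a.2 = b.2 then -T (a.1, b.1) else 0) a b ^ q =
        (Matrix.of fun a b : I × E => if a.2 = b.2 then -T (a.1, b.1) else 0) b a := by
    intro a b
    have h2 := ff_two_le hq
    by_cases h : a.2 = b.2
    · rw [Matrix.of_apply, Matrix.of_apply, if_pos h, if_pos h.symm, ff_neg F hq, hT]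
    · rw [Matrix.of_apply, Matrix.of_apply, if_neg h, if_neg (Ne.symm h), zero_pow (by omega)]
  have h0 := hV.herm hq hC' _ hT' (van_gamma (k := k) su sm sn T Set.univ)
  refine hV.lin (σ := ZI I J C ⊕ I × E) (ι := I × C)
    (S := fun Ω _ _ x => WA k F su sm sn Ω fun a => x (Sum.inl a))
    (fun a _ _ _ x => UStep_g k T (fun a => x (Sum.inl a)) a -
      UStep_g k T (fun a => x (Sum.inl a)) a ^ Fintype.card F) (fun a => ?_)
    (fun _ _ _ x => hf k q (Matrix.of fun a b : I × E => if a.2 = b.2 then -T (a.1, b.1) else 0)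
      (fun a => x (Sum.inr a)) fun a => x (Sum.inr a)) (isNatF_hf k _ _ _)
    (fun _ _ _ x => x () ^ q + x ()) ?_ (fun X => prodS (van_gamma su sm sn T X))
    (hV.congr h0 fun Ω _ _ x => ?_)
  · intro R R' _ _ _ _ f x
    simp only [map_sub, map_pow, UStep_map]
  · intro R R' _ _ _ _ f x
    simp only [map_add, map_pow]
  · exact and_congr_left fun _ => and_congr_right fun _ =>
      ⟨fun h a _ => h a, fun h a => h a (Set.mem_univ _)⟩

/-- the change of the last coordinate -/
def UStep_to (k : Type) [Field k] [Algebra F k] (T : I × I → F) :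
    PMap k (Option (BI I J C E)) (Option (ZI I J C ⊕ I × E) ⊕ I × C) := fun _ _ _ x t =>
  match t with
  | Sum.inl none => x none +
      ∑ a, UStep_g k T (fun a => x (some (Sum.inl (Sum.inl a)))) a * x (some (Sum.inr a))
  | Sum.inl (some a) => x (some (Sum.inl a))
  | Sum.inr a => x (some (Sum.inr a))

/-- its inverse -/
def UStep_of (k : Type) [Field k] [Algebra F k] (T : I × I → F) :
    PMap k (Option (ZI I J C ⊕ I × E) ⊕ I × C) (Option (BI I J C E)) := fun _ _ _ y t =>
  match t with
  | none => y (Sum.inl none) -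
      ∑ a, UStep_g k T (fun a => y (Sum.inl (some (Sum.inl a)))) a * y (Sum.inr a)
  | some (Sum.inl a) => y (Sum.inl (some a))
  | some (Sum.inr a) => y (Sum.inr a)

omit [Fintype F] [Fintype J] [Fintype E] in
theorem UStep_nat_to (T : I × I → F) : IsNat (UStep_to (J := J) (C := C) (E := E) k T) := by
  intro R R' _ _ _ _ f y t
  rcases t with (_ | a) | a
  · simp only [UStep_to, map_add, map_sum, map_mul, UStep_map]
  · rfl
  · rfl

omit [Fintype F] [Fintype J] [Fintype E] in
theorem UStep_nat_of (T : I × I → F) : IsNat (UStep_of (J := J) (C := C) (E := E) k T) := by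
  intro R R' _ _ _ _ f y t
  rcases t with _ | a | a
  · simp only [UStep_of, map_sub, map_sum, map_mul, UStep_map]
  · rfl
  · rfl

omit [Fintype F] [Fintype J] [Fintype E] in
theorem UStep_to_of (T : I × I → F) {R : Type} [CommRing R] [Algebra k R]
    (y : Option (ZI I J C ⊕ I × E) ⊕ I × C → R) : UStep_to k T R (UStep_of k T R y) = y := by
  funext t
  rcases t with (_ | a) | a
  · exact sub_add_cancel _ _
  · rfl
  · rfl

omit [Fintype F] [Fintype J] [Fintype E] in
theorem UStep_of_to (T : I × I → F) {R : Type} [CommRing R] [Algebra k R]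
    (x : Option (BI I J C E) → R) : UStep_of k T R (UStep_to k T R x) = x := by
  funext t
  rcases t with _ | a | a
  · exact add_sub_cancel_right _ _
  · rfl
  · rfl

/-- the quotient attached to a Hermitian matrix -/
theorem IsCls.step (hV : IsCls V) (hq : Fintype.card F = q ^ 2) (hC : IsEmpty E ∨ Curve V q)
    (o : I ⊕ J ⊕ C → ℕ) (T : I × I → F) (hT : ∀ i i', T (i, i') ^ q = T (i', i)) :
    V (Option (BI I J C E)) fun Ω _ _ x => WO k F E o Ω (fun a => x (some a)) ∧
      x none ^ q + x none = ∑ a : I × I, cF k Ω (T a) * tt k q Ω (fun a => x (some a)) a := by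
  classical
  have hL := UStep_lin hV hq hC
    (fun j c => ¬ o (Sum.inr (Sum.inl j)) < o (Sum.inr (Sum.inr c)))
    (fun i c => ¬ o (Sum.inr (Sum.inr c)) < o (Sum.inl i))
    (fun i j => ¬ o (Sum.inr (Sum.inl j)) < o (Sum.inl i)) T hT
  have key := fun (Ω : Type) [Field Ω] [Algebra k Ω] (x : Option (BI I J C E) → Ω) =>
    tt_pair hq T hT (fun a => x (some a)) (UStep_g k T fun a => x (some (Sum.inl (Sum.inl a))))
      (fun _ => rfl) (x none)
  refine hV.iso' (UStep_nat_of T) (UStep_nat_to T) ?_ hL (fun Ω _ _ y hy => ?_)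
    fun Ω _ _ x hx => ⟨⟨hx.1, sub_eq_zero.1 ((key Ω x).trans (sub_eq_zero.2 hx.2))⟩,
      UStep_of_to T x⟩
  · have n1 : IsNatF (fun _ _ _ x => x none ^ q + x none : PFun k (Option (BI I J C E))) := by
      intro R R' _ _ _ _ f x
      simp only [map_add, map_pow]
    have n2 : IsNatF (fun Ω _ _ x => ∑ a : I × I, cF k Ω (T a) *
        tt k q Ω (fun a => x (some a)) a : PFun k (Option (BI I J C E))) := by
      intro R R' _ _ _ _ f x
      simp only [map_sum, map_mul, cF_map, isNat_tt R R' f]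
    have c2 := isCl_eq n1 n2
    exact IsCl.and (isCl_pre (isCl_wa _ _ _) fun a => some (Sum.inl (Sum.inl a))) c2
  · refine ⟨⟨hy.1, sub_eq_zero.1 ((key Ω _).symm.trans (sub_eq_zero.2 ?_))⟩, UStep_to_of T y⟩
    rw [← UStep_to_of (k := k) T y] at hy
    exact hy.2

theorem IsCls.hat (hV : IsCls V) (hq : Fintype.card F = q ^ 2) (hC : IsEmpty E ∨ Curve V q)
    (o : I ⊕ J ⊕ C → ℕ) : V (BI I J C E ⊕ I × I) (HCov k q (WO k F E o) (tt k q)) :=
  hV.hcov hq _ isNat_tt (hV.ofVan (prodS (prodS (ta3 _ _ _)))) fun T hT _ => hV.step hq hC o T hT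

end Pool.Agent.MP_c1eb4d_ag
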