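import Pool.Agent.MP_c1eb4d_ag.UTA2
import Pool.Agent.MP_c1eb4d_ag.UHf

open Function TensorProduct Matrix

namespace Pool.Agent.MP_c1eb4d_ag

open Pool.Agent.MP_a9d3bd_ag

variable {k F I J C E : Type} [Field k] [Field F] [Fintype F] [Algebra F k] {q : ℕ} [Fintype I]
  [Fintype C] [Fintype E]

omit [Fintype F] [Fintype I] [Field F] [Algebra F k] in
theorem isNat_tt : IsNat (tt k (I := I) (J := J) (C := C) (E := E) q) := by
  intro R R' _ _ _ _ f y a
  simp only [tt, map_neg, map_add, map_sum, map_mul, map_pow]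

/-- the pairing of a Hermitian matrix with the right hand side -/
theorem tt_pair [DecidableEq E] (hq : Fintype.card F = q ^ 2) (T : I × I → F)
    (hT : ∀ i i', T (i, i') ^ q = T (i', i)) {R : Type} [CommRing R] [Algebra k R]
    (z : BI I J C E → R) (γ : I × C → R)
    (hγ : ∀ a, γ a = ∑ i, cF k R (T (i, a.1)) * z (Sum.inl (Sum.inl (Sum.inr (Sum.inl (i, a.2))))))
    (c : R) :
    (c + ∑ a, γ a * z (Sum.inr a)) ^ q + (c + ∑ a, γ a * z (Sum.inr a)) -
      (∑ a, (γ a - γ a ^ Fintype.card F) * z (Sum.inr a) +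
        hf k q (Matrix.of fun a b : I × E => if a.2 = b.2 then -T (a.1, b.1) else 0)
          (fun a => z (Sum.inl (Sum.inr a))) fun a => z (Sum.inl (Sum.inr a))) =
    c ^ q + c - ∑ a : I × I, cF k R (T a) * tt k q R z a := by
  have h1 : ∀ a : I × C, γ a ^ q = ∑ i, cF k R (T (a.1, i)) *
      z (Sum.inl (Sum.inl (Sum.inr (Sum.inl (i, a.2))))) ^ q := fun a => by
    rw [hγ, ff_sum k hq]
    exact Finset.sum_congr rfl fun i _ => by rw [mul_pow, ff_cF, hT]
  have h2 : ∀ a : I × C, γ a ^ Fintype.card F = ∑ i, cF k R (T (i, a.1)) *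
      (z (Sum.inl (Sum.inl (Sum.inr (Sum.inl (i, a.2))))) ^ q) ^ q := fun a => by
    rw [ff_pow_card hq, h1, ff_sum k hq]
    exact Finset.sum_congr rfl fun i _ => by rw [mul_pow, ff_cF, hT]
  have h3 : hf k q (Matrix.of fun a b : I × E => if a.2 = b.2 then -T (a.1, b.1) else 0)
      (fun a => z (Sum.inl (Sum.inr a))) (fun a => z (Sum.inl (Sum.inr a))) =
      -∑ i, ∑ i', cF k R (T (i, i')) *
        ∑ e, z (Sum.inl (Sum.inr (i, e))) ^ q * z (Sum.inl (Sum.inr (i', e))) := by
    simp only [hf, Matrix.of_apply, Fintype.sum_prod_type, apply_ite (cF k R), map_neg, map_zero,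
      mul_ite, ite_mul, mul_zero, zero_mul, Finset.sum_ite_eq, Finset.mem_univ, if_true,
      Finset.mul_sum, ← Finset.sum_neg_distrib]
    refine Finset.sum_congr rfl fun i _ => ?_
    rw [Finset.sum_comm]
    exact Finset.sum_congr rfl fun i' _ => Finset.sum_congr rfl fun e _ => by ring
  have h4 : ∑ a, γ a ^ q * z (Sum.inr a) ^ q = ∑ i, ∑ i', cF k R (T (i, i')) *
      ∑ c, z (Sum.inr (i, c)) ^ q * z (Sum.inl (Sum.inl (Sum.inr (Sum.inl (i', c))))) ^ q := by
    simp only [h1, Fintype.sum_prod_type, Finset.mul_sum, Finset.sum_mul]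
    refine Finset.sum_congr rfl fun i _ => ?_
    rw [Finset.sum_comm]
    exact Finset.sum_congr rfl fun i' _ => Finset.sum_congr rfl fun e _ => by ring
  have h5 : ∑ a, γ a ^ Fintype.card F * z (Sum.inr a) = ∑ i, ∑ i', cF k R (T (i, i')) *
      ∑ c, (z (Sum.inl (Sum.inl (Sum.inr (Sum.inl (i, c))))) ^ q) ^ q * z (Sum.inr (i', c)) := by
    simp only [h2, Fintype.sum_prod_type, Finset.mul_sum, Finset.sum_mul]
    conv_rhs => rw [Finset.sum_comm]
    refine Finset.sum_congr rfl fun i _ => ?_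
    rw [Finset.sum_comm]
    exact Finset.sum_congr rfl fun i' _ => Finset.sum_congr rfl fun e _ => by ring
  rw [ff_add k hq, ff_sum k hq, h3]
  simp only [mul_pow, sub_mul, Finset.sum_sub_distrib, h4, h5, tt, Fintype.sum_prod_type (α₁ := I)
    (α₂ := I), Finset.sum_add_distrib, mul_neg, mul_add, Finset.sum_neg_distrib]
  ring

omit [Fintype E] in
/-- the loci of the type A variety where some of the functions `γ` are rational -/
theorem van_gamma [Fintype J] (su : J → C → Prop) (sm : I → C → Prop) (sn : I → J → Prop)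
    (T : I × I → F) (X : Set (I × C)) :
    VanS (fun Ω _ _ z => WA k F su sm sn Ω z ∧ ∀ a ∈ X,
      (∑ i, cF k Ω (T (i, a.1)) * z (Sum.inr (Sum.inl (i, a.2)))) -
        (∑ i, cF k Ω (T (i, a.1)) * z (Sum.inr (Sum.inl (i, a.2)))) ^ Fintype.card F = 0 :
      Fam k (ZI I J C)) := by
  classical
  have h := (isCls_van k).rat (F := F) (isCl_wa (k := k) (F := F) su sm sn)
    (fun a : I × C => fun R _ _ z => ∑ i, cF k R (T (i, a.1)) * z (Sum.inr (Sum.inl (i, a.2))))
    (fun a R R' _ _ _ _ f x => by simp only [map_sum, map_mul, cF_map]) X fun v => by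
      refine (ta2 (k := k) (ι := X) su sm sn
        (Matrix.of fun a b => if b.2 = a.1.2 then T (b.1, a.1.1) else 0) fun a => v a.1).congr ?_
      intro Ω _ _ x
      refine and_congr_right fun _ => ?_
      simp only [funext_iff, Subtype.forall, rm, rv, Matrix.mulVec, dotProduct, Matrix.map_apply,
        Matrix.of_apply, Fintype.sum_prod_type, apply_ite (cF k Ω), map_zero, ite_mul, zero_mul,
        Finset.sum_ite_eq', Finset.mem_univ, if_true]
  refine h.congr fun Ω _ _ x => and_congr_right fun _ => ?_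
  exact forall₂_congr fun a _ => sub_eq_zero.trans eq_comm

end Pool.Agent.MP_c1eb4d_ag
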