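import Pool.Agent.MP_c1eb4d_ag.ULin
import Pool.Agent.MP_c1eb4d_ag.ULC

open Function TensorProduct Matrix

namespace Pool.Agent.MP_c1eb4d_ag

open Pool.Agent.MP_a9d3bd_ag

section

variable {k F U M N : Type} [Field k] [Field F] [Algebra F k]

theorem UTA0_aff {τ ι : Type} [Fintype τ] [Finite ι] (C : ι → τ → F) (d : ι → F) (J : Set ι) :
    VanS (fun Ω _ _ x => ∀ i ∈ J, ∑ s, cF k Ω (C i s) * x s = cF k Ω (d i) : Fam k τ) := by
  have := Fintype.ofFinite J
  refine (affSub (k := k) (Matrix.of fun (i : J) s => C i s) fun i => d i).congr ?_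
  intro Ω _ _ x
  rw [funext_iff, Subtype.forall]
  rfl

variable [Fintype U] [Fintype M] [Fintype N]

/-- the coefficient of `x_c` -/
def UTA0_h (k : Type) [Field k] [Algebra F k] (b : N → M → U → F) (l : M ⊕ N → F) (c : M) :
    PFun k U := fun R _ _ u =>
  cF k R (l (Sum.inl c)) + ∑ s, cF k R (∑ n, l (Sum.inr n) * b n c s) * u s

omit [Fintype M] in
theorem UTA0_hnat (b : N → M → U → F) (l : M ⊕ N → F) (c : M) : IsNatF (UTA0_h k b l c) := by
  intro R R' _ _ _ _ f x
  simp only [UTA0_h, map_add, map_sum f, map_mul f, cF_map]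

/-- the right hand side of the Lang cover -/
def UTA0_t (k : Type) [Field k] [Algebra F k] (b : N → M → U → F) : PMap k (U ⊕ M) (M ⊕ N) :=
  fun R _ _ w => Sum.elim (fun c => w (Sum.inr c)) fun n =>
    ∑ c, (∑ s, cF k R (b n c s) * w (Sum.inl s)) * w (Sum.inr c)

omit [Fintype N] in
theorem UTA0_tnat (b : N → M → U → F) : IsNat (UTA0_t k b) := by
  intro R R' _ _ _ _ f x a
  cases a with
  | inl c => rfl
  | inr n => simp only [UTA0_t, Sum.elim_inr, map_sum f, map_mul f, cF_map]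

theorem UTA0_dot (b : N → M → U → F) (l : M ⊕ N → F) {R : Type} [CommRing R] [Algebra k R]
    (w : U ⊕ M → R) : rv k R l ⬝ᵥ UTA0_t k b R w =
      ∑ c, UTA0_h k b l c R (fun s => w (Sum.inl s)) * w (Sum.inr c) := by
  simp only [dotProduct, Fintype.sum_sum_type, UTA0_t, UTA0_h, rv, Sum.elim_inl, Sum.elim_inr,
    add_mul, Finset.sum_add_distrib, map_sum, map_mul, Finset.mul_sum, Finset.sum_mul]
  congr 1
  rw [Finset.sum_comm]
  refine Finset.sum_congr rfl fun c _ => ?_
  rw [Finset.sum_comm]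
  refine Finset.sum_congr rfl fun s _ => Finset.sum_congr rfl fun n _ => ?_
  ring

theorem UTA0_zero [Fintype F] (b : N → M → U → F) (l : M ⊕ N → F) :
    VanS (fun Ω _ _ x => (True ∧ ∀ c, UTA0_h k b l c Ω (fun a => x (some a)) = 0) ∧
      x none ^ Fintype.card F - x none = 0 : Fam k (Option U)) := by
  have hS : IsCl (fun Ω _ _ x => ∀ c, UTA0_h k b l c Ω (fun a => x (some a)) = 0 :
      Fam k (Option U)) :=
    IsCl.forall fun c => isCl_pre (isCl_eq (g' := fun _ _ _ _ => 0) (UTA0_hnat b l c)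
      fun _ _ _ _ _ _ f _ => map_zero f) some
  have h := (isCls_van k).rat (F := F) (ι := Unit) hS (fun _ _ _ _ x => x none)
    (fun _ _ _ _ _ _ _ _ _ => rfl) Set.univ fun v => by
      refine (UTA0_aff (k := k) (fun (i : Option M) (s : Option U) =>
        i.elim (s.elim 1 fun _ => 0) fun c => s.elim 0 fun s => ∑ n, l (Sum.inr n) * b n c s)
        (fun i => i.elim (v ()) fun c => -l (Sum.inl c)) Set.univ).congr ?_
      intro Ω _ _ x
      simp only [Set.mem_univ, forall_const, Option.forall, Fintype.sum_option, Option.elim_none,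
        Option.elim_some, map_one, map_zero, one_mul, zero_mul, Finset.sum_const_zero, add_zero,
        zero_add, map_neg, UTA0_h, Unique.forall_iff]
      rw [and_comm]
      exact and_congr Iff.rfl (forall_congr' fun c => by rw [add_comm, add_eq_zero_iff_eq_neg])
  refine h.congr fun Ω _ _ x => ?_
  simp only [true_and, Set.mem_univ, forall_const, sub_eq_zero]

theorem UTA0_hl [Fintype F] (b : N → M → U → F) (l : M ⊕ N → F) :
    VanS (fun Ω _ _ x => True ∧ x none ^ Fintype.card F - x none =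
      rv k Ω l ⬝ᵥ UTA0_t k b Ω fun a => x (some a) : Fam k (Option (U ⊕ M))) := by
  have h := (isCls_van k).lin (S := fun _ _ _ _ => True) (UTA0_h k b l) (UTA0_hnat b l)
    (fun _ _ _ _ => 0) (fun _ _ _ _ _ _ f _ => map_zero f)
    (fun _ _ _ x => x () ^ Fintype.card F - x ())
    (fun _ _ _ _ _ _ f _ => by rw [map_sub, map_pow]) (fun J => by
      refine (UTA0_aff (k := k) (fun c s => ∑ n, l (Sum.inr n) * b n c s)
        (fun c => -l (Sum.inl c)) J).congr fun Ω _ _ x => ?_
      rw [true_and]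
      exact forall₂_congr fun c _ => by
        rw [UTA0_h, map_neg, add_comm, add_eq_zero_iff_eq_neg]) (UTA0_zero b l)
  have h' := (isCls_van k).inj (σ := Option (U ⊕ M))
    (Sum.elim (fun o : Option U => o.map Sum.inl) fun c => some (Sum.inr c)) (by
      rintro ((_ | a) | a) ((_ | a') | a') e <;> simp_all) h
  refine h'.congr fun Ω _ _ x => ?_
  rw [UTA0_dot, add_zero]
  rfl

omit [Fintype N] in
theorem UTA0_cl (b : N → M → U → F) (Q : ℕ) : IsCl (fun Ω _ _ z => ∀ n,
    z (Sum.inr (Sum.inr n)) ^ Q - z (Sum.inr (Sum.inr n)) =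
      ∑ c, (∑ s, cF k Ω (b n c s) * z (Sum.inl s)) *
        (z (Sum.inr (Sum.inl c)) ^ Q - z (Sum.inr (Sum.inl c))) : Fam k (U ⊕ M ⊕ N)) := by
  have h : ∀ n, IsCl (_ : Fam k (U ⊕ M ⊕ N)) := fun n : N => isCl_eq
    (g := fun _ _ _ z => z (Sum.inr (Sum.inr n)) ^ Q - z (Sum.inr (Sum.inr n)))
    (g' := fun Ω _ _ z => ∑ c, (∑ s, cF k Ω (b n c s) * z (Sum.inl s)) *
      (z (Sum.inr (Sum.inl c)) ^ Q - z (Sum.inr (Sum.inl c))))
    (fun R R' _ _ _ _ f x => by rw [map_sub, map_pow])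
    (fun R R' _ _ _ _ f x => by simp only [map_sum f, map_mul f, map_sub f, map_pow f, cF_map])
  exact IsCl.forall h

end

/-- the basic type A variety -/
theorem ta0 {k F U M N : Type} [Field k] [Field F] [Fintype F] [Algebra F k] [Fintype U]
    [Fintype M] [Fintype N] (b : N → M → U → F) :
    VanS (fun Ω _ _ z => ∀ n, z (Sum.inr (Sum.inr n)) ^ Fintype.card F - z (Sum.inr (Sum.inr n)) =
      ∑ c, (∑ s, cF k Ω (b n c s) * z (Sum.inl s)) *
        (z (Sum.inr (Sum.inl c)) ^ Fintype.card F - z (Sum.inr (Sum.inl c))) :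
      Fam k (U ⊕ M ⊕ N)) := by
  have h := (isCls_van k).lang (F := F) (S := fun _ _ _ _ => True) (UTA0_t k b) (UTA0_tnat b) affS
    fun l _ => UTA0_hl b l
  have hc := UTA0_cl (k := k) b (Fintype.card F)
  have hΨ : IsNat (fun _ _ _ x => Sum.elim (Sum.elim (fun s => x (Sum.inl s)) fun c =>
      x (Sum.inr (Sum.inl c)) ^ Fintype.card F - x (Sum.inr (Sum.inl c))) fun a => x (Sum.inr a) :
      PMap k (U ⊕ M ⊕ N) ((U ⊕ M) ⊕ M ⊕ N)) := by
    rintro R R' _ _ _ _ f x ((s | c) | a)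
    · rfl
    · simp only [Sum.elim_inl, Sum.elim_inr, map_sub, map_pow]
    · rfl
  refine (isCls_van k).iso' (isNat_pre (Sum.map Sum.inl id)) hΨ hc h ?_ ?_
  · rintro Ω _ _ y ⟨-, hy⟩
    have h1 : ∀ c, y (Sum.inr (Sum.inl c)) ^ Fintype.card F - y (Sum.inr (Sum.inl c)) =
        y (Sum.inl (Sum.inr c)) := fun c => hy (Sum.inl c)
    refine ⟨fun n => ?_, ?_⟩
    · have h2 := hy (Sum.inr n)
      simp only [UTA0_t, Sum.elim_inr] at h2
      simp only [Sum.map_inr, Sum.map_inl, id, h1, h2]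
    · funext a
      rcases a with (s | c) | a
      · rfl
      · exact h1 c
      · rfl
  · intro Ω _ _ x hx
    refine ⟨⟨trivial, ?_⟩, ?_⟩
    · rintro (c | n)
      · rfl
      · simp only [UTA0_t, Sum.elim_inr, Sum.elim_inl]
        exact hx n
    · funext a
      rcases a with s | a <;> rfl

end Pool.Agent.MP_c1eb4d_ag
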