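import Pool.Agent.MP_c1eb4d_ag.UTA0

open Function TensorProduct Matrix

namespace Pool.Agent.MP_c1eb4d_ag

open Pool.Agent.MP_a9d3bd_ag

theorem UTA1_key (k : Type) {F U M L R : Type} [Field k] [Field F] [Fintype F] [Algebra F k]
    [Fintype U] [Fintype M] [Fintype L] [CommRing R] [Algebra k R] (b : M → U → F) (x₀ : M → F)
    (G : Matrix M L F) (u : U → R) (y : L → R) :
    ∑ c, (∑ s, cF k R (b c s) * u s) * ((rv k R x₀ + rm k R G *ᵥ y) c ^ Fintype.card F -
      (rv k R x₀ + rm k R G *ᵥ y) c) =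
    ∑ c', (∑ s, cF k R (∑ c, b c s * G c c') * u s) * (y c' ^ Fintype.card F - y c') := by
  have h : ∀ c, (rv k R x₀ + rm k R G *ᵥ y) c ^ Fintype.card F - (rv k R x₀ + rm k R G *ᵥ y) c =
      ∑ c', cF k R (G c c') * (y c' ^ Fintype.card F - y c') := fun c => by
    have h1 : fr F 1 (rv k R x₀ + rm k R G *ᵥ y) = rv k R x₀ + rm k R G *ᵥ fr F 1 y := by
      rw [fr_add k, fr_rv, fr_mulVec]
    have h2 := congrFun h1 c
    simp only [fr, pow_one] at h2
    rw [h2]
    simp [fr, rm, Matrix.mulVec, dotProduct, mul_sub]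
  simp only [h, map_sum, map_mul, Finset.sum_mul, Finset.mul_sum]
  rw [Finset.sum_comm]
  refine Finset.sum_congr rfl fun c' _ => ?_
  rw [Finset.sum_comm]
  refine Finset.sum_congr rfl fun s _ => Finset.sum_congr rfl fun c _ => by ring

/-- with rational affine conditions on the middle coordinates -/
theorem ta1 {k F U M N ι : Type} [Field k] [Field F] [Fintype F] [Algebra F k] [Fintype U]
    [Fintype M] [Fintype N] [Fintype ι] (b : N → M → U → F) (C : Matrix ι M F) (d : ι → F) :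
    VanS (fun Ω _ _ z => rm k Ω C *ᵥ (fun c => z (Sum.inr (Sum.inl c))) = rv k Ω d ∧
      ∀ n, z (Sum.inr (Sum.inr n)) ^ Fintype.card F - z (Sum.inr (Sum.inr n)) =
        ∑ c, (∑ s, cF k Ω (b n c s) * z (Sum.inl s)) *
          (z (Sum.inr (Sum.inl c)) ^ Fintype.card F - z (Sum.inr (Sum.inl c))) :
      Fam k (U ⊕ M ⊕ N)) := by
  classical
  have hS := IsCl.and (isCl_veq (k := k) (σ := U ⊕ M ⊕ N)
    (Φ := fun R _ _ z => rm k R C *ᵥ fun c => z (Sum.inr (Sum.inl c)))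
    (Ψ := fun R _ _ _ => rv k R d) (fun _ _ _ _ _ _ f y a => mulVec_map k f C _ a)
    fun _ _ _ _ _ _ f _ a => rv_map k f d a) (ta0 (k := k) b).isCl
  rcases lin_param C d with ⟨l, h1, h2⟩ | ⟨m, x₀, G, G', H, h1, h2, h3, h4⟩
  · refine (isCls_van k).empty hS fun Ω _ _ _ x hx => ?_
    have h3 := congrArg (rv k Ω l ⬝ᵥ ·) hx.1
    simp only [Matrix.dotProduct_mulVec, ← rv_vecMul, h1, rv_zero, rv_dot, h2, zero_dotProduct,
      map_one] at h3
    exact zero_ne_one h3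
  refine (isCls_van k).iso' (τ := U ⊕ Fin m ⊕ N)
    (Φ := fun R _ _ y => Sum.elim (fun s => y (Sum.inl s)) (Sum.elim
      (rv k R x₀ + rm k R G *ᵥ fun c => y (Sum.inr (Sum.inl c))) fun n => y (Sum.inr (Sum.inr n))))
    (Ψ := fun R _ _ y => Sum.elim (fun s => y (Sum.inl s)) (Sum.elim
      (rm k R G' *ᵥ fun c => y (Sum.inr (Sum.inl c)) - rv k R x₀ c)
        fun n => y (Sum.inr (Sum.inr n))))
    ?_ ?_ hS (ta0 fun n c' s => ∑ c, b n c s * G c c') ?_ ?_
  · rintro R R' _ _ _ _ f y (s | c | n)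
    · rfl
    · simp only [Sum.elim_inr, Sum.elim_inl, Pi.add_apply, map_add, rv_map, mulVec_map]
    · rfl
  · rintro R R' _ _ _ _ f y (s | c | n)
    · rfl
    · simp only [Sum.elim_inr, Sum.elim_inl, map_sub, rv_map, mulVec_map]
    · rfl
  · intro Ω _ _ y hy
    refine ⟨⟨?_, fun n => (hy n).trans (UTA1_key k (b n) x₀ G _ _).symm⟩, ?_⟩
    · change rm k Ω C *ᵥ (rv k Ω x₀ + rm k Ω G *ᵥ _) = _
      rw [Matrix.mulVec_add, ← rv_mulVec, h1, Matrix.mulVec_mulVec, ← rm_mul, h2]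
      simp [rm]
    · funext a
      rcases a with s | c | n
      · rfl
      · simp only [Sum.elim_inr, Sum.elim_inl, Pi.add_apply, add_sub_cancel_left]
        change (rm k Ω G' *ᵥ (rm k Ω G *ᵥ _)) c = _
        rw [Matrix.mulVec_mulVec, ← rm_mul, h3, rm_one, Matrix.one_mulVec]
      · rfl
  · intro Ω _ _ x hx
    have h5 : rv k Ω x₀ + rm k Ω G *ᵥ (rm k Ω G' *ᵥ fun c => x (Sum.inr (Sum.inl c)) - rv k Ω x₀ c) =
        fun c => x (Sum.inr (Sum.inl c)) := by
      have h6 : rm k Ω G * rm k Ω G' + rm k Ω H * rm k Ω C = 1 := by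
        rw [← rm_mul, ← rm_mul, ← rm_one k (F := F), ← h4]
        exact (Matrix.map_add _ (map_add _) _ _).symm
      change _ + _ *ᵥ (_ *ᵥ ((fun c => x (Sum.inr (Sum.inl c))) - rv k Ω x₀)) = _
      rw [Matrix.mulVec_mulVec, eq_sub_of_add_eq h6, Matrix.sub_mulVec, Matrix.one_mulVec,
        ← Matrix.mulVec_mulVec, Matrix.mulVec_sub, hx.1, ← rv_mulVec, h1, sub_self,
        Matrix.mulVec_zero, sub_zero, add_sub_cancel]
    refine ⟨fun n => (hx.2 n).trans (Eq.trans ?_ (UTA1_key k (b n) x₀ G _ _)), ?_⟩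
    · simp only [Sum.elim_inr, Sum.elim_inl, h5]
    · funext a
      rcases a with s | c | n
      · rfl
      · exact congrFun h5 c
      · rfl

end Pool.Agent.MP_c1eb4d_ag
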