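import Pool.Agent.MP_c1eb4d_ag.UTA1

open Function TensorProduct Matrix

namespace Pool.Agent.MP_c1eb4d_ag

open Pool.Agent.MP_a9d3bd_ag

variable {k F I J C : Type} [Field k] [Field F] [Fintype F] [Fintype C]

theorem isCl_wa (su : J → C → Prop) (sm : I → C → Prop) (sn : I → J → Prop) :
    IsCl (WA k F su sm sn) := by
  refine IsCl.and ?_ (IsCl.and ?_ (IsCl.and ?_ ?_))
  · exact IsCl.forall fun j => IsCl.forall fun c => IsCl.forall fun _ =>
      isCl_eq (g := fun _ _ _ z => z (Sum.inl (j, c))) (g' := fun _ _ _ _ => 0)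
        (fun _ _ _ _ _ _ _ _ => rfl) fun _ _ _ _ _ _ f _ => map_zero f
  · exact IsCl.forall fun i => IsCl.forall fun c => IsCl.forall fun _ =>
      isCl_eq (g := fun _ _ _ z => z (Sum.inr (Sum.inl (i, c)))) (g' := fun _ _ _ _ => 0)
        (fun _ _ _ _ _ _ _ _ => rfl) fun _ _ _ _ _ _ f _ => map_zero f
  · exact IsCl.forall fun i => IsCl.forall fun j => IsCl.forall fun _ =>
      isCl_eq (g := fun _ _ _ z => z (Sum.inr (Sum.inr (i, j)))) (g' := fun _ _ _ _ => 0)
        (fun _ _ _ _ _ _ _ _ => rfl) fun _ _ _ _ _ _ f _ => map_zero f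
  · refine IsCl.forall fun i => IsCl.forall fun j => IsCl.forall fun _ =>
      isCl_eq (g := fun _ _ _ z => z (Sum.inr (Sum.inr (i, j))) ^ Fintype.card F -
          z (Sum.inr (Sum.inr (i, j))))
        (g' := fun _ _ _ z => -∑ c, z (Sum.inl (j, c)) *
          (z (Sum.inr (Sum.inl (i, c))) ^ Fintype.card F - z (Sum.inr (Sum.inl (i, c))))) ?_ ?_
    · intro _ _ _ _ _ _ f x
      simp only [map_sub, map_pow]
    · intro _ _ _ _ _ _ f x
      simp only [map_neg, map_sum, map_mul, map_sub, map_pow]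

open Classical in
/-- extension by zero -/
noncomputable def UTA2_ext {A R : Type} [Zero R] (p : A → Prop) (w : {a // p a} → R) : A → R :=
  fun a => if h : p a then w ⟨a, h⟩ else 0

theorem UTA2_ext_pos {A R : Type} [Zero R] {p : A → Prop} (w : {a // p a} → R) (a : {a // p a}) :
    UTA2_ext p w a.1 = w a := dif_pos a.2

theorem UTA2_ext_neg {A R : Type} [Zero R] {p : A → Prop} (w : {a // p a} → R) {a : A}
    (h : ¬ p a) : UTA2_ext p w a = 0 := dif_neg h

theorem UTA2_ext_res {A R : Type} [Zero R] {p : A → Prop} (x : A → R) (h : ∀ a, ¬ p a → x a = 0)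
    (a : A) : UTA2_ext p (fun s => x s.1) a = x a := by
  by_cases ha : p a
  · exact dif_pos ha
  · rw [UTA2_ext_neg _ ha, h a ha]

theorem UTA2_ext_map {A R R' : Type} [CommRing R] [CommRing R'] [Algebra k R] [Algebra k R']
    (f : R →ₐ[k] R') {p : A → Prop} (w : {a // p a} → R) (a : A) :
    f (UTA2_ext p w a) = UTA2_ext p (fun s => f (w s)) a := by
  by_cases ha : p a
  · exact (congrArg f (UTA2_ext_pos w ⟨a, ha⟩)).trans
      (UTA2_ext_pos (fun s => f (w s)) ⟨a, ha⟩).symm
  · rw [UTA2_ext_neg _ ha, UTA2_ext_neg _ ha, map_zero]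

open Classical in
/-- the coefficients of the equations -/
noncomputable def UTA2_b (F : Type) [Field F] {I J C : Type} (i : I) (j : J) (a : I × C)
    (s : J × C) : F := if a.1 = i ∧ s = (j, a.2) then -1 else 0

open Classical in
/-- additional rows -/
noncomputable def UTA2_mat {A ι : Type} (p : A → Prop) (D : Matrix ι A F) :
    Matrix (ι ⊕ {a // p a}) A F :=
  Matrix.of (Sum.elim D fun (s : {a // p a}) a => if a = s.1 then (1 : F) else 0)

omit [Fintype F] in
theorem UTA2_sum [Algebra F k] [Fintype I] {R : Type} [CommRing R] [Algebra k R]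
    (p : J × C → Prop) [Fintype {a // p a}] (w : {a // p a} → R) (g : I × C → R) (i : I) (j : J) :
    ∑ a : I × C, (∑ s : {a // p a}, cF k R (UTA2_b F i j a s.1) * w s) * g a =
      -∑ c, UTA2_ext p w (j, c) * g (i, c) := by
  classical
  have h1 : ∀ c, ∑ s : {a // p a}, (if s.1 = (j, c) then (-1 : R) else 0) * w s =
      -UTA2_ext p w (j, c) := by
    intro c
    by_cases h : p (j, c)
    · rw [Finset.sum_eq_single ⟨(j, c), h⟩, if_pos rfl, neg_one_mul,
        UTA2_ext_pos w ⟨(j, c), h⟩]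
      · intro s _ hs
        rw [if_neg fun e => hs (Subtype.ext e), zero_mul]
      · exact fun h => absurd (Finset.mem_univ _) h
    · rw [UTA2_ext_neg w h, neg_zero]
      refine Finset.sum_eq_zero fun s _ => ?_
      rw [if_neg fun e : s.1 = (j, c) => h (e ▸ s.2), zero_mul]
  rw [Fintype.sum_prod_type, Finset.sum_eq_single i, ← Finset.sum_neg_distrib]
  · refine Finset.sum_congr rfl fun c _ => ?_
    rw [← neg_mul, ← h1]
    congr 1
    refine Finset.sum_congr rfl fun s _ => ?_
    simp only [UTA2_b, true_and, apply_ite (cF k R), map_neg, map_one, map_zero]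
  · intro i' _ hi
    refine Finset.sum_eq_zero fun c _ => mul_eq_zero_of_left (Finset.sum_eq_zero fun s _ => ?_) _
    rw [UTA2_b, if_neg fun e => hi e.1, map_zero, zero_mul]
  · exact fun h => absurd (Finset.mem_univ _) h

omit [Fintype F] in
theorem UTA2_rows [Algebra F k] {A ι R : Type} [Fintype A] [CommRing R] [Algebra k R]
    (p : A → Prop) (D : Matrix ι A F) (d : ι → F) (m : A → R) :
    rm k R (UTA2_mat p D) *ᵥ m = rv k R (Sum.elim d fun _ => 0) ↔
      rm k R D *ᵥ m = rv k R d ∧ ∀ a, p a → m a = 0 := by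
  classical
  have h1 : ∀ s : {a // p a}, (rm k R (UTA2_mat p D) *ᵥ m) (Sum.inr s) = m s.1 := by
    intro s
    change ∑ a, cF k R (if a = s.1 then (1 : F) else 0) * m a = _
    simp only [apply_ite (cF k R), map_one, map_zero, ite_mul, one_mul, zero_mul,
      Finset.sum_ite_eq', Finset.mem_univ, if_true]
  rw [funext_iff, Sum.forall, funext_iff]
  refine and_congr Iff.rfl ⟨fun h a ha => ?_, fun h s => ?_⟩
  · exact (h1 ⟨a, ha⟩).symm.trans ((h ⟨a, ha⟩).trans (map_zero (cF k R)))
  · exact (h1 s).trans ((h s.1 s.2).trans (map_zero (cF k R)).symm)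

/-- the type A variety with rational affine conditions on `m` -/
theorem ta2 [Algebra F k] [Fintype I] [Fintype J] {ι : Type} [Fintype ι] (su : J → C → Prop)
    (sm : I → C → Prop) (sn : I → J → Prop) (D : Matrix ι (I × C) F) (d : ι → F) :
    VanS (fun Ω _ _ z => WA k F su sm sn Ω z ∧
      rm k Ω D *ᵥ (fun a => z (Sum.inr (Sum.inl a))) = rv k Ω d : Fam k (ZI I J C)) := by
  classical
  have h := ta1 (k := k) (U := {a : J × C // su a.1 a.2}) (M := I × C)
    (N := {a : I × J // sn a.1 a.2})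
    (fun n a s => UTA2_b F n.1.1 n.1.2 a s.1)
    (UTA2_mat (fun a : I × C => ¬ sm a.1 a.2) D) (Sum.elim d fun _ => 0)
  refine (isCls_van k).iso'
    (Φ := fun _ _ _ y => Sum.elim (UTA2_ext (fun a : J × C => su a.1 a.2) fun s => y (Sum.inl s))
      (Sum.elim (fun a => y (Sum.inr (Sum.inl a)))
        (UTA2_ext (fun a : I × J => sn a.1 a.2) fun s => y (Sum.inr (Sum.inr s)))))
    (Ψ := fun _ _ _ x t => x (Sum.map Subtype.val (Sum.map id Subtype.val) t))
    ?_ (isNat_pre _) ?_ h ?_ ?_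
  · intro R R' _ _ _ _ f y a
    rcases a with a | a | a
    · exact UTA2_ext_map (p := fun a : J × C => su a.1 a.2) f (fun s => y (Sum.inl s)) a
    · rfl
    · exact UTA2_ext_map (p := fun a : I × J => sn a.1 a.2) f (fun s => y (Sum.inr (Sum.inr s))) a
  · have n1 : IsNat (fun R _ _ z => rm k R D *ᵥ fun a => z (Sum.inr (Sum.inl a)) :
        PMap k (ZI I J C) ι) := by
      intro R R' _ _ _ _ f y a
      simp [mulVec, dotProduct, rm, cF]
    have n2 : IsNat (fun R _ _ _ => rv k R d : PMap k (ZI I J C) ι) := by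
      intro R R' _ _ _ _ f y a
      simp [rv, cF]
    exact IsCl.and (isCl_wa su sm sn) (isCl_veq n1 n2)
  · rintro Ω _ _ y ⟨h1, h2⟩
    obtain ⟨h3, h4⟩ := (UTA2_rows (fun a : I × C => ¬ sm a.1 a.2) D d _).1 h1
    refine ⟨⟨⟨fun j c hn => UTA2_ext_neg (p := fun a : J × C => su a.1 a.2) (a := (j, c))
        (fun s => y (Sum.inl s)) hn,
      fun i c hn => h4 (i, c) hn,
      fun i j hn => UTA2_ext_neg (p := fun a : I × J => sn a.1 a.2) (a := (i, j))
        (fun s => y (Sum.inr (Sum.inr s))) hn,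
      fun i j hn => ?_⟩, h3⟩, ?_⟩
    · have h5 := h2 ⟨(i, j), hn⟩
      rw [UTA2_sum] at h5
      have h6 := UTA2_ext_pos (p := fun a : I × J => sn a.1 a.2)
        (fun s => y (Sum.inr (Sum.inr s))) ⟨(i, j), hn⟩
      rw [← h6] at h5
      exact h5
    · funext t
      rcases t with s | a | s
      · exact UTA2_ext_pos (fun s => y (Sum.inl s)) s
      · rfl
      · exact UTA2_ext_pos (fun s => y (Sum.inr (Sum.inr s))) s
  · rintro Ω _ _ x ⟨⟨h1, h2, h3, h4⟩, h5⟩
    have e1 := UTA2_ext_res (p := fun a : J × C => su a.1 a.2) (fun a => x (Sum.inl a))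
      fun a => h1 a.1 a.2
    refine ⟨⟨(UTA2_rows (fun a : I × C => ¬ sm a.1 a.2) D d _).2 ⟨h5, fun a => h2 a.1 a.2⟩, fun n => ?_⟩, ?_⟩
    · rw [UTA2_sum]
      refine (h4 n.1.1 n.1.2 n.2).trans ?_
      congr 1
      exact Finset.sum_congr rfl fun c _ => congrArg (· * _) (e1 _).symm
    · funext a
      rcases a with a | a | a
      · exact e1 a
      · rfl
      · exact UTA2_ext_res (p := fun a : I × J => sn a.1 a.2) (fun a => x (Sum.inr (Sum.inr a)))
          (fun a => h3 a.1 a.2) a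

theorem ta3 [Algebra F k] [Fintype I] [Fintype J] (su : J → C → Prop)
    (sm : I → C → Prop) (sn : I → J → Prop) : VanS (WA k F su sm sn) := by
  refine (isCls_van k).congr (ta2 (k := k) (ι := Empty) su sm sn (0 : Matrix Empty (I × C) F)
    fun _ => 0) fun Ω _ _ z => ?_
  exact ⟨fun h => ⟨h, funext fun e => e.elim⟩, fun h => h.1⟩

end Pool.Agent.MP_c1eb4d_ag
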