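import Pool.Agent.MP_c1eb4d_ag.UFF
import Pool.Agent.MP_a9d3bd_ag.NF

open Function TensorProduct Matrix

namespace Pool.Agent.MP_c1eb4d_ag

open Pool.Agent.MP_a9d3bd_ag

variable {F σ : Type} [Field F] [Fintype F] [Fintype σ] [DecidableEq σ] {q : ℕ}

omit [Fintype F] [DecidableEq σ] in
theorem UWitt0_entry {ι : Type} (N : Matrix σ σ F) {G : Matrix σ ι F} {b : ι → σ → F}
    (h : ∀ a i, G a i = b i a) (i j : ι) :
    ((G.map (· ^ q))ᵀ * N * G) i j = (fun a => b i a ^ q) ⬝ᵥ N *ᵥ b j := by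
  rw [Matrix.mul_assoc]
  simp [Matrix.mul_apply, dotProduct, mulVec, h]

omit [DecidableEq σ] in
theorem UWitt0_conj (hq : Fintype.card F = q ^ 2) {N : Matrix σ σ F}
    (hN : ∀ a b, N a b ^ q = N b a) (x y : σ → F) :
    ((fun a => x a ^ q) ⬝ᵥ N *ᵥ y) ^ q = (fun a => y a ^ q) ⬝ᵥ N *ᵥ x := by
  obtain ⟨φ, hφ⟩ := ff_conj hq
  rw [← hφ]
  simp only [dotProduct, mulVec, map_sum, map_mul, Finset.mul_sum]
  simp only [hφ, ff_qq hq, hN]
  rw [Finset.sum_comm]
  exact Finset.sum_congr rfl fun a _ => Finset.sum_congr rfl fun b _ => by ring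

omit [DecidableEq σ] in
theorem UWitt0_sub (hq : Fintype.card F = q ^ 2) (x y z : σ → F) (t : F) :
    (fun a => (x - t • y) a ^ q) ⬝ᵥ z =
      (fun a => x a ^ q) ⬝ᵥ z - t ^ q * (fun a => y a ^ q) ⬝ᵥ z := by
  obtain ⟨φ, hφ⟩ := ff_conj hq
  simp only [dotProduct, Pi.sub_apply, Pi.smul_apply, smul_eq_mul, ← hφ, map_sub, map_mul,
    Finset.mul_sum, ← Finset.sum_sub_distrib]
  exact Finset.sum_congr rfl fun a _ => by ring

omit [Fintype σ] in
theorem UWitt0_single (hq : Fintype.card F = q ^ 2) (a : σ) (c : F) :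
    (fun s => (Pi.single a c : σ → F) s ^ q) = Pi.single a (c ^ q) := by
  have h := ff_two_le hq
  funext s
  by_cases hs : s = a
  · rw [hs, Pi.single_eq_same, Pi.single_eq_same]
  · rw [Pi.single_eq_of_ne hs, Pi.single_eq_of_ne hs, zero_pow (by omega)]

/-- the index bijection -/
def UWitt0_eq (n : ℕ) : Option (Option (Fin n)) ≃ Bool ⊕ Fin n where
  toFun x := x.elim (Sum.inl false) fun y => y.elim (Sum.inl true) Sum.inr
  invFun := Sum.elim (fun s => bif s then some none else none) fun i => some (some i)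
  left_inv := by rintro (_ | _ | _) <;> rfl
  right_inv := by rintro ((_ | _) | _) <;> rfl

/-- a vector in the radical is split off -/
theorem witt_rad (hq : Fintype.card F = q ^ 2) (N : Matrix σ σ F) (hN : ∀ a b, N a b ^ q = N b a)
    (v : σ → F) (hv : v ≠ 0) (h : N *ᵥ v = 0) :
    ∃ (n : ℕ) (G : Matrix σ (Option (Fin n)) F) (G' : Matrix (Option (Fin n)) σ F),
      G * G' = 1 ∧ G' * G = 1 ∧ n + 1 = Fintype.card σ ∧
      ∀ a, ((G.map (· ^ q))ᵀ * N * G) none a = 0 ∧ ((G.map (· ^ q))ᵀ * N * G) a none = 0 := by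
  have h2 := ff_two_le hq
  obtain ⟨a, ha⟩ := Function.ne_iff.mp hv
  obtain ⟨n, b, b1, -⟩ := NF_one ((v a)⁻¹ • LinearMap.proj a : (σ → F) →ₗ[F] F) v
    (by simpa using inv_mul_cancel₀ ha)
  obtain ⟨G, G', g1, g2, g3⟩ := nf_basis b
  refine ⟨n, G, G', g1, g2, by simpa using NF_card b, fun i => ⟨?_, ?_⟩⟩
  · rw [UWitt0_entry N g3, ← UWitt0_conj hq hN, b1, h, dotProduct_zero, zero_pow (by omega)]
  · rw [UWitt0_entry N g3, b1, h, dotProduct_zero]

/-- a hyperbolic plane is split off -/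
theorem witt_hyp (hq : Fintype.card F = q ^ 2) (N : Matrix σ σ F) (hN : ∀ a b, N a b ^ q = N b a)
    (v : σ → F) (h0 : (fun a => v a ^ q) ⬝ᵥ N *ᵥ v = 0) (h : N *ᵥ v ≠ 0) :
    ∃ (n : ℕ) (G : Matrix σ (Bool ⊕ Fin n) F) (G' : Matrix (Bool ⊕ Fin n) σ F)
      (N' : Matrix (Fin n) (Fin n) F), G * G' = 1 ∧ G' * G = 1 ∧ n + 2 = Fintype.card σ ∧
      (G.map (· ^ q))ᵀ * N * G =
        Matrix.fromBlocks (Matrix.of fun s t : Bool => if s = t then 0 else 1) 0 0 N' := by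
  have h2 := ff_two_le hq
  obtain ⟨a, ha⟩ := Function.ne_iff.mp h
  obtain ⟨y, hy⟩ : ∃ y : σ → F, (fun a => y a ^ q) ⬝ᵥ N *ᵥ v = 1 :=
    ⟨Pi.single a ((N *ᵥ v) a)⁻¹ ^ q, by
      have e : (Pi.single a ((N *ᵥ v) a)⁻¹ ^ q : σ → F) = Pi.single a (((N *ᵥ v) a)⁻¹ ^ q) :=
        UWitt0_single hq a _
      rw [e, UWitt0_single hq, ff_qq hq, single_dotProduct, inv_mul_cancel₀ ha]⟩
  have hy' : (fun a => v a ^ q) ⬝ᵥ N *ᵥ y = 1 := by rw [← UWitt0_conj hq hN, hy, one_pow]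
  obtain ⟨t, ht⟩ := ff_trace hq (UWitt0_conj hq hN y y)
  obtain ⟨w, w1, w2⟩ : ∃ w : σ → F, (fun a => w a ^ q) ⬝ᵥ N *ᵥ v = 1 ∧
      (fun a => w a ^ q) ⬝ᵥ N *ᵥ w = 0 := by
    refine ⟨y - t • v, ?_, ?_⟩
    · rw [UWitt0_sub hq, hy, h0, mul_zero, sub_zero]
    · rw [UWitt0_sub hq]
      simp only [mulVec_sub, mulVec_smul, dotProduct_sub, dotProduct_smul, smul_eq_mul, hy, hy', h0]
      linear_combination -ht
  have w3 : (fun a => v a ^ q) ⬝ᵥ N *ᵥ w = 1 := by rw [← UWitt0_conj hq hN, w1, one_pow]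
  obtain ⟨n, b, b1, b2, b3⟩ := NF_two
    ((dotProductBilin F F fun a => w a ^ q).comp N.mulVecLin)
    ((dotProductBilin F F fun a => v a ^ q).comp N.mulVecLin) v w w1 w2 w3
  obtain ⟨G, G', g1, g2, g3⟩ := nf_basis (b.reindex (UWitt0_eq n))
  have c1 : b.reindex (UWitt0_eq n) (Sum.inl false) = v := by
    rw [Module.Basis.reindex_apply]
    exact b1
  have c2 : b.reindex (UWitt0_eq n) (Sum.inl true) = w := by
    rw [Module.Basis.reindex_apply]
    exact b2
  have c3 : ∀ s i, (fun a => b.reindex (UWitt0_eq n) (Sum.inl s) a ^ q) ⬝ᵥ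
      N *ᵥ b.reindex (UWitt0_eq n) (Sum.inr i) = 0 := by
    intro s i
    rw [Module.Basis.reindex_apply _ _ (Sum.inr i)]
    cases s
    · rw [c1]
      exact (b3 i).2
    · rw [c2]
      exact (b3 i).1
  refine ⟨n, G, G', Matrix.of fun i j => ((G.map (· ^ q))ᵀ * N * G) (Sum.inr i) (Sum.inr j),
    g1, g2, by simpa using NF_card b, ?_⟩
  ext i j
  rcases i with s | i <;> rcases j with s' | j
  · rw [UWitt0_entry N g3]
    cases s <;> cases s' <;> simp only [c1, c2, h0, w1, w2, w3] <;> rfl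
  · rw [UWitt0_entry N g3, c3]
    rfl
  · rw [UWitt0_entry N g3, ← UWitt0_conj hq hN, c3, zero_pow (by omega)]
    rfl
  · rfl

omit [DecidableEq σ] in
/-- an anisotropic Hermitian space has dimension at most one -/
theorem witt_aniso (hq : Fintype.card F = q ^ 2) (N : Matrix σ σ F)
    (hN : ∀ a b, N a b ^ q = N b a)
    (h : ∀ v : σ → F, (fun a => v a ^ q) ⬝ᵥ N *ᵥ v = 0 → v = 0) : Subsingleton σ := by
  classical
  refine ⟨fun a b => by_contra fun hab => ?_⟩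
  obtain ⟨φ, hφ⟩ := ff_conj hq
  have hα : N a a ≠ 0 := fun h0 => by
    have h1 := congrFun (h (Pi.single a 1) (by
      rw [UWitt0_single hq, single_dotProduct, mulVec_single_one]
      simp [h0])) a
    simp at h1
  have hN' : ∀ a b, φ (N a b) = N b a := fun a b => (hφ _).trans (hN a b)
  obtain ⟨y, hy⟩ := ff_norm hq (a := (N b a * N a b / N a a - N b b) / N a a) (by
    rw [← hφ]
    simp only [map_div₀, map_sub, map_mul, hN']
    ring)
  have h1 := congrFun (h (Pi.single b 1 - (N a b / N a a - y) • Pi.single a 1) (by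
    rw [UWitt0_sub hq, UWitt0_single hq, UWitt0_single hq, ← hφ (_ - _), pow_succ, ← hφ] at *
    simp only [mulVec_sub, mulVec_smul, mulVec_single_one, single_dotProduct, Pi.sub_apply,
      Pi.smul_apply, smul_eq_mul, map_one, one_mul, col_apply, map_sub, map_div₀, hN']
    have h2 : φ y * y * N a a = N b a * N a b / N a a - N b b := by
      rw [hy, div_mul_cancel₀ _ hα]
    have h3 : N a a * (N a a)⁻¹ = 1 := mul_inv_cancel₀ hα
    linear_combination h2 + (N a b * N b a * (N a a)⁻¹ - N a b * φ y - N b a * y) * h3)) b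
  simp [Ne.symm hab] at h1

omit [DecidableEq σ] in
/-- a congruent matrix is Hermitian -/
theorem witt_herm (hq : Fintype.card F = q ^ 2) (N : Matrix σ σ F) (hN : ∀ a b, N a b ^ q = N b a)
    {τ : Type} (G : Matrix σ τ F) (a b : τ) :
    ((G.map (· ^ q))ᵀ * N * G) a b ^ q = ((G.map (· ^ q))ᵀ * N * G) b a := by
  rw [UWitt0_entry N (b := fun i a => G a i) fun _ _ => rfl,
    UWitt0_entry N (b := fun i a => G a i) fun _ _ => rfl, UWitt0_conj hq hN]

omit [DecidableEq σ] in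
theorem witt_trans (hq : Fintype.card F = q ^ 2) (N : Matrix σ σ F) {τ ρ : Type} [Fintype τ]
    (G : Matrix σ τ F) (H : Matrix τ ρ F) :
    ((G * H).map (· ^ q))ᵀ * N * (G * H) =
      (H.map (· ^ q))ᵀ * ((G.map (· ^ q))ᵀ * N * G) * H := by
  obtain ⟨φ, hφ⟩ := ff_conj hq
  have e : (fun a : F => a ^ q) = φ := funext fun a => (hφ a).symm
  rw [e, Matrix.map_mul, transpose_mul]
  simp only [Matrix.mul_assoc]

end Pool.Agent.MP_c1eb4d_ag
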